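import Pool.Agent.P.MP_0134b7_an.Weight

/-!
The weighted measure, powers of `t` and their convolution products.
-/

open Set Filter Topology MeasureTheory
open scoped ENNReal

namespace Pool.Agent.P.MP_0134b7_an

variable {ω : ℝ → ℝ}

/-- The measure `ω t dt` on the half line. -/
noncomputable def wm (ω : ℝ → ℝ) : Measure ℝ :=
  (volume.restrict (Ioi 0)).withDensity fun t => ENNReal.ofReal (ω t)

theorem RadicalWeight.aem (h : RadicalWeight ω) : AEMeasurable ω (volume.restrict (Ioi 0)) :=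
  (h.cont.mono Ioi_subset_Ici_self).aemeasurable measurableSet_Ioi

theorem RadicalWeight.wnorm_eq (h : RadicalWeight ω) (f : ℝ → ℂ) :
    wnorm ω f = ∫⁻ t, ‖f t‖ₑ ∂wm ω := by
  rw [wm, lintegral_withDensity_eq_lintegral_mul_non_measurable₀ _ h.aem.ennreal_ofReal
    (.of_forall fun _ => ENNReal.ofReal_lt_top), wnorm]
  simp only [Pi.mul_apply, mul_comm]

theorem wm_ac (ω : ℝ → ℝ) : wm ω ≪ volume.restrict (Ioi 0) := withDensity_absolutelyContinuous _ _

theorem RadicalWeight.ac_wm (h : RadicalWeight ω) : volume.restrict (Ioi 0) ≪ wm ω := by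
  refine withDensity_absolutelyContinuous' h.aem.ennreal_ofReal ?_
  filter_upwards [ae_restrict_mem measurableSet_Ioi] with t ht
  exact (ENNReal.ofReal_pos.2 (h.pos t (le_of_lt ht))).ne'

theorem RadicalWeight.memL1_iff (h : RadicalWeight ω) {f : ℝ → ℂ} :
    MemL1 ω f ↔ Integrable f (wm ω) := by
  rw [MemL1, h.wnorm_eq]
  exact ⟨fun h1 => ⟨h1.1.mono_ac (wm_ac ω), h1.2⟩, fun h1 => ⟨h1.1.mono_ac h.ac_wm, h1.2⟩⟩

theorem memL1_of_le {f : ℝ → ℂ} {g : ℝ → ℝ} (hf : AEStronglyMeasurable f (volume.restrict (Ioi 0)))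
    (hg : IntegrableOn g (Ioi 0)) (hle : ∀ t, 0 < t → ‖f t‖ * ω t ≤ g t) : MemL1 ω f := by
  refine ⟨hf, lt_of_le_of_lt ?_ hg.2⟩
  refine setLIntegral_mono' measurableSet_Ioi fun t ht => ?_
  rw [← ofReal_norm, ← ENNReal.ofReal_mul (norm_nonneg _)]
  exact (ENNReal.ofReal_le_ofReal (hle t ht)).trans (Real.ofReal_le_enorm _)

/-- The function `t ^ (s - 1)`. -/
noncomputable def pw (s t : ℝ) : ℂ := ((t ^ (s - 1) : ℝ) : ℂ)

theorem pw_meas (s : ℝ) : Measurable (pw s) := by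
  unfold pw
  fun_prop

theorem norm_pw (s : ℝ) {t : ℝ} (ht : 0 < t) : ‖pw s t‖ = t ^ (s - 1) := by
  rw [pw, Complex.norm_real, Real.norm_of_nonneg (by positivity)]

theorem int_pw {s : ℝ} (hs : 0 < s) (K : ℝ) :
    IntegrableOn (fun t => t ^ (s - 1) * (K * Real.exp (-(1 * t)))) (Ioi 0) := by
  refine ((Real.GammaIntegral_convergent hs).const_mul K).congr (.of_forall fun t => ?_)
  simp only [one_mul]
  ring

theorem RadicalWeight.memL1_pw (h : RadicalWeight ω) {s : ℝ} (hs : 0 < s) : MemL1 ω (pw s) := by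
  obtain ⟨K, -, hK⟩ := h.exp_bound 1
  refine memL1_of_le (pw_meas s).aestronglyMeasurable (int_pw hs K) fun t ht => ?_
  rw [norm_pw s ht]
  exact mul_le_mul_of_nonneg_left (hK t ht.le) (by positivity)

/-- Linear combinations of the functions `t ^ (k * a - 1)`, `k ≥ 1`, are dense. -/
def Dn (ω : ℝ → ℝ) (a : ℝ) : Prop :=
  ∀ h, MemL1 ω h → ∀ ε : ℝ≥0∞, 0 < ε → ∃ (n : ℕ) (c : ℕ → ℂ),
    wnorm ω (fun t => h t - ∑ k ∈ Finset.range n, c k * pw ((k + 1) * a) t) < ε

theorem wnorm_congr {f g : ℝ → ℂ} (h : f =ᵐ[volume.restrict (Ioi 0)] g) : wnorm ω f = wnorm ω g :=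
  lintegral_congr_ae (h.mono fun t ht => by simp only [ht])

theorem conv_congr {f f' g g' : ℝ → ℂ} (hf : f =ᵐ[volume.restrict (Ioi 0)] f')
    (hg : g =ᵐ[volume.restrict (Ioi 0)] g') {t : ℝ} (ht : 0 < t) : conv f g t = conv f' g' t := by
  have h1 := (ae_restrict_iff' measurableSet_Ioi).1 hf
  have h2 := (ae_restrict_iff' measurableSet_Ioi).1 hg
  refine intervalIntegral.integral_congr_ae ?_
  filter_upwards [(Measure.measurePreserving_sub_left volume t).quasiMeasurePreserving.ae h1, h2,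
    Measure.ae_ne volume t] with s h1 h2 h3 hs
  rw [uIoc_of_le ht.le] at hs
  rw [h1 (sub_pos.2 (hs.2.lt_of_ne h3)), h2 hs.1]

/-- The function `t ^ (s - 1) / Γ s`. -/
noncomputable def us (s t : ℝ) : ℂ := (Complex.Gamma s)⁻¹ * pw s t

theorem gamma_ne {s : ℝ} (hs : 0 < s) : Complex.Gamma s ≠ 0 :=
  Complex.Gamma_ne_zero_of_re_pos (by simpa using hs)

theorem conv_us {r s t : ℝ} (hr : 0 < r) (hs : 0 < s) (ht : 0 < t) :
    conv (us r) (us s) t = us (r + s) t := by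
  have h1 : conv (us r) (us s) t = (Complex.Gamma r)⁻¹ * (Complex.Gamma s)⁻¹ *
      ∫ x in (0 : ℝ)..t, (x : ℂ) ^ ((s : ℂ) - 1) * ((t : ℂ) - x) ^ ((r : ℂ) - 1) := by
    rw [conv, ← intervalIntegral.integral_const_mul]
    refine intervalIntegral.integral_congr fun x hx => ?_
    rw [uIcc_of_le ht.le] at hx
    simp only [us, pw]
    rw [Complex.ofReal_cpow hx.1, Complex.ofReal_cpow (sub_nonneg.2 hx.2)]
    push_cast
    ring
  have h2 := Complex.Gamma_mul_Gamma_eq_betaIntegral (s := s) (t := r) (by simpa using hs)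
    (by simpa using hr)
  have h3 := gamma_ne (add_pos hr hs)
  have h4 := gamma_ne hr
  have h5 := gamma_ne hs
  rw [h1, Complex.betaIntegral_scaled _ _ ht, us, pw, Complex.ofReal_cpow ht.le]
  push_cast at h3 ⊢
  rw [add_comm (s : ℂ)] at h2 ⊢
  field_simp
  linear_combination (-(t : ℂ) ^ ((r : ℂ) + s - 1)) * h2

theorem convPow_us {a : ℝ} (ha : 0 < a) (k : ℕ) {t : ℝ} (ht : 0 < t) :
    convPow (us a) k t = us ((k + 1) * a) t := by
  induction k generalizing t with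
  | zero => simp [convPow]
  | succ k ih =>
    rw [convPow, conv_congr (.refl _ _) (g' := us ((k + 1) * a))
      ((ae_restrict_mem measurableSet_Ioi).mono fun s hs => ih hs) ht,
      conv_us ha (by positivity) ht]
    congr 1
    push_cast
    ring

theorem RadicalWeight.memL1_us (h : RadicalWeight ω) {s : ℝ} (hs : 0 < s) : MemL1 ω (us s) :=
  h.memL1_iff.2 ((h.memL1_iff.1 (h.memL1_pw hs)).const_mul _)

theorem RadicalWeight.gen_us (h : RadicalWeight ω) {a : ℝ} (ha : 0 < a) :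
    IsPolyGen ω (us a) ↔ Dn ω a := by
  have hk : ∀ k : ℕ, Complex.Gamma (((k + 1) * a : ℝ) : ℂ) ≠ 0 := fun k =>
    gamma_ne (by positivity)
  refine ⟨fun hg f hf ε hε => ?_, fun hg => ⟨h.memL1_us ha, fun f hf ε hε => ?_⟩⟩
  · obtain ⟨n, c, hc⟩ := hg.2 f hf ε hε
    refine ⟨n, fun k => c k * (Complex.Gamma (((k + 1) * a : ℝ) : ℂ))⁻¹, lt_of_eq_of_lt
      (wnorm_congr ((ae_restrict_mem measurableSet_Ioi).mono fun t ht => ?_)) hc⟩
    simp only [convPow_us ha _ ht, us, mul_assoc]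
  · obtain ⟨n, c, hc⟩ := hg f hf ε hε
    refine ⟨n, fun k => c k * Complex.Gamma (((k + 1) * a : ℝ) : ℂ), lt_of_eq_of_lt
      (wnorm_congr ((ae_restrict_mem measurableSet_Ioi).mono fun t ht => ?_)) hc⟩
    simp only [convPow_us ha _ ht, us, mul_assoc, mul_inv_cancel_left₀ (hk _)]

end Pool.Agent.P.MP_0134b7_an
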