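import Pool.Agent.P.MP_0134b7_an.Base

/-!
Convolution on the line of functions that vanish on the negative half line.
-/

open Set Filter Topology MeasureTheory
open scoped ENNReal

namespace Pool.Agent.P.MP_0134b7_an

variable {ω : ℝ → ℝ} {φ ψ : ℝ → ℝ≥0∞} {f f' g g' k : ℝ → ℂ}

open Classical in
/-- The weight extended by infinity. -/
noncomputable def WW (ω : ℝ → ℝ) : ℝ → ℝ≥0∞ :=
  (Ioi 0).piecewise (fun t => ENNReal.ofReal (ω t)) fun _ => ∞

theorem WW_pos {t : ℝ} (ht : 0 < t) : WW ω t = ENNReal.ofReal (ω t) :=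
  piecewise_eq_of_mem _ _ _ ht

theorem WW_neg {t : ℝ} (ht : ¬0 < t) : WW ω t = ∞ := piecewise_eq_of_notMem _ _ _ ht

theorem RadicalWeight.WW_meas (h : RadicalWeight ω) : Measurable (WW ω) :=
  (ENNReal.continuous_ofReal.comp_continuousOn
    (h.cont.mono Ioi_subset_Ici_self)).measurable_piecewise continuousOn_const measurableSet_Ioi

theorem RadicalWeight.WW_ne (h : RadicalWeight ω) (t : ℝ) : WW ω t ≠ 0 := by
  by_cases ht : 0 < t
  · rw [WW_pos ht]
    exact (ENNReal.ofReal_pos.2 (h.pos t ht.le)).ne'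
  · rw [WW_neg ht]
    exact ENNReal.top_ne_zero

theorem RadicalWeight.WW_add (h : RadicalWeight ω) (s t : ℝ) :
    WW ω (s + t) ≤ WW ω s * WW ω t := by
  by_cases hs : 0 < s
  · by_cases ht : 0 < t
    · rw [WW_pos hs, WW_pos ht, WW_pos (add_pos hs ht), ← ENNReal.ofReal_mul (h.pos s hs.le).le]
      exact ENNReal.ofReal_le_ofReal (h.submul s t hs.le ht.le)
    · rw [WW_neg ht, ENNReal.mul_top (h.WW_ne s)]
      exact le_top
  · rw [WW_neg hs, ENNReal.top_mul (h.WW_ne t)]
    exact le_top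

/-- The weighted integral. -/
noncomputable def MM (ω : ℝ → ℝ) (φ : ℝ → ℝ≥0∞) : ℝ≥0∞ := ∫⁻ t, φ t * WW ω t

/-- Convolution of nonnegative functions. -/
noncomputable def lc (φ ψ : ℝ → ℝ≥0∞) (t : ℝ) : ℝ≥0∞ := ∫⁻ s, φ (t - s) * ψ s

theorem lc_meas (hφ : Measurable φ) (hψ : Measurable ψ) : Measurable (lc φ ψ) :=
  Measurable.lintegral_prod_right (f := fun t s => φ (t - s) * ψ s) (by fun_prop)

theorem RadicalWeight.MM_lc (h : RadicalWeight ω) (hφ : Measurable φ) (hψ : Measurable ψ) :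
    MM ω (lc φ ψ) ≤ MM ω φ * MM ω ψ := by
  have hW := h.WW_meas
  calc MM ω (lc φ ψ) ≤ ∫⁻ t, ∫⁻ s, φ (t - s) * WW ω (t - s) * (ψ s * WW ω s) :=
        lintegral_mono fun t => (lintegral_mul_const_le _ _).trans (lintegral_mono fun s => by
          beta_reduce
          rw [mul_mul_mul_comm]
          exact mul_le_mul_right (by simpa using h.WW_add (t - s) s) _)
    _ = ∫⁻ s, ∫⁻ t, φ (t - s) * WW ω (t - s) * (ψ s * WW ω s) :=
        lintegral_lintegral_swap (by fun_prop)
    _ = _ := by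
        rw [MM, MM, ← lintegral_const_mul _ (hψ.fun_mul hW)]
        refine lintegral_congr fun s => ?_
        rw [lintegral_mul_const _ (by fun_prop),
          lintegral_sub_right_eq_self (fun t => φ t * WW ω t) s]

theorem RadicalWeight.ae_lt (h : RadicalWeight ω) (hφ : Measurable φ) (hM : MM ω φ ≠ ∞) :
    ∀ᵐ t, φ t < ∞ ∧ (¬0 < t → φ t = 0) :=
  (ae_lt_top (hφ.mul h.WW_meas) hM).mono fun t ht =>
    ⟨ENNReal.lt_top_of_mul_ne_top_left ht.ne (h.WW_ne t), fun h0 => by
      by_contra h1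
      rw [Pi.mul_apply, WW_neg h0, ENNReal.mul_top h1] at ht
      exact ht.false⟩

theorem MM_eq (h0 : ∀ᵐ t, ¬0 < t → f t = 0) : MM ω (fun t => ‖f t‖ₑ) = wnorm ω f := by
  rw [wnorm, ← lintegral_indicator measurableSet_Ioi]
  refine lintegral_congr_ae (h0.mono fun t ht => ?_)
  by_cases h1 : 0 < t
  · simp only [WW_pos h1, indicator_of_mem (mem_Ioi.2 h1)]
  · simp [ht h1, h1]

/-- Convolution on the line. -/
noncomputable def cv (f g : ℝ → ℂ) (t : ℝ) : ℂ := ∫ s, f (t - s) * g s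

theorem cv_meas (hf : Measurable f) (hg : Measurable g) : Measurable (cv f g) :=
  (StronglyMeasurable.integral_prod_right (f := fun t s => f (t - s) * g s)
    (Measurable.stronglyMeasurable (by fun_prop))).measurable

theorem enorm_cv (f g : ℝ → ℂ) (t : ℝ) :
    ‖cv f g t‖ₑ ≤ lc (fun s => ‖f s‖ₑ) (fun s => ‖g s‖ₑ) t :=
  (enorm_integral_le_lintegral_enorm _).trans_eq (lintegral_congr fun _ => enorm_mul _ _)

theorem cv_congr (hf : f =ᵐ[volume] f') (hg : g =ᵐ[volume] g') : cv f g = cv f' g' :=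
  funext fun t => integral_congr_ae (by
    filter_upwards [(Measure.measurePreserving_sub_left volume t).quasiMeasurePreserving.ae hf,
      hg] with s h1 h2
    rw [h1, h2])

theorem cv_comm (f g : ℝ → ℂ) : cv f g = cv g f := funext fun t => by
  rw [cv, ← integral_sub_left_eq_self _ _ t]
  simp only [sub_sub_cancel, mul_comm, cv]

theorem cv_int (hf : Measurable f) (hg : Measurable g) {t : ℝ}
    (h : lc (fun s => ‖f s‖ₑ) (fun s => ‖g s‖ₑ) t < ∞) : Integrable fun s => f (t - s) * g s :=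
  ⟨Measurable.aestronglyMeasurable (by fun_prop),
    (lintegral_congr fun _ => enorm_mul _ _).trans_lt h⟩

theorem cv_right_comm (hf : Measurable f) (hg : Measurable g) (hk : Measurable k) {t : ℝ}
    (h : lc (lc (fun s => ‖f s‖ₑ) fun s => ‖g s‖ₑ) (fun s => ‖k s‖ₑ) t < ∞) :
    cv (cv f g) k t = cv (cv f k) g t := by
  simp only [cv, ← integral_mul_const]
  rw [integral_integral_swap]
  · simp only [sub_right_comm t, mul_right_comm]
  · refine ⟨Measurable.aestronglyMeasurable (by fun_prop), ?_⟩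
    rw [HasFiniteIntegral, lintegral_prod _ (by fun_prop)]
    refine (lintegral_congr fun y => ?_).trans_lt h
    simp only [Function.uncurry, enorm_mul, lc]
    exact lintegral_mul_const' _ _ enorm_ne_top

theorem cv_eq (hf : ∀ᵐ t, ¬0 < t → f t = 0) (hg : ∀ᵐ t, ¬0 < t → g t = 0) {t : ℝ} (ht : 0 < t) :
    cv f g t = conv f g t := by
  rw [conv, intervalIntegral.integral_of_le ht.le, cv]
  refine (setIntegral_eq_integral_of_ae_compl_eq_zero ?_).symm
  filter_upwards [(Measure.measurePreserving_sub_left volume t).quasiMeasurePreserving.ae hf, hg]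
    with s h1 h2 h3
  by_cases h4 : 0 < s
  · rw [h1 fun h5 => h3 ⟨h4, by linarith⟩, zero_mul]
  · rw [h2 h4, mul_zero]

/-- The norms of the scale. -/
noncomputable def NN (ω : ℝ → ℝ) (C : ℝ) (f : ℝ → ℂ) : ℝ≥0∞ :=
  MM (fun t => ω t * Real.exp (C * t)) fun t => ‖f t‖ₑ

theorem NN_congr {C : ℝ} (h : f =ᵐ[volume] g) : NN ω C f = NN ω C g :=
  lintegral_congr_ae (h.mono fun t ht => by simp only [ht])

theorem RadicalWeight.NN_add (h : RadicalWeight ω) (C : ℝ) (hf : Measurable f) (g : ℝ → ℂ) :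
    NN ω C (f + g) ≤ NN ω C f + NN ω C g := by
  rw [NN, NN, NN, MM, MM, MM, ← lintegral_add_left (hf.enorm.fun_mul (h.shift C).WW_meas)]
  exact lintegral_mono fun t => (mul_le_mul_left (enorm_add_le _ _) _).trans_eq (add_mul _ _ _)

theorem NN_smul (C : ℝ) (c : ℂ) (f : ℝ → ℂ) : NN ω C (c • f) = ‖c‖ₑ * NN ω C f := by
  rw [NN, NN, MM, MM, ← lintegral_const_mul' _ _ enorm_ne_top]
  simp only [Pi.smul_apply, enorm_smul, mul_assoc]

theorem RadicalWeight.NN_cv (h : RadicalWeight ω) (C : ℝ) (hf : Measurable f)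
    (hg : Measurable g) : NN ω C (cv f g) ≤ NN ω C f * NN ω C g :=
  le_trans (lintegral_mono fun t => mul_le_mul_left (enorm_cv f g t) _)
    ((h.shift C).MM_lc hf.enorm hg.enorm)

theorem RadicalWeight.NN_pow (h : RadicalWeight ω) (C : ℝ) {r : ℝ} (hr : 0 < r) (n : ℕ)
    (f : ℝ → ℂ) : NN ω C (fun t => (t : ℂ) ^ n * f t) ≤
      ENNReal.ofReal (n.factorial / r ^ n) * NN ω (C + r) f := by
  rw [NN, NN, MM, MM, ← lintegral_const_mul' _ _ ENNReal.ofReal_ne_top]
  refine lintegral_mono fun t => ?_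
  beta_reduce
  by_cases ht : 0 < t
  · have h1 := Real.pow_div_factorial_le_exp _ (mul_pos hr ht).le n
    have h2 := h.pos t ht.le
    rw [WW_pos ht, WW_pos ht, enorm_mul, mul_right_comm, mul_comm ‖f t‖ₑ, ← mul_assoc,
      ← ofReal_norm, ← ENNReal.ofReal_mul (norm_nonneg _), ← ENNReal.ofReal_mul (by positivity),
      norm_pow, Complex.norm_real, Real.norm_of_nonneg ht.le, add_mul, Real.exp_add]
    refine mul_le_mul_left (ENNReal.ofReal_le_ofReal ?_) _
    rw [div_le_iff₀ (by positivity), mul_pow] at h1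
    rw [div_mul_eq_mul_div, le_div_iff₀ (by positivity)]
    nlinarith [mul_le_mul_of_nonneg_left h1 (mul_pos h2 (Real.exp_pos (C * t))).le]
  · by_cases h1 : f t = 0
    · simp [h1]
    · rw [WW_neg (ω := fun t => ω t * Real.exp ((C + r) * t)) ht,
        ENNReal.mul_top (enorm_ne_zero.2 h1),
        ENNReal.mul_top (ENNReal.ofReal_pos.2 (by positivity)).ne']
      exact le_top

theorem RadicalWeight.NN_mono (h : RadicalWeight ω) {C C' : ℝ} (hC : C ≤ C') (f : ℝ → ℂ) :
    NN ω C f ≤ NN ω C' f := by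
  rcases hC.eq_or_lt with rfl | hC
  · exact le_rfl
  · simpa using h.NN_pow C (sub_pos.2 hC) 0 f

theorem RadicalWeight.NN_tsum (h : RadicalWeight ω) (C : ℝ) {f : ℕ → ℝ → ℂ}
    (hf : ∀ n, Measurable (f n)) : NN ω C (fun t => ∑' n, f n t) ≤ ∑' n, NN ω C (f n) := by
  simp only [NN, MM]
  rw [← lintegral_tsum fun n => ((hf n).enorm.fun_mul (h.shift C).WW_meas).aemeasurable]
  exact lintegral_mono fun t =>
    (mul_le_mul_left enorm_tsum_le_tsum_enorm _).trans_eq ENNReal.tsum_mul_right.symm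

end Pool.Agent.P.MP_0134b7_an
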