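import Pool.Agent.P.MP_0134b7_an.ScaleA

/-!
The homomorphisms `θ k` are automorphisms (Lagrange inversion); transfer of generators.
-/

open Filter Topology Finset
open scoped Nat

set_option linter.unusedSectionVars false

namespace Pool.Agent.P.MP_0134b7_an

/-- Binomial coefficients of `(1 - y) ^ (-s)`. -/
noncomputable def bc (s : ℂ) : ℕ → ℂ
  | 0 => 1
  | n + 1 => bc s n * (s + n) / (n + 1)

theorem bc_succ (s : ℂ) (n : ℕ) : bc s (n + 1) * (n + 1) = bc s n * (s + n) :=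
  div_mul_cancel₀ _ (Nat.cast_add_one_ne_zero n)

theorem bc_le (s : ℂ) (n : ℕ) : ‖bc s n‖ ≤ (‖s‖ + 1) ^ n := by
  induction n with
  | zero => simp [bc]
  | succ n ih =>
    rw [bc, mul_div_assoc, norm_mul, pow_succ]
    refine mul_le_mul ih ?_ (norm_nonneg _) (by positivity)
    rw [norm_div, ← Nat.cast_succ, Complex.norm_natCast, div_le_iff₀ (by positivity)]
    have := norm_add_le s n
    rw [Complex.norm_natCast] at this
    push_cast
    nlinarith [norm_nonneg s, Nat.cast_nonneg (α := ℝ) n]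

variable {S : Type} [CommRing S] [Algebra ℂ S]

/-- Polynomials in `x` are dense for the seminorm `p C`. -/
def Scale.Gen (A : Scale S) (C : ℝ) (x : S) : Prop :=
  ∀ h, ∀ ε : ℝ, 0 < ε → ∃ (n : ℕ) (c : ℕ → ℂ), A.p C (h - ∑ i ∈ range n, c i • x ^ i) < ε

theorem Scale.Gen.mono {A : Scale S} {C C' : ℝ} {x : S} (h : A.Gen C' x) (hC : C ≤ C') :
    A.Gen C x := fun y ε hε => by
  obtain ⟨n, c, h⟩ := h y ε hε
  exact ⟨n, c, (A.mono hC _).trans_lt h⟩

theorem Scale.Gen.smul {A : Scale S} {C : ℝ} {x : S} (h : A.Gen C x) {a : ℂ} (ha : a ≠ 0) :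
    A.Gen C (a • x) := fun y ε hε => by
  obtain ⟨n, c, h⟩ := h y ε hε
  refine ⟨n, fun i => c i * (a ^ i)⁻¹, ?_⟩
  simpa only [smul_pow, smul_smul, inv_mul_cancel_right₀ (pow_ne_zero _ ha)] using h

namespace TScale

variable [TopologicalSpace S] [IsTopologicalRing S] [T3Space S] [ContinuousSMul ℂ S]
  (A : TScale S)

theorem sum_geo (k : S) {c : ℕ → ℂ} {B L : ℝ} (hL : 0 ≤ L) (hc : ∀ n, ‖c n‖ ≤ B * L ^ n) :
    Summable fun n => c n • (-(A.u * k)) ^ n := by
  refine A.summable_nat fun C => ?_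
  have h0 := apply_nonneg (A.p C) k
  obtain ⟨K, hK⟩ := A.nil C (2 * (L * A.p C k) + 1) (by positivity)
  have k0 : 0 ≤ K := by simpa using (apply_nonneg _ _).trans (hK 0)
  have b0 : 0 ≤ B := by simpa using (norm_nonneg _).trans (hc 0)
  refine (summable_geometric_two.mul_left (B * K)).of_nonneg_of_le (fun _ => apply_nonneg _ _)
    fun n => ?_
  rw [map_smul_eq_mul, neg_mul_eq_mul_neg, mul_pow]
  have h1 : A.p C ((-k) ^ n) ≤ A.p C k ^ n := by simpa using A.pow_le C (-k) n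
  refine (mul_le_mul (hc n) ((A.mul C _ _).trans (mul_le_mul (hK n) h1 (apply_nonneg _ _)
    (by positivity))) (apply_nonneg _ _) (by positivity)).trans ?_
  rw [show B * L ^ n * (K / (2 * (L * A.p C k) + 1) ^ n * A.p C k ^ n) =
    B * K * (L * A.p C k / (2 * (L * A.p C k) + 1)) ^ n by rw [div_pow, mul_pow]; ring]
  refine mul_le_mul_of_nonneg_left (pow_le_pow_left₀ (by positivity) ?_ n) (by positivity)
  rw [div_le_iff₀ (by positivity)]
  linarith

/-- The binomial series `(1 + u k) ^ (-s)`. -/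
noncomputable def E (s : ℂ) (k : S) : S := ∑' n, bc s n • (-(A.u * k)) ^ n

theorem hasSum_E (s : ℂ) (k : S) : HasSum (fun n => bc s n • (-(A.u * k)) ^ n) (A.E s k) :=
  (A.sum_geo k (B := 1) (L := ‖s‖ + 1) (by positivity) fun n => by simpa using bc_le s n).hasSum

theorem E_eq (s : ℂ) (k : S) : ∃ w, A.E s k = 1 + A.u * w := by
  have h := (A.sum_geo k (c := fun n => bc s (n + 1)) (B := ‖s‖ + 1) (L := ‖s‖ + 1) (by positivity)
    fun n => by simpa only [pow_succ'] using bc_le s (n + 1)).hasSum.mul_left (-(A.u * k))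
  simp only [mul_smul_comm, ← pow_succ'] at h
  have h2 := (hasSum_nat_add_iff (f := fun n => bc s n • (-(A.u * k)) ^ n) 1).1 h
  generalize ∑' n : ℕ, bc s (n + 1) • (-(A.u * k)) ^ n = F at h2
  refine ⟨-k * F, ((A.hasSum_E s k).unique h2).trans ?_⟩
  rw [sum_range_one, bc, pow_zero, one_smul, add_comm, neg_mul_eq_mul_neg, mul_assoc]

theorem E_ode (s : ℂ) (k : S) :
    (1 + A.u * k) * A.D (A.E s k) = -s • (A.E s k * A.D (A.u * k)) := by
  have hE := A.hasSum_E s k
  have hF := (A.sum_geo k (c := fun n => bc s (n + 1) * (n + 1)) (B := ‖s‖ + 1)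
    (L := (‖s‖ + 1) * 2) (by positivity) fun n => by
      rw [norm_mul, mul_pow, ← mul_assoc, ← pow_succ', ← Nat.cast_succ, Complex.norm_natCast]
      exact mul_le_mul (bc_le s _) (by exact_mod_cast Nat.lt_two_pow_self) (by positivity)
        (by positivity)).hasSum
  generalize ∑' n : ℕ, (bc s (n + 1) * (n + 1)) • (-(A.u * k)) ^ n = F at hF
  have h1 : A.D (A.E s k) = F * A.D (-(A.u * k)) := by
    have a := hF.mul_right (A.D (-(A.u * k)))
    simp only [smul_mul_assoc, mul_smul, ← A.D_pow_succ, ← map_smul] at a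
    have b := (hasSum_nat_add_iff (f := fun n => A.D (bc s n • (-(A.u * k)) ^ n)) 1).1 a
    simpa [A.D_one] using (hE.map A.D A.cont_D).unique b
  have h2 : F - s • A.E s k = -(A.u * k) * F := by
    have a := hF.mul_left (-(A.u * k))
    simp only [mul_smul_comm, ← pow_succ', ← Nat.cast_succ] at a
    have b := (hasSum_nat_add_iff (f := fun n : ℕ => (bc s n * n) • (-(A.u * k)) ^ n) 1).1 a
    have c := hF.sub (hE.const_smul s)
    simp only [bc_succ, smul_smul, ← sub_smul, mul_comm s, ← mul_sub, add_sub_cancel_left] at c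
    simpa using c.unique b
  rw [h1, map_neg, neg_smul, ← smul_mul_assoc]
  linear_combination -A.D (A.u * k) * h2

theorem isUnit (k : S) : ∃ z, (1 + A.u * k) * z = 1 := by
  have h := A.sum_geo k (c := fun _ => 1) (B := 1) (L := 1) zero_le_one (by simp)
  simp only [one_smul] at h
  exact ⟨_, by simpa using h.one_sub_mul_tsum_pow⟩

theorem exists_k {a : ℂ} (ha : a ≠ 0) (k₀ : S) : ∃ k, A.E a k = 1 + A.u * k₀ := by
  obtain ⟨k, hk⟩ := A.E_eq a⁻¹ k₀
  obtain ⟨w, hw⟩ := A.E_eq a k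
  obtain ⟨z, hz⟩ := A.isUnit k
  obtain ⟨y, hy⟩ := A.isUnit k₀
  have o1 := congrArg (a • ·) (A.E_ode a⁻¹ k₀)
  have o2 := A.E_ode a k
  have o3 := congrArg A.D hy
  simp only [hk, map_add, A.D_one, zero_add, smul_smul, mul_neg, mul_inv_cancel₀ ha, neg_smul,
    one_smul, smul_neg] at o1 o2
  rw [Algebra.smul_def] at o1 o2
  rw [A.leib, map_add, A.D_one, zero_add] at o3
  have o4 : A.D (A.E a k * y) = 0 := by
    rw [A.leib]
    linear_combination (exp := 1) (y * y * z * (1 + A.u * k₀)) * o2 - (y * y * z * A.E a k) * o1 +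
      (A.E a k * y) * o3 - (A.E a k * A.D y + y * A.D (A.E a k)) * hy -
      (y * y * (1 + A.u * k₀) * A.D (A.E a k) - y * y * A.E a k * A.D (A.u * k₀)) * hz
  obtain ⟨c, hc⟩ := A.ker _ o4
  have h1 : A.E a k = algebraMap ℂ S c * (1 + A.u * k₀) := by
    rw [← hc, mul_assoc, mul_comm y, hy, mul_one]
  have h2 := congrArg A.χ h1
  simp only [hw, map_add, map_mul, map_one, A.χu, zero_mul, add_zero, mul_one,
    AlgHom.commutes] at h2
  exact ⟨k, by rw [h1, show c = 1 from h2.symm, map_one, one_mul]⟩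

theorem θ_v {a : ℂ} {v : S} (hv : A.D v = a • (v * A.u)) (k : S) : A.θ k v = v * A.E a k := by
  have h1 : ∀ n : ℕ, A.D (A.u ^ n) = (n : ℂ) • A.u ^ (n + 1) := fun n => by
    cases n with
    | zero => simp [A.D_one]
    | succ n => rw [A.D_pow_succ, A.Du, Nat.cast_succ, ← mul_assoc, ← pow_succ, ← pow_succ]
  have h2 : ∀ n : ℕ, (A.D ^ n) v = ((n ! : ℂ) * bc a n) • (v * A.u ^ n) := fun n => by
    induction n with
    | zero => simp [bc]
    | succ n ih =>
      rw [pow_succ', Module.End.mul_apply, ih, map_smul, A.leib, h1, hv, mul_smul_comm,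
        smul_mul_assoc, mul_assoc, ← pow_succ', ← add_smul, smul_smul, Nat.factorial_succ,
        mul_assoc, add_comm (n : ℂ), ← bc_succ]
      congr 1
      push_cast
      ring
  refine HasSum.tsum_eq ?_
  have := (A.hasSum_E a k).mul_left v
  rw [show A.tt k v = fun n => v * (bc a n • (-(A.u * k)) ^ n) from funext fun n => ?_]
  · exact this
  rw [Scale.tt, h2, mul_smul_comm, mul_smul_comm, smul_smul,
    inv_mul_cancel_left₀ (Nat.cast_ne_zero.2 (Nat.factorial_ne_zero n)), neg_mul_eq_mul_neg,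
    mul_pow]
  congr 1
  ring

theorem surj (k h : S) : ∃ g, A.θ k g = h := by
  obtain ⟨ρ, r0, hρ⟩ := A.spec k
  let ξ : ℕ → S := fun n => Nat.casesOn n h fun n =>
    (((n + 1)! : ℕ) : ℂ)⁻¹ • (A.D ^ n) (k ^ (n + 1) * A.D h)
  have h1 : ∀ C, Summable fun n => A.p C (ξ n) := fun C => by
    obtain ⟨M, hM⟩ := hρ (C + 2 * ρ)
    have m0 : 0 ≤ M := by simpa using (apply_nonneg _ _).trans (hM 0)
    refine (summable_nat_add_iff 1).1 ((summable_geometric_two.mul_left
      (M * ρ * A.p (C + 2 * ρ) (A.D h))).of_nonneg_of_le (fun _ => apply_nonneg _ _) fun n => ?_)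
    have a1 := (A.Dle C (2 * ρ) (by positivity) n (k ^ (n + 1) * A.D h)).trans
      (mul_le_mul_of_nonneg_left ((A.mul _ _ _).trans (mul_le_mul_of_nonneg_right (hM (n + 1))
        (apply_nonneg _ _))) (by positivity))
    have a2 : (((n + 1)! : ℕ) : ℝ)⁻¹ ≤ ((n ! : ℕ) : ℝ)⁻¹ :=
      inv_anti₀ (by positivity) (by exact_mod_cast Nat.factorial_le n.le_succ)
    have a3 : ((n ! : ℕ) : ℝ) ≠ 0 := by positivity
    simp only [ξ, map_smul_eq_mul, norm_inv, Complex.norm_natCast]
    refine (mul_le_mul a2 a1 (apply_nonneg _ _) (by positivity)).trans (le_of_eq ?_)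
    rw [mul_pow, one_div, inv_pow]
    field_simp
    ring
  refine ⟨∑' n, ξ n, ?_⟩
  rw [(A.summable_nat h1).map_tsum _ (A.cont_θ k)]
  refine (A.tsum_tsum (f := fun x => A.tt k (ξ x.1) x.2) fun C => ?_).trans ?_
  · refine ((h1 (C + (2 * A.p C k + 1))).mul_of_nonneg summable_geometric_two
      (fun _ => apply_nonneg _ _) fun _ => by positivity).of_nonneg_of_le
      (fun _ => apply_nonneg _ _) fun x => (A.tt_le C k _ _).trans_eq (mul_comm _ _)
  rw [tsum_eq_single 0]
  · simp [Scale.tt, ξ]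
  intro N hN
  obtain ⟨q, rfl⟩ := Nat.exists_eq_succ_of_ne_zero hN
  have l := lag (K := LinearMap.mulLeft ℂ k) (T := A.D) (M := LinearMap.mulLeft ℂ (A.D k))
    (by ext x; simp [A.leib]) (by ext x; simp [mul_left_comm]) q _ q.lt_succ_self
  have e : -LinearMap.mulLeft ℂ k = LinearMap.mulLeft ℂ (-k) := by ext x; simp
  have l2 := congrArg (fun T : Module.End ℂ S => (((q + 1)! : ℕ) : ℂ)⁻¹ • T (A.D h)) l
  simp only [e, LinearMap.sum_apply, LinearMap.pow_mulLeft, LinearMap.smul_apply,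
    Module.End.mul_apply, LinearMap.mulLeft_apply, LinearMap.zero_apply, smul_zero, smul_sum] at l2
  rw [← l2, ← Nat.sum_antidiagonal_swap]
  refine sum_congr rfl fun x hx => ?_
  rw [← Nat.cast_smul_eq_nsmul ℂ, smul_smul, ← fac_inv hx, mul_smul, ← mul_smul_comm]
  have hx' := mem_antidiagonal.1 hx
  obtain ⟨m, n⟩ := x
  simp only [Scale.tt, Prod.fst_swap, Prod.snd_swap]
  congr 2
  cases n with
  | zero =>
    obtain rfl : m = q + 1 := hx'
    simp [ξ, pow_succ]
  | succ n =>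
    obtain rfl : q = m + n := by simp at hx'; omega
    simp only [ξ, map_smul, pow_add A.D m n, Module.End.mul_apply]

theorem comp {k j : S} (hj : A.θ k j = -k) (h : S) : A.θ k (A.θ j h) = h := by
  rw [A.θ_apply j, (A.summable_nat (A.as_tt j h)).map_tsum _ (A.cont_θ k)]
  have e : ∀ m, A.θ k (A.tt j h m) = ∑' n, (m ! : ℂ)⁻¹ • (k ^ m * A.tt k ((A.D ^ m) h) n) :=
    fun m => by
      rw [Scale.tt, map_smul, θ_mul, θ_pow, map_neg, hj, neg_neg, θ_apply,
        ← (A.summable_nat (A.as_tt k _)).tsum_mul_left,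
        ((A.summable_nat (A.as_tt k _)).mul_left _).tsum_const_smul]
  simp only [e]
  refine (A.tsum_tsum (f := fun x => (x.1 ! : ℂ)⁻¹ • (k ^ x.1 * A.tt k ((A.D ^ x.1) h) x.2))
    fun C => ?_).trans ?_
  · obtain ⟨C', hC'⟩ : ∃ C', C' = C + (2 * A.p C k + 1) := ⟨_, rfl⟩
    have hC : C ≤ C' := by linarith [apply_nonneg (A.p C) k]
    refine ((summable_geometric_two.mul_right (A.p (C' + (2 * A.p C' k + 1)) h)).mul_of_nonneg
      summable_geometric_two (fun _ => by positivity) fun _ => by positivity).of_nonneg_of_le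
      (fun _ => apply_nonneg _ _) fun x => ?_
    refine le_trans ?_ (mul_le_mul_of_nonneg_right (A.aux_le C' k h x.1) (by positivity))
    rw [map_smul_eq_mul, mul_assoc, mul_assoc]
    refine mul_le_mul_of_nonneg_left ((A.mul C _ _).trans (mul_le_mul ((A.pow_le C k _).trans
      (pow_le_pow_left₀ (apply_nonneg _ _) (A.mono hC k) _)) ?_ (apply_nonneg _ _)
      (by positivity))) (norm_nonneg _)
    rw [mul_comm, hC']
    exact A.tt_le C k _ _
  rw [tsum_eq_single 0]
  · simp [Scale.tt]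
  intro N hN
  have l := congrArg (fun z => (N ! : ℂ)⁻¹ • (z * (A.D ^ N) h)) ((Commute.all k (-k)).add_pow' N)
  simp only [add_neg_cancel, zero_pow hN, zero_mul, smul_zero, sum_mul, smul_sum] at l
  rw [l]
  refine sum_congr rfl fun x hx => ?_
  rw [Scale.tt, ← Module.End.mul_apply, ← pow_add, add_comm, mem_antidiagonal.1 hx, mul_smul_comm,
    smul_smul, fac_inv hx, mul_smul, Nat.cast_smul_eq_nsmul, smul_mul_assoc, mul_assoc]

theorem inv (k : S) : ∃ j, ∀ h, A.θ j (A.θ k h) = h := by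
  obtain ⟨j, hj⟩ := A.surj k (-k)
  obtain ⟨i, hi⟩ := A.surj j (-j)
  refine ⟨j, fun h => ?_⟩
  rw [← A.comp hi h, A.comp hj]

theorem gen_θ (k : S) {C : ℝ} {x : S} (h : A.Gen (C + (2 * A.p C k + 1)) x) :
    A.Gen C (A.θ k x) := fun y ε hε => by
  obtain ⟨g, rfl⟩ := A.surj k y
  obtain ⟨n, c, h⟩ := h g (ε / 2) (half_pos hε)
  refine ⟨n, c, ?_⟩
  have := A.θ_le C k (g - ∑ i ∈ range n, c i • x ^ i)
  simp only [map_sub, map_sum, map_smul, θ_pow] at this
  linarith

end TScale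

/-- Transfer of generators. -/
theorem Scale.transfer (A : Scale S) {a : ℂ} (ha : a ≠ 0) {v : S} (hv : A.D v = a • (v * A.u))
    (k₀ : S) : ((∀ C, A.Gen C v) → A.Gen 0 (v * (1 + A.u * k₀))) ∧
      (A.Gen 0 (v * (1 + A.u * k₀)) → ∃ C, A.Gen C v) := by
  letI : TopologicalSpace S := (SeminormFamily.moduleFilterBasis A.p).topology
  have hp : WithSeminorms A.p := ⟨rfl⟩
  have := A.isTopologicalRing hp
  have := hp.continuousSMul
  have := hp.T1_of_separating A.sep
  let B : TScale S := ⟨A, hp⟩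
  obtain ⟨k, hk⟩ := B.exists_k ha k₀
  have e : B.θ k v = v * (1 + A.u * k₀) := by rw [B.θ_v hv, hk]
  rw [← e]
  refine ⟨fun h => B.gen_θ k (h _), fun h => ?_⟩
  obtain ⟨j, hj⟩ := B.inv k
  have h0 := apply_nonneg (A.p 0) j
  refine ⟨-(2 * A.p 0 j + 1), ?_⟩
  rw [← hj v]
  refine B.gen_θ j (h.mono ?_)
  linarith [A.mono (by linarith : -(2 * A.p 0 j + 1) ≤ 0) j]

end Pool.Agent.P.MP_0134b7_an
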