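import Pool.Agent.P.MP_0134b7_an.ConvA
import Pool.Agent.P.MP_0134b7_an.ScaleB

/-!
The algebra of the functions that lie in all the spaces `L¹(ω t * exp (C * t))`.
-/

open Set Filter Topology MeasureTheory
open scoped ENNReal

namespace Pool.Agent.P.MP_0134b7_an

variable {ω : ℝ → ℝ}

/-- The classes of functions with finite norms. -/
def LL (h : RadicalWeight ω) : Submodule ℂ (ℝ →ₘ[volume] ℂ) where
  carrier := {x | ∀ C, NN ω C x ≠ ∞}
  add_mem' := fun {x y} hx hy C => by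
    rw [NN_congr (AEEqFun.coeFn_add x y)]
    exact ne_top_of_le_ne_top (ENNReal.add_ne_top.2 ⟨hx C, hy C⟩) (h.NN_add C x.measurable _)
  zero_mem' := fun C => by
    rw [NN_congr AEEqFun.coeFn_zero]
    simp [NN, MM]
  smul_mem' := fun c x hx C => by
    rw [NN_congr (AEEqFun.coeFn_smul c x), NN_smul]
    exact ENNReal.mul_ne_top enorm_ne_top (hx C)

variable {h : RadicalWeight ω} {x y : LL h} {F G : ℝ → ℂ}

/-- A representative. -/
noncomputable def rp (x : LL h) : ℝ → ℂ := x.1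

theorem rp_meas (x : LL h) : Measurable (rp x) := x.1.measurable

theorem rp_ne (x : LL h) (C : ℝ) : NN ω C (rp x) ≠ ∞ := x.2 C

theorem rp_ext (e : rp x =ᵐ[volume] rp y) : x = y := Subtype.ext (AEEqFun.ext e)

theorem rp_add (x y : LL h) : rp (x + y) =ᵐ[volume] rp x + rp y := AEEqFun.coeFn_add _ _

theorem rp_sub (x y : LL h) : rp (x - y) =ᵐ[volume] rp x - rp y := AEEqFun.coeFn_sub _ _

theorem rp_smul (c : ℂ) (x : LL h) : rp (c • x) =ᵐ[volume] c • rp x := AEEqFun.coeFn_smul _ _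

theorem rp_zero : rp (0 : LL h) =ᵐ[volume] 0 := AEEqFun.coeFn_zero

theorem rp_sum (f : ℕ → LL h) (n : ℕ) :
    rp (∑ i ∈ Finset.range n, f i) =ᵐ[volume] fun t => ∑ i ∈ Finset.range n, rp (f i) t := by
  induction n with
  | zero => exact rp_zero
  | succ n ih =>
    simp only [Finset.sum_range_succ]
    exact (rp_add _ _).trans (ih.add .rfl)

theorem rp_neg (x : LL h) : ∀ᵐ t, ¬0 < t → rp x t = 0 :=
  ((h.shift 0).ae_lt (rp_meas x).enorm (rp_ne x 0)).mono fun _ ht h0 => enorm_eq_zero.1 (ht.2 h0)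

/-- The class of a function. -/
noncomputable def mkL (h : RadicalWeight ω) (f : ℝ → ℂ) (hf : AEStronglyMeasurable f volume)
    (hN : ∀ C, NN ω C f ≠ ∞) : LL h :=
  ⟨AEEqFun.mk f hf, fun C => by rw [NN_congr (AEEqFun.coeFn_mk f hf)]; exact hN C⟩

theorem rp_mkL (f : ℝ → ℂ) (hf : AEStronglyMeasurable f volume) (hN : ∀ C, NN ω C f ≠ ∞) :
    rp (mkL h f hf hN) =ᵐ[volume] f := AEEqFun.coeFn_mk f hf

noncomputable instance : Mul (LL h) :=
  ⟨fun x y => mkL h (cv (rp x) (rp y)) (cv_meas (rp_meas x) (rp_meas y)).aestronglyMeasurable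
    fun C => ne_top_of_le_ne_top (ENNReal.mul_ne_top (rp_ne x C) (rp_ne y C))
      (h.NN_cv C (rp_meas x) (rp_meas y))⟩

theorem rp_mul (x y : LL h) : rp (x * y) =ᵐ[volume] cv (rp x) (rp y) := rp_mkL _ _ _

theorem lc_ne (x y : LL h) : MM (fun t => ω t * Real.exp (0 * t))
    (lc (fun s => ‖rp x s‖ₑ) fun s => ‖rp y s‖ₑ) ≠ ∞ :=
  ne_top_of_le_ne_top (ENNReal.mul_ne_top (rp_ne x 0) (rp_ne y 0))
    ((h.shift 0).MM_lc (rp_meas x).enorm (rp_meas y).enorm)

theorem ae_int (x y : LL h) : ∀ᵐ t, Integrable fun s => rp x (t - s) * rp y s :=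
  ((h.shift 0).ae_lt (lc_meas (rp_meas x).enorm (rp_meas y).enorm) (lc_ne x y)).mono fun _ ht =>
    cv_int (rp_meas x) (rp_meas y) ht.1

theorem LL.mul_comm (x y : LL h) : x * y = y * x :=
  rp_ext ((rp_mul x y).trans (cv_comm _ _ ▸ (rp_mul y x).symm))

theorem LL.mul_add (x y z : LL h) : x * (y + z) = x * y + x * z := by
  refine rp_ext ?_
  filter_upwards [rp_mul x (y + z), rp_add (x * y) (x * z), rp_mul x y, rp_mul x z, ae_int x y,
    ae_int x z] with t h1 h2 h3 h4 h5 h6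
  rw [h1, h2, Pi.add_apply, h3, h4, cv_congr .rfl (rp_add y z)]
  simp only [cv, Pi.add_apply, _root_.mul_add]
  exact integral_add h5 h6

theorem LL.mul_smul (c : ℂ) (x y : LL h) : x * (c • y) = c • (x * y) := by
  refine rp_ext ?_
  filter_upwards [rp_mul x (c • y), rp_smul c (x * y), rp_mul x y] with t h1 h2 h3
  rw [h1, h2, Pi.smul_apply, h3, cv_congr .rfl (rp_smul c y)]
  simp only [cv, Pi.smul_apply, smul_eq_mul, mul_left_comm _ c, integral_const_mul]

theorem LL.right_comm (x y z : LL h) : x * y * z = x * z * y := by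
  have h0 := lc_meas (rp_meas x).enorm (rp_meas y).enorm
  refine rp_ext ?_
  filter_upwards [rp_mul (x * y) z, rp_mul (x * z) y,
    (h.shift 0).ae_lt (lc_meas h0 (rp_meas z).enorm) (ne_top_of_le_ne_top
      (ENNReal.mul_ne_top (lc_ne x y) (rp_ne z 0)) ((h.shift 0).MM_lc h0 (rp_meas z).enorm))]
    with t h1 h2 h3
  rw [h1, h2, cv_congr (rp_mul x y) .rfl, cv_congr (rp_mul x z) .rfl]
  exact cv_right_comm (rp_meas x) (rp_meas y) (rp_meas z) h3.1

theorem LL.mul_zero (x : LL h) : x * 0 = 0 := by simpa using LL.mul_smul 0 x 0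

noncomputable instance : NonUnitalCommRing (LL h) where
  left_distrib := LL.mul_add
  right_distrib x y z := by rw [LL.mul_comm, LL.mul_add, LL.mul_comm z, LL.mul_comm z]
  zero_mul x := by rw [LL.mul_comm, LL.mul_zero]
  mul_zero := LL.mul_zero
  mul_assoc x y z := by rw [LL.mul_comm x (y * z), LL.right_comm y, LL.mul_comm y]
  mul_comm := LL.mul_comm

instance : IsScalarTower ℂ (LL h) (LL h) :=
  ⟨fun c x y => by rw [smul_eq_mul, smul_eq_mul, mul_comm, LL.mul_smul, mul_comm]⟩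

instance : SMulCommClass ℂ (LL h) (LL h) := ⟨fun c x y => (LL.mul_smul c x y).symm⟩

/-- The norms. -/
noncomputable def nm (h : RadicalWeight ω) (C : ℝ) : Seminorm ℂ (LL h) :=
  Seminorm.of (fun x => (NN ω C (rp x)).toReal)
    (fun x y => by
      rw [NN_congr (rp_add x y), ← ENNReal.toReal_add (rp_ne x C) (rp_ne y C)]
      exact ENNReal.toReal_mono (ENNReal.add_ne_top.2 ⟨rp_ne x C, rp_ne y C⟩)
        (h.NN_add C (rp_meas x) _))
    fun c x => by rw [NN_congr (rp_smul c x), NN_smul, ENNReal.toReal_mul, toReal_enorm]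

theorem nm_apply (C : ℝ) (x : LL h) : nm h C x = (NN ω C (rp x)).toReal := rfl

theorem nm_mul (C : ℝ) (x y : LL h) : nm h C (x * y) ≤ nm h C x * nm h C y := by
  rw [nm_apply, nm_apply, nm_apply, NN_congr (rp_mul x y), ← ENNReal.toReal_mul]
  exact ENNReal.toReal_mono (ENNReal.mul_ne_top (rp_ne x C) (rp_ne y C))
    (h.NN_cv C (rp_meas x) (rp_meas y))

theorem nm_mono {C C' : ℝ} (hC : C ≤ C') (x : LL h) : nm h C x ≤ nm h C' x :=
  ENNReal.toReal_mono (rp_ne x C') (h.NN_mono hC _)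

theorem nm_sep (e : nm h 0 x = 0) : x = 0 := by
  have h1 := ((ENNReal.toReal_eq_zero_iff _).1 e).resolve_right (rp_ne x 0)
  rw [NN, MM, lintegral_eq_zero_iff ((rp_meas x).enorm.fun_mul (h.shift 0).WW_meas)] at h1
  refine rp_ext (EventuallyEq.trans (h1.mono fun t ht => ?_) rp_zero.symm)
  exact enorm_eq_zero.1 ((mul_eq_zero.1 ht).resolve_right ((h.shift 0).WW_ne t))

theorem nm_complete {f : ℕ → LL h} (hf : ∀ C, Summable fun n => nm h C (f n)) :
    ∃ s, ∀ C, Tendsto (fun N => nm h C (∑ n ∈ Finset.range N, f n - s)) atTop (𝓝 0) := by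
  have h1 : ∀ C, ∑' n, NN ω C (rp (f n)) ≠ ∞ := fun C => by
    simpa only [nm_apply, ENNReal.ofReal_toReal (rp_ne _ _)] using (hf C).tsum_ofReal_ne_top
  have hm : ∀ n, Measurable (rp (f n)) := fun n => rp_meas _
  have h2 : ∀ᵐ t, Summable fun n => rp (f n) t := by
    refine ((h.shift 0).ae_lt (φ := fun t => ∑' n, ‖rp (f n) t‖ₑ) (by fun_prop) ?_).mono
      fun t ht => .of_enorm ht.1.ne
    simp only [MM, ← ENNReal.tsum_mul_right]
    rw [lintegral_tsum fun n => ((hm n).enorm.fun_mul (h.shift 0).WW_meas).aemeasurable]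
    exact h1 0
  refine ⟨mkL h (fun t => ∑' n, rp (f n) t) (Measurable.aestronglyMeasurable (by fun_prop))
    fun C => ne_top_of_le_ne_top (h1 C) (h.NN_tsum C hm), fun C => ?_⟩
  refine (ENNReal.tendsto_toReal ENNReal.zero_ne_top).comp
    (tendsto_of_tendsto_of_tendsto_of_le_of_le tendsto_const_nhds
      (ENNReal.tendsto_sum_nat_add _ (h1 C)) (fun _ => zero_le) fun N => ?_)
  refine le_trans (le_of_eq ?_) (h.NN_tsum C fun n => hm (n + N))
  rw [← one_mul (NN ω C fun t => ∑' n, _), ← enorm_one (G := ℂ), ← enorm_neg, ← NN_smul]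
  refine NN_congr ((rp_sub _ _).trans ?_)
  filter_upwards [rp_sum f N, rp_mkL (h := h) (fun t => ∑' n, rp (f n) t) _ _, h2] with t h3 h4 h5
  rw [Pi.sub_apply, h3, h4, ← h5.sum_add_tsum_nat_add N]
  simp

/-- Multiplication by the variable. -/
noncomputable def tm (x : LL h) : LL h :=
  mkL h (fun t => (t : ℂ) ^ 1 * rp x t)
    (Measurable.aestronglyMeasurable (by have := rp_meas x; fun_prop)) fun C =>
      ne_top_of_le_ne_top (ENNReal.mul_ne_top ENNReal.ofReal_ne_top (rp_ne x _))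
        (h.NN_pow C one_pos 1 _)

theorem rp_tm (x : LL h) : rp (tm x) =ᵐ[volume] fun t => t * rp x t :=
  (rp_mkL _ _ _).trans (.of_forall fun t => by simp only [pow_one])

/-- Multiplication by the variable as a linear map. -/
noncomputable def TT (h : RadicalWeight ω) : Module.End ℂ (LL h) where
  toFun := tm
  map_add' x y := rp_ext (by
    filter_upwards [rp_tm (x + y), rp_add x y, rp_add (tm x) (tm y), rp_tm x, rp_tm y]
      with t h1 h2 h3 h4 h5
    rw [h1, h2, h3, Pi.add_apply, Pi.add_apply, h4, h5, mul_add])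
  map_smul' c x := rp_ext (by
    filter_upwards [rp_tm (c • x), rp_smul c x, rp_smul c (tm x), rp_tm x] with t h1 h2 h3 h4
    rw [h1, h2, RingHom.id_apply, h3, Pi.smul_apply, Pi.smul_apply, h4, mul_smul_comm])

theorem rp_TT (n : ℕ) (x : LL h) :
    rp ((TT h ^ n) x) =ᵐ[volume] fun t => (t : ℂ) ^ n * rp x t := by
  induction n with
  | zero => exact .of_forall fun t => by simp
  | succ n ih =>
    rw [pow_succ']
    filter_upwards [rp_tm ((TT h ^ n) x), ih] with t h1 h2
    rw [pow_succ', mul_assoc, ← h2]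
    exact h1

theorem nm_TT (C : ℝ) {r : ℝ} (hr : 0 < r) (n : ℕ) (x : LL h) :
    nm h C ((TT h ^ n) x) ≤ n.factorial / r ^ n * nm h (C + r) x := by
  rw [nm_apply, nm_apply, NN_congr (rp_TT n x),
    ← ENNReal.toReal_ofReal (show 0 ≤ (n.factorial : ℝ) / r ^ n by positivity), ← ENNReal.toReal_mul]
  exact ENNReal.toReal_mono (ENNReal.mul_ne_top ENNReal.ofReal_ne_top (rp_ne x _))
    (h.NN_pow C hr n _)

theorem tm_mul (x y : LL h) : tm (x * y) = x * tm y + tm x * y := by
  refine rp_ext ?_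
  filter_upwards [rp_tm (x * y), rp_mul x y, rp_add (x * tm y) (tm x * y), rp_mul x (tm y),
    rp_mul (tm x) y, ae_int x (tm y), ae_int (tm x) y] with t h1 h2 h3 h4 h5 h6 h7
  rw [h1, h2, h3, Pi.add_apply, h4, h5, cv, cv, cv, ← integral_add h6 h7, ← integral_const_mul]
  refine integral_congr_ae ?_
  filter_upwards [rp_tm y,
    (Measure.measurePreserving_sub_left volume t).quasiMeasurePreserving.ae (rp_tm x)] with s h8 h9
  rw [h8, h9]
  push_cast
  ring

theorem tm_ker (e : tm x = 0) : x = 0 := by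
  refine rp_ext ?_
  filter_upwards [rp_tm x, rp_zero (h := h), Measure.ae_ne volume 0] with t h1 h2 h3
  rw [e, h2] at h1
  rw [h2]
  exact (mul_eq_zero.1 h1.symm).resolve_left (Complex.ofReal_ne_zero.2 h3)

/-- The class `x` is represented by `F` on the half line. -/
def Rp (x : LL h) (F : ℝ → ℂ) : Prop := rp x =ᵐ[volume.restrict (Ioi 0)] F

theorem Rp.self (x : LL h) : Rp x (rp x) := EventuallyEq.rfl

theorem Rp.congr (hx : Rp x F) (e : ∀ t, 0 < t → F t = G t) : Rp x G :=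
  hx.trans ((ae_restrict_mem measurableSet_Ioi).mono e)

theorem Rp.ext (hx : Rp x F) (hy : Rp y F) : x = y := by
  refine rp_ext ?_
  filter_upwards [(ae_restrict_iff' measurableSet_Ioi).1 (hx.trans hy.symm), rp_neg x, rp_neg y]
    with t h1 h2 h3
  by_cases ht : 0 < t
  · exact h1 ht
  · rw [h2 ht, h3 ht]

theorem Rp.add (hx : Rp x F) (hy : Rp y G) : Rp (x + y) fun t => F t + G t :=
  (rp_add x y).restrict.trans (EventuallyEq.add hx hy)

theorem Rp.sub (hx : Rp x F) (hy : Rp y G) : Rp (x - y) fun t => F t - G t :=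
  (rp_sub x y).restrict.trans (EventuallyEq.sub hx hy)

theorem Rp.smul (hx : Rp x F) (c : ℂ) : Rp (c • x) fun t => c * F t :=
  (rp_smul c x).restrict.trans (EventuallyEq.const_smul hx c)

theorem Rp.sum {f : ℕ → LL h} {F : ℕ → ℝ → ℂ} (hf : ∀ i, Rp (f i) (F i)) (n : ℕ) :
    Rp (∑ i ∈ Finset.range n, f i) fun t => ∑ i ∈ Finset.range n, F i t := by
  filter_upwards [ae_restrict_of_ae (rp_sum f n), ae_all_iff.2 hf] with t h1 h2
  simp only [h1, h2]

theorem Rp.mul (hx : Rp x F) (hy : Rp y G) : Rp (x * y) (conv F G) := by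
  filter_upwards [ae_restrict_of_ae (rp_mul x y), ae_restrict_mem measurableSet_Ioi] with t h1 h2
  rw [h1, cv_eq (rp_neg x) (rp_neg y) h2, conv_congr hx hy h2]

theorem Rp.tm (hx : Rp x F) : Rp (tm x) fun t => t * F t := by
  filter_upwards [ae_restrict_of_ae (rp_tm x), hx] with t h1 h2
  rw [h1, h2]

theorem Rp.NN_eq (hx : Rp x F) (C : ℝ) :
    NN ω C (rp x) = wnorm (fun t => ω t * Real.exp (C * t)) F :=
  (MM_eq (rp_neg x)).trans (wnorm_congr hx)

theorem Rp.mem (hx : Rp x F) (C : ℝ) : MemL1 (fun t => ω t * Real.exp (C * t)) F :=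
  ⟨(rp_meas x).aestronglyMeasurable.congr hx, hx.NN_eq C ▸ (rp_ne x C).lt_top⟩

theorem exists_rp (h : RadicalWeight ω) (hF : ∀ C, MemL1 (fun t => ω t * Real.exp (C * t)) F) :
    ∃ x : LL h, Rp x F := by
  have h1 : (Ioi 0).indicator F =ᵐ[volume.restrict (Ioi 0)] F :=
    indicator_ae_eq_restrict measurableSet_Ioi
  refine ⟨mkL h ((Ioi 0).indicator F) ((aestronglyMeasurable_indicator_iff measurableSet_Ioi).2
    (hF 0).1) fun C => ?_, (rp_mkL _ _ _).restrict.trans h1⟩
  rw [NN, MM_eq (.of_forall fun t ht => indicator_of_notMem (s := Ioi 0) ht F), wnorm_congr h1]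
  exact (hF C).2.ne

end Pool.Agent.P.MP_0134b7_an
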