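import Mathlib

/-!
A dyadic form of the logarithmic integral theorem in the unit disc.
-/

open Set Filter Topology MeasureTheory Metric Real

namespace Pool.Agent.P.MP_0134b7_an

theorem jensen_le {Φ : ℂ → ℂ} {R : ℝ} (hR : 0 < R) (hΦ : AnalyticOnNhd ℂ Φ (closedBall 0 R))
    (h0 : Φ 0 ≠ 0) : Real.log ‖Φ 0‖ ≤ circleAverage (fun z => Real.log ‖Φ z‖) 0 R := by
  have hΦ' : AnalyticOnNhd ℂ Φ (closedBall 0 |R|) := by rwa [abs_of_pos hR]
  rw [hΦ'.circleAverage_log_norm hR.ne' h0]
  refine le_add_of_nonneg_left (finsum_nonneg fun u => ?_)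
  by_cases hu : u ∈ closedBall (0 : ℂ) |R|
  · refine mul_nonneg (by exact_mod_cast MeromorphicOn.AnalyticOnNhd.divisor_nonneg hΦ' u) ?_
    rcases eq_or_ne u 0 with rfl | hu0
    · simp
    · have : 0 < ‖u‖ := norm_pos_iff.2 hu0
      rw [abs_of_pos hR, mem_closedBall_zero_iff] at hu
      refine Real.log_nonneg ?_
      rw [zero_sub, norm_neg, ← div_eq_mul_inv, le_div_iff₀ this, one_mul]
      exact hu
  · simp [Function.locallyFinsuppWithin.apply_eq_zero_of_notMem _ hu]

theorem norm_one_sub_circleMap {R θ : ℝ} (hR0 : 0 ≤ R) (hR : R ≤ 1) (hθ : 0 ≤ θ) :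
    ‖1 - circleMap 0 R θ‖ ≤ 1 - R + θ := by
  have e : 1 - circleMap 0 R θ = ((1 - R : ℝ) : ℂ) - R * (Complex.exp (Complex.I * θ) - 1) := by
    unfold circleMap
    push_cast
    rw [mul_comm (θ : ℂ)]
    ring
  rw [e]
  refine (norm_sub_le _ _).trans ?_
  have h1 := Real.norm_exp_I_mul_ofReal_sub_one_le (x := θ)
  rw [norm_mul, Complex.norm_real, Complex.norm_real, Real.norm_of_nonneg hR0,
    Real.norm_of_nonneg (sub_nonneg.2 hR)]
  rw [Real.norm_of_nonneg hθ] at h1
  have : R * ‖Complex.exp (Complex.I * θ) - 1‖ ≤ 1 * θ := by gcongr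
  linarith

theorem uniq_disc {Φ : ℂ → ℂ} (hΦ : DifferentiableOn ℂ Φ (ball 0 1)) {M : ℝ} {d : ℕ → ℝ}
    (hd : ∀ k, 0 ≤ d k) (hs : ¬Summable fun k => d k / 2 ^ k)
    (h0 : ∀ ζ : ℂ, 1 / 2 ≤ ‖ζ‖ → ‖ζ‖ < 1 → ‖Φ ζ‖ ≤ M)
    (h1 : ∀ (k : ℕ) (ζ : ℂ), 1 / 2 ≤ ‖ζ‖ → ‖ζ‖ < 1 → ‖1 - ζ‖ ≤ 1 / 2 ^ k →
      ‖Φ ζ‖ ≤ M * Real.exp (-d k)) : Φ 0 = 0 := by
  by_contra hne
  have hA := hΦ.analyticOnNhd isOpen_ball
  have key : ∀ N : ℕ, ∑ k ∈ Finset.range N, d k / 2 ^ k ≤
      8 * π * (Real.log M - Real.log ‖Φ 0‖) := by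
    intro N
    set R : ℝ := 1 - 1 / 2 ^ (N + 1) with hR
    have p1 : (0 : ℝ) < 1 / 2 ^ (N + 1) := by positivity
    have p2 : (1 : ℝ) / 2 ^ (N + 1) ≤ 1 / 2 := one_div_le_one_div_of_le two_pos
      (le_self_pow₀ one_le_two (by omega))
    have R0 : 0 < R := by linarith
    have R1 : R < 1 := by linarith
    have hA' : AnalyticOnNhd ℂ Φ (closedBall 0 R) := hA.mono (closedBall_subset_ball R1)
    have j := jensen_le R0 hA' hne
    have hn : ∀ θ, ‖circleMap 0 R θ‖ = R := fun θ => by
      rw [norm_circleMap_zero, abs_of_pos R0]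
    have hz : ∀ᵐ θ : ℝ, Φ (circleMap 0 R θ) ≠ 0 := by
      have c1 := hA'.preimage_zero_mem_codiscreteWithin hne (mem_closedBall_self R0.le)
        ((convex_closedBall _ _).isConnected ⟨0, mem_closedBall_self R0.le⟩)
      have c2 := (isCompact_closedBall (0 : ℂ) R).finite_sdiff_of_mem_codiscreteWithin c1
      have c3 := (c2.countable.preimage_circleMap 0 R0.ne').measure_zero volume
      refine measure_mono_null (fun θ hθ => ?_) c3
      refine ⟨mem_closedBall_zero_iff.2 (hn θ).le, fun h => hθ h⟩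
    set I : ℕ → Set ℝ := fun k => Ioc (1 / 2 ^ (k + 2)) (1 / 2 ^ (k + 1)) with hI
    have i1 : ∀ k, IntervalIntegrable ((I k).indicator fun _ => d k) volume 0 (2 * π) := fun k =>
      (intervalIntegrable_iff.2 ((intervalIntegrable_iff.1 intervalIntegrable_const).indicator
        measurableSet_Ioc))
    have i2 : ∀ k, ∫ θ in (0 : ℝ)..2 * π, (I k).indicator (fun _ => d k) θ = d k / 2 ^ k / 4 := by
      intro k
      have q1 : (1 : ℝ) / 2 ^ (k + 1) ≤ 1 := (div_le_one (by positivity)).2 (one_le_pow₀ one_le_two)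
      have q2 : (1 : ℝ) / 2 ^ (k + 2) ≤ 1 / 2 ^ (k + 1) := one_div_le_one_div_of_le (by positivity)
        (pow_le_pow_right₀ one_le_two (by omega))
      rw [intervalIntegral.integral_of_le (by positivity), setIntegral_indicator measurableSet_Ioc,
        inter_eq_right.2 (Ioc_subset_Ioc (by positivity) (by linarith [pi_gt_three])),
        setIntegral_const, Real.volume_real_Ioc_of_le q2, smul_eq_mul]
      field_simp
      ring
    have b : ∫ θ in (0 : ℝ)..2 * π, Real.log ‖Φ (circleMap 0 R θ)‖ ≤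
        ∫ θ in (0 : ℝ)..2 * π, (Real.log M -
          ∑ k ∈ Finset.range N, (I k).indicator (fun _ => d k) θ) := by
      refine intervalIntegral.integral_mono_ae_restrict (by positivity) ?_ ?_ ?_
      · exact ((hA'.mono (by
          rw [abs_of_pos R0]
          exact sphere_subset_closedBall)).meromorphicOn.circleIntegrable_log_norm :
          CircleIntegrable (fun z => Real.log ‖Φ z‖) 0 R)
      · refine intervalIntegrable_const.sub ?_
        have := IntervalIntegrable.sum (Finset.range N) fun k _ => i1 k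
        rwa [Finset.sum_fn] at this
      · filter_upwards [ae_restrict_of_ae hz] with θ hθ
        have z0 : 0 < ‖Φ (circleMap 0 R θ)‖ := norm_pos_iff.2 hθ
        have g0 := h0 (circleMap 0 R θ) (by rw [hn]; linarith) (by rw [hn]; exact R1)
        by_cases hk : ∃ k ∈ Finset.range N, θ ∈ I k
        · obtain ⟨k, hkN, hk⟩ := hk
          rw [Finset.sum_eq_single k, indicator_of_mem hk]
          · have t0 : 0 ≤ θ := le_trans (by positivity) hk.1.le
            have t1 : (1 : ℝ) / 2 ^ (N + 1) ≤ 1 / 2 ^ (k + 1) :=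
              one_div_le_one_div_of_le (by positivity) (pow_le_pow_right₀ one_le_two (by
                have := Finset.mem_range.1 hkN
                omega))
            have t2 : (1 : ℝ) / 2 ^ k = 1 / 2 ^ (k + 1) + 1 / 2 ^ (k + 1) := by
              field_simp
              ring
            have g1 := h1 k (circleMap 0 R θ) (by rw [hn]; linarith) (by rw [hn]; exact R1)
              ((norm_one_sub_circleMap R0.le R1.le t0).trans (by linarith [hk.2]))
            have := Real.log_le_log z0 g1
            rwa [Real.log_mul (z0.trans_le g0).ne' (Real.exp_pos _).ne', Real.log_exp,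
              ← sub_eq_add_neg] at this
          · intro l _ hl
            refine indicator_of_notMem (fun h => ?_) _
            have w : ∀ a b : ℕ, a < b → θ ∈ I a → θ ∈ I b → False := fun a b hab ha hb => by
              have : (1 : ℝ) / 2 ^ (b + 1) ≤ 1 / 2 ^ (a + 2) :=
                one_div_le_one_div_of_le (by positivity) (pow_le_pow_right₀ one_le_two (by omega))
              linarith [ha.1, hb.2]
            rcases lt_or_gt_of_ne hl with h' | h'
            · exact w _ _ h' h hk
            · exact w _ _ h' hk h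
          · exact fun h => absurd hkN h
        · rw [Finset.sum_eq_zero fun k hk' => indicator_of_notMem (fun h => hk ⟨k, hk', h⟩) _,
            sub_zero]
          exact Real.log_le_log z0 g0
    rw [intervalIntegral.integral_sub intervalIntegrable_const (by
      have := IntervalIntegrable.sum (Finset.range N) fun k _ => i1 k
      rwa [Finset.sum_fn] at this), intervalIntegral.integral_finsetSum fun k _ => i1 k,
      intervalIntegral.integral_const, sub_zero, smul_eq_mul, Finset.sum_congr rfl fun k _ => i2 k,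
      ← Finset.sum_div] at b
    rw [circleAverage_def, smul_eq_mul, ← div_eq_inv_mul, le_div_iff₀ (by positivity)] at j
    linarith
  exact hs (summable_of_sum_range_le (fun k => div_nonneg (hd k) (by positivity)) key)

end Pool.Agent.P.MP_0134b7_an
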