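import Pool.Agent.P.MP_0134b7_an.Krein
import Pool.Agent.P.MP_0134b7_an.Uniq

/-!
If the logarithmic integral diverges, the powers `t ^ (k * a - 1)` span a dense subspace.
-/

open Set Filter Topology MeasureTheory Metric
open scoped ENNReal

namespace Pool.Agent.P.MP_0134b7_an

variable {ω : ℝ → ℝ}

/-- The range of `1 / (x + 4)`. -/
abbrev XI : Type := Icc (0 : ℝ) (1 / 4)

/-- The coordinate function. -/
noncomputable def YY : C(XI, ℂ) := ⟨fun y => (y : ℝ), by fun_prop⟩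

theorem YY_apply (y : XI) : YY y = (y : ℝ) := rfl

/-- The denominator of the resolvent. -/
noncomputable def UU (s : ℂ) : C(XI, ℂ) := 1 - (4 - s ^ 2) • YY

theorem UU_apply (s : ℂ) (y : XI) : UU s y = 1 - (4 - s ^ 2) * (y : ℝ) := rfl

theorem unit_le {s : ℂ} (hs : 1 ≤ s.re) (y : XI) : UU s y ≠ 0 ∧ ‖YY y‖ ≤ ‖UU s y‖ := by
  obtain ⟨y, h0, h1⟩ := y
  have h2 : ‖YY ⟨y, h0, h1⟩‖ ≤ ‖UU s ⟨y, h0, h1⟩‖ := by
    rw [← sq_le_sq₀ (norm_nonneg _) (norm_nonneg _), Complex.sq_norm, Complex.sq_norm,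
      Complex.normSq_apply, Complex.normSq_apply]
    simp only [UU_apply, YY_apply, sq, Complex.sub_re, Complex.sub_im, Complex.mul_re, Complex.mul_im,
      Complex.ofReal_re, Complex.ofReal_im, Complex.one_re, Complex.one_im, Complex.re_ofNat,
      Complex.im_ofNat]
    have h3 : 0 ≤ 1 - 4 * y := by linarith
    have h4 : 1 ≤ s.re ^ 4 := one_le_pow₀ hs
    nlinarith [sq_nonneg (1 - 4 * y - s.im ^ 2 * y), mul_nonneg (mul_nonneg h3 h0) (sq_nonneg s.re),
      sq_nonneg (s.re * s.im * y), mul_le_mul_of_nonneg_right h4 (sq_nonneg y)]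
  refine ⟨fun h => ?_, h2⟩
  rw [h, norm_zero, norm_le_zero_iff, YY_apply] at h2
  rw [UU_apply, h2] at h
  simp at h

/-- The growth condition on the moments. -/
def Gd (m : ℕ → ℝ) : Prop :=
  ∃ (M : ℝ) (d : ℕ → ℝ), (∀ k, 0 ≤ d k) ∧ (¬Summable fun k => d k / 2 ^ k) ∧ 0 ≤ M ∧ m 0 ≤ M ∧
    ∀ k : ℕ, ∃ n : ℕ, m n ≤ M * Real.exp (-d k) * (2 ^ (k + 1)) ^ (2 * n)

theorem step {m : ℕ → ℝ} (hm : Gd m) {Λ : ℕ → C(XI, ℂ) →L[ℂ] ℂ}
    (hb : ∀ j G, ‖G‖ ≤ 1 → ‖Λ j G‖ ≤ m j)
    (hr : ∀ j G, Λ (j + 1) (YY * G) = Λ j (G - (4 : ℂ) • (YY * G))) (h1 : ∀ j, Λ j 1 = 0)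
    (j : ℕ) : Λ j YY = 0 := by
  obtain ⟨M, d, hd, hs, hM, h0, hk⟩ := hm
  have hu : ∀ s : ℂ, 1 ≤ s.re → IsUnit (UU s) := fun s hs =>
    (ContinuousMap.isUnit_iff_forall_ne_zero _).2 fun y => (unit_le hs y).1
  have hn : ∀ s : ℂ, 1 ≤ s.re → ‖YY * Ring.inverse (UU s)‖ ≤ 1 := fun s hs => by
    refine (ContinuousMap.norm_le _ zero_le_one).2 fun y => ?_
    have h2 := congrArg (fun G : C(XI, ℂ) => ‖G y‖) (Ring.mul_inverse_cancel _ (hu s hs))
    simp only [ContinuousMap.mul_apply, norm_mul, ContinuousMap.one_apply, norm_one] at h2 ⊢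
    exact (mul_le_mul_of_nonneg_right (unit_le hs y).2 (norm_nonneg _)).trans h2.le
  have hp : ∀ s : ℂ, 1 ≤ s.re → ∀ n, Λ n (YY * Ring.inverse (UU s)) =
      (-s ^ 2) ^ n * Λ 0 (YY * Ring.inverse (UU s)) := fun s hs n => by
    induction n with
    | zero => simp
    | succ n ih =>
      have h2 := Ring.mul_inverse_cancel _ (hu s hs)
      generalize Ring.inverse (UU s) = R at h2 ih
      have h3 : R - (4 : ℂ) • (YY * R) = 1 - s ^ 2 • (YY * R) := by
        ext y
        have h3 := congrArg (fun G : C(XI, ℂ) => G y) h2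
        simp only [ContinuousMap.mul_apply, ContinuousMap.sub_apply, ContinuousMap.smul_apply,
          ContinuousMap.one_apply, UU_apply, YY_apply, smul_eq_mul] at h3 ⊢
        linear_combination h3
      rw [hr, h3, map_sub, map_smul, h1, ih, smul_eq_mul]
      ring
  have hre : ∀ ζ : ℂ, ‖ζ‖ < 1 → 1 - ζ ≠ 0 ∧ 1 ≤ (2 / (1 - ζ)).re := fun ζ hζ => by
    have h2 : 1 - ζ ≠ 0 := fun h => by simp [← sub_eq_zero.1 h] at hζ
    have h3 : ‖ζ‖ ^ 2 ≤ 1 := pow_le_one₀ (norm_nonneg _) hζ.le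
    rw [Complex.sq_norm, Complex.normSq_apply] at h3
    refine ⟨h2, ?_⟩
    rw [Complex.div_re, ← add_div, le_div_iff₀ (Complex.normSq_pos.2 h2), Complex.normSq_apply]
    simp only [Complex.sub_re, Complex.sub_im, Complex.one_re, Complex.one_im, Complex.re_ofNat,
      Complex.im_ofNat]
    nlinarith
  have h2 := uniq_disc
    (Φ := fun ζ => Λ 0 (YY * Ring.inverse (UU (2 / (1 - ζ))))) (M := M)
    (fun ζ hζ => by
      obtain ⟨h3, h4⟩ := hre ζ (mem_ball_zero_iff.1 hζ)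
      refine ((Λ 0).differentiableAt.comp ζ (DifferentiableAt.const_mul
        (DifferentiableAt.inverse (h := fun ζ : ℂ => UU (2 / (1 - ζ))) ?_ (hu _ h4))
          YY)).differentiableWithinAt
      unfold UU
      fun_prop (disch := exact h3)) hd hs
    (fun ζ _ hζ => (hb 0 _ (hn _ (hre ζ hζ).2)).trans h0) fun k ζ _ hζ h3 => by
      obtain ⟨n, h4⟩ := hk k
      obtain ⟨h5, h6⟩ := hre ζ hζ
      have h7 := (hb n _ (hn _ h6)).trans h4
      have h8 : (2 : ℝ) ^ (k + 1) ≤ ‖2 / (1 - ζ)‖ := by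
        rw [norm_div, Complex.norm_ofNat, le_div_iff₀ (norm_pos_iff.2 h5), pow_succ']
        rw [le_div_iff₀ (by positivity)] at h3
        linarith
      rw [hp _ h6, norm_mul, norm_pow, norm_neg, norm_pow, ← pow_mul, mul_comm] at h7
      exact le_of_mul_le_mul_right ((mul_le_mul_of_nonneg_left
        (pow_le_pow_left₀ (by positivity) h8 _) (norm_nonneg _)).trans h7) (by positivity)
  have h3 := hp 2 (by norm_num) j
  have h4 : UU 2 = 1 := by
    ext y
    rw [UU_apply]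
    norm_num
  simp only [sub_zero, div_one] at h2
  rw [h2, mul_zero, h4, Ring.inverse_one, mul_one] at h3
  exact h3

theorem norm_YY : ‖YY‖ ≤ 1 :=
  (ContinuousMap.norm_le _ zero_le_one).2 fun y => by
    rw [YY_apply, Complex.norm_real, Real.norm_of_nonneg y.2.1]
    linarith [y.2.2]

theorem steps {m : ℕ → ℝ} (hm : Gd m) (i : ℕ) : ∀ {Λ : ℕ → C(XI, ℂ) →L[ℂ] ℂ},
    (∀ j G, ‖G‖ ≤ 1 → ‖Λ j G‖ ≤ m j) →
    (∀ j G, Λ (j + 1) (YY * G) = Λ j (G - (4 : ℂ) • (YY * G))) → (∀ j, Λ j 1 = 0) →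
    Λ 0 (YY ^ i) = 0 := by
  induction i with
  | zero => exact fun _ _ h1 => by simpa using h1 0
  | succ i ih =>
    intro Λ hb hr h1
    have := ih (Λ := fun j => (Λ j).comp (ContinuousLinearMap.mul ℂ _ YY))
      (fun j G hG => hb j _ ((norm_mul_le _ _).trans (mul_le_one₀ norm_YY (norm_nonneg _) hG)))
      (fun j G => (hr j (YY * G)).trans (congrArg (Λ j) (by
        ext y
        change YY y * G y - 4 * (YY y * (YY y * G y)) = YY y * (G y - 4 * (YY y * G y))
        ring))) fun j => by simpa using step hm hb hr h1 j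
    simpa [pow_succ'] using this

theorem eq_zero_of_pow {Λ : C(XI, ℂ) →L[ℂ] ℂ} (h : ∀ i, Λ (YY ^ i) = 0) (G : C(XI, ℂ)) :
    Λ G = 0 := by
  have h1 : ∀ g : C(XI, ℝ), Λ (Complex.ofRealCLM.compLeftContinuous ℝ XI g) = 0 := fun g => by
    refine closure_minimal (t := {g | Λ (Complex.ofRealCLM.compLeftContinuous ℝ XI g) = 0}) ?_
      (isClosed_eq (by fun_prop) continuous_const)
      (continuousMap_mem_polynomialFunctions_closure 0 (1 / 4) g)
    rintro _ ⟨p, -, rfl⟩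
    have h2 : Complex.ofRealCLM.compLeftContinuous ℝ XI (Polynomial.toContinuousMapOnAlgHom _ p) =
        ∑ i ∈ Finset.range (p.natDegree + 1), (p.coeff i : ℂ) • YY ^ i := by
      ext y
      simp [Polynomial.eval_eq_sum_range, YY_apply, ContinuousLinearMap.compLeftContinuous,
        AddMonoidHom.compLeftContinuous]
    exact (congrArg Λ h2).trans (by simp [h])
  have h2 : G = Complex.ofRealCLM.compLeftContinuous ℝ XI ⟨fun y => (G y).re, by fun_prop⟩ +
      Complex.I • Complex.ofRealCLM.compLeftContinuous ℝ XI ⟨fun y => (G y).im, by fun_prop⟩ := by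
    ext y
    change G y = (G y).re + Complex.I * (G y).im
    rw [mul_comm, Complex.re_add_im]
  rw [h2, map_add, map_smul, h1, h1, smul_zero, add_zero]

/-- The change of variable. -/
noncomputable def yy (a t : ℝ) : XI := projIcc 0 (1 / 4) (by norm_num) (1 / (t ^ a + 4))

theorem yy_meas (a : ℝ) : Measurable (yy a) :=
  continuous_projIcc.measurable.comp (by fun_prop)

theorem yy_val (a : ℝ) {t : ℝ} (ht : 0 < t) : (yy a t : ℝ) = 1 / (t ^ a + 4) := by
  have := Real.rpow_pos_of_pos ht a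
  rw [yy, projIcc_of_mem _ ⟨by positivity, one_div_le_one_div_of_le four_pos (by linarith)⟩]

theorem ae_pos (ω : ℝ → ℝ) : ∀ᵐ t ∂wm ω, 0 < t :=
  (wm_ac ω).ae_le (ae_restrict_mem measurableSet_Ioi)

theorem int_G (h : RadicalWeight ω) {s : ℝ} (hs : 0 < s) (a : ℝ) (G : C(XI, ℂ)) :
    Integrable (fun t => pw s t * G (yy a t)) (wm ω) :=
  (h.memL1_iff.1 (h.memL1_pw hs)).mul_bdd
    (G.continuous.measurable.comp (yy_meas a)).aestronglyMeasurable
    (.of_forall fun _ => G.norm_coe_le_norm _)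

theorem norm_G (h : RadicalWeight ω) {s : ℝ} (hs : 0 < s) (a : ℝ) (G : C(XI, ℂ)) :
    ‖(int_G h hs a G).toL1 _‖ ≤ (∫ t, ‖pw s t‖ ∂wm ω) * ‖G‖ := by
  rw [L1.norm_of_fun_eq_integral_norm, ← integral_mul_const]
  refine integral_mono (int_G h hs a G).norm ((h.memL1_iff.1 (h.memL1_pw hs)).norm.mul_const _)
    fun t => ?_
  rw [norm_mul]
  exact mul_le_mul_of_nonneg_left (G.norm_coe_le_norm _) (norm_nonneg _)

/-- The map `G ↦ t ^ (s - 1) * G (1 / (t ^ a + 4))`. -/
noncomputable def JJ (h : RadicalWeight ω) {s : ℝ} (hs : 0 < s) (a : ℝ) :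
    C(XI, ℂ) →L[ℂ] Lp ℂ 1 (wm ω) :=
  LinearMap.mkContinuous
    { toFun := fun G => (int_G h hs a G).toL1 _
      map_add' := fun G G' => by
        rw [← Integrable.toL1_add, Integrable.toL1_eq_toL1_iff]
        exact .of_forall fun t => mul_add _ _ _
      map_smul' := fun c G => by
        rw [RingHom.id_apply, ← Integrable.toL1_smul, Integrable.toL1_eq_toL1_iff]
        exact .of_forall fun t => mul_left_comm _ _ _ } _ (norm_G h hs a)

theorem JJ_apply (h : RadicalWeight ω) {s : ℝ} (hs : 0 < s) (a : ℝ) (G : C(XI, ℂ)) :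
    JJ h hs a G = (int_G h hs a G).toL1 _ := rfl

theorem JJ_dense (h : RadicalWeight ω) {s a : ℝ} (hs : 0 < s) (ha : 0 < a) :
    DenseRange (JJ h hs a) := by
  refine Metric.denseRange_iff.2 fun x ε hε => ?_
  have hm := (Lp.stronglyMeasurable x).measurable
  have h1 := (pw_meas s).enorm
  have h2 : IsFiniteMeasure ((wm ω).withDensity fun t => ‖pw s t‖ₑ) :=
    isFiniteMeasure_withDensity (h.memL1_iff.1 (h.memL1_pw hs)).2.ne
  have hτ : Measurable fun y : XI => (1 / (y : ℝ) - 4) ^ a⁻¹ := by fun_prop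
  have hg : Measurable fun y : XI =>
      x ((1 / (y : ℝ) - 4) ^ a⁻¹) / pw s ((1 / (y : ℝ) - 4) ^ a⁻¹) :=
    (hm.comp hτ).div ((pw_meas s).comp hτ)
  have h3 : ∀ G : XI → ℂ, Measurable G → ∫⁻ y : XI, ‖x ((1 / (y : ℝ) - 4) ^ a⁻¹) /
      pw s ((1 / (y : ℝ) - 4) ^ a⁻¹) - G y‖ₑ
        ∂((wm ω).withDensity fun t => ‖pw s t‖ₑ).map (yy a) =
      ∫⁻ t, ‖x t - pw s t * G (yy a t)‖ₑ ∂wm ω := fun G hG => by
    rw [lintegral_map (hg.fun_sub hG).enorm (yy_meas a),
      lintegral_withDensity_eq_lintegral_mul_non_measurable _ h1 (.of_forall fun _ => by simp)]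
    refine lintegral_congr_ae ((ae_pos ω).mono fun t ht => ?_)
    have h4 : pw s t ≠ 0 := norm_pos_iff.1 (by rw [norm_pw s ht]; positivity)
    simp only [Pi.mul_apply]
    rw [yy_val a ht, one_div_one_div, add_sub_cancel_right, Real.rpow_rpow_inv ht.le ha.ne',
      ← enorm_mul, mul_sub, mul_div_cancel₀ _ h4]
  have h4 := h3 0 measurable_zero
  simp only [Pi.zero_apply, sub_zero, mul_zero] at h4
  obtain ⟨G, hG, -⟩ := Integrable.exists_boundedContinuous_lintegral_sub_le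
    (μ := ((wm ω).withDensity fun t => ‖pw s t‖ₑ).map (yy a))
    ⟨hg.aestronglyMeasurable, h4.trans_lt (L1.integrable_coeFn x).2⟩
    (ENNReal.ofReal_pos.2 (half_pos hε)).ne'
  rw [h3 G G.continuous.measurable] at hG
  refine ⟨G.toContinuousMap, lt_of_le_of_lt ?_ (half_lt_self hε)⟩
  rw [dist_eq_norm, JJ_apply, ← Integrable.toL1_coeFn x (L1.integrable_coeFn x),
    ← Integrable.toL1_sub, Integrable.norm_toL1_eq_lintegral_enorm]
  exact ENNReal.toReal_le_of_le_ofReal (half_pos hε).le hG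

theorem RadicalWeight.gd (h : RadicalWeight ω) {a : ℝ} (ha : 0 < a) (hc : ¬Cv ω a) :
    Gd fun j => ∫ t, ‖pw ((j + 1) * a) t‖ ∂wm ω := by
  obtain ⟨K, hK⟩ := h.exists_bd
  obtain ⟨K', hK1, hK'⟩ := h.exp_bound 2
  have h0 : 0 ≤ ∫ t in Ioi 0, t ^ (a - 1) * (K' * Real.exp (-(1 * t))) :=
    setIntegral_nonneg measurableSet_Ioi fun t ht => by
      have : 0 < t := ht
      positivity
  have h1 : ∀ (R : ℝ) (n : ℕ), 0 < R → (n = 0 ∨ 4 * (n * a) ≤ -Real.log (ω R)) →
      ∫ t, ‖pw ((n + 1) * a) t‖ ∂wm ω ≤ (Real.exp K * R ^ (n * a)) *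
        ∫ t in Ioi 0, t ^ (a - 1) * (K' * Real.exp (-(1 * t))) := fun R n hR hn => by
    rw [wm, integral_withDensity_eq_integral_toReal_smul₀ h.aem.ennreal_ofReal
      (.of_forall fun _ => ENNReal.ofReal_lt_top), ← integral_const_mul]
    refine integral_mono_of_nonneg (.of_forall fun t => by positivity)
      ((int_pw ha K').const_mul _) ((ae_restrict_mem measurableSet_Ioi).mono fun t ht => ?_)
    have h2 := h.pos t (le_of_lt ht)
    have h3 := h.moment hK hR (x := n * a) (by positivity) (hn.imp_left fun h => by simp [h]) ht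
    have h4 : √(ω t) ≤ K' * Real.exp (-(1 * t)) := by
      refine Real.sqrt_le_iff.2 ⟨by positivity, (hK' t (le_of_lt ht)).trans ?_⟩
      rw [mul_pow, ← Real.exp_nat_mul, show ((2 : ℕ) : ℝ) * -(1 * t) = -(2 * t) by push_cast; ring]
      exact mul_le_mul_of_nonneg_right (by nlinarith) (Real.exp_pos _).le
    have h5 : 0 < t ^ (a - 1) := Real.rpow_pos_of_pos ht _
    simp only [smul_eq_mul]
    rw [ENNReal.toReal_ofReal h2.le, norm_pw _ ht, show (n + 1) * a - 1 = n * a + (a - 1) by ring,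
      Real.rpow_add ht]
    calc _ = t ^ (n * a) * √(ω t) * (t ^ (a - 1) * √(ω t)) := by
          rw [mul_mul_mul_comm, Real.mul_self_sqrt h2.le, mul_comm]
      _ ≤ _ := by gcongr
  have hl : 0 < Real.log 4 := Real.log_pos (by norm_num)
  refine ⟨Real.exp K * ∫ t in Ioi 0, t ^ (a - 1) * (K' * Real.exp (-(1 * t))),
    fun k => ⌊-Real.log (ω (tk a k)) / (4 * a)⌋₊ * Real.log 4, fun k => by positivity,
    fun hs => hc ((cv_iff K a).2 ?_), by positivity, by simpa using h1 1 0 one_pos (.inl rfl),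
    fun k => ⟨⌊-Real.log (ω (tk a k)) / (4 * a)⌋₊, (h1 _ _ (tk_pos a k) ?_).trans_eq ?_⟩⟩
  · refine Summable.of_nonneg_of_le (fun k => div_nonneg
      (sub_nonneg.2 (h.log_le hK (tk_pos a k).le)) (by positivity)) (fun k => ?_)
      ((summable_half.mul_left (K + 4 * a)).add (hs.mul_left (4 * a / Real.log 4)))
    have h2 := Nat.lt_floor_add_one (-Real.log (ω (tk a k)) / (4 * a))
    rw [div_lt_iff₀ (by positivity)] at h2
    beta_reduce
    rw [mul_one_div, ← mul_div_assoc, ← add_div, mul_comm _ (Real.log 4), ← mul_assoc,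
      div_mul_cancel₀ _ hl.ne']
    gcongr
    linarith
  · rcases le_total 0 (-Real.log (ω (tk a k)) / (4 * a)) with h2 | h2
    · have h3 := Nat.floor_le h2
      rw [le_div_iff₀ (by positivity)] at h3
      exact .inr (by linarith)
    · exact .inl (Nat.floor_of_nonpos h2)
  · beta_reduce
    generalize ⌊-Real.log (ω (tk a k)) / (4 * a)⌋₊ = n
    generalize ∫ t in Ioi 0, t ^ (a - 1) * (K' * Real.exp (-(1 * t))) = J
    rw [show n * a = a / 2 * ((2 * n : ℕ) : ℝ) by push_cast; ring, Real.rpow_mul (tk_pos a k).le,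
      tk_rpow ha, Real.rpow_natCast, Real.exp_neg, Real.exp_nat_mul, Real.exp_log four_pos,
      pow_succ, mul_pow, pow_mul (2 : ℝ) 2]
    norm_num
    field_simp

theorem RadicalWeight.dn (h : RadicalWeight ω) {a : ℝ} (ha : 0 < a) (hc : ¬Cv ω a) :
    Dn ω a := fun f hf ε hε => by
  have hj : ∀ j : ℕ, 0 < (j + 1) * a := fun j => by positivity
  let p := Submodule.span ℂ (range fun j => JJ h (hj j) a 1)
  have h1 : ‖p.mkQL ((h.memL1_iff.1 hf).toL1 f)‖ = 0 := by
    by_contra h1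
    obtain ⟨g, hg, hg'⟩ := exists_dual_vector ℂ _ h1
    have h2 := eq_zero_of_pow fun i => steps (h.gd ha hc) i
      (Λ := fun j => (g.comp p.mkQL).comp (JJ h (hj j) a)) (fun j G hG => by
        refine (g.le_opNorm _).trans ?_
        rw [hg, one_mul]
        exact (Submodule.Quotient.norm_mk_le p _).trans ((norm_G h (hj j) a G).trans
          (mul_le_of_le_one_right (integral_nonneg fun _ => norm_nonneg _) hG)))
      (fun j G => congrArg (g.comp p.mkQL) ((Integrable.toL1_eq_toL1_iff _ _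
        (int_G h (hj (j + 1)) a (YY * G)) (int_G h (hj j) a (G - (4 : ℂ) • (YY * G)))).2
        ((ae_pos ω).mono fun t ht => by
          have h2 := Real.rpow_pos_of_pos ht a
          have h3 : ((t ^ a : ℝ) : ℂ) + 4 ≠ 0 := by exact_mod_cast (by positivity : t ^ a + 4 ≠ 0)
          simp only [ContinuousMap.mul_apply, ContinuousMap.sub_apply, ContinuousMap.smul_apply,
            YY_apply, yy_val a ht, pw, smul_eq_mul]
          rw [show (((j + 1 : ℕ) : ℝ) + 1) * a - 1 = (j + 1) * a - 1 + a by push_cast; ring,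
            Real.rpow_add ht]
          simp only [Complex.ofReal_mul, Complex.ofReal_div, Complex.ofReal_add, Complex.ofReal_one,
            Complex.ofReal_ofNat]
          field_simp
          ring))) fun j => by
        have h2 : p.mkQL (JJ h (hj j) a 1) = 0 :=
          (Submodule.Quotient.mk_eq_zero p).2 (Submodule.subset_span ⟨j, rfl⟩)
        simp only [ContinuousLinearMap.comp_apply, h2, map_zero]
    have h3 := (JJ_dense h (hj 0) ha).induction_on (p := fun x => g (p.mkQL x) = 0)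
      ((h.memL1_iff.1 hf).toL1 f) (isClosed_eq (by fun_prop) continuous_const) h2
    exact h1 (RCLike.ofReal_eq_zero.1 (hg'.symm.trans h3))
  obtain ⟨δ, hδ, h2⟩ := ENNReal.lt_iff_exists_real_btwn.1 hε
  obtain ⟨y, hy, h3⟩ := Submodule.Quotient.norm_mk_lt (p.mkQL ((h.memL1_iff.1 hf).toL1 f))
    (ENNReal.ofReal_pos.1 h2.1)
  obtain ⟨c, hc⟩ := Finsupp.mem_span_range_iff_exists_finsupp.1
    ((Submodule.Quotient.eq p).1 hy.symm)
  obtain ⟨n, hn⟩ := c.support.exists_nat_subset_range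
  rw [Finsupp.sum_of_support_subset _ hn (fun i x => x • JJ h (hj i) a 1)
    fun i _ => zero_smul _ _] at hc
  refine ⟨n, c, lt_of_le_of_lt ?_ h2.2⟩
  rw [h1, zero_add] at h3
  refine le_trans (le_of_eq ?_) (ofReal_norm y ▸ ENNReal.ofReal_le_ofReal h3.le)
  rw [h.wnorm_eq, Lp.enorm_def, eLpNorm_one_eq_lintegral_enorm, ← sub_sub_cancel
    ((h.memL1_iff.1 hf).toL1 f) y, ← hc]
  refine lintegral_congr_ae ?_
  filter_upwards [Lp.coeFn_sub ((h.memL1_iff.1 hf).toL1 f)
    (∑ i ∈ Finset.range n, c i • JJ h (hj i) a 1), (h.memL1_iff.1 hf).coeFn_toL1,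
    Lp.coeFn_finsetSum (Finset.range n) fun i => c i • JJ h (hj i) a 1,
    ae_all_iff.2 fun i => Lp.coeFn_smul (c i) (JJ h (hj i) a 1),
    ae_all_iff.2 fun i => (int_G h (hj i) a 1).coeFn_toL1] with t a1 a2 a3 a4 a5
  rw [a1, Pi.sub_apply, a2, a3, Finset.sum_apply]
  congr 2
  refine Finset.sum_congr rfl fun i _ => ?_
  rw [a4, Pi.smul_apply, JJ_apply, a5, ContinuousMap.one_apply, mul_one, smul_eq_mul]

theorem RadicalWeight.pure (h : RadicalWeight ω) {a : ℝ} (ha : 0 < a) :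
    IsPolyGen ω (us a) ↔ ¬Cv ω a :=
  (h.gen_us ha).trans ⟨fun hd hc => absurd hd (by
    exact Pool.Agent.P.MP_0134b7_an.RadicalWeight.not_dn h ha hc), h.dn ha⟩

end Pool.Agent.P.MP_0134b7_an
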