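import Pool.Agent.P.MP_0134b7_an.ConvB
import Pool.Agent.P.MP_0134b7_an.Dense

/-!
The scale on the unitization and the main theorem.
-/

open Set Filter Topology MeasureTheory
open scoped ENNReal

namespace Pool.Agent.P.MP_0134b7_an

variable {ω : ℝ → ℝ} {h : RadicalWeight ω}

theorem RadicalWeight.not_cv_one (h : RadicalWeight ω) : ¬Cv ω 1 := fun hc => by
  obtain ⟨k, h1, h2⟩ := (((tk_tendsto one_pos).eventually (h.eventually_le 1)).and
    (hc.tendsto_atTop_zero.eventually (lt_mem_nhds (show (-1 : ℝ) < 0 by norm_num)))).exists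
  have h3 : tk 1 k = 2 ^ k * 2 ^ k := by
    rw [tk, div_one, Real.rpow_two, sq]
  have h4 : (1 : ℝ) ≤ 2 ^ k := one_le_pow₀ one_le_two
  have h5 := (Real.log_le_iff_le_exp (h.pos _ (tk_pos 1 k).le)).2 h1
  rw [lt_div_iff₀ (by positivity)] at h2
  rw [one_mul] at h5
  nlinarith

theorem RadicalWeight.wnorm_add (h : RadicalWeight ω) {f : ℝ → ℂ}
    (hf : AEStronglyMeasurable f (volume.restrict (Ioi 0))) (g : ℝ → ℂ) :
    wnorm ω (fun t => f t + g t) ≤ wnorm ω f + wnorm ω g := by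
  rw [wnorm, wnorm, wnorm, ← lintegral_add_left' (hf.enorm.fun_mul h.aem.ennreal_ofReal)]
  exact lintegral_mono fun t => (mul_le_mul_left (enorm_add_le _ _) _).trans_eq (add_mul _ _ _)

/-- The unitization. -/
abbrev SS (h : RadicalWeight ω) : Type := Unitization ℂ (LL h)

/-- The norms on the unitization. -/
noncomputable def pp (h : RadicalWeight ω) (C : ℝ) : Seminorm ℂ (SS h) :=
  (normSeminorm ℂ ℂ).comp (Unitization.fstHom ℂ (LL h)).toLinearMap +
    (nm h C).comp (Unitization.sndHom ℂ ℂ (LL h))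

theorem pp_apply (C : ℝ) (x : SS h) : pp h C x = ‖x.fst‖ + nm h C x.snd := rfl

theorem pp_inr (C : ℝ) (x : LL h) : pp h C (x : SS h) = nm h C x := by simp [pp_apply]

theorem snd_le (C : ℝ) (x : SS h) : nm h C x.snd ≤ pp h C x :=
  le_add_of_nonneg_left (norm_nonneg x.fst)

theorem fst_le (C : ℝ) (x : SS h) : ‖x.fst‖ ≤ pp h C x := le_add_of_nonneg_right (apply_nonneg _ _)

theorem exists_pow {x : LL h} {F : ℝ → ℂ} (hx : Rp x F) (k : ℕ) :
    ∃ y : LL h, (x : SS h) ^ (k + 1) = y ∧ Rp y (convPow F k) := by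
  induction k with
  | zero => exact ⟨x, pow_one _, hx⟩
  | succ k ih =>
    obtain ⟨y, h1, h2⟩ := ih
    exact ⟨x * y, by rw [pow_succ', h1, Unitization.inr_mul], hx.mul h2⟩

theorem gen_iff {x : LL h} {F : ℝ → ℂ} (hx : Rp x F) (C : ℝ) :
    (∀ z, ∀ ε : ℝ, 0 < ε → ∃ (n : ℕ) (c : ℕ → ℂ),
      pp h C (z - ∑ i ∈ Finset.range n, c i • (x : SS h) ^ i) < ε) ↔
      IsPolyGen (fun t => ω t * Real.exp (C * t)) F := by
  choose y hy hy' using exists_pow hx
  have key : ∀ (n : ℕ) (c : ℕ → ℂ), ∑ i ∈ Finset.range (n + 1), c i • (x : SS h) ^ i =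
      ((∑ i ∈ Finset.range n, c (i + 1) • y i : LL h) : SS h) + Unitization.inl (c 0) :=
    fun n c => by
    rw [Finset.sum_range_succ', pow_zero, ← Algebra.algebraMap_eq_smul_one,
      ← Unitization.inrHom_apply ℂ ℂ _ (∑ i ∈ _, _), map_sum]
    simp only [hy, map_smul, Unitization.inrHom_apply, Unitization.algebraMap_eq_inl]
  refine ⟨fun hg => ⟨hx.mem C, fun H hH ε hε => ?_⟩, fun hg z ε hε => ?_⟩
  · wlog hε' : ε ≠ ∞
    · obtain ⟨n, c, hc⟩ := this hx C y hy hy' key hg H hH 1 one_pos ENNReal.one_ne_top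
      exact ⟨n, c, not_not.1 hε' ▸ hc.trans ENNReal.one_lt_top⟩
    have h2 := ENNReal.half_pos hε.ne'
    obtain ⟨m, d, hd⟩ := (h.shift C).dn one_pos (h.shift C).not_cv_one H hH _ h2
    choose w hw using fun k : ℕ => exists_rp h fun C' =>
      (h.shift C').memL1_pw (show (0 : ℝ) < (k + 1) * 1 by positivity)
    have hz := Rp.sum (fun k => (hw k).smul (d k)) m
    obtain ⟨n, c, hc⟩ := hg (∑ k ∈ Finset.range m, d k • w k : LL h) (ε / 2).toReal
      (ENNReal.toReal_pos h2.ne' (ENNReal.div_ne_top hε' two_ne_zero))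
    obtain ⟨n, c, hc⟩ : ∃ (n : ℕ) (c : ℕ → ℂ), nm h C (∑ k ∈ Finset.range m, d k • w k -
        ∑ i ∈ Finset.range n, c i • y i) < (ε / 2).toReal := by
      have h3 := (snd_le C _).trans_lt hc
      cases n with
      | zero => exact ⟨0, c, by simpa using h3⟩
      | succ n => exact ⟨n, fun i => c (i + 1), by simpa [key, sub_eq_add_neg] using h3⟩
    rw [nm_apply, ENNReal.toReal_lt_toReal (rp_ne _ _) (ENNReal.div_ne_top hε' two_ne_zero),
      (hz.sub (Rp.sum (fun k => (hy' k).smul (c k)) n)).NN_eq] at hc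
    refine ⟨n, c, lt_of_le_of_lt ?_ ((ENNReal.add_lt_add hd hc).trans_eq (ENNReal.add_halves ε))⟩
    refine le_trans (le_of_eq ?_) ((h.shift C).wnorm_add (hH.1.sub (hz.mem C).1) _)
    simp only [Pi.sub_apply, sub_add_sub_cancel]
  · obtain ⟨n, c, hc⟩ := hg.2 _ ((Rp.self z.snd).mem C) _ (ENNReal.ofReal_pos.2 hε)
    refine ⟨n + 1, fun i => Nat.casesOn i z.fst c, ?_⟩
    rw [← ((Rp.self z.snd).sub (Rp.sum (fun k => (hy' k).smul (c k)) n)).NN_eq] at hc
    have h1 := ENNReal.toReal_lt_of_lt_ofReal hc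
    rw [key, pp_apply]
    simpa [sub_eq_add_neg, nm_apply] using h1

theorem exists_us (h : RadicalWeight ω) {s : ℝ} (hs : 0 < s) : ∃ x : LL h, Rp x (us s) :=
  exists_rp h fun C => (h.shift C).memL1_us hs

theorem us_succ {s t : ℝ} (hs : 0 < s) (ht : 0 < t) : t * us s t = s * us (s + 1) t := by
  have h1 := gamma_ne hs
  have h2 : (s : ℂ) ≠ 0 := Complex.ofReal_ne_zero.2 hs.ne'
  have h3 : (t : ℂ) ≠ 0 := Complex.ofReal_ne_zero.2 ht.ne'
  simp only [us, pw, add_sub_cancel_right, Real.rpow_sub_one ht.ne']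
  push_cast
  rw [Complex.Gamma_add_one _ h2]
  field_simp

theorem mul_us {r s : ℝ} (hr : 0 < r) (hs : 0 < s) {x y : LL h} (hx : Rp x (us r))
    (hy : Rp y (us s)) : Rp (x * y) (us (r + s)) := (hx.mul hy).congr fun _ ht => conv_us hr hs ht

theorem tm_us {s : ℝ} (hs : 0 < s) {x u : LL h} (hx : Rp x (us s)) (hu : Rp u (us 1)) :
    tm x = (s : ℂ) • (x * u) :=
  (hx.tm.congr fun _ ht => us_succ hs ht).ext ((mul_us hs one_pos hx hu).smul s)

/-- The derivation. -/
noncomputable def DD (h : RadicalWeight ω) : Module.End ℂ (SS h) :=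
  Unitization.inrHom ℂ ℂ (LL h) ∘ₗ TT h ∘ₗ Unitization.sndHom ℂ ℂ (LL h)

theorem DD_apply (x : SS h) : DD h x = (TT h x.snd : LL h) := rfl

theorem DD_pow (n : ℕ) (x : SS h) : (DD h ^ (n + 1)) x = ((TT h ^ (n + 1)) x.snd : LL h) := by
  induction n with
  | zero => simp [DD_apply]
  | succ n ih => rw [pow_succ', Module.End.mul_apply, ih, pow_succ' _ (n + 1)]; rfl

/-- The scale. -/
noncomputable def sc {u : LL h} (hu : Rp u (us 1)) : Scale (SS h) where
  p := pp h
  one C := by simp [pp_apply]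
  mul C x y := by
    have h1 := map_add_le_add (nm h C) (x.fst • y.snd + y.fst • x.snd) (x.snd * y.snd)
    have h2 := map_add_le_add (nm h C) (x.fst • y.snd) (y.fst • x.snd)
    have h3 := nm_mul C x.snd y.snd
    rw [map_smul_eq_mul, map_smul_eq_mul] at h2
    rw [pp_apply, pp_apply, pp_apply, Unitization.fst_mul, Unitization.snd_mul, norm_mul]
    linarith
  mono hC x := add_le_add_right (nm_mono hC _) _
  sep x hx := ⟨0, fun e => hx (Unitization.ext (norm_le_zero_iff.1 ((fst_le 0 x).trans_eq e))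
    (nm_sep (le_antisymm ((snd_le 0 x).trans_eq e) (apply_nonneg _ _))))⟩
  complete f hf := by
    obtain ⟨s, hs⟩ := nm_complete (f := fun n => (f n).snd) fun C =>
      (hf C).of_nonneg_of_le (fun _ => apply_nonneg _ _) fun n => snd_le C _
    have h1 : Summable fun n => (f n).fst := .of_norm_bounded (hf 0) fun n => fst_le 0 _
    refine ⟨⟨∑' n, (f n).fst, s⟩, fun C => ?_⟩
    have h2 := (tendsto_iff_norm_sub_tendsto_zero.1 h1.hasSum.tendsto_sum_nat).add (hs C)
    rw [add_zero] at h2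
    refine h2.congr fun N => ?_
    change _ = ‖Unitization.fstHom ℂ (LL h) _‖ + nm h C (Unitization.sndHom ℂ ℂ (LL h) _)
    simp only [map_sub, map_sum]
    rfl
  D := DD h
  leib x y := by
    rw [DD_apply, DD_apply, DD_apply, Unitization.snd_mul, map_add, map_add, map_smul, map_smul]
    refine Unitization.ext (by simp) ?_
    have := tm_mul x.snd y.snd
    change TT h _ = _ * TT h _ + TT h _ * _ at this
    simp only [this, Unitization.snd_inr, Unitization.snd_add, Unitization.snd_mul,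
      Unitization.fst_inr, zero_smul]
    abel
  Dle C r hr n x := by
    cases n with
    | zero => simpa [pp_apply] using nm_mono (le_add_of_nonneg_right hr.le) x.snd
    | succ n =>
      rw [DD_pow, pp_inr]
      exact (nm_TT C hr _ _).trans (mul_le_mul_of_nonneg_left (snd_le _ x) (by positivity))
  ker x e := ⟨x.fst, Unitization.ext rfl (tm_ker (congrArg (fun z : SS h => z.snd) e))⟩
  χ := Unitization.fstHom ℂ (LL h)
  χle := fst_le
  u := u
  χu := rfl
  Du := by
    rw [← Unitization.inr_mul]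
    exact congrArg Unitization.inr ((tm_us one_pos hu hu).trans (one_smul _ _))
  dense C x := by
    obtain ⟨n, c, hc⟩ := (gen_iff hu C).2
      (((h.shift C).pure one_pos).2 (h.shift C).not_cv_one) x 1 one_pos
    cases n with
    | zero => exact ⟨0, 0, by simpa using hc.le⟩
    | succ n =>
      refine ⟨c 0, ∑ i ∈ Finset.range n, c (i + 1) • (u : SS h) ^ i, le_of_eq_of_le ?_ hc.le⟩
      simp only [Finset.sum_range_succ', pow_zero, ← Algebra.algebraMap_eq_smul_one, pow_succ',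
        Finset.mul_sum, mul_smul_comm, add_comm]

theorem RadicalWeight.main (h : RadicalWeight ω) {a : ℝ} (ha : 0 < a) {c : ℂ} (d : ℂ) (hc : c ≠ 0)
    {g f : ℝ → ℂ} (hg : ∀ C, MemL1 (fun t => ω t * Real.exp (C * t)) g)
    (hf : ∀ᵐ t ∂volume.restrict (Ioi 0), f t = c * ((t ^ (a - 1) : ℝ) : ℂ) +
      d * ((t ^ a : ℝ) : ℂ) + conv (fun s => ((s ^ a : ℝ) : ℂ)) g t) :
    IsPolyGen ω f ↔ ¬IntegrableOn (fun t => Real.log (ω t) / t ^ (1 + a / 2)) (Ioi 1) := by
  obtain ⟨u, hu⟩ := exists_us h one_pos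
  obtain ⟨v, hv⟩ := exists_us h ha
  obtain ⟨z, hz⟩ := exists_rp h hg
  have h1 := mul_ne_zero hc (gamma_ne ha)
  have h2 := gamma_ne (add_pos ha one_pos)
  have hw : Rp (Complex.Gamma (a + 1 : ℝ) • (v * u)) fun s => ((s ^ a : ℝ) : ℂ) :=
    ((mul_us ha one_pos hv hu).smul _).congr fun t _ => by
      rw [us, mul_inv_cancel_left₀ h2, pw, add_sub_cancel_right]
  have hx : Rp _ f := EventuallyEq.trans
    ((((hv.smul (c * Complex.Gamma a)).add (hw.smul d)).add (hw.mul hz)).congr fun t _ => by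
      rw [us, mul_assoc, mul_inv_cancel_left₀ (gamma_ne ha), pw]) (EventuallyEq.symm hf)
  obtain ⟨h3, h4⟩ := (sc hu).transfer (Complex.ofReal_ne_zero.2 ha.ne') (v := v)
    ((congrArg Unitization.inr (tm_us ha hv hu)).trans (by
      rw [Unitization.inr_smul, Unitization.inr_mul]; rfl))
    (((c * Complex.Gamma a)⁻¹ * Complex.Gamma (a + 1 : ℝ)) • (algebraMap ℂ _ d + (z : SS h)))
  have h5 := gen_iff hx 0
  simp only [zero_mul, Real.exp_zero, mul_one] at h5
  have h6 : (((c * Complex.Gamma a) • v + d • Complex.Gamma (a + 1 : ℝ) • (v * u) +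
      Complex.Gamma (a + 1 : ℝ) • (v * u) * z : LL h) : SS h) = (c * Complex.Gamma a) •
        ((v : SS h) * (1 + (u : SS h) * ((c * Complex.Gamma a)⁻¹ * Complex.Gamma (a + 1 : ℝ)) •
          (algebraMap ℂ _ d + (z : SS h)))) := by
    simp only [Unitization.inr_add, Unitization.inr_smul, Unitization.inr_mul, mul_add, smul_add,
      mul_smul_comm, smul_smul, mul_inv_cancel_left₀ h1, Algebra.algebraMap_eq_smul_one, mul_one,
      smul_mul_assoc, mul_assoc, add_assoc, mul_comm d]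
  rw [h6] at h5
  rw [← h5, ← h.cv_iff_integrable ha]
  refine ⟨fun h7 => ?_, fun h7 => Scale.Gen.smul (h3 fun C => ?_) h1⟩
  · have h8 := Scale.Gen.smul (A := sc hu) h7 (inv_ne_zero h1)
    rw [inv_smul_smul₀ h1] at h8
    obtain ⟨C, h9⟩ := h4 h8
    exact (h.cv_shift_iff ha C).not.1 (((h.shift C).pure ha).1 ((gen_iff hv C).1 h9))
  · exact (gen_iff hv C).2 (((h.shift C).pure ha).2 ((h.cv_shift_iff ha C).not.2 h7))

end Pool.Agent.P.MP_0134b7_an
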