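import Mathlib

/-!
Radical weights on the half line, the convolution algebra and its polynomial generators.
-/

open Set Filter Topology MeasureTheory
open scoped ENNReal

namespace Pool.Agent.P.MP_0134b7_an

/-- A radical weight on `[0, ∞)`. -/
structure RadicalWeight (ω : ℝ → ℝ) : Prop where
  cont : ContinuousOn ω (Ici 0)
  pos : ∀ t, 0 ≤ t → 0 < ω t
  submul : ∀ s t, 0 ≤ s → 0 ≤ t → ω (s + t) ≤ ω s * ω t
  radical : Tendsto (fun t => ω t ^ (1 / t)) atTop (𝓝 0)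

/-- The weighted norm. -/
noncomputable def wnorm (ω : ℝ → ℝ) (f : ℝ → ℂ) : ℝ≥0∞ :=
  ∫⁻ t in Ioi (0 : ℝ), ‖f t‖ₑ * ENNReal.ofReal (ω t)

/-- Membership in `L¹(ω)`. -/
def MemL1 (ω : ℝ → ℝ) (f : ℝ → ℂ) : Prop :=
  AEStronglyMeasurable f (volume.restrict (Ioi 0)) ∧ wnorm ω f < ∞

/-- Convolution on the half line. -/
noncomputable def conv (f g : ℝ → ℂ) (t : ℝ) : ℂ := ∫ s in (0 : ℝ)..t, f (t - s) * g s

/-- `convPow f k` is the convolution power of order `k + 1`. -/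
noncomputable def convPow (f : ℝ → ℂ) : ℕ → ℝ → ℂ
  | 0 => f
  | k + 1 => conv f (convPow f k)

/-- Polynomials in `f` without constant term are dense in `L¹(ω)`. -/
def IsPolyGen (ω : ℝ → ℝ) (f : ℝ → ℂ) : Prop :=
  MemL1 ω f ∧ ∀ h, MemL1 ω h → ∀ ε : ℝ≥0∞, 0 < ε → ∃ (n : ℕ) (c : ℕ → ℂ),
    wnorm ω (fun t => h t - ∑ k ∈ Finset.range n, c k * convPow f k t) < ε

end Pool.Agent.P.MP_0134b7_an
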