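import Pool.Agent.P.MP_0134b7_an.Base

/-!
If the logarithmic integral converges, the powers `t ^ (k * a - 1)` have a nonzero annihilator.
-/

open Set Filter Topology MeasureTheory Complex
open scoped ENNReal

namespace Pool.Agent.P.MP_0134b7_an

variable {ω : ℝ → ℝ}

theorem cauchy_half {G : ℂ → ℂ} (hG : ∀ w : ℂ, 0 ≤ w.re → DifferentiableAt ℂ G w) {C : ℝ}
    (hb : ∀ w : ℂ, 0 ≤ w.re → ‖G w‖ ≤ C * (1 + ‖w‖ ^ 2)⁻¹) :
    ∫ y in Ioi (0 : ℝ), (G (y * I) + G (-(y * I))) = 0 := by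
  have hC : 0 ≤ C := by simpa using (norm_nonneg _).trans (hb 0 le_rfl)
  have hc : Continuous fun y : ℝ => G (y * I) :=
    continuous_iff_continuousAt.2 fun y => ContinuousAt.comp (f := fun y : ℝ => (y : ℂ) * I)
      (hG _ (by simp)).continuousAt (by fun_prop)
  have hi : Integrable fun y : ℝ => G (y * I) :=
    (integrable_inv_one_add_sq.const_mul C).mono' hc.aestronglyMeasurable
      (.of_forall fun y => by simpa using hb (y * I) (by simp))
  have h0 : ∫ y : ℝ, G (y * I) = 0 := by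
    refine tendsto_nhds_unique
      (intervalIntegral_tendsto_integral hi tendsto_neg_atTop_atBot tendsto_id) ?_
    refine squeeze_zero_norm' (a := fun R : ℝ => 4 * C * R⁻¹) ?_
      (by simpa using tendsto_inv_atTop_zero.const_mul (4 * C))
    filter_upwards [eventually_gt_atTop 0] with R hR
    have h1 := integral_boundary_rect_eq_zero_of_differentiableOn G ⟨0, -R⟩ ⟨R, R⟩
      fun w hw => (hG w (by
        have := (mem_reProdIm.1 hw).1
        rw [uIcc_of_le hR.le] at this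
        exact this.1)).differentiableWithinAt
    have h2 : ∀ w : ℂ, 0 ≤ w.re → R ≤ ‖w‖ → ‖G w‖ ≤ C * (R ^ 2)⁻¹ := fun w hw hw' =>
      (hb w hw).trans (by
        gcongr
        nlinarith)
    have h3 : ∀ y : ℝ, |y| = R → ‖∫ x : ℝ in (0 : ℝ)..R, G (x + y * I)‖ ≤
        C * (R ^ 2)⁻¹ * |R - 0| := fun y hy =>
      intervalIntegral.norm_integral_le_of_norm_le_const fun x hx => by
        rw [uIoc_of_le hR.le] at hx
        refine h2 _ (by simpa using hx.1.le) ?_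
        simpa [hy] using abs_im_le_norm (x + y * I)
    have h4 : ‖∫ y : ℝ in (-R)..R, G (R + y * I)‖ ≤ C * (R ^ 2)⁻¹ * |R - -R| :=
      intervalIntegral.norm_integral_le_of_norm_le_const fun y _ => by
        refine h2 _ (by simpa using hR.le) ?_
        simpa using re_le_norm (R + y * I)
    have h5 := h3 (-R) (by rw [abs_neg, abs_of_pos hR])
    have h6 := h3 R (abs_of_pos hR)
    simp only [ofReal_zero, zero_add] at h1
    rw [sub_eq_zero] at h1
    have h7 := congrArg norm h1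
    rw [norm_smul, norm_I, one_mul] at h7
    rw [id, ← h7]
    refine (norm_add_le _ _).trans ((add_le_add (norm_sub_le _ _) le_rfl).trans ?_)
    rw [norm_smul, norm_I, one_mul]
    refine (add_le_add (add_le_add h5 h6) h4).trans (le_of_eq ?_)
    rw [sub_zero, sub_neg_eq_add, abs_of_pos hR, abs_of_pos (add_pos hR hR)]
    field_simp
    ring
  have h1 := integral_comp_neg_Ioi 0 fun y : ℝ => G (y * I)
  have h2 : IntegrableOn (fun y : ℝ => G (-(y * I))) (Ioi 0) := by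
    simpa using hi.comp_neg.integrableOn
  simp only [ofReal_neg, neg_mul, neg_zero] at h1
  rw [integral_add hi.integrableOn h2, h1, add_comm,
    intervalIntegral.integral_Iic_add_Ioi hi.integrableOn hi.integrableOn, h0]

/-- The exponent of the product of Krein type. -/
noncomputable def kS (D : ℕ → ℝ) (w : ℂ) : ℂ := ∑' k, (D k : ℂ) * (w / (2 ^ k + w))

theorem kS_term {D : ℕ → ℝ} (hD : ∀ k, 0 ≤ D k) (k : ℕ) {w : ℂ} (hw : -(1 / 2) < w.re) :
    (2 : ℂ) ^ k + w ≠ 0 ∧ ‖(D k : ℂ) * (w / (2 ^ k + w))‖ ≤ 2 * ‖w‖ * (D k / 2 ^ k) := by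
  have h1 : (1 : ℝ) ≤ 2 ^ k := one_le_pow₀ one_le_two
  have h2 : (2 : ℝ) ^ k / 2 ≤ ‖(2 : ℂ) ^ k + w‖ := by
    refine le_trans ?_ (re_le_norm _)
    rw [add_re, ← ofReal_ofNat, ← ofReal_pow, ofReal_re]
    linarith
  refine ⟨norm_pos_iff.1 (lt_of_lt_of_le (by positivity) h2), ?_⟩
  rw [norm_mul, norm_div, norm_real, Real.norm_of_nonneg (hD k)]
  have := hD k
  calc D k * (‖w‖ / ‖(2 : ℂ) ^ k + w‖) ≤ D k * (‖w‖ / (2 ^ k / 2)) := by gcongr
    _ = _ := by field_simp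

theorem kS_diff {D : ℕ → ℝ} (hD : ∀ k, 0 ≤ D k) (hs : Summable fun k => D k / 2 ^ k) {w : ℂ}
    (hw : 0 ≤ w.re) : DifferentiableAt ℂ (kS D) w := by
  have hU : IsOpen ({z : ℂ | -(1 / 2) < z.re} ∩ Metric.ball 0 (‖w‖ + 1)) :=
    (isOpen_lt continuous_const continuous_re).inter Metric.isOpen_ball
  refine (differentiableOn_tsum_of_summable_norm (hs.mul_left (2 * (‖w‖ + 1)))
    (fun k z hz => ?_) hU fun k z hz => (kS_term hD k hz.1).2.trans ?_).differentiableAt
    (hU.mem_nhds ⟨by simp only [mem_ofPred_eq]; linarith, by simp⟩)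
  · have := (kS_term hD k hz.1).1
    exact DifferentiableAt.differentiableWithinAt (by fun_prop (disch := exact this))
  · have := hD k
    have := (mem_ball_zero_iff.1 hz.2).le
    gcongr

theorem re_term {ρ : ℝ} (hρ : 0 < ρ) {w : ℂ} (hw : 0 ≤ w.re) :
    0 ≤ (w / (ρ + w)).re ∧ (ρ / 2 ≤ ‖w‖ → 1 / 5 ≤ (w / (ρ + w)).re) := by
  have h1 : 0 < normSq (ρ + w) := normSq_pos.2 fun h => by
    have := congrArg re h
    simp only [add_re, ofReal_re, zero_re] at this
    linarith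
  rw [div_re, ← add_div]
  simp only [add_re, ofReal_re, add_im, ofReal_im, zero_add]
  refine ⟨div_nonneg (by nlinarith [mul_self_nonneg w.im]) h1.le, fun h => ?_⟩
  have h2 : (ρ / 2) ^ 2 ≤ ‖w‖ ^ 2 := by gcongr
  rw [Complex.sq_norm, normSq_apply] at h2
  rw [le_div_iff₀ h1, normSq_apply]
  simp only [add_re, ofReal_re, add_im, ofReal_im, zero_add]
  nlinarith

theorem kS_re {D : ℕ → ℝ} (hD : ∀ k, 0 ≤ D k) (hs : Summable fun k => D k / 2 ^ k) {w : ℂ}
    (hw : 0 ≤ w.re) : 0 ≤ (kS D w).re ∧ ∀ k, 2 ^ k / 2 ≤ ‖w‖ → D k / 5 ≤ (kS D w).re := by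
  have h1 : Summable fun k => (D k : ℂ) * (w / (2 ^ k + w)) :=
    .of_norm_bounded (hs.mul_left (2 * ‖w‖)) fun k => (kS_term hD k (by linarith)).2
  have h2 : ∀ k : ℕ, 0 ≤ (w / (2 ^ k + w)).re ∧
      ((2 : ℝ) ^ k / 2 ≤ ‖w‖ → 1 / 5 ≤ (w / (2 ^ k + w)).re) := fun k => by
    simpa using re_term (ρ := 2 ^ k) (by positivity) hw
  have h3 : ∀ k, 0 ≤ ((D k : ℂ) * (w / (2 ^ k + w))).re := fun k => by
    rw [re_ofReal_mul]
    exact mul_nonneg (hD k) (h2 k).1
  rw [kS, re_tsum h1]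
  refine ⟨tsum_nonneg h3, fun k hk => le_trans ?_
    ((reCLM.summable h1).le_tsum k fun j _ => h3 j)⟩
  rw [reCLM_apply, re_ofReal_mul, div_eq_mul_one_div]
  exact mul_le_mul_of_nonneg_left ((h2 k).2 hk) (hD k)

theorem rpow_le_exp {x : ℝ} (hx : 0 ≤ x) : ∃ B, ∀ t : ℝ, 0 ≤ t → t ^ x ≤ B * Real.exp t := by
  refine ⟨(⌈x⌉₊).factorial, fun t ht => ?_⟩
  have h0 : (1 : ℝ) ≤ (⌈x⌉₊).factorial := by exact_mod_cast Nat.factorial_pos _
  rcases le_total t 1 with h | h
  · exact (Real.rpow_le_one ht h hx).trans (one_le_mul_of_one_le_of_one_le h0 (Real.one_le_exp ht))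
  · have h1 := Real.pow_div_factorial_le_exp t ht ⌈x⌉₊
    rw [div_le_iff₀' (by positivity)] at h1
    refine le_trans ?_ h1
    rw [← Real.rpow_natCast]
    exact Real.rpow_le_rpow_of_exponent_le h (Nat.le_ceil x)

theorem RadicalWeight.outer (h : RadicalWeight ω) {a : ℝ} (ha : 0 < a) (hc : Cv ω a) :
    ∃ (S : ℂ → ℂ) (C : ℝ), (∀ w : ℂ, 0 ≤ w.re → DifferentiableAt ℂ S w) ∧
      ∀ w : ℂ, 0 ≤ w.re → Real.exp (-(S w).re) ≤ C * ω (‖w‖ ^ (2 / a)) := by
  obtain ⟨K, hK⟩ := h.exists_bd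
  have hD : ∀ k, 0 ≤ 5 * (K - Real.log (ω (tk a k))) := fun k =>
    mul_nonneg (by norm_num) (sub_nonneg.2 (h.log_le hK (tk_pos a k).le))
  have hs : Summable fun k : ℕ => 5 * (K - Real.log (ω (tk a k))) / 2 ^ k := by
    simpa only [mul_div_assoc] using ((cv_iff K a).1 hc).mul_left 5
  refine ⟨kS _, Real.exp (K - Real.log (ω 1)), fun w hw => kS_diff hD hs hw, fun w hw => ?_⟩
  have ht : 0 ≤ ‖w‖ ^ (2 / a) := by positivity
  have h1 := h.log_le hK zero_le_one
  obtain ⟨h2, h3⟩ := kS_re hD hs hw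
  rw [← Real.exp_log (h.pos _ ht), ← Real.exp_add, Real.exp_le_exp]
  rcases le_total (2 * ‖w‖) 1 with h4 | h4
  · have := h.log_anti hK ht (Real.rpow_le_one (norm_nonneg w) (by linarith) (by positivity))
    linarith
  · obtain ⟨k, h5, h6⟩ := exists_nat_pow_near h4 one_lt_two
    have h7 := h3 k (by linarith)
    have h8 : ‖w‖ ^ (2 / a) ≤ tk a k :=
      Real.rpow_le_rpow (norm_nonneg w) (by rw [pow_succ] at h6; linarith) (by positivity)
    have := h.log_anti hK ht h8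
    linarith

theorem RadicalWeight.krein (h : RadicalWeight ω) {a : ℝ} (ha : 0 < a) (hc : Cv ω a) :
    ∃ (φ : ℝ → ℂ) (C : ℝ), ContinuousOn φ (Ioi 0) ∧ φ 1 ≠ 0 ∧ (∀ t, 0 < t → ‖φ t‖ ≤ C * ω t) ∧
      ∀ k : ℕ, ∫ t in Ioi 0, φ t * pw ((k + 1) * a) t = 0 := by
  obtain ⟨S, C, hS, hC⟩ := h.outer ha hc
  obtain ⟨F, hF, hFb, hF1⟩ : ∃ F : ℂ → ℂ, (∀ w : ℂ, 0 ≤ w.re → DifferentiableAt ℂ F w) ∧
      (∀ w : ℂ, 0 ≤ w.re → ‖F w‖ ≤ C * ω (‖w‖ ^ (2 / a))) ∧ F I - F (-I) ≠ 0 := by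
    by_cases h1 : exp (-S I) - exp (-S (-I)) = 0
    · refine ⟨fun w => exp (-(Real.pi / 2 * w)) * exp (-S w), fun w hw => ?_, fun w hw => ?_, ?_⟩
      · have := hS w hw
        fun_prop
      · rw [norm_mul, norm_exp, norm_exp, neg_re (S w)]
        refine (mul_le_of_le_one_left (Real.exp_pos _).le ?_).trans (hC w hw)
        have := Real.pi_pos
        rw [Real.exp_le_one_iff, neg_re, neg_nonpos, ← ofReal_ofNat, ← ofReal_div, re_ofReal_mul]
        positivity
      · simp only [mul_neg, neg_neg, exp_neg (_ * I), exp_pi_div_two_mul_I, inv_I]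
        rw [← sub_eq_zero.1 h1, ← sub_mul]
        refine mul_ne_zero ?_ (exp_ne_zero _)
        rw [← neg_add', ← two_mul]
        simp
    · refine ⟨fun w => exp (-S w), fun w hw => (hS w hw).neg.cexp, fun w hw => ?_, h1⟩
      rw [norm_exp, neg_re]
      exact hC w hw
  have hp : 0 < a / 2 := by positivity
  have hn : ∀ t : ℝ, 0 < t → ‖((t ^ (a / 2) : ℝ) : ℂ) * I‖ ^ (2 / a) = t := fun t ht => by
    rw [norm_mul, norm_I, mul_one, norm_real, Real.norm_of_nonneg (by positivity),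
      ← Real.rpow_mul ht.le, show a / 2 * (2 / a) = 1 by field_simp, Real.rpow_one]
  refine ⟨fun t => F ((t ^ (a / 2) : ℝ) * I) - F (-((t ^ (a / 2) : ℝ) * I)), 2 * C,
    fun t ht => ContinuousAt.continuousWithinAt ?_, by simpa using hF1, fun t ht => ?_,
    fun k => ?_⟩
  · have h1 : ContinuousAt (fun t : ℝ => ((t ^ (a / 2) : ℝ) : ℂ) * I) t := by
      have := Real.continuousAt_rpow_const t (a / 2) (Or.inr hp.le)
      fun_prop
    exact (ContinuousAt.comp (f := fun t : ℝ => ((t ^ (a / 2) : ℝ) : ℂ) * I)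
      (hF _ (by simp)).continuousAt h1).sub
      (ContinuousAt.comp (f := fun t : ℝ => -(((t ^ (a / 2) : ℝ) : ℂ) * I))
        (hF _ (by simp)).continuousAt h1.neg)
  · have h1 := hFb ((t ^ (a / 2) : ℝ) * I) (by simp)
    have h2 := hFb (-((t ^ (a / 2) : ℝ) * I)) (by simp)
    rw [norm_neg] at h2
    rw [hn t ht] at h1 h2
    refine (norm_sub_le _ _).trans ?_
    linarith
  · obtain ⟨K, hK1, hK⟩ := h.exp_bound 1
    obtain ⟨B, hB⟩ := rpow_le_exp (x := a / 2 * (2 * k + 1)) (by positivity)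
    obtain ⟨B', hB'⟩ := rpow_le_exp (x := a / 2 * (2 * k + 3)) (by positivity)
    have hC0 : 0 ≤ C := nonneg_of_mul_nonneg_left ((norm_nonneg _).trans (hFb 0 le_rfl))
      (h.pos _ (by positivity))
    have h1 := cauchy_half (G := fun w => F w * w ^ (2 * k + 1)) (C := C * K * (B + B'))
      (fun w hw => (hF w hw).mul (by fun_prop)) fun w hw => by
        have ht : 0 ≤ ‖w‖ ^ (2 / a) := by positivity
        have h2 := hB _ ht
        have h3 := hB' _ ht
        rw [← Real.rpow_mul (norm_nonneg w)] at h2 h3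
        rw [show 2 / a * (a / 2 * (2 * k + 1)) = ((2 * k + 1 : ℕ) : ℝ) by push_cast; field_simp,
          Real.rpow_natCast] at h2
        rw [show 2 / a * (a / 2 * (2 * k + 3)) = ((2 * k + 1 + 2 : ℕ) : ℝ) by
          push_cast; field_simp; ring, Real.rpow_natCast, pow_add] at h3
        have h4 := (hFb w hw).trans (mul_le_mul_of_nonneg_left (hK _ ht) hC0)
        rw [one_mul, Real.exp_neg] at h4
        rw [← div_eq_mul_inv, le_div_iff₀ (by positivity), norm_mul, norm_pow]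
        have h5 := Real.exp_pos (‖w‖ ^ (2 / a))
        calc _ = ‖F w‖ * (‖w‖ ^ (2 * k + 1) + ‖w‖ ^ (2 * k + 1) * ‖w‖ ^ 2) := by ring
          _ ≤ C * (K * (Real.exp (‖w‖ ^ (2 / a)))⁻¹) *
              (B * Real.exp (‖w‖ ^ (2 / a)) + B' * Real.exp (‖w‖ ^ (2 / a))) := by gcongr
          _ = _ := by field_simp
    rw [← integral_comp_rpow_Ioi_of_pos hp] at h1
    refine (mul_eq_zero.1 (?_ : ((a / 2 : ℝ) : ℂ) * I ^ (2 * k + 1) * _ = 0)).resolve_left
      (mul_ne_zero (ofReal_ne_zero.2 hp.ne') (pow_ne_zero _ I_ne_zero))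
    rw [← h1, ← integral_const_mul]
    refine setIntegral_congr_fun measurableSet_Ioi fun t ht => ?_
    have h2 : t ^ ((k + 1) * a - 1) = t ^ (a / 2 - 1) * (t ^ (a / 2)) ^ (2 * k + 1) := by
      rw [← Real.rpow_natCast, ← Real.rpow_mul (le_of_lt ht), ← Real.rpow_add ht]
      congr 1
      push_cast
      ring
    simp only [pw, h2, real_smul, (odd_two_mul_add_one k).neg_pow]
    push_cast
    ring

theorem RadicalWeight.pair (h : RadicalWeight ω) {φ g : ℝ → ℂ} {C : ℝ}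
    (hφ : ContinuousOn φ (Ioi 0)) (hb : ∀ t, 0 < t → ‖φ t‖ ≤ C * ω t) (hg : MemL1 ω g) :
    IntegrableOn (fun t => φ t * g t) (Ioi 0) ∧
      ‖∫ t in Ioi 0, φ t * g t‖ₑ ≤ ENNReal.ofReal C * wnorm ω g := by
  have hC : 0 ≤ C := nonneg_of_mul_nonneg_left ((norm_nonneg _).trans (hb 1 one_pos))
    (h.pos _ zero_le_one)
  have h1 : ∫⁻ t in Ioi 0, ‖φ t * g t‖ₑ ≤ ENNReal.ofReal C * wnorm ω g := by
    rw [wnorm, ← lintegral_const_mul' _ _ ENNReal.ofReal_ne_top]
    refine setLIntegral_mono' measurableSet_Ioi fun t ht => ?_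
    rw [enorm_mul, mul_left_comm, mul_comm, ← ENNReal.ofReal_mul hC, ← ofReal_norm (φ t)]
    exact mul_le_mul_right (ENNReal.ofReal_le_ofReal (hb t ht)) _
  exact ⟨⟨(hφ.aestronglyMeasurable measurableSet_Ioi).mul hg.1,
    h1.trans_lt (ENNReal.mul_lt_top ENNReal.ofReal_lt_top hg.2)⟩,
    (enorm_integral_le_lintegral_enorm _).trans h1⟩

theorem RadicalWeight.not_dn (h : RadicalWeight ω) {a : ℝ} (ha : 0 < a) (hc : Cv ω a) :
    ¬Dn ω a := fun hd => by
  obtain ⟨φ, C, hφ, h1, hb, hk⟩ := h.krein ha hc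
  obtain ⟨K, hK⟩ := h.exists_bd
  obtain ⟨K', -, hK'⟩ := h.exp_bound 1
  have hC : 0 ≤ C := nonneg_of_mul_nonneg_left ((norm_nonneg _).trans (hb 1 one_pos))
    (h.pos _ zero_le_one)
  have hφ' : ContinuousOn (fun t => (starRingEnd ℂ) (φ t)) (Ioi 0) :=
    continuous_conj.comp_continuousOn hφ
  have hm : MemL1 ω fun t => (starRingEnd ℂ) (φ t) := by
    refine memL1_of_le (hφ'.aestronglyMeasurable measurableSet_Ioi)
      ((int_pw one_pos K').const_mul (C * Real.exp K)) fun t ht => ?_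
    rw [norm_conj, sub_self, Real.rpow_zero, one_mul]
    exact mul_le_mul ((hb t ht).trans (mul_le_mul_of_nonneg_left (hK.2 t ht.le) hC))
      (hK' t ht.le) (h.pos t ht.le).le (by positivity)
  have h2 : ∫ t in Ioi 0, φ t * (starRingEnd ℂ) (φ t) = 0 := by
    rw [← enorm_eq_zero]
    by_contra h3
    obtain ⟨ε, hε, h4⟩ := ENNReal.exists_nnreal_pos_mul_lt
      (ENNReal.ofReal_ne_top (r := C)) h3
    obtain ⟨n, c, h5⟩ := hd _ hm ε (by exact_mod_cast hε)
    have h6 : ∀ k : ℕ, MemL1 ω (pw ((k + 1) * a)) := fun k => h.memL1_pw (by positivity)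
    have h7 : MemL1 ω fun t => ∑ k ∈ Finset.range n, c k * pw ((k + 1) * a) t :=
      h.memL1_iff.2 (integrable_finsetSum _ fun k _ => (h.memL1_iff.1 (h6 k)).const_mul _)
    have h8 := (h.pair hφ hb (h.memL1_iff.2 ((h.memL1_iff.1 hm).sub (h.memL1_iff.1 h7)))).2
    have h9 : ∫ t in Ioi 0, φ t * ∑ k ∈ Finset.range n, c k * pw ((k + 1) * a) t = 0 := by
      simp only [Finset.mul_sum, mul_left_comm (φ _)]
      rw [integral_finsetSum _ fun k _ => (h.pair hφ hb (h6 k)).1.const_mul _]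
      simp only [integral_const_mul, hk, mul_zero, Finset.sum_const_zero]
    simp only [Pi.sub_apply, mul_sub] at h8
    rw [integral_sub (h.pair hφ hb hm).1 (h.pair hφ hb h7).1, h9, sub_zero] at h8
    exact absurd (h8.trans (mul_le_mul_right h5.le _)) (not_le.2 (by rwa [mul_comm]))
  have h3 : Integrable (fun t => normSq (φ t)) (volume.restrict (Ioi 0)) := by
    simpa [mul_conj] using (h.pair hφ hb hm).1.re
  simp only [mul_conj, integral_complex_ofReal, ofReal_eq_zero] at h2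
  rw [integral_eq_zero_iff_of_nonneg (fun t => normSq_nonneg _) h3] at h2
  have h4 := Measure.eqOn_open_of_ae_eq h2 isOpen_Ioi
    (continuous_normSq.comp_continuousOn hφ) continuousOn_const (mem_Ioi.2 one_pos)
  exact h1 (normSq_eq_zero.1 h4)

end Pool.Agent.P.MP_0134b7_an
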