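import Pool.Agent.P.MP_0134b7_an.RNice

/-!
The summation argument for the recursion.
-/

open Set Filter Topology MeasureTheory Complex
open scoped Real

namespace Pool.Agent.P.MP_0134b7_an

theorem pls_tele {b v : ℕ → ℝ} {c : ℝ} (hc : 0 ≤ c) (hb : ∀ k, 0 ≤ b k) (hv0 : ∀ k, 0 ≤ v k)
    (h : ∀ k, b k ≤ c * (v k - v (k + 2))) : Summable b := by
  have h1 : ∀ N, ∑ k ∈ Finset.range N, b k ≤ c * (v 0 + v 1 - v N - v (N + 1)) := by
    intro N
    induction N with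
    | zero => simp
    | succ N ih =>
      rw [Finset.sum_range_succ]
      have := h N
      linarith
  refine summable_of_sum_range_le hb (c := c * (v 0 + v 1)) fun N => (h1 N).trans ?_
  exact mul_le_mul_of_nonneg_left (by linarith [hv0 N, hv0 (N + 1)]) hc

theorem pls_scalar {l l' y : ℝ} (hl : 0 ≤ l) (hy0 : 0 ≤ y) (hy1 : y ≤ 1)
    (h : l + y / 1792 ≤ l') : y / (1 + l) ^ 2 ≤ 3584 * (1 / (1 + l) - 1 / (1 + l')) := by
  have h1 : 1 / (1 + l') ≤ 1 / (1 + l + y / 1792) :=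
    one_div_le_one_div_of_le (by positivity) (by linarith)
  have h2 : 1 / (1 + l) - 1 / (1 + l + y / 1792) =
      y / 1792 / ((1 + l) * (1 + l + y / 1792)) := by
    field_simp
    ring
  have h3 : y / 1792 / ((1 + l) * (2 * (1 + l))) ≤ y / 1792 / ((1 + l) * (1 + l + y / 1792)) :=
    div_le_div_of_nonneg_left (by positivity) (by positivity)
      (mul_le_mul_of_nonneg_left (by linarith) (by positivity))
  have h4 : y / (1 + l) ^ 2 = 3584 * (y / 1792 / ((1 + l) * (2 * (1 + l)))) := by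
    field_simp
    ring
  linarith

theorem pls_log {a b y t₀ : ℝ} (ht : 0 < t₀) (ha : 0 < a) (hy0 : 0 ≤ y) (hy1 : y ≤ 1)
    (h : a * (1 + y / 896) ≤ b) : Real.log (a / t₀) + y / 1792 ≤ Real.log (b / t₀) := by
  have h1 : 0 < 1 + y / 896 := by positivity
  have h2 : Real.log (a / t₀ * (1 + y / 896)) ≤ Real.log (b / t₀) := by
    refine Real.log_le_log (by positivity) ?_
    rw [div_mul_eq_mul_div]
    exact div_le_div_of_nonneg_right h ht.le
  rw [Real.log_mul (by positivity) h1.ne'] at h2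
  have h3 := Real.one_sub_inv_le_log_of_pos h1
  have h4 : (1 + y / 896)⁻¹ ≤ 1 - y / 1792 := by
    rw [inv_le_iff_one_le_mul₀ h1]
    nlinarith
  linarith

theorem pls_pow {κ : ℕ → ℝ} {Q : ℝ} (hQ : 0 ≤ Q) (hκQ : ∀ j, κ (j + 1) ≤ Q * κ j) (a i : ℕ) :
    κ (a + i) ≤ Q ^ i * κ a := by
  induction i with
  | zero => simp
  | succ i ih =>
    have h1 := hκQ (a + i)
    have h2 := mul_le_mul_of_nonneg_left ih hQ
    rw [← add_assoc, pow_succ]
    linarith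

theorem pls_geo (c : ℝ) : Summable fun i : ℕ => (1 + i * c) ^ 2 / (2 : ℝ) ^ i := by
  have h : ‖(1 / 2 : ℝ)‖ < 1 := by norm_num
  have h0 := summable_pow_mul_geometric_of_norm_lt_one 0 h
  have h1 := (summable_pow_mul_geometric_of_norm_lt_one 1 h).mul_left (2 * c)
  have h2 := (summable_pow_mul_geometric_of_norm_lt_one 2 h).mul_left (c ^ 2)
  refine ((h0.add h1).add h2).congr fun i => ?_
  simp only [one_div, inv_pow]
  field_simp
  ring

theorem pls_conv {f b c : ℕ → ℝ} {G H : ℝ} (hf : ∀ j, 0 ≤ f j) (hb0 : ∀ j, 0 ≤ b j)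
    (hc0 : ∀ j, 0 ≤ c j) (hb : Summable b) (hc : Summable c)
    (h : ∀ j, ∃ m, 8 * (m - 2) ≤ j ∧ f j ≤ G * (1 / 2 ^ j) + H * (b m * c (j - 8 * (m - 2)))) :
    Summable f := by
  choose m hm1 hm2 using h
  have h1 := hb.mul_of_nonneg hc hb0 hc0
  have h2 : Function.Injective fun j => (m j, j - 8 * (m j - 2)) := by
    intro i j hij
    simp only [Prod.mk.injEq] at hij
    have a1 := hm1 i
    have a2 := hm1 j
    obtain ⟨a3, a4⟩ := hij
    rw [a3] at a1 a4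
    omega
  have h3 := (h1.comp_injective h2).mul_left H
  exact ((summable_half.mul_left G).add h3).of_nonneg_of_le hf hm2

theorem pls_term {e eT k T T₀ K ε y P W : ℝ} (hk : 1 ≤ k) (hT : 0 < T₀) (hTT : T₀ ≤ T)
    (hK : 0 ≤ K) (hε : 0 < ε) (hP : 0 < P) (he : e ≤ 2 * (ε * k / T) * (eT + K))
    (hy : eT / T ≤ W * y) :
    (e + K) / (P * k) ≤ (2 * ε * K / T₀ + K) * (1 / P) + 2 * ε * W * (y / P) := by
  have k0 : 0 < k := by linarith
  have T0 : 0 < T := hT.trans_le hTT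
  have h1 : K / T ≤ K / T₀ := div_le_div_of_nonneg_left hK hT hTT
  have h2 : e + K ≤ (2 * ε * (W * y + K / T₀) + K) * k := by
    have a1 : 2 * (ε * k / T) * (eT + K) = 2 * ε * k * (eT / T + K / T) := by
      field_simp
    have a2 := mul_le_mul_of_nonneg_left (add_le_add hy h1) (by positivity : 0 ≤ 2 * ε * k)
    have a3 := mul_le_mul_of_nonneg_left hk hK
    linarith
  rw [div_le_iff₀ (by positivity)]
  refine h2.trans (le_of_eq ?_)
  field_simp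
  ring

theorem pl_sum {κ τ : ℕ → ℝ} {η : ℝ → ℝ} {Q K A T₀ C₀ t₀ : ℝ} {n₁ : ℕ} (hn : 2 ≤ n₁)
    (hκ1 : ∀ j, 1 ≤ κ j) (hκm : Monotone κ) (hκQ : ∀ j, κ (j + 1) ≤ Q * κ j)
    (hA : 0 < A) (hT : 0 < T₀) (hC : 0 < C₀) (ht : 0 < t₀) (hK : 0 ≤ K)
    (hη0 : ∀ t, 0 < t → 0 ≤ η t + K)
    (hη : ∀ t T, 0 < t → t ≤ T → η t ≤ 2 * (t / T) * (η T + K))
    (hτm : Monotone τ) (hτ0 : t₀ ≤ τ (n₁ - 1))
    (hτ : ∀ n, n₁ ≤ n → T₀ ≤ τ n * κ (8 * (n - 1)) / (2 * A) ∧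
      0 ≤ η (τ n * κ (8 * (n - 1)) / (2 * A)) ∧
      η (τ n * κ (8 * (n - 1)) / (2 * A)) ≤ τ n * (C₀ * (2 ^ (8 * n) * κ (8 * n))) ∧
      τ n + η (τ n * κ (8 * (n - 1)) / (2 * A)) / (896 * (C₀ * (2 ^ (8 * n) * κ (8 * n)))) ≤
        τ (n + 1)) :
    Summable fun j : ℕ => (η (t₀ / (2 * A) * κ j) + K) / (2 ^ j * κ j) := by
  have κp : ∀ j, 0 < κ j := fun j => one_pos.trans_le (hκ1 j)
  have Q1 : 1 ≤ Q := by
    have h1 := (hκm (Nat.le_succ 0)).trans (hκQ 0)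
    exact (le_mul_iff_one_le_left (κp 0)).1 h1
  have τ0 : ∀ n, n₁ - 1 ≤ n → t₀ ≤ τ n := fun n h => hτ0.trans (hτm h)
  have τp : ∀ n, n₁ - 1 ≤ n → 0 < τ n := fun n h => ht.trans_le (τ0 n h)
  obtain ⟨T, hTd⟩ : ∃ T : ℕ → ℝ, ∀ n, T n = τ n * κ (8 * (n - 1)) / (2 * A) := ⟨_, fun _ => rfl⟩
  obtain ⟨R, hR⟩ : ∃ R : ℕ → ℝ, ∀ n, R n = C₀ * (2 ^ (8 * n) * κ (8 * n)) := ⟨_, fun _ => rfl⟩
  simp only [← hTd, ← hR] at hτ
  have Rp : ∀ n, 0 < R n := fun n => by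
    have := κp (8 * n)
    rw [hR]
    positivity
  obtain ⟨y, hy⟩ : ∃ y : ℕ → ℝ, ∀ n, y n = η (T n) / (τ n * R n) := ⟨_, fun _ => rfl⟩
  obtain ⟨l, hl⟩ : ∃ l : ℕ → ℝ, ∀ n, l n = Real.log (τ n / t₀) := ⟨_, fun _ => rfl⟩
  have l0 : ∀ n, n₁ - 1 ≤ n → 0 ≤ l n := fun n h => by
    rw [hl]
    exact Real.log_nonneg ((one_le_div ht).2 (τ0 n h))
  have y0 : ∀ n, n₁ ≤ n → 0 ≤ y n := fun n h => by
    rw [hy]
    exact div_nonneg (hτ n h).2.1 (mul_pos (τp n (by omega)) (Rp n)).le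
  have y1 : ∀ n, n₁ ≤ n → y n ≤ 1 := fun n h => by
    rw [hy]
    exact (div_le_one (mul_pos (τp n (by omega)) (Rp n))).2 (hτ n h).2.2.1
  have step : ∀ n, n₁ ≤ n → l (n - 1) + y n / 1792 ≤ l (n + 1) := fun n h => by
    rw [hl, hl]
    refine pls_log ht (τp _ (by omega)) (y0 n h) (y1 n h) ?_
    have a1 := (hτ n h).2.2.2
    have a2 : τ n * (1 + y n / 896) = τ n + η (T n) / (896 * R n) := by
      have := τp n (by omega)
      have := Rp n
      rw [hy]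
      field_simp
    have a3 := mul_le_mul_of_nonneg_right (hτm (Nat.sub_le n 1))
      (by have := y0 n h; positivity : 0 ≤ 1 + y n / 896)
    linarith
  obtain ⟨b, hb⟩ : ∃ b : ℕ → ℝ, ∀ n, b n = if n₁ ≤ n then y n / (1 + l (n - 1)) ^ 2 else 0 :=
    ⟨_, fun _ => rfl⟩
  have b0 : ∀ n, 0 ≤ b n := fun n => by
    rw [hb]
    split_ifs with h
    · exact div_nonneg (y0 n h) (sq_nonneg _)
    · exact le_rfl
  have bs : Summable b := by
    rw [← summable_nat_add_iff n₁]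
    refine pls_tele (c := 3584) (v := fun k => 1 / (1 + l (k + n₁ - 1))) (by norm_num)
      (fun k => b0 _) (fun k => ?_) fun k => ?_
    · have := l0 (k + n₁ - 1) (by omega)
      positivity
    · rw [hb, if_pos (by omega), show k + 2 + n₁ - 1 = k + n₁ + 1 by omega]
      exact pls_scalar (l0 _ (by omega)) (y0 _ (by omega)) (y1 _ (by omega)) (step _ (by omega))
  have ep : 0 < t₀ / (2 * A) := by positivity
  have ratio : ∀ n, n₁ ≤ n → η (T n) / T n ≤ 2 * A * C₀ * Q ^ 8 * (y n * 2 ^ (8 * n)) := by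
    intro n h
    have a1 := pls_pow (by linarith) hκQ (8 * (n - 1)) 8
    rw [show 8 * (n - 1) + 8 = 8 * n by omega] at a1
    have a2 := τp n (by omega)
    have a3 := κp (8 * (n - 1))
    have a4 := κp (8 * n)
    have a5 : η (T n) / T n =
        2 * A * C₀ * (y n * 2 ^ (8 * n)) * (κ (8 * n) / κ (8 * (n - 1))) := by
      rw [hy, hR]
      nth_rewrite 2 [hTd]
      field_simp
    have a6 := mul_le_mul_of_nonneg_left ((div_le_iff₀ a3).2 a1)
      (by have := y0 n h; positivity : 0 ≤ 2 * A * C₀ * (y n * 2 ^ (8 * n)))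
    linarith
  have term : ∀ j n, n₁ ≤ n → t₀ / (2 * A) * κ j ≤ T n →
      (η (t₀ / (2 * A) * κ j) + K) / (2 ^ j * κ j) ≤
        (2 * (t₀ / (2 * A)) * K / T₀ + K) * (1 / 2 ^ j) +
          2 * (t₀ / (2 * A)) * (2 * A * C₀ * Q ^ 8) * (y n * 2 ^ (8 * n) / 2 ^ j) :=
    fun j n h h' => pls_term (hκ1 j) hT (hτ n h).1 hK ep (by positivity)
      (hη _ _ (mul_pos ep (κp j)) h') (ratio n h)
  obtain ⟨D, hD⟩ : ∃ D, D = 2 * (t₀ / (2 * A)) * (2 * A * C₀ * Q ^ 8) := ⟨_, rfl⟩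
  obtain ⟨E, hE⟩ : ∃ E, E = 2 * (t₀ / (2 * A)) * K / T₀ + K := ⟨_, rfl⟩
  have D0 : 0 ≤ D := by
    rw [hD]
    positivity
  rw [← hD, ← hE] at term
  have c0 : ∀ i : ℕ, 0 ≤ (1 + i * Real.log Q) ^ 2 / (2 : ℝ) ^ i := fun i => by positivity
  refine pls_conv (G := E + D * 2 ^ (8 * n₁)) (H := D * 2 ^ 16)
    (fun j => div_nonneg (hη0 _ (mul_pos ep (κp j))) (mul_pos (by positivity) (κp j)).le) b0 c0
    bs (pls_geo _) fun j => ?_
  have hex : ∃ n, n₁ ≤ n ∧ t₀ / (2 * A) * κ j ≤ T n := by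
    refine ⟨n₁ + j, by omega, ?_⟩
    rw [hTd, div_mul_eq_mul_div]
    refine div_le_div_of_nonneg_right ?_ (by positivity)
    exact mul_le_mul (τ0 _ (by omega)) (hκm (by omega)) (κp j).le (τp _ (by omega)).le
  classical
  obtain ⟨n, ⟨hn1, hn2⟩, hmin⟩ : ∃ n, (n₁ ≤ n ∧ t₀ / (2 * A) * κ j ≤ T n) ∧
      ∀ m, m < n → ¬(n₁ ≤ m ∧ t₀ / (2 * A) * κ j ≤ T m) :=
    ⟨Nat.find hex, Nat.find_spec hex, fun m hm => Nat.find_min hex hm⟩
  have main := term j n hn1 hn2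
  have g0 : (0 : ℝ) ≤ 1 / 2 ^ j := by positivity
  rcases hn1.eq_or_lt with rfl | hlt
  · refine ⟨0, by omega, main.trans ?_⟩
    have a1 : y n₁ * 2 ^ (8 * n₁) / 2 ^ j ≤ 2 ^ (8 * n₁) * (1 / 2 ^ j) := by
      rw [mul_one_div]
      exact div_le_div_of_nonneg_right (mul_le_of_le_one_left (by positivity) (y1 n₁ le_rfl))
        (by positivity)
    have a2 := mul_le_mul_of_nonneg_left a1 D0
    have a3 := mul_nonneg (by positivity : 0 ≤ D * 2 ^ 16) (mul_nonneg (b0 0) (c0 (j - 8 * (0 - 2))))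
    linarith
  · have a1 : τ (n - 1) * κ (8 * (n - 2)) < t₀ * κ j := by
      have := not_le.1 fun h => hmin (n - 1) (by omega) ⟨by omega, h⟩
      rwa [hTd, div_mul_eq_mul_div, div_lt_div_iff_of_pos_right (by positivity),
        show n - 1 - 1 = n - 2 by omega] at this
    have p1 := τ0 (n - 1) (by omega)
    have p2 := κp (8 * (n - 2))
    have a2 : 8 * (n - 2) ≤ j := by
      by_contra hj
      have := mul_le_mul p1 (hκm (not_le.1 hj).le) (κp j).le (ht.le.trans p1)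
      linarith
    obtain ⟨i, rfl⟩ := Nat.exists_eq_add_of_le a2
    refine ⟨n, a2, main.trans ?_⟩
    rw [Nat.add_sub_cancel_left]
    have a3 : τ (n - 1) / t₀ ≤ Q ^ i := by
      have q1 := mul_le_mul_of_nonneg_left (pls_pow (by linarith) hκQ (8 * (n - 2)) i) ht.le
      have q2 : τ (n - 1) * κ (8 * (n - 2)) ≤ Q ^ i * t₀ * κ (8 * (n - 2)) := by linarith
      exact (div_le_iff₀ ht).2 (le_of_mul_le_mul_right q2 p2)
    have a4 : l (n - 1) ≤ i * Real.log Q := by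
      rw [hl, ← Real.log_pow]
      exact Real.log_le_log (div_pos (ht.trans_le p1) ht) a3
    have p3 := l0 (n - 1) (by omega)
    have a5 : (1 + l (n - 1)) ^ 2 ≤ (1 + i * Real.log Q) ^ 2 :=
      pow_le_pow_left₀ (by linarith) (by linarith) 2
    have a6 : y n * 2 ^ (8 * n) / 2 ^ (8 * (n - 2) + i) =
        2 ^ 16 * (b n * ((1 + l (n - 1)) ^ 2 / 2 ^ i)) := by
      rw [hb, if_pos hn1, show 8 * n = 8 * (n - 2) + 16 by omega, pow_add, pow_add]
      field_simp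
    have a7 := mul_le_mul_of_nonneg_left (mul_le_mul_of_nonneg_left
      (div_le_div_of_nonneg_right a5 (by positivity : (0 : ℝ) ≤ 2 ^ i)) (b0 n))
      (by positivity : 0 ≤ D * 2 ^ 16)
    have a8 := mul_nonneg (by positivity : 0 ≤ D * 2 ^ (8 * n₁)) g0
    rw [a6]
    linarith

end Pool.Agent.P.MP_0134b7_an
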