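import Pool.Agent.P.MP_0134b7_an.RPL1
import Pool.Agent.P.MP_0134b7_an.RPL2

/-!
The Phragmen-Lindelof theorem with a variable scale.
-/

open Set Filter Topology MeasureTheory Complex
open scoped Real

namespace Pool.Agent.P.MP_0134b7_an

lemma convex_scale {G : ℝ → ℝ} (hGc : ConvexOn ℝ univ G) (hG0 : G 0 = 0) {t x : ℝ}
    (h0 : 0 ≤ t) (h1 : t ≤ 1) : G (t * x) ≤ t * G x := by
  have := hGc.2 (mem_univ x) (mem_univ 0) h0 (sub_nonneg.2 h1) (by ring)
  simpa [hG0] using this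

lemma kappa_unbounded {κ : ℕ → ℝ} {η : ℝ → ℝ} {K : ℝ} (hκ1 : ∀ j, 1 ≤ κ j) (hK : 0 ≤ K)
    (hη0 : ∀ t, 0 < t → 0 ≤ η t + K)
    (hη : ∀ t T, 0 < t → t ≤ T → η t ≤ 2 * (t / T) * (η T + K))
    (hdiv : ¬Summable fun j : ℕ => (η (1 * κ j) + K) / (2 ^ j * κ j)) (B : ℝ) :
    ∃ j, B < κ j := by
  by_contra hB
  push Not at hB
  apply hdiv
  have hB0 : 0 < B := lt_of_lt_of_le one_pos ((hκ1 0).trans (hB 0))
  have hM := hη0 B hB0
  refine Summable.of_nonneg_of_le (fun j => ?_) (fun j => ?_)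
    (summable_geometric_two.mul_left (2 * (η B + K) + K))
  · have := hκ1 j
    exact div_nonneg (hη0 _ (by linarith)) (by positivity)
  · have h1 := hκ1 j
    have h2 := hη (κ j) B (by linarith) (hB j)
    have h3 : κ j / B ≤ 1 := (div_le_one hB0).2 (hB j)
    have h4 : η (κ j) ≤ 2 * (η B + K) := by nlinarith
    rw [one_mul, div_le_iff₀ (by positivity)]
    have h5 : (1 / 2 : ℝ) ^ j * 2 ^ j = 1 := by rw [← mul_pow]; norm_num
    calc η (κ j) + K ≤ (2 * (η B + K) + K) * 1 := by linarith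
      _ ≤ (2 * (η B + K) + K) * κ j := mul_le_mul_of_nonneg_left h1 (by linarith)
      _ = (2 * (η B + K) + K) * ((1 / 2 : ℝ) ^ j * 2 ^ j) * κ j := by rw [h5, mul_one]
      _ = _ := by ring

theorem pl_main {h Ψ : ℂ → ℂ} {W : Set ℂ} (hW : IsOpen W) (hh : DifferentiableOn ℂ h W)
    (hΨ : DifferentiableOn ℂ Ψ W)
    (hc : ∀ R : ℝ, ∃ C, IsCompact C ∧ C ⊆ W ∧ ∀ z ∈ W, 1 < ‖h z‖ → ‖Ψ z‖ ≤ R → z ∈ C)
    {κ : ℕ → ℝ} {η G : ℝ → ℝ} {Q K A T₀ C₀ : ℝ}
    (hκ1 : ∀ j, 1 ≤ κ j) (hκm : Monotone κ) (hκQ : ∀ j, κ (j + 1) ≤ Q * κ j)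
    (hA : 0 < A) (hT : 0 < T₀) (hC : 0 < C₀) (hK : 0 ≤ K)
    (hη0 : ∀ t, 0 < t → 0 ≤ η t + K)
    (hη : ∀ t T, 0 < t → t ≤ T → η t ≤ 2 * (t / T) * (η T + K))
    (hGc : ConvexOn ℝ univ G) (hGm : Monotone G) (hG0 : G 0 = 0)
    (hgain : ∀ T, T₀ ≤ T → 0 < η T ∧
      ∃ x, η T / (2 * A * T) ≤ x ∧ G x ≤ A * T * x - η T / 4)
    (hb : ∀ z ∈ W, 1 < ‖h z‖ →
      ∃ j, ‖Ψ z‖ ≤ C₀ * (2 ^ j * κ j) ∧ Real.log ‖h z‖ ≤ G ((Ψ z).re / κ j))
    (hdiv : ∀ ε, 0 < ε → ¬Summable fun j : ℕ => (η (ε * κ j) + K) / (2 ^ j * κ j)) :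
    ∀ z ∈ W, ‖h z‖ ≤ 1 := by
  intro z₀ hz₀
  by_contra hh₀
  replace hh₀ : 1 < ‖h z₀‖ := not_le.1 hh₀
  have hκ0 : ∀ j, 0 < κ j := fun j => lt_of_lt_of_le one_pos (hκ1 j)
  let r : ℕ → ℝ := fun j => C₀ * (2 ^ j * κ j)
  have hr0 : ∀ j, 0 < r j := fun j => by have := hκ0 j; positivity
  have hrm : Monotone r := fun i j hij =>
    mul_le_mul_of_nonneg_left (mul_le_mul (pow_le_pow_right₀ one_le_two hij) (hκm hij)
      (hκ0 i).le (by positivity)) hC.le
  have hr8 : ∀ n, 256 * r (8 * n) ≤ r (8 * (n + 1)) := fun n => by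
    have h1 : κ (8 * n) ≤ κ (8 * (n + 1)) := hκm (by omega)
    have h2 : (2 : ℝ) ^ (8 * (n + 1)) = 256 * 2 ^ (8 * n) := by
      rw [mul_add, pow_add]; norm_num [mul_comm]
    simp only [r]
    rw [h2]
    have h3 : (0 : ℝ) < 2 ^ (8 * n) := by positivity
    calc 256 * (C₀ * (2 ^ (8 * n) * κ (8 * n))) = C₀ * (256 * 2 ^ (8 * n)) * κ (8 * n) := by ring
      _ ≤ C₀ * (256 * 2 ^ (8 * n)) * κ (8 * (n + 1)) :=
          mul_le_mul_of_nonneg_left h1 (by positivity)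
      _ = _ := by ring
  have hpos : ∀ z ∈ W, 1 < ‖h z‖ → 0 < (Ψ z).re := fun z hz h1 => by
    obtain ⟨j, -, hj⟩ := hb z hz h1
    by_contra hx
    have h2 : (Ψ z).re / κ j ≤ 0 := div_nonpos_of_nonpos_of_nonneg (not_lt.1 hx) (hκ0 j).le
    have h3 := hGm h2
    have h4 := Real.log_pos h1
    linarith
  have hfar : ∀ z ∈ W, 1 < ‖h z‖ → ∀ i, r i < ‖Ψ z‖ →
      Real.log ‖h z‖ ≤ G ((Ψ z).re / κ i) := fun z hz h1 i hi => by
    obtain ⟨j, hj1, hj⟩ := hb z hz h1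
    have hij : i ≤ j := by
      by_contra hij
      have := hrm (not_le.1 hij).le
      change ‖Ψ z‖ ≤ r j at hj1
      linarith
    exact hj.trans (hGm (div_le_div_of_nonneg_left (hpos z hz h1).le (hκ0 i) (hκm hij)))
  let E : ℕ → Set ℝ := fun n =>
    insert 0 {t | ∃ z ∈ W, 1 < ‖h z‖ ∧ ‖Ψ z‖ ≤ r (8 * n) ∧ t = Real.log ‖h z‖ / (Ψ z).re}
  have hEb : ∀ n, BddAbove (E n) := fun n => by
    have hR := hr0 (8 * n)
    have hG : 0 ≤ G (r (8 * n)) := hG0 ▸ hGm hR.le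
    refine ⟨G (r (8 * n)) / r (8 * n), ?_⟩
    rintro t (rfl | ⟨z, hz, h1, h2, rfl⟩)
    · positivity
    · obtain ⟨j, -, hj⟩ := hb z hz h1
      have hx := hpos z hz h1
      have hxR : (Ψ z).re ≤ r (8 * n) :=
        ((le_abs_self _).trans (Complex.abs_re_le_norm _)).trans h2
      have h3 : G ((Ψ z).re / κ j) ≤ G (Ψ z).re := hGm (div_le_self hx.le (hκ1 j))
      have h4 := convex_scale hGc hG0 (t := (Ψ z).re / r (8 * n)) (x := r (8 * n))
        (by positivity) ((div_le_one hR).2 hxR)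
      rw [div_mul_cancel₀ _ hR.ne'] at h4
      rw [div_le_iff₀ hx]
      calc Real.log ‖h z‖ ≤ (Ψ z).re / r (8 * n) * G (r (8 * n)) := by linarith
        _ = _ := by ring
  let τ : ℕ → ℝ := fun n => sSup (E n)
  have hτle : ∀ n, ∀ z ∈ W, 1 < ‖h z‖ → ‖Ψ z‖ ≤ r (8 * n) →
      Real.log ‖h z‖ ≤ τ n * (Ψ z).re := fun n z hz h1 h2 =>
    (div_le_iff₀ (hpos z hz h1)).1 (le_csSup (hEb n) (Or.inr ⟨z, hz, h1, h2, rfl⟩))
  have hτge : ∀ n (c : ℝ), 0 ≤ c → (∀ z ∈ W, 1 < ‖h z‖ → ‖Ψ z‖ ≤ r (8 * n) →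
      Real.log ‖h z‖ ≤ c * (Ψ z).re) → τ n ≤ c := fun n c hc0 hc => by
    refine csSup_le ⟨0, Or.inl rfl⟩ ?_
    rintro t (rfl | ⟨z, hz, h1, h2, rfl⟩)
    · exact hc0
    · exact (div_le_iff₀ (hpos z hz h1)).2 (hc z hz h1 h2)
  have hτ0 : ∀ n, 0 ≤ τ n := fun n => le_csSup (hEb n) (Or.inl rfl)
  have hτm : Monotone τ := fun m n hmn =>
    hτge m _ (hτ0 n) fun z hz h1 h2 => hτle n z hz h1 (h2.trans (hrm (by omega)))
  obtain ⟨n₀, hn₀, -⟩ := hb z₀ hz₀ hh₀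
  have hx₀ := hpos z₀ hz₀ hh₀
  set t₀ := Real.log ‖h z₀‖ / (Ψ z₀).re with ht₀
  have ht0 : 0 < t₀ := div_pos (Real.log_pos hh₀) hx₀
  have hin : ∀ n, n₀ ≤ n → ‖Ψ z₀‖ ≤ r (8 * n) := fun n hn =>
    le_trans hn₀ (hrm (show n₀ ≤ 8 * n by omega))
  have htτ : ∀ n, n₀ ≤ n → t₀ ≤ τ n := fun n hn =>
    (div_le_iff₀ hx₀).2 (hτle n z₀ hz₀ hh₀ (hin n hn))
  obtain ⟨j₀, hj₀⟩ := kappa_unbounded hκ1 hK hη0 hη (hdiv 1 one_pos) (T₀ * (2 * A) / t₀)
  -- one step of the recursion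
  have hstep : ∀ n, n₀ ≤ n → ∀ X e : ℝ, 0 < X → X ≤ 8 * r (8 * n) → 0 ≤ e → e ≤ τ (n + 1) * X →
      (∀ z ∈ W, 1 < ‖h z‖ → r (8 * n) ≤ ‖Ψ z‖ → (Ψ z).re ≤ X →
        Real.log ‖h z‖ ≤ τ (n + 1) * (Ψ z).re - e * (Ψ z).re / X) →
      τ n + e / (224 * r (8 * n)) ≤ τ (n + 1) := fun n hn X e hX hXS he heX h2 => by
    have hR := hr0 (8 * n)
    have hs := pl_step hW hh hΨ hc (S := 16 * r (8 * n)) (τ := τ (n + 1)) (X := X) (e := e)
      (by positivity) hX (by linarith) he heX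
      (fun z hz h1 h3 => ⟨hpos z hz h1, hτle _ z hz h1 (by have := hr8 n; linarith)⟩)
      (fun z hz h1 h3 _ h5 => h2 z hz h1 (by linarith) h5)
    have e1 : 14 * (16 * r (8 * n)) = 224 * r (8 * n) := by ring
    have e2 : 16 * r (8 * n) / 16 = r (8 * n) := by ring
    rw [e1, e2] at hs
    have h3 := hs z₀ hz₀ hh₀ (hin n hn)
    have h4 : t₀ ≤ τ (n + 1) - e / (224 * r (8 * n)) := (div_le_iff₀ hx₀).2 h3
    have := hτge n _ (by linarith) hs
    linarith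
  have hmain : ∀ n, n₀ + j₀ + 1 ≤ n → T₀ ≤ τ n * κ (8 * (n - 1)) / (2 * A) ∧
      0 < η (τ n * κ (8 * (n - 1)) / (2 * A)) ∧ τ n < τ (n + 1) ∧ (τ (n - 1) < τ n →
      η (τ n * κ (8 * (n - 1)) / (2 * A)) ≤ τ n * r (8 * n) ∧
      τ n + η (τ n * κ (8 * (n - 1)) / (2 * A)) / (896 * r (8 * n)) ≤ τ (n + 1)) := by
    intro n hn
    have hR := hr0 (8 * n)
    have hk := hκ0 (8 * (n - 1))
    have hτn : 0 < τ n := ht0.trans_le (htτ n (by omega))
    have hτs : τ n ≤ τ (n + 1) := hτm (by omega)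
    have hrr : r (8 * (n - 1)) < r (8 * n) := by
      have h1 := hr8 (n - 1)
      have h2 := hr0 (8 * (n - 1))
      rw [show n - 1 + 1 = n by omega] at h1
      linarith
    set k := κ (8 * (n - 1)) with hkd
    set T := τ n * k / (2 * A) with hTd
    have hT0 : T₀ ≤ T := by
      have h1 : κ j₀ ≤ k := hκm (by omega)
      have h2 : T₀ * (2 * A) ≤ t₀ * k := by
        rw [div_lt_iff₀ ht0] at hj₀
        nlinarith
      rw [hTd, le_div_iff₀ (by positivity)]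
      exact h2.trans (mul_le_mul_of_nonneg_right (htτ n (by omega)) hk.le)
    obtain ⟨hηT, x, hx1, hx2⟩ := hgain T hT0
    have hTp : 0 < T := hT.trans_le hT0
    have hAT : 2 * A * T = τ n * k := by rw [hTd]; field_simp
    have hxp : 0 < x := lt_of_lt_of_le (by positivity) hx1
    have hηx : η T ≤ τ n * (k * x) := by
      rw [div_le_iff₀ (by positivity), hAT] at hx1
      linarith
    have hX : 0 < k * x := by positivity
    have hkey : ∀ z ∈ W, 1 < ‖h z‖ → r (8 * (n - 1)) < ‖Ψ z‖ → (Ψ z).re ≤ k * x →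
        Real.log ‖h z‖ ≤ τ n / 2 * (Ψ z).re - η T / 4 * (Ψ z).re / (k * x) := by
      intro z hz h1 h2 h3
      have hy := hpos z hz h1
      have h4 := hfar z hz h1 _ h2
      have h5 := convex_scale hGc hG0 (t := (Ψ z).re / (k * x)) (x := x)
        (by positivity) ((div_le_one hX).2 h3)
      have e1 : (Ψ z).re / (k * x) * x = (Ψ z).re / k := by field_simp
      rw [e1] at h5
      have h6 : (Ψ z).re / (k * x) * G x ≤ (Ψ z).re / (k * x) * (A * T * x - η T / 4) :=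
        mul_le_mul_of_nonneg_left hx2 (by positivity)
      have e2 : A * T = τ n * k / 2 := by linarith
      have e3 : (Ψ z).re / (k * x) * (A * T * x - η T / 4) =
          τ n / 2 * (Ψ z).re - η T / 4 * (Ψ z).re / (k * x) := by
        rw [e2]; field_simp
      linarith
    have hc1 : k * x ≤ 8 * r (8 * n) → τ n + η T / (896 * r (8 * n)) ≤ τ (n + 1) := fun hle => by
      have := hstep n (by omega) (k * x) (η T / 4) hX hle (by positivity) (by nlinarith)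
        (fun z hz h1 h2 h3 => by
          have h4 := hkey z hz h1 (by linarith) h3
          have hy := hpos z hz h1
          nlinarith)
      have e1 : η T / 4 / (224 * r (8 * n)) = η T / (896 * r (8 * n)) := by
        field_simp; norm_num
      rwa [e1] at this
    refine ⟨hT0, hηT, ?_, fun hlt => ?_⟩
    · rcases le_or_gt (k * x) (8 * r (8 * n)) with hle | hlt
      · have h1 := hc1 hle
        have h2 : 0 < η T / (896 * r (8 * n)) := by positivity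
        linarith
      · have hτ1 : 0 < τ (n + 1) := hτn.trans_le hτs
        have := hstep n (by omega) (8 * r (8 * n)) (τ (n + 1) * (4 * r (8 * n))) (by positivity)
          le_rfl (by positivity) (by nlinarith)
          (fun z hz h1 h2 h3 => by
            have h4 := hkey z hz h1 (by linarith) (by linarith)
            have hy := hpos z hz h1
            have h5 : 0 ≤ η T / 4 * (Ψ z).re / (k * x) := by positivity
            have e1 : τ (n + 1) * (4 * r (8 * n)) * (Ψ z).re / (8 * r (8 * n)) =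
                τ (n + 1) / 2 * (Ψ z).re := by field_simp; norm_num
            rw [e1]
            nlinarith)
        have h2 : 0 < τ (n + 1) * (4 * r (8 * n)) / (224 * r (8 * n)) := by positivity
        linarith
    · have hlt' : k * x < r (8 * n) := by
        by_contra hge
        have hge' := not_lt.1 hge
        have h1 : τ n ≤ max (τ (n - 1)) (τ n / 2) := by
          refine hτge n _ (le_max_of_le_left (hτ0 _)) fun z hz h1 h2 => ?_
          have hy := hpos z hz h1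
          rcases le_or_gt ‖Ψ z‖ (r (8 * (n - 1))) with h3 | h3
          · exact (hτle _ z hz h1 h3).trans
              (mul_le_mul_of_nonneg_right (le_max_left _ _) hy.le)
          · have hxR : (Ψ z).re ≤ r (8 * n) :=
              ((le_abs_self _).trans (Complex.abs_re_le_norm _)).trans h2
            have h4 := hkey z hz h1 h3 (by linarith)
            have h5 : 0 ≤ η T / 4 * (Ψ z).re / (k * x) := by positivity
            have h6 : τ n / 2 * (Ψ z).re ≤ max (τ (n - 1)) (τ n / 2) * (Ψ z).re :=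
              mul_le_mul_of_nonneg_right (le_max_right _ _) hy.le
            linarith
        rcases le_max_iff.1 h1 with h2 | h2 <;> linarith
      exact ⟨hηx.trans (mul_le_mul_of_nonneg_left hlt'.le hτn.le), hc1 (by linarith)⟩
  refine hdiv (t₀ / (2 * A)) (by positivity) (pl_sum (n₁ := n₀ + j₀ + 2) (τ := τ) (by omega)
    hκ1 hκm hκQ hA hT hC ht0 hK hη0 hη hτm (htτ _ (by omega)) fun n hn => ?_)
  obtain ⟨a1, a2, -, a4⟩ := hmain n (by omega)
  have h1 := (hmain (n - 1) (by omega)).2.2.1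
  rw [show n - 1 + 1 = n by omega] at h1
  exact ⟨a1, a2.le, (a4 h1).1, (a4 h1).2⟩

end Pool.Agent.P.MP_0134b7_an
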