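import Pool.Agent.P.MP_0134b7_an.RNice
import Pool.Agent.P.MP_0afb51_an.Holo

/-!
Estimates for the weight and for Laplace transforms of elements of the dual.
-/

open Set Filter Topology MeasureTheory Complex
open scoped Real

namespace Pool.Agent.P.MP_0134b7_an

variable {ω : ℝ → ℝ}

theorem RadicalWeight.gw_bdd (h : RadicalWeight ω) (x : ℝ) :
    BddAbove (range fun t : Ici (0 : ℝ) => (x + 1) * (t : ℝ) + Real.log (ω t)) := by
  obtain ⟨K, h1, h2⟩ := h.exp_bound (x + 1)
  refine ⟨Real.log K, ?_⟩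
  rintro _ ⟨t, rfl⟩
  have h3 := Real.log_le_log (h.pos t t.2) (h2 t t.2)
  rw [Real.log_mul (by linarith) (Real.exp_pos _).ne', Real.log_exp] at h3
  show (x + 1) * (t : ℝ) + Real.log (ω t) ≤ Real.log K
  linarith

theorem RadicalWeight.le_gw (h : RadicalWeight ω) (x : ℝ) {t : ℝ} (ht : 0 ≤ t) :
    (x + 1) * t + Real.log (ω t) ≤ gw ω x :=
  le_ciSup (h.gw_bdd x) ⟨t, ht⟩

theorem gw_le {x c : ℝ} (hc : ∀ t, 0 ≤ t → (x + 1) * t + Real.log (ω t) ≤ c) : gw ω x ≤ c := by
  have : Nonempty (Ici (0 : ℝ)) := ⟨⟨0, self_mem_Ici⟩⟩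
  exact ciSup_le fun t => hc t t.2

theorem RadicalWeight.gw_mono (h : RadicalWeight ω) : Monotone (gw ω) := by
  intro x y hxy
  refine gw_le fun t ht => le_trans ?_ (h.le_gw y ht)
  have := mul_le_mul_of_nonneg_right hxy ht
  linarith

theorem RadicalWeight.gw_convex (h : RadicalWeight ω) : ConvexOn ℝ univ (gw ω) := by
  refine ⟨convex_univ, fun x _ y _ a b ha hb hab => gw_le fun t ht => ?_⟩
  have h1 := mul_le_mul_of_nonneg_left (h.le_gw x ht) ha
  have h2 := mul_le_mul_of_nonneg_left (h.le_gw y ht) hb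
  have h3 : b = 1 - a := by linarith
  subst h3
  simp only [smul_eq_mul]
  linarith

theorem RadicalWeight.superadd (h : RadicalWeight ω) {K : ℝ} (hK : Bd ω K) {t T : ℝ} (ht : 0 < t)
    (htT : t ≤ T) : -Real.log (ω t) ≤ 2 * (t / T) * (-Real.log (ω T) + K) := by
  have hT : 0 < T := ht.trans_le htT
  have k1 := h.log_le hK hT.le
  rcases le_total (-Real.log (ω t)) 0 with h0 | h0
  · exact h0.trans (mul_nonneg (by positivity) (by linarith))
  have q1 : 1 ≤ T / t := (one_le_div ht).2 htT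
  have q2 := h.log_nat hK ht.le ⌊T / t⌋₊ T ((le_div_iff₀ ht).1 (Nat.floor_le (by linarith)))
  have q3 : T / t ≤ 2 * ⌊T / t⌋₊ := by
    have a1 := Nat.lt_floor_add_one (T / t)
    have a2 : (1 : ℝ) ≤ ⌊T / t⌋₊ := by exact_mod_cast Nat.le_floor (by simpa using q1)
    linarith
  have q4 := mul_le_mul_of_nonneg_right q3 h0
  have q5 : T / t * -Real.log (ω t) ≤ 2 * (-Real.log (ω T) + K) := by linarith
  have q6 := mul_le_mul_of_nonneg_left q5 (by positivity : 0 ≤ t / T)
  have q7 : t / T * (T / t * -Real.log (ω t)) = -Real.log (ω t) := by field_simp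
  linarith

theorem RadicalWeight.gain (h : RadicalWeight ω) (x₂ : ℝ) {C : ℝ} (hC : 0 < C) :
    ∃ T₀ : ℝ, 0 < T₀ ∧ ∀ T, T₀ ≤ T → 0 < -Real.log (ω T) ∧
      ∃ x, -Real.log (ω T) / (2 * (2 * C) * T) ≤ x ∧
        gw ω (x₂ + C * x) - gw ω x₂ ≤ 2 * C * T * x - -Real.log (ω T) / 4 := by
  obtain ⟨K, hK⟩ := h.exists_bd
  obtain ⟨T₁, hT₁⟩ := eventually_atTop.1 (h.eventually_le (4 * (|x₂| + 1)))
  refine ⟨max (max T₁ 1) (K - gw ω x₂), lt_of_lt_of_le one_pos
    ((le_max_right _ _).trans (le_max_left _ _)), fun T hT => ?_⟩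
  have t1 : T₁ ≤ T := ((le_max_left _ _).trans (le_max_left _ _)).trans hT
  have t2 : 1 ≤ T := ((le_max_right _ _).trans (le_max_left _ _)).trans hT
  have t3 : K - gw ω x₂ ≤ T := (le_max_right _ _).trans hT
  have t0 : 0 < T := by linarith
  have e1 := (Real.log_le_iff_le_exp (h.pos T t0.le)).2 (hT₁ T t1)
  have a0 := abs_nonneg x₂
  have a1 := le_abs_self x₂
  set e := -Real.log (ω T) with he
  have e2 : 4 * (|x₂| + 1) * T ≤ e := by linarith
  have e3 : 0 < e := lt_of_lt_of_le (by positivity) e2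
  refine ⟨e3, e / (2 * (2 * C) * T), le_rfl, ?_⟩
  set y := e / (4 * T) with hy
  have y1 : C * (e / (2 * (2 * C) * T)) = y := by
    rw [hy]
    field_simp
    ring
  have y2 : T * y = e / 4 := by
    rw [hy]
    field_simp
  have y3 : 2 * C * T * (e / (2 * (2 * C) * T)) = e / 2 := by
    field_simp
  have y4 : |x₂| + 1 ≤ y := by
    rw [hy, le_div_iff₀ (by positivity)]
    linarith
  rw [y1, y3, sub_le_iff_le_add]
  refine gw_le fun t ht => ?_
  rcases le_total t T with h1 | h1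
  · have b1 := h.le_gw x₂ ht
    have b2 := mul_le_mul_of_nonneg_right h1 (by linarith : 0 ≤ y)
    linarith
  · have tp : 0 < t := t0.trans_le h1
    have b1 := h.superadd hK t0 h1
    have b2 := mul_le_mul_of_nonneg_left b1 (by positivity : 0 ≤ t / (2 * T))
    have b3 : t / (2 * T) * (2 * (T / t) * (-Real.log (ω t) + K)) = -Real.log (ω t) + K := by
      field_simp
    have b4 : t / (2 * T) * -Real.log (ω T) = 2 * (y * t) := by
      rw [hy, he]
      field_simp
      ring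
    have b5 := mul_le_mul_of_nonneg_right (by linarith : x₂ + 1 ≤ y) ht
    have b6 := mul_le_mul_of_nonneg_left (by linarith : 1 ≤ y) t0.le
    linarith

theorem RadicalWeight.norm_dual_le (h : RadicalWeight ω) {φ : ℝ → ℂ}
    (hb : ∀ t, 0 < t → ‖φ t‖ ≤ ω t) {z : ℂ} {c : ℝ} (hz : z.re ≤ c) {t : ℝ} (ht : 0 < t) :
    ‖φ t * exp (z * t)‖ ≤ Real.exp (gw ω c) * Real.exp (-t) := by
  have h1 := h.le_gw z.re ht.le
  have h2 := h.gw_mono hz
  rw [norm_mul, Complex.norm_exp, re_mul_ofReal, ← Real.exp_add]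
  calc ‖φ t‖ * Real.exp (z.re * t) ≤ ω t * Real.exp (z.re * t) :=
        mul_le_mul_of_nonneg_right (hb t ht) (Real.exp_pos _).le
    _ = Real.exp (Real.log (ω t) + z.re * t) := by
        rw [Real.exp_add, Real.exp_log (h.pos t ht.le)]
    _ ≤ _ := Real.exp_le_exp.2 (by linarith)

theorem int_exp_neg (c : ℝ) : IntegrableOn (fun t : ℝ => c * Real.exp (-t)) (Ioi 0) :=
  (integrableOn_exp_neg_Ioi 0).const_mul c

theorem dual_meas {φ : ℝ → ℂ} (hφ : Measurable φ) (z : ℂ) :
    AEStronglyMeasurable (fun t : ℝ => φ t * exp (z * t)) (volume.restrict (Ioi 0)) :=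
  (hφ.mul (by fun_prop)).aestronglyMeasurable

theorem RadicalWeight.dual_int (h : RadicalWeight ω) {φ : ℝ → ℂ} (hφ : Measurable φ)
    (hb : ∀ t, 0 < t → ‖φ t‖ ≤ ω t) (z : ℂ) :
    IntegrableOn (fun t : ℝ => φ t * exp (z * t)) (Ioi 0) := by
  refine (int_exp_neg (Real.exp (gw ω z.re))).mono' (dual_meas hφ z) ?_
  rw [ae_restrict_iff' measurableSet_Ioi]
  exact ae_of_all _ fun t ht => h.norm_dual_le hb le_rfl ht

theorem RadicalWeight.dlap_le (h : RadicalWeight ω) {φ : ℝ → ℂ}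
    (hb : ∀ t, 0 < t → ‖φ t‖ ≤ ω t) (z : ℂ) : ‖dlap φ z‖ ≤ Real.exp (gw ω z.re) := by
  have h1 := norm_integral_le_of_norm_le (f := fun t : ℝ => φ t * exp (z * t))
    (int_exp_neg (Real.exp (gw ω z.re))) (by
      rw [ae_restrict_iff' measurableSet_Ioi]
      exact ae_of_all _ fun t ht => h.norm_dual_le hb le_rfl ht)
  rwa [integral_const_mul, integral_exp_neg_Ioi_zero, mul_one] at h1

theorem RadicalWeight.dlap_diff (h : RadicalWeight ω) {φ : ℝ → ℂ} (hφ : Measurable φ)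
    (hb : ∀ t, 0 < t → ‖φ t‖ ≤ ω t) : Differentiable ℂ (dlap φ) := by
  intro z₀
  have hU : IsOpen {z : ℂ | z.re < z₀.re + 1} := isOpen_lt continuous_re continuous_const
  have h1 := MP_0afb51_an.differentiableOn_integral_of_bound (μ := volume.restrict (Ioi 0)) hU
    (F := fun z (t : ℝ) => φ t * exp (z * t)) (fun z _ => dual_meas hφ z)
    (fun t => by fun_prop) (by
      rw [ae_restrict_iff' measurableSet_Ioi]
      exact ae_of_all _ fun t ht z hz => h.norm_dual_le hb (le_of_lt hz) ht)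
    (int_exp_neg (Real.exp (gw ω (z₀.re + 1))))
  exact h1.differentiableAt (hU.mem_nhds (by simp))

theorem RadicalWeight.dlap_tendsto (h : RadicalWeight ω) {φ : ℝ → ℂ} (hφ : Measurable φ)
    (hb : ∀ t, 0 < t → ‖φ t‖ ≤ ω t) : Tendsto (fun x : ℝ => dlap φ x) atBot (𝓝 0) := by
  have h1 := tendsto_integral_filter_of_dominated_convergence (μ := volume.restrict (Ioi 0))
    (l := atBot) (F := fun (x : ℝ) (t : ℝ) => φ t * exp ((x : ℂ) * t)) (f := fun _ => 0)
    (fun t => Real.exp (gw ω 0) * Real.exp (-t))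
    (Eventually.of_forall fun x => dual_meas hφ x) ?_ (int_exp_neg _) ?_
  · simpa [dlap] using h1
  · filter_upwards [eventually_le_atBot 0] with x hx
    rw [ae_restrict_iff' measurableSet_Ioi]
    exact ae_of_all _ fun t ht => h.norm_dual_le hb (by simpa using hx) ht
  · rw [ae_restrict_iff' measurableSet_Ioi]
    refine ae_of_all _ fun t ht => ?_
    have h2 : Tendsto (fun x : ℝ => Real.exp (x * t)) atBot (𝓝 0) :=
      Real.tendsto_exp_atBot.comp (tendsto_id.atBot_mul_const ht)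
    have h3 := ((continuous_ofReal.tendsto _).comp h2).const_mul (φ t)
    simp only [ofReal_zero, mul_zero] at h3
    refine h3.congr fun x => ?_
    simp

end Pool.Agent.P.MP_0134b7_an
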