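import Pool.Agent.P.MP_0134b7_an.RShift
import Pool.Agent.P.MP_0134b7_an.RW
import Pool.Agent.P.MP_0134b7_an.RPL

/-!
The polynomial bound for the partial trace.
-/

open Set Filter Topology MeasureTheory Complex
open scoped Real

namespace Pool.Agent.P.MP_0134b7_an

variable {ω : ℝ → ℝ} {L : ℂ → ℂ} {r δ K CF : ℝ} {β : ℕ → ℝ}

theorem Nice.block_close {j₀ j : ℕ} {e : ℝ} {b z : ℂ}
    (hcl : ∀ w ∈ dom r, |Real.log ‖w‖ - Real.log (2 ^ (j + j₀))| ≤ 2 + 2 * π / δ →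
      ‖(idx L w)⁻¹ - b‖ ≤ e) (h1 : 2 ^ j * 2 ^ j₀ ≤ ‖z‖) (h2 : ‖z‖ ≤ 2 ^ (j + 1) * 2 ^ j₀) :
    ∀ w ∈ dom r, ‖log w - log z‖ ≤ 2 * π / δ → ‖(idx L w)⁻¹ - b‖ ≤ e :=
  close_of_log hcl (log_block (by positivity) (by rwa [pow_add]) (h2.trans_eq (by ring)))

/-- The bound when no point is shifted by a full period. -/
theorem Nice.bound_empty (h : Nice L r δ K CF β) {E : ℂ → ℂ} {G : ℝ → ℝ} {C : ℝ} (hC : 0 < C)
    (hp : ∀ (w : ℂ) (X : ℝ), 0 ≤ X →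
      (∀ s ∈ dom r, ∀ n : ℕ, L s = w + 2 * π * I * (n + 1) → s.re ≤ X) →
        ‖E w‖ ≤ C * (1 + ‖w‖) ^ 2 * Real.exp (G (3 * r + X)))
    (hc : (∃ p, 1 / 2 < p ∧ Tendsto (rho L) atTop (𝓝 p)) ∨
      InjOn (fun z => exp (-L z)) (dom r)) :
    ∃ C' x₁ : ℝ, ∀ z : ℂ, x₁ < z.re → ‖E (L z)‖ ≤ C' * (1 + ‖z‖) ^ 2 := by
  obtain ⟨U, hU⟩ := h.upper
  obtain ⟨B, hB, hB'⟩ := h.far U
  obtain ⟨c, hc0, hc1⟩ := h.lin
  have hr := h.r_pos
  have hπ := Real.pi_pos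
  suffices hs : ∃ x₁ : ℝ, B ≤ x₁ ∧ ∀ z : ℂ, x₁ < z.re → ∀ w ∈ dom r, L w ≠ L z + 2 * π * I by
    obtain ⟨x₁, hx, hs⟩ := hs
    refine ⟨C * c ^ 2 * Real.exp (G (3 * r + 0)), x₁, fun z hz => ?_⟩
    have hzr : r < z.re := by linarith
    have hzd := mem_dom_of_re hr.le hzr
    have hzU := hB' z hzd (by linarith [re_le_norm z])
    refine (hp (L z) 0 le_rfl fun s hs' n e => ?_).trans ?_
    · obtain ⟨w, hw, e'⟩ := h.one_step hU hzd hs' hzU e
      exact absurd e' (hs z hz w hw)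
    · have h1 := pow_le_pow_left₀ (by positivity) (hc1 z hzr) 2
      have h2 := mul_le_mul_of_nonneg_left h1 (mul_pos hC (Real.exp_pos (G (3 * r + 0)))).le
      linarith [mul_pow c (1 + ‖z‖) 2]
  rcases hc with ⟨p, hp1, hp2⟩ | hi
  · obtain ⟨j₀, e, a1, -, a3, a4, a5, a6, -, -, a9⟩ :=
      h.pack hp2 (2 + 2 * π / δ) B (ζ := (p - 1 / 2) / 2) (by linarith)
    refine ⟨2 ^ j₀, a1, fun z hz w hw he => ?_⟩
    have hzd := mem_dom_of_re hr.le (show r < z.re by linarith)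
    have hn : 2 ^ j₀ ≤ ‖z‖ := hz.le.trans (re_le_norm z)
    obtain ⟨j, b1, b2⟩ := two_pow_block j₀ hn
    have h1 := (h.shift_arg hU hzd hw (hB' z hzd (a1.trans hn)) he
      (Nice.block_close (a9 j) b1 b2)).1
    have h2 : e j ≤ (p - 1 / 2) / 2 := (a4.le_tsum j fun k _ => a3 k).trans a5
    have h3 := (abs_le.1 (a6 j)).1
    have h4 := abs_lt.1 (abs_arg_lt_pi_div_two_iff.2 (Or.inl hzd.1))
    have h5 := abs_lt.1 (abs_arg_lt_pi_div_two_iff.2 (Or.inl hw.1))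
    have h6 : 1 / 2 ≤ rq L j₀ j - e j := by linarith
    have h7 := (abs_le.1 h1).1
    change -(2 * π * e j) ≤ arg w - arg z - 2 * π * rq L j₀ j at h7
    nlinarith [h4.1, h5.2]
  · refine ⟨B, le_rfl, fun z hz w hw he => ?_⟩
    have hzd := mem_dom_of_re hr.le (show r < z.re by linarith)
    have h1 : w = z := hi hw hzd (by
      simp only
      rw [he, neg_add, exp_add, exp_neg (2 * π * I), exp_two_pi_mul_I, inv_one, mul_one])
    rw [h1, left_eq_add] at he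
    exact two_pi_I_ne_zero he

/-- Admissible abscissae. -/
theorem Nice.adm (h : Nice L r δ K CF β) {U : ℝ}
    (hU : ∀ z ∈ dom r, U < (L z).re → 3 * r ≤ ‖z‖) {A : ℝ → Prop} {z : ℂ}
    (hz : z ∈ dom r) (hzU : U < (L z).re)
    (hp : ∀ X : ℝ, 0 ≤ X →
      (∀ s ∈ dom r, ∀ n : ℕ, L s = L z + 2 * π * I * (n + 1) → s.re ≤ X) → A X)
    (hm : ∀ X : ℝ, 0 ≤ X →
      (∀ s ∈ dom r, ∀ n : ℕ, L s = L z - 2 * π * I * n → s.re ≤ X) → A X) :
    A (Real.exp (K * π / 2) * z.re) ∧ (A 0 ∨ ∃ w ∈ dom r, L w = L z + 2 * π * I ∧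
      (0 ≤ w.im → A (Real.exp (K * π / 2) * w.re))) := by
  have hπ := Real.pi_pos
  constructor
  · have h0 := (mul_pos (Real.exp_pos (K * π / 2)) hz.1).le
    rcases le_total 0 z.im with hi | hi
    · exact hp _ h0 fun s hs n e => h.re_le hU hz hs hzU (σ := 2 * π * (n + 1))
        (by rw [e]; push_cast; ring) (Or.inl ⟨by positivity, hi⟩)
    · exact hm _ h0 fun s hs n e => h.re_le hU hz hs hzU (σ := -(2 * π * n))
        (by rw [e]; push_cast; ring) (Or.inr ⟨neg_nonpos.2 (by positivity), hi⟩)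
  · by_cases hw : ∃ w ∈ dom r, L w = L z + 2 * π * I
    · obtain ⟨w, hw, e'⟩ := hw
      refine Or.inr ⟨w, hw, e', fun hi => hp _ (mul_pos (Real.exp_pos _) hw.1).le
        fun s hs n e => h.re_le hU hw hs (by rw [e']; simpa using hzU) (σ := 2 * π * n)
          (by rw [e, e']; push_cast; ring) (Or.inl ⟨by positivity, hi⟩)⟩
    · exact Or.inl (hp 0 le_rfl fun s hs n e => absurd (h.one_step hU hz hs hzU e) hw)

theorem one_add_le {z : ℂ} (hz : 0 ≤ z.re) : 1 + ‖z‖ ≤ 2 * ‖1 + z‖ := by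
  have := norm_le_norm_add hz zero_le_one
  rw [ofReal_one, add_comm] at this
  linarith [this.1, this.2]

/-- The bound under the divergence condition. -/
theorem Nice.bound_div (h : Nice L r δ K CF β) (hω : RadicalWeight ω) {K₀ : ℝ} (hK : Bd ω K₀)
    {E : ℂ → ℂ} {C : ℝ} (hC : 0 < C) (hE : Differentiable ℂ E)
    (hp : ∀ (w : ℂ) (X : ℝ), 0 ≤ X →
      (∀ s ∈ dom r, ∀ n : ℕ, L s = w + 2 * π * I * (n + 1) → s.re ≤ X) →
        ‖E w‖ ≤ C * (1 + ‖w‖) ^ 2 * Real.exp (gw ω (3 * r + X)))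
    (hm : ∀ (w : ℂ) (X : ℝ), 0 ≤ X →
      (∀ s ∈ dom r, ∀ n : ℕ, L s = w - 2 * π * I * n → s.re ≤ X) →
        ‖E w‖ ≤ C * (1 + ‖w‖) ^ 2 * Real.exp (gw ω (3 * r + X)))
    {p : ℝ} (hlim : Tendsto (rho L) atTop (𝓝 p)) (hp2 : p < 1 / 2) {J : ℕ}
    (hs : ∀ j₀, J ≤ j₀ → ∀ ε, 0 < ε → ¬Cq ω K₀ (kq (rq L j₀)) ε) :
    ∃ C' x₁ : ℝ, ∀ z : ℂ, x₁ < z.re → ‖E (L z)‖ ≤ C' * (1 + ‖z‖) ^ 2 := by
  obtain ⟨U, hU⟩ := h.upper
  obtain ⟨B, hB, hB'⟩ := h.far U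
  obtain ⟨c, hc0, hc1⟩ := h.lin
  have hr := h.r_pos
  have hπ := Real.pi_pos
  have hθ : (p + 1 / 2) / 2 < 1 / 2 := by linarith
  obtain ⟨ζ, C₀, hζ, hC₀, hbar⟩ := exists_barrier hθ
  obtain ⟨j₀, e, a1, a2, a3, a4, a5, a6, a7, a8, a9⟩ := h.pack hlim (2 + 2 * π / δ)
    (max B (2 ^ J)) (ζ := min ζ ((1 / 2 - p) / 2)) (lt_min hζ (by linarith))
  have hSm : Sm (rq L j₀) ((p + 1 / 2) / 2) := ⟨hθ, fun j => ⟨a7 j, by
    linarith [(abs_le.1 (a6 j)).2, min_le_right ζ ((1 / 2 - p) / 2)]⟩⟩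
  set r₀ : ℝ := 2 ^ j₀ with hr₀
  have hr0 : 0 < r₀ := by positivity
  obtain ⟨ψ, Ψ, hψ, hψ0, hΨ, hbar⟩ := hbar (rq L j₀) e r₀ hr0 hSm a3 a4
    (a5.trans (min_le_left _ _)) a8
  set eK := Real.exp (K * π / 2) with heK
  have heK0 : 0 < eK := Real.exp_pos _
  set eD := Real.exp (2 * π / δ) with heD
  have heD1 : 1 ≤ eD := Real.one_le_exp (div_nonneg (by positivity) h.δ_pos.le)
  set x₂ := 3 * r + 2 * eK * r₀ with hx₂
  set C₁ := C * (2 * c) ^ 2 * Real.exp (gw ω x₂) with hC₁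
  have hC₁0 : 0 < C₁ := by positivity
  set H : ℂ → ℂ := fun z => E (L z) / (C₁ * (1 + z) ^ 2) with hH
  set C₂ := 5 * (eK * (eD * (2 * r₀))) with hC₂
  have hC₂0 : 0 < C₂ := by positivity
  have hone : ∀ z : ℂ, 0 < z.re → 0 < ‖1 + z‖ := fun z hz => by
    linarith [one_add_le hz.le, norm_nonneg z]
  have hHn : ∀ z : ℂ, ‖H z‖ = ‖E (L z)‖ / (C₁ * ‖1 + z‖ ^ 2) := fun z => by
    simp only [hH]
    rw [norm_div, norm_mul, norm_pow, norm_real, Real.norm_of_nonneg hC₁0.le]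
  have conv : ∀ z : ℂ, r₀ < z.re → ∀ X,
      ‖E (L z)‖ ≤ C * (1 + ‖L z‖) ^ 2 * Real.exp (gw ω (3 * r + X)) →
        ‖H z‖ ≤ Real.exp (gw ω (3 * r + X) - gw ω x₂) := fun z hz X hb => by
    have h0 := hone z (hr0.trans hz)
    have h1 : 1 + ‖L z‖ ≤ 2 * c * ‖1 + z‖ := by
      nlinarith [hc1 z (a2.trans hz), one_add_le (hr0.trans hz).le]
    have h2 := pow_le_pow_left₀ (by positivity) h1 2
    rw [hHn, div_le_iff₀ (by positivity), Real.exp_sub, hC₁]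
    refine hb.trans ((mul_le_mul_of_nonneg_right (mul_le_mul_of_nonneg_left h2 hC.le)
      (Real.exp_pos _).le).trans_eq ?_)
    field_simp
  have key : ∀ z : ℂ, r₀ < z.re → 1 < ‖H z‖ → 2 * r₀ ≤ z.re ∧ -(‖ψ z‖ / 4) ≤ (ψ z).re ∧
      ∃ j, ‖z‖ ≤ 12 * r₀ * ‖Ψ z‖ ∧ ‖Ψ z‖ ≤ C₀ * (2 ^ j * kq (rq L j₀) j) ∧
        Real.log ‖H z‖ ≤ gw ω (x₂ + C₂ * ((Ψ z).re / kq (rq L j₀) j)) - gw ω x₂ := by
    intro z hz hO
    have hzd := mem_dom_of_re hr.le (a2.trans hz)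
    have hn : r₀ ≤ ‖z‖ := hz.le.trans (re_le_norm z)
    have hzU := hB' z hzd (((le_max_left _ _).trans a1).trans hn)
    obtain ⟨A1, A2⟩ := h.adm hU (A := fun X => ‖H z‖ ≤ Real.exp (gw ω (3 * r + X) - gw ω x₂))
      hzd hzU (fun X h0 hX => conv z hz X (hp _ X h0 hX)) fun X h0 hX => conv z hz X (hm _ X h0 hX)
    have big : ∀ X, ‖H z‖ ≤ Real.exp (gw ω (3 * r + X) - gw ω x₂) → 2 * eK * r₀ < X :=
      fun X hX => by
        by_contra hle
        have h1 := hω.gw_mono (show 3 * r + X ≤ x₂ by linarith [not_lt.1 hle])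
        linarith [Real.exp_le_one_iff.2 (sub_nonpos.2 h1)]
    have hz2 : 2 * r₀ ≤ z.re := by
      have := big _ A1
      by_contra hlt
      nlinarith [not_le.1 hlt]
    obtain ⟨w, hw, he, A3⟩ := A2.resolve_left fun h0 => by
      have := big _ h0
      nlinarith [mul_pos heK0 hr0]
    obtain ⟨j, b1, b2⟩ := two_pow_block j₀ hn
    obtain ⟨s1, s2, s3, -⟩ := h.shift_arg hU hzd hw hzU he (Nice.block_close (a9 j) b1 b2)
    have s4 := (abs_le.1 s1).1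
    change -(2 * π * e j) ≤ arg w - arg z - 2 * π * rq L j₀ j at s4
    have g1 := abs_lt.1 (abs_arg_lt_pi_div_two_iff.2 (Or.inl hzd.1))
    have g2 := abs_lt.1 (abs_arg_lt_pi_div_two_iff.2 (Or.inl hw.1))
    set μ := min (π / 2 + arg z) (π / 2 - arg w) with hμ
    have hμ0 : 0 ≤ μ := le_min (by linarith [g1.1]) (by linarith [g2.2])
    obtain ⟨t1, t2, t3, t4⟩ := hbar j z μ hzd.1 b1 b2 hμ0 (min_le_left _ _)
      (by linarith [min_le_right (π / 2 + arg z) (π / 2 - arg w)])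
    have hzN : ‖z‖ ≤ ‖z‖ * eD := le_mul_of_one_le_right (norm_nonneg _) heD1
    have hX : ∃ X, ‖H z‖ ≤ Real.exp (gw ω (3 * r + X) - gw ω x₂) ∧ X ≤ eK * (‖z‖ * eD * μ) := by
      rcases le_total (π / 2 + arg z) (π / 2 - arg w) with hc | hc
      · refine ⟨_, A1, mul_le_mul_of_nonneg_left ((re_le_arg hzd.1).2.trans ?_) heK0.le⟩
        rw [hμ, min_eq_left hc]
        exact mul_le_mul_of_nonneg_right hzN (by linarith [g1.1])
      · refine ⟨_, A3 (arg_nonneg_iff.1 (by linarith)),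
          mul_le_mul_of_nonneg_left ((re_le_arg hw.1).1.trans ?_) heK0.le⟩
        rw [hμ, min_eq_right hc]
        exact mul_le_mul_of_nonneg_right s3 (by linarith [g2.2])
    obtain ⟨X, x1, x2⟩ := hX
    have hk := kq_pos (rq L j₀) j
    have hM := hSm.pow_le j
    refine ⟨hz2, t1, j, ?_, t3, ?_⟩
    · have : (2 : ℝ) ^ (j + 1) * r₀ = 2 * r₀ * 2 ^ j := by ring
      nlinarith
    · refine ((Real.log_le_iff_le_exp (by linarith)).2 x1).trans (sub_le_sub_right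
        (hω.gw_mono ?_) _)
      have y1 : 2 ^ j * μ / 5 ≤ (Ψ z).re / kq (rq L j₀) j := by
        rw [le_div_iff₀ hk]
        refine le_trans (le_of_eq ?_) t4
        rw [Mq]
        ring
      have y2 := mul_le_mul_of_nonneg_left y1 hC₂0.le
      have y3 : eK * (‖z‖ * eD * μ) ≤ eK * (2 ^ (j + 1) * r₀ * eD * μ) := by gcongr
      have y4 : eK * (2 ^ (j + 1) * r₀ * eD * μ) = C₂ * (2 ^ j * μ / 5) := by rw [hC₂]; ring
      linarith [mul_pos heK0 hr0]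
  have hψc : ContinuousOn ψ {z | r₀ < z.re} := hψ.continuousOn.mono fun z hz => hr0.trans hz
  have hO : IsOpen {z : ℂ | r₀ < z.re} := isOpen_lt continuous_const continuous_re
  set W : Set ℂ := {z | r₀ < z.re} ∩ ψ ⁻¹' {u | -(‖u‖ / 2) < u.re} with hW
  have hWo : IsOpen W := hψc.isOpen_inter_preimage hO (isOpen_lt (by fun_prop) continuous_re)
  have hmemW : ∀ z : ℂ, r₀ < z.re → -(‖ψ z‖ / 4) ≤ (ψ z).re → z ∈ W := fun z hz h1 =>
    ⟨hz, by
      have := norm_pos_iff.2 (hψ0 z)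
      simp only [mem_preimage, mem_ofPred_eq]
      linarith⟩
  have hHd : DifferentiableOn ℂ H W := fun z hz => by
    have hz1 : r₀ < z.re := hz.1
    refine DifferentiableAt.differentiableWithinAt (DifferentiableAt.div
      ((hE _).comp z (h.hasDerivAt (mem_dom_of_re hr.le (a2.trans hz1))).differentiableAt)
      (by fun_prop) (mul_ne_zero (by exact_mod_cast hC₁0.ne')
        (pow_ne_zero _ (norm_pos_iff.1 (hone z (hr0.trans hz1))))))
  obtain ⟨T₀, hT₀, hgain⟩ := hω.gain x₂ hC₂0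
  have main := pl_main (h := H) (Ψ := Ψ) hWo hHd (hΨ.mono fun z hz => ⟨hr0.trans hz.1, hz.2⟩)
    (fun R => ?_) (κ := kq (rq L j₀)) (η := fun t => -Real.log (ω t))
    (G := fun x => gw ω (x₂ + C₂ * x) - gw ω x₂) (A := 2 * C₂) hSm.one_le_kq hSm.kq_mono
    hSm.kq_le (by positivity) hT₀ hC₀ hK.1 (fun t ht => by linarith [hω.log_le hK ht.le])
    (fun t T ht hT => hω.superadd hK ht hT) ⟨convex_univ, fun x _ y _ a b ha hb hab => ?_⟩
    (fun x y hxy => sub_le_sub_right (hω.gw_mono (by nlinarith)) _) (by simp) hgain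
    (fun z hz h1 => by
      obtain ⟨-, -, j, -, k2, k3⟩ := key z hz.1 h1
      exact ⟨j, k2, k3⟩)
    fun ε hε hsum => hs j₀ (le_of_two_pow ((le_max_right _ _).trans a1)) ε hε
      (hsum.congr fun j => by ring)
  · refine ⟨C₁, r₀, fun z hz => ?_⟩
    have h1 : ‖H z‖ ≤ 1 := by
      by_contra h1
      exact h1 (main z (hmemW z hz (key z hz (not_le.1 h1)).2.1))
    have h0 := hone z (hr0.trans hz)
    rw [hHn, div_le_one (by positivity)] at h1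
    refine h1.trans (mul_le_mul_of_nonneg_left (pow_le_pow_left₀ h0.le ?_ 2) hC₁0.le)
    simpa using norm_add_le 1 z
  · have hK0 : IsCompact (Metric.closedBall (0 : ℂ) (12 * r₀ * R) ∩ {z | 2 * r₀ ≤ z.re}) :=
      (isCompact_closedBall _ _).inter_right (isClosed_le continuous_const continuous_re)
    have hsub : Metric.closedBall (0 : ℂ) (12 * r₀ * R) ∩ {z | 2 * r₀ ≤ z.re} ⊆
        {z | r₀ < z.re} := fun z hz => by
      have : 2 * r₀ ≤ z.re := hz.2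
      change r₀ < z.re
      linarith
    refine ⟨_ ∩ ψ ⁻¹' {u | -(‖u‖ / 4) ≤ u.re}, hK0.of_isClosed_subset
      ((hψc.mono hsub).preimage_isClosed_of_isClosed hK0.isClosed
        (isClosed_le (by fun_prop) continuous_re)) inter_subset_left,
      fun z hz => hmemW z (hsub hz.1) hz.2, fun z hz h1 h2 => ?_⟩
    obtain ⟨k1, k2, j, k3, -⟩ := key z hz.1 h1
    exact ⟨⟨mem_closedBall_zero_iff.2 (k3.trans (mul_le_mul_of_nonneg_left h2 (by positivity))),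
      k1⟩, k2⟩
  · have h1 := hω.gw_convex.2 (mem_univ (x₂ + C₂ * x)) (mem_univ (x₂ + C₂ * y)) ha hb hab
    simp only [smul_eq_mul] at h1 ⊢
    rw [show a * (x₂ + C₂ * x) + b * (x₂ + C₂ * y) = x₂ + C₂ * (a * x + b * y) by
      linear_combination x₂ * hab] at h1
    linear_combination h1 + gw ω x₂ * hab

end Pool.Agent.P.MP_0134b7_an
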