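import Pool.Agent.P.MP_0134b7_an.RNice

/-!
The integral condition and its discrete form.
-/

open Set Filter Topology MeasureTheory Complex
open scoped Real

namespace Pool.Agent.P.MP_0134b7_an

variable {ω : ℝ → ℝ}

theorem di_iUnion (j₀ : ℕ) :
    ⋃ j : ℕ, Ioc ((2 : ℝ) ^ (j + j₀)) (2 ^ (j + j₀ + 1)) = Ioi (2 ^ j₀) := by
  ext t
  simp only [mem_iUnion, mem_Ioc, mem_Ioi]
  constructor
  · rintro ⟨k, hk, -⟩
    exact lt_of_le_of_lt (pow_le_pow_right₀ one_le_two (Nat.le_add_left _ _)) hk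
  · intro ht
    have hex : ∃ k : ℕ, t ≤ (2 : ℝ) ^ (k + j₀ + 1) := by
      obtain ⟨k, hk⟩ := pow_unbounded_of_one_lt t (one_lt_two (α := ℝ))
      exact ⟨k, hk.le.trans (pow_le_pow_right₀ one_le_two (by omega))⟩
    refine ⟨Nat.find hex, ?_, Nat.find_spec hex⟩
    rcases hk : Nat.find hex with _ | k
    · rwa [zero_add]
    · have := not_le.1 (Nat.find_min hex (m := k) (by omega))
      rwa [show k + 1 + j₀ = k + j₀ + 1 by ring]

theorem di_vol (k : ℕ) : volume.real (Ioc ((2 : ℝ) ^ k) (2 ^ (k + 1))) = 2 ^ k := by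
  rw [Real.volume_real_Ioc_of_le (pow_le_pow_right₀ one_le_two (Nat.le_succ k)), pow_succ]
  ring

theorem RadicalWeight.di_cont (h : RadicalWeight ω) {κ : ℝ → ℝ} {x₀ ε : ℝ} (hx : 0 < x₀)
    (hε : 0 < ε) (hc : ContinuousOn κ (Ici x₀)) (h1 : ∀ x, x₀ ≤ x → 1 ≤ κ x) (A : ℝ) :
    ContinuousOn (fun x => (A - Real.log (ω (ε * κ x))) / (x ^ 2 * κ x)) (Ici x₀) := by
  have p : ∀ x ∈ Ici x₀, 0 < κ x := fun x hx' => one_pos.trans_le (h1 x hx')
  refine (continuousOn_const.sub ((h.cont.comp (continuousOn_const.mul hc)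
    fun x hx' => (mul_pos hε (p x hx')).le).log fun x hx' =>
      (h.pos _ (mul_pos hε (p x hx')).le).ne')).div ((continuousOn_id.pow 2).mul hc)
      fun x hx' => (mul_pos (pow_pos (hx.trans_le hx') 2) (p x hx')).ne'

theorem di_const_int {κ : ℝ → ℝ} {x₀ : ℝ} (hx : 0 < x₀)
    (hc : ContinuousOn κ (Ici x₀)) (h1 : ∀ x, x₀ ≤ x → 1 ≤ κ x) (A : ℝ) :
    IntegrableOn (fun x => A / (x ^ 2 * κ x)) (Ioi x₀) := by
  have p : ∀ x ∈ Ici x₀, 0 < κ x := fun x hx' => one_pos.trans_le (h1 x hx')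
  have i0 := (integrableOn_Ioi_rpow_of_lt (a := -2) (by norm_num) hx).const_mul |A|
  have c0 : ContinuousOn (fun x => A / (x ^ 2 * κ x)) (Ioi x₀) :=
    (continuousOn_const.div ((continuousOn_id.pow 2).mul hc)
      fun x hx' => (mul_pos (pow_pos (hx.trans_le hx') 2) (p x hx')).ne').mono Ioi_subset_Ici_self
  refine i0.mono' (c0.aestronglyMeasurable measurableSet_Ioi) ?_
  refine (ae_restrict_iff' measurableSet_Ioi).2 (ae_of_all _ fun x hx' => ?_)
  have x0 : 0 < x := hx.trans hx'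
  have k1 := h1 x (le_of_lt hx')
  rw [Real.rpow_neg x0.le, Real.rpow_two, Real.norm_eq_abs, abs_div,
    abs_of_pos (mul_pos (pow_pos x0 2) (one_pos.trans_le k1)), ← div_eq_mul_inv]
  exact div_le_div_of_nonneg_left (abs_nonneg A) (pow_pos x0 2)
    (le_mul_of_one_le_right (pow_pos x0 2).le k1)

/-- The comparison of the integral and the series for comparable scales. -/
theorem RadicalWeight.di_abstract (h : RadicalWeight ω) {K : ℝ} (hK : Bd ω K) {κ : ℝ → ℝ}
    {q : ℕ → ℝ} {x₀ c : ℝ} {j₀ : ℕ} (hx : 0 < x₀) (hj : x₀ ≤ 2 ^ j₀) (hc0 : 0 < c)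
    (hc : ContinuousOn κ (Ici x₀)) (h1 : ∀ x, x₀ ≤ x → 1 ≤ κ x) (hq : ∀ j, 1 ≤ q j)
    (hcmp : ∀ j, ∀ x ∈ Icc ((2 : ℝ) ^ (j + j₀)) (2 ^ (j + j₀ + 1)),
      q j ≤ c * κ x ∧ κ x ≤ c * q j) :
    (∃ ε, 0 < ε ∧ IntegrableOn
      (fun x => Real.log (ω (ε * κ x)) / (x ^ 2 * κ x)) (Ioi x₀)) ↔
      ∃ ε, 0 < ε ∧ Cq ω K q ε := by
  have k0 := hK.1
  have lo : ∀ j : ℕ, x₀ ≤ 2 ^ (j + j₀) := fun j =>
    hj.trans (pow_le_pow_right₀ one_le_two (Nat.le_add_left _ _))
  have gc : ∀ {ε : ℝ}, 0 < ε → ∀ (A : ℝ) (j : ℕ), IntegrableOn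
      (fun x => (A - Real.log (ω (ε * κ x))) / (x ^ 2 * κ x))
      (Ioc ((2 : ℝ) ^ (j + j₀)) (2 ^ (j + j₀ + 1))) := fun hε A j =>
    (((h.di_cont hx hε hc h1 A).mono fun x hx' => (lo j).trans hx'.1).integrableOn_Icc).mono_set
      Ioc_subset_Icc_self
  have fin : ∀ k : ℕ, volume (Ioc ((2 : ℝ) ^ k) (2 ^ (k + 1))) ≠ ⊤ :=
    fun k => measure_Ioc_lt_top.ne
  have qp : ∀ j, 0 < q j := fun j => one_pos.trans_le (hq j)
  constructor
  · rintro ⟨ε, hε, hi⟩
    refine ⟨ε / c, div_pos hε hc0, ?_⟩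
    have i1 : IntegrableOn (fun x => (2 * K - Real.log (ω (ε * κ x))) / (x ^ 2 * κ x))
        (Ioi ((2 : ℝ) ^ j₀)) := by
      refine IntegrableOn.mono_set ?_ (Ioi_subset_Ioi hj)
      exact ((di_const_int hx hc h1 (2 * K)).sub hi).congr
        (ae_of_all _ fun t => by simp only [Pi.sub_apply]; ring)
    rw [← di_iUnion] at i1
    have s1 := (hasSum_integral_iUnion (fun k => measurableSet_Ioc) (fun i j hij => ?_)
      i1).summable.mul_left (4 * c * 2 ^ j₀)
    · refine s1.of_nonneg_of_le (fun k => div_nonneg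
        (by linarith [h.log_le hK (mul_pos (div_pos hε hc0) (qp k)).le])
        (mul_pos (by positivity) (qp k)).le) fun k => ?_
      have p := qp k
      have := setIntegral_mono_on (integrableOn_const (fin (k + j₀))
        (C := (K - Real.log (ω (ε / c * q k))) / ((2 ^ (k + j₀ + 1)) ^ 2 * (c * q k))))
        (gc hε (2 * K) k) measurableSet_Ioc fun t ht => by
          have t0 : 0 < t := lt_trans (by positivity) ht.1
          have t1 := h1 t ((lo k).trans ht.1.le)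
          obtain ⟨c1, c2⟩ := hcmp k t ⟨ht.1.le, ht.2⟩
          have c3 : ε / c * q k ≤ ε * κ t := by
            rw [div_mul_eq_mul_div, div_le_iff₀ hc0, mul_assoc, mul_comm (κ t)]
            exact mul_le_mul_of_nonneg_left c1 hε.le
          have b1 := h.log_anti hK (mul_pos (div_pos hε hc0) p).le c3
          have b2 := h.log_le hK (mul_pos hε (one_pos.trans_le t1)).le
          exact div_le_div₀ (by linarith) (by linarith)
            (mul_pos (pow_pos t0 2) (one_pos.trans_le t1))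
            (mul_le_mul (pow_le_pow_left₀ t0.le ht.2 2) c2 (by linarith) (by positivity))
      rw [setIntegral_const, di_vol, smul_eq_mul] at this
      refine le_trans (le_of_eq ?_) (mul_le_mul_of_nonneg_left this (by positivity))
      field_simp
      ring
    · rcases lt_or_gt_of_ne hij with h' | h'
      · exact Ioc_disjoint_Ioc_of_le (pow_le_pow_right₀ one_le_two (by omega))
      · exact (Ioc_disjoint_Ioc_of_le (pow_le_pow_right₀ one_le_two (by omega))).symm
  · rintro ⟨ε, hε, hs⟩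
    have hε' : 0 < ε / c := div_pos hε hc0
    refine ⟨ε / c, hε', ?_⟩
    have s0 : Summable fun k : ℕ => c * (K * (1 / 2 ^ k) +
        (K - Real.log (ω (ε * q k))) / (2 ^ k * q k)) :=
      ((summable_half.mul_left K).add hs).mul_left c
    have i1 : IntegrableOn (fun x => (K - Real.log (ω (ε / c * κ x))) / (x ^ 2 * κ x))
        (Ioi ((2 : ℝ) ^ j₀)) := by
      rw [← di_iUnion]
      refine integrableOn_iUnion_of_summable_integral_norm (gc hε' K) (s0.of_nonneg_of_le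
        (fun k => integral_nonneg fun t => norm_nonneg _) fun k => ?_)
      have p := qp k
      have b0 := h.log_le hK (mul_pos hε p).le
      have := setIntegral_mono_on (gc hε' K k).norm (integrableOn_const (fin (k + j₀))
        (C := (2 * K - Real.log (ω (ε * q k))) / ((2 ^ (k + j₀)) ^ 2 * (q k / c))))
        measurableSet_Ioc fun t ht => by
          have t0 : 0 < t := lt_trans (by positivity) ht.1
          have t1 := h1 t ((lo k).trans ht.1.le)
          obtain ⟨c1, c2⟩ := hcmp k t ⟨ht.1.le, ht.2⟩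
          have c3 : ε / c * κ t ≤ ε * q k := by
            rw [div_mul_eq_mul_div, div_le_iff₀ hc0, mul_assoc, mul_comm (q k)]
            exact mul_le_mul_of_nonneg_left c2 hε.le
          have b1 := h.log_anti hK (mul_pos hε' (one_pos.trans_le t1)).le c3
          have b2 := h.log_le hK (mul_pos hε' (one_pos.trans_le t1)).le
          rw [Real.norm_of_nonneg (div_nonneg (by linarith)
            (mul_pos (pow_pos t0 2) (one_pos.trans_le t1)).le)]
          exact div_le_div₀ (by linarith) (by linarith) (by positivity)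
            (mul_le_mul (pow_le_pow_left₀ (by positivity) ht.1.le 2)
              (by rwa [div_le_iff₀ hc0, mul_comm]) (by positivity) (by positivity))
      rw [setIntegral_const, di_vol, smul_eq_mul] at this
      refine this.trans ?_
      have e : (2 : ℝ) ^ (k + j₀) * ((2 * K - Real.log (ω (ε * q k))) /
          ((2 ^ (k + j₀)) ^ 2 * (q k / c))) = c * (K / (2 ^ k * (2 ^ j₀ * q k)) +
            (K - Real.log (ω (ε * q k))) / (2 ^ k * (2 ^ j₀ * q k))) := by
        field_simp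
        ring
      have o1 : (1 : ℝ) ≤ 2 ^ j₀ := one_le_pow₀ one_le_two
      have o2 : q k ≤ 2 ^ j₀ * q k := le_mul_of_one_le_left p.le o1
      rw [e, mul_one_div]
      refine mul_le_mul_of_nonneg_left (add_le_add ?_ ?_) hc0.le
      · exact div_le_div_of_nonneg_left k0 (by positivity)
          (le_mul_of_one_le_right (by positivity) ((hq k).trans o2))
      · exact div_le_div_of_nonneg_left (by linarith) (by positivity)
          (mul_le_mul_of_nonneg_left o2 (by positivity))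
    have i2 : IntegrableOn (fun x => (K - Real.log (ω (ε / c * κ x))) / (x ^ 2 * κ x))
        (Ioi x₀) := by
      rw [← Ioc_union_Ioi_eq_Ioi hj]
      exact ((((h.di_cont hx hε' hc h1 K).mono Icc_subset_Ici_self).integrableOn_Icc).mono_set
        Ioc_subset_Icc_self).union i1
    exact ((di_const_int hx hc h1 K).sub i2).congr
      (ae_of_all _ fun t => by simp only [Pi.sub_apply]; ring)

theorem di_phi_bd {θ u : ℝ} (hθ : θ < 1 / 2) (h0 : 0 ≤ u) (h1 : u ≤ θ) :
    0 ≤ 2 * u / (1 - 2 * u) ∧ 2 * u / (1 - 2 * u) ≤ 1 / (1 - 2 * θ) :=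
  ⟨div_nonneg (by linarith) (by linarith),
    div_le_div₀ zero_le_one (by linarith) (by linarith) (by linarith)⟩

theorem di_phi_lip {θ u v : ℝ} (hθ : θ < 1 / 2) (h1 : u ≤ θ) (h2 : v ≤ θ) :
    |2 * u / (1 - 2 * u) - 2 * v / (1 - 2 * v)| ≤ 2 / (1 - 2 * θ) ^ 2 * |u - v| := by
  have p : 0 < 1 - 2 * θ := by linarith
  have pu : 0 < 1 - 2 * u := by linarith
  have pv : 0 < 1 - 2 * v := by linarith
  have e : 2 * u / (1 - 2 * u) - 2 * v / (1 - 2 * v) =
      2 / ((1 - 2 * u) * (1 - 2 * v)) * (u - v) := by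
    field_simp
    ring
  rw [e, abs_mul, abs_of_pos (by positivity)]
  refine mul_le_mul_of_nonneg_right (div_le_div_of_nonneg_left zero_le_two (by positivity) ?_)
    (abs_nonneg _)
  rw [sq]
  exact mul_le_mul (by linarith) (by linarith) p.le pu.le

/-- The integral of a bounded function over `s` on a dyadic block. -/
theorem di_block {f : ℝ → ℝ} {a x M : ℝ} (ha : 0 < a) (hax : a ≤ x) (hx : x ≤ 2 * a)
    (hf : ∀ s ∈ Icc a x, |f s| ≤ M) : |∫ s in a..x, f s / s| ≤ M := by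
  have M0 : 0 ≤ M := (abs_nonneg _).trans (hf a ⟨le_rfl, hax⟩)
  have := intervalIntegral.norm_integral_le_of_norm_le_const (a := a) (b := x) (C := M / a)
    (f := fun s => f s / s) fun s hs => by
      rw [uIoc_of_le hax] at hs
      rw [Real.norm_eq_abs, abs_div, abs_of_pos (ha.trans hs.1)]
      exact div_le_div₀ M0 (hf s ⟨hs.1.le, hs.2⟩) ha hs.1.le
  rw [Real.norm_eq_abs, abs_of_nonneg (sub_nonneg.2 hax)] at this
  refine this.trans ?_
  rw [div_mul_eq_mul_div, div_le_iff₀ ha]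
  exact mul_le_mul_of_nonneg_left (by linarith) M0

theorem RadicalWeight.discrete (h : RadicalWeight ω) {K : ℝ} (hK : Bd ω K) {ρ : ℝ → ℝ}
    {x₀ θ : ℝ} {β : ℕ → ℝ} {j₀ : ℕ} (hx : 0 < x₀) (hj : x₀ ≤ 2 ^ j₀) (hθ : θ < 1 / 2)
    (hc : ContinuousOn ρ (Ici x₀)) (hρ : ∀ x, x₀ ≤ x → 0 ≤ ρ x ∧ ρ x ≤ θ) (hβ : Summable β)
    (ho : ∀ k : ℕ, j₀ ≤ k → ∀ x ∈ Icc ((2 : ℝ) ^ k) (2 ^ (k + 1)), |ρ x - ρ (2 ^ k)| ≤ β k) :
    (∃ ε, 0 < ε ∧ IntegrableOn
      (fun x => Real.log (ω (ε * kap ρ x₀ x)) / (x ^ 2 * kap ρ x₀ x)) (Ioi x₀)) ↔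
      ∃ ε, 0 < ε ∧ Cq ω K (kq fun j => ρ (2 ^ (j + j₀))) ε := by
  set φ : ℝ → ℝ := fun s => 2 * ρ s / (1 - 2 * ρ s) with hφ
  set G : ℝ → ℝ := fun x => ∫ s in x₀..x, φ s / s with hG
  have kG : ∀ x, kap ρ x₀ x = Real.exp (G x) := fun x => by
    simp only [kap, hG, hφ, div_div]
  have lo : ∀ j : ℕ, x₀ ≤ 2 ^ (j + j₀) := fun j =>
    hj.trans (pow_le_pow_right₀ one_le_two (Nat.le_add_left _ _))
  have φb : ∀ s, x₀ ≤ s → 0 ≤ φ s ∧ φ s ≤ 1 / (1 - 2 * θ) := fun s hs =>
    di_phi_bd hθ (hρ s hs).1 (hρ s hs).2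
  have φc : ContinuousOn φ (Ici x₀) :=
    (continuousOn_const.mul hc).div (continuousOn_const.sub (continuousOn_const.mul hc))
      fun s hs => by linarith [(hρ s hs).2]
  have gc : ContinuousOn (fun s => φ s / s) (Ici x₀) :=
    φc.div continuousOn_id fun s hs => (hx.trans_le hs).ne'
  have gi : ∀ a b, x₀ ≤ a → x₀ ≤ b → IntervalIntegrable (fun s => φ s / s) volume a b :=
    fun a b ha hb => (gc.mono fun s hs => (le_min ha hb).trans hs.1).intervalIntegrable
  have Gd : ∀ a b, x₀ ≤ a → x₀ ≤ b → G b - G a = ∫ s in a..b, φ s / s := fun a b ha hb =>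
    intervalIntegral.integral_interval_sub_left (gi _ _ le_rfl hb) (gi _ _ le_rfl ha)
  have Gc : ContinuousOn G (Ici x₀) := by
    intro x hx'
    have c1 := intervalIntegral.continuousOn_primitive_interval'
      (gi x₀ (x + 1) le_rfl (by linarith [mem_Ici.1 hx'])) left_mem_uIcc
    rw [uIcc_of_le (by linarith [mem_Ici.1 hx'])] at c1
    refine (c1 x ⟨hx', by linarith⟩).mono_of_mem_nhdsWithin ?_
    exact mem_nhdsWithin.2 ⟨Iio (x + 1), isOpen_Iio, by simp, fun y hy => ⟨hy.2, le_of_lt hy.1⟩⟩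
  have G0 : ∀ x, x₀ ≤ x → 0 ≤ G x := fun x hx' =>
    intervalIntegral.integral_nonneg hx' fun s hs =>
      div_nonneg (φb s hs.1).1 (hx.le.trans hs.1)
  set S : ℕ → ℝ := fun j => Real.log 2 * ∑ i ∈ Finset.range j, φ (2 ^ (i + j₀)) with hS
  have kS : ∀ j, kq (fun j => ρ (2 ^ (j + j₀))) j = Real.exp (S j) := fun j => by
    rw [kq, Real.rpow_def_of_pos two_pos]
  have S0 : ∀ j, 0 ≤ S j := fun j =>
    mul_nonneg (Real.log_nonneg one_le_two) (Finset.sum_nonneg fun i _ => (φb _ (lo i)).1)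
  set L : ℝ := 2 / (1 - 2 * θ) ^ 2 with hL
  have L0 : 0 ≤ L := by positivity
  have step : ∀ i : ℕ, |G (2 ^ (i + 1 + j₀)) - G (2 ^ (i + j₀)) -
      Real.log 2 * φ (2 ^ (i + j₀))| ≤ L * β (i + j₀) := fun i => by
    have p : (0 : ℝ) < 2 ^ (i + j₀) := by positivity
    have e1 : (2 : ℝ) ^ (i + 1 + j₀) = 2 * 2 ^ (i + j₀) := by ring
    have e2 : Real.log 2 * φ (2 ^ (i + j₀)) =
        ∫ s in (2 : ℝ) ^ (i + j₀)..2 * 2 ^ (i + j₀), φ (2 ^ (i + j₀)) / s := by
      simp only [div_eq_mul_inv]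
      rw [intervalIntegral.integral_const_mul, integral_inv_of_pos p (by positivity),
        mul_div_assoc, div_self p.ne', mul_one, mul_comm]
    have i2 : IntervalIntegrable (fun s : ℝ => φ (2 ^ (i + j₀)) / s) volume
        (2 ^ (i + j₀)) (2 * 2 ^ (i + j₀)) := by
      refine ContinuousOn.intervalIntegrable (continuousOn_const.div continuousOn_id ?_)
      intro s hs
      rw [uIcc_of_le (by linarith)] at hs
      exact (p.trans_le hs.1).ne'
    rw [Gd _ _ (lo i) (lo (i + 1)), e1, e2,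
      ← intervalIntegral.integral_sub (gi _ _ (lo i) (by linarith [lo i])) i2]
    simp only [← sub_div]
    refine di_block p (by linarith) le_rfl fun s hs => ?_
    refine (di_phi_lip hθ (hρ s ((lo i).trans hs.1)).2 (hρ _ (lo i)).2).trans
      (mul_le_mul_of_nonneg_left (ho _ (Nat.le_add_left _ _) s ⟨hs.1, ?_⟩) L0)
    rw [pow_succ]
    linarith [hs.2]
  have β0 : ∀ i, 0 ≤ β (i + j₀) := fun i => (abs_nonneg _).trans
    (ho _ (Nat.le_add_left _ _) _ ⟨le_rfl, pow_le_pow_right₀ one_le_two (Nat.le_succ _)⟩)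
  have acc : ∀ j : ℕ, |G (2 ^ (j + j₀)) - G (2 ^ j₀) - S j| ≤
      L * ∑ i ∈ Finset.range j, β (i + j₀) := fun j => by
    induction j with
    | zero => simp [hS]
    | succ j ih =>
      have e : S (j + 1) = S j + Real.log 2 * φ (2 ^ (j + j₀)) := by
        simp only [hS, Finset.sum_range_succ, mul_add]
      rw [e, Finset.sum_range_succ, mul_add]
      have a1 := abs_le.1 ih
      have a2 := abs_le.1 (step j)
      exact abs_le.2 ⟨by linarith [a1.1, a2.1], by linarith [a1.2, a2.2]⟩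
  have acc' : ∀ j : ℕ, |G (2 ^ (j + j₀)) - G (2 ^ j₀) - S j| ≤ L * ∑' i, β (i + j₀) := fun j =>
    (acc j).trans (mul_le_mul_of_nonneg_left
      (((summable_nat_add_iff j₀).2 hβ).sum_le_tsum _ fun i _ => β0 i) L0)
  set C : ℝ := G (2 ^ j₀) + L * ∑' i, β (i + j₀) + 1 / (1 - 2 * θ) with hC
  have cmp : ∀ j : ℕ, ∀ x ∈ Icc ((2 : ℝ) ^ (j + j₀)) (2 ^ (j + j₀ + 1)), |G x - S j| ≤ C := by
    intro j x hx'
    have a1 := abs_le.1 (acc' j)
    have a2 : |G x - G (2 ^ (j + j₀))| ≤ 1 / (1 - 2 * θ) := by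
      rw [Gd _ _ (lo j) ((lo j).trans hx'.1)]
      refine di_block (by positivity) hx'.1 (by linarith [hx'.2, pow_succ (2 : ℝ) (j + j₀)])
        fun s hs => ?_
      have := φb s ((lo j).trans hs.1)
      rw [abs_of_nonneg this.1]
      exact this.2
    have a3 := abs_le.1 a2
    have a4 := G0 _ hj
    exact abs_le.2 ⟨by linarith [a1.1, a3.1], by linarith [a1.2, a3.2]⟩
  refine h.di_abstract hK hx hj (Real.exp_pos C) ?_ (fun x hx' => ?_) (fun j => ?_)
    fun j x hx' => ?_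
  · simp only [funext kG]
    exact Gc.rexp
  · rw [kG]
    exact Real.one_le_exp (G0 x hx')
  · rw [kS]
    exact Real.one_le_exp (S0 j)
  · have a := abs_le.1 (cmp j x hx')
    rw [kG, kS, ← Real.exp_add, ← Real.exp_add]
    exact ⟨Real.exp_le_exp.2 (by linarith [a.1]), Real.exp_le_exp.2 (by linarith [a.2])⟩

end Pool.Agent.P.MP_0134b7_an
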