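import Pool.Agent.P.MP_0134b7_an.Defs

/-!
Functions whose Laplace transform has a regular logarithmic derivative.
-/

open Set Filter Topology MeasureTheory

namespace Pool.Agent.P.MP_0134b7_an

/-- The part of the right half plane outside the closed disc of radius `r`. -/
def dom (r : ℝ) : Set ℂ := {z | 0 < z.re ∧ r < ‖z‖}

/-- The Laplace transform. -/
noncomputable def lap (f : ℝ → ℂ) (z : ℂ) : ℂ :=
  ∫ t in Ioi (0 : ℝ), f t * Complex.exp (-(z * t))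

/-- The index function `z L'(z)`. -/
noncomputable def idx (L : ℂ → ℂ) (z : ℂ) : ℂ := z * deriv L z

/-- The Laplace transform of `f` at `c + z` is `exp (-L z)` on `dom r`, and the index function
of `L` is regular there. -/
structure Regular (f : ℝ → ℂ) (c r : ℝ) (L : ℂ → ℂ) : Prop where
  int : IntegrableOn (fun t : ℝ => f t * Complex.exp (-(c * t))) (Ioi 0)
  diff : DifferentiableOn ℂ L (dom r)
  lap_eq : ∀ z ∈ dom r, lap f (c + z) = Complex.exp (-L z)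
  re_ge : ∃ δ : ℝ, 0 < δ ∧ ∀ z ∈ dom r, δ ≤ (idx L z).re
  ang : ∃ K : ℝ, ∀ z ∈ dom r, |(idx L z).im| * z.re ≤ (|z.im| + K * z.re) * (idx L z).re
  osc : ∃ β : ℕ → ℝ, Summable β ∧ ∀ k : ℕ, ∀ z ∈ dom r, ∀ w ∈ dom r,
    ‖z‖ ∈ Icc ((2 : ℝ) ^ k) (2 ^ (k + 1)) → ‖w‖ ∈ Icc ((2 : ℝ) ^ k) (2 ^ (k + 1)) →
      ‖(idx L z)⁻¹ - (idx L w)⁻¹‖ ≤ β k
  small : ∀ ε : ℝ, 0 < ε → ∃ R : ℝ, ∀ z ∈ dom r, R ≤ ‖z‖ → ‖deriv L z‖ ≤ ε

/-- The real part of the reciprocal index on the real axis. -/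
noncomputable def rho (L : ℂ → ℂ) (x : ℝ) : ℝ := ((idx L x)⁻¹).re

/-- The scale function attached to `ρ`. -/
noncomputable def kap (ρ : ℝ → ℝ) (x₀ x : ℝ) : ℝ :=
  Real.exp (∫ s in x₀..x, 2 * ρ s / ((1 - 2 * ρ s) * s))

end Pool.Agent.P.MP_0134b7_an
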