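import Pool.Agent.P.MP_0134b7_an.RNice

/-!
Duality for the weighted space.
-/

open Set Filter Topology MeasureTheory Complex
open scoped Real

namespace Pool.Agent.P.MP_0134b7_an

variable {ω : ℝ → ℝ}

private theorem l1_dual {μ : Measure ℝ} [IsFiniteMeasure μ] (Λ : Lp ℂ 1 μ →L[ℂ] ℂ)
    (hΛ : ∀ y, ‖Λ y‖ ≤ ‖y‖) : ∃ ψ : ℝ → ℂ, Measurable ψ ∧ (∀ t, ‖ψ t‖ ≤ 1) ∧
      ∀ y : Lp ℂ 1 μ, Λ y = ∫ t, ψ t * y t ∂μ := by
  let ι : Lp ℂ 2 μ →ₗ[ℂ] Lp ℂ 1 μ :=
    { toFun := fun y => ⟨y.1, Lp.antitone one_le_two y.2⟩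
      map_add' := fun _ _ => rfl
      map_smul' := fun _ _ => rfl }
  have hι : ∀ y, (ι y : ℝ → ℂ) = y := fun _ => rfl
  have hb : ∀ y, ‖(Λ.toLinearMap ∘ₗ ι) y‖ ≤
      (μ univ ^ (1 / (1 : ENNReal).toReal - 1 / (2 : ENNReal).toReal)).toReal * ‖y‖ := fun y => by
    refine (hΛ (ι y)).trans ?_
    rw [Lp.norm_def, Lp.norm_def, hι, mul_comm, ← ENNReal.toReal_mul]
    refine ENNReal.toReal_mono (ENNReal.mul_ne_top (Lp.eLpNorm_ne_top y)
      (ENNReal.rpow_ne_top_of_nonneg (by norm_num) (measure_ne_top _ _))) ?_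
    exact eLpNorm_le_eLpNorm_mul_rpow_measure_univ one_le_two (Lp.aestronglyMeasurable y)
  obtain ⟨u, hu⟩ : ∃ u : Lp ℂ 2 μ, ∀ y : Lp ℂ 2 μ,
      Λ (ι y) = ∫ t, (starRingEnd ℂ) (u t) * y t ∂μ := by
    refine ⟨(InnerProductSpace.toDual ℂ _).symm ((Λ.toLinearMap ∘ₗ ι).mkContinuous _ hb),
      fun y => ?_⟩
    have := InnerProductSpace.toDual_symm_apply (𝕜 := ℂ) (x := y)
      (y := (Λ.toLinearMap ∘ₗ ι).mkContinuous _ hb)
    rw [L2.inner_def] at this
    simp only [RCLike.inner_apply, mul_comm (y _)] at this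
    exact this.symm
  have hm : Measurable u := (Lp.stronglyMeasurable u).measurable
  have hA : MeasurableSet {t | 1 < ‖u t‖} := measurableSet_lt measurable_const hm.norm
  have hle : ∀ᵐ t ∂μ, ‖u t‖ ≤ 1 := by
    have h1 := (Lp.memLp u).indicator hA
    have h2 := hΛ (ι (h1.toLp _))
    have i1 : Integrable (indicator {t | 1 < ‖u t‖} fun t => ‖u t‖ ^ 2) μ :=
      ((Lp.memLp u).norm.integrable_sq).indicator hA
    have i2 : Integrable (indicator {t | 1 < ‖u t‖} fun t => ‖u t‖) μ :=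
      ((Lp.memLp u).integrable one_le_two).norm.indicator hA
    have e1 : ∫ t, (starRingEnd ℂ) (u t) * (h1.toLp _) t ∂μ =
        ((∫ t, indicator {t | 1 < ‖u t‖} (fun t => ‖u t‖ ^ 2) t ∂μ : ℝ) : ℂ) := by
      rw [← integral_complex_ofReal]
      refine integral_congr_ae (h1.coeFn_toLp.mono fun t ht => ?_)
      simp only [ht]
      by_cases h : t ∈ {t | 1 < ‖u t‖}
      · simp only [indicator_of_mem h, Complex.conj_mul', ofReal_pow]
      · simp only [indicator_of_notMem h, mul_zero, ofReal_zero]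
    have e2 : ‖ι (h1.toLp _)‖ = ∫ t, indicator {t | 1 < ‖u t‖} (fun t => ‖u t‖) t ∂μ := by
      rw [L1.norm_eq_integral_norm, hι]
      refine integral_congr_ae (h1.coeFn_toLp.mono fun t ht => ?_)
      simp only [ht]
      by_cases h : t ∈ {t | 1 < ‖u t‖}
      · simp only [indicator_of_mem h]
      · simp only [indicator_of_notMem h, norm_zero]
    rw [hu, e1, e2, Complex.norm_real] at h2
    have h3 := (le_abs_self _).trans h2
    rw [← sub_nonpos, ← integral_sub i1 i2] at h3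
    have h4 : ∀ t, 0 ≤ indicator {t | 1 < ‖u t‖} (fun t => ‖u t‖ ^ 2) t -
        indicator {t | 1 < ‖u t‖} (fun t => ‖u t‖) t := fun t => by
      by_cases h : t ∈ {t | 1 < ‖u t‖}
      · simp only [indicator_of_mem h]
        have : 1 < ‖u t‖ := h
        nlinarith
      · simp only [indicator_of_notMem h, sub_self, le_refl]
    have h5 := (integral_eq_zero_iff_of_nonneg h4 (i1.sub i2)).1
      (le_antisymm h3 (integral_nonneg h4))
    filter_upwards [h5] with t ht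
    by_contra h
    have h6 : t ∈ {t | 1 < ‖u t‖} := not_le.1 h
    simp only [indicator_of_mem h6, Pi.zero_apply] at ht
    have : 1 < ‖u t‖ := h6
    nlinarith
  let ψ : ℝ → ℂ := fun t => if ‖u t‖ ≤ 1 then (starRingEnd ℂ) (u t) else 0
  have hψm : Measurable ψ := Measurable.ite (measurableSet_le hm.norm measurable_const)
    (continuous_conj.measurable.comp hm) measurable_const
  have hψb : ∀ t, ‖ψ t‖ ≤ 1 := fun t => by
    simp only [ψ]
    split_ifs with h
    · rwa [norm_conj]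
    · simp
  have hint : ∀ y : Lp ℂ 1 μ, Integrable (fun t => ψ t * y t) μ := fun y =>
    (L1.integrable_coeFn y).bdd_mul hψm.aestronglyMeasurable (.of_forall hψb)
  let Ψ : Lp ℂ 1 μ →ₗ[ℂ] ℂ :=
    { toFun := fun y => ∫ t, ψ t * y t ∂μ
      map_add' := fun y y' => by
        rw [← integral_add (hint y) (hint y')]
        exact integral_congr_ae ((Lp.coeFn_add y y').mono fun t ht => by
          simp only [ht, Pi.add_apply, mul_add])
      map_smul' := fun c y => by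
        rw [RingHom.id_apply, smul_eq_mul, ← integral_const_mul]
        exact integral_congr_ae ((Lp.coeFn_smul c y).mono fun t ht => by
          simp only [ht, Pi.smul_apply, smul_eq_mul, mul_left_comm]) }
  have hΨ : ∀ y, ‖Ψ y‖ ≤ 1 * ‖y‖ := fun y => by
    rw [one_mul, L1.norm_eq_integral_norm]
    refine norm_integral_le_of_norm_le (L1.integrable_coeFn y).norm (.of_forall fun t => ?_)
    rw [norm_mul]
    exact mul_le_of_le_one_left (norm_nonneg _) (hψb t)
  refine ⟨ψ, hψm, hψb, fun y => ?_⟩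
  change Λ y = Ψ.mkContinuous 1 hΨ y
  refine Lp.induction ENNReal.one_ne_top (fun y => Λ y = Ψ.mkContinuous 1 hΨ y)
    (fun c s hs hμ => ?_) (fun f g hf hg _ h1 h2 => by rw [map_add, map_add, h1, h2])
    (isClosed_eq Λ.continuous (Ψ.mkContinuous 1 hΨ).continuous) y
  have e : (Lp.simpleFunc.indicatorConst 1 hs hμ.ne c : Lp ℂ 1 μ) =
      ι (indicatorConstLp 2 hs hμ.ne c) := by
    refine Lp.ext ?_
    rw [hι, Lp.simpleFunc.coe_indicatorConst]
    exact indicatorConstLp_coeFn.trans indicatorConstLp_coeFn.symm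
  rw [e, hu]
  refine integral_congr_ae (hle.mono fun t ht => ?_)
  simp only [ψ, if_pos ht, hι]

private theorem RadicalWeight.fin_wm (h : RadicalWeight ω) : IsFiniteMeasure (wm ω) := by
  have h1 := h.memL1_iff.1 (h.memL1_pw one_pos)
  have h2 : pw 1 = fun _ => (1 : ℂ) := by
    funext t
    simp [pw]
  rw [h2, integrable_const_iff] at h1
  exact h1.resolve_left one_ne_zero

private theorem RadicalWeight.dist_pos (h : RadicalWeight ω) {f g : ℝ → ℂ}
    (hf : ∀ k, MemL1 ω (convPow f k)) (hg : MemL1 ω g)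
    (h1 : ‖(Submodule.span ℂ (range fun j => (h.memL1_iff.1 (hf j)).toL1 _)).mkQL
      ((h.memL1_iff.1 hg).toL1 g)‖ = 0) (ε : ENNReal) (hε : 0 < ε) : ∃ (n : ℕ) (c : ℕ → ℂ),
    wnorm ω (fun t => g t - ∑ k ∈ Finset.range n, c k * convPow f k t) < ε := by
  let p := Submodule.span ℂ (range fun j => (h.memL1_iff.1 (hf j)).toL1 _)
  obtain ⟨δ, hδ, h2⟩ := ENNReal.lt_iff_exists_real_btwn.1 hε
  obtain ⟨y, hy, h3⟩ := Submodule.Quotient.norm_mk_lt (p.mkQL ((h.memL1_iff.1 hg).toL1 g))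
    (ENNReal.ofReal_pos.1 h2.1)
  obtain ⟨c, hc⟩ := Finsupp.mem_span_range_iff_exists_finsupp.1
    ((Submodule.Quotient.eq p).1 hy.symm)
  obtain ⟨n, hn⟩ := c.support.exists_nat_subset_range
  rw [Finsupp.sum_of_support_subset _ hn (fun i x => x • (h.memL1_iff.1 (hf i)).toL1 _)
    fun i _ => zero_smul _ _] at hc
  refine ⟨n, c, lt_of_le_of_lt ?_ h2.2⟩
  rw [h1, zero_add] at h3
  refine le_trans (le_of_eq ?_) (ofReal_norm y ▸ ENNReal.ofReal_le_ofReal h3.le)
  rw [h.wnorm_eq, Lp.enorm_def, eLpNorm_one_eq_lintegral_enorm, ← sub_sub_cancel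
    ((h.memL1_iff.1 hg).toL1 g) y, ← hc]
  refine lintegral_congr_ae ?_
  filter_upwards [Lp.coeFn_sub ((h.memL1_iff.1 hg).toL1 g)
    (∑ i ∈ Finset.range n, c i • (h.memL1_iff.1 (hf i)).toL1 _), (h.memL1_iff.1 hg).coeFn_toL1,
    Lp.coeFn_finsetSum (Finset.range n) fun i => c i • (h.memL1_iff.1 (hf i)).toL1 _,
    ae_all_iff.2 fun i => Lp.coeFn_smul (c i) ((h.memL1_iff.1 (hf i)).toL1 _),
    ae_all_iff.2 fun i => (h.memL1_iff.1 (hf i)).coeFn_toL1] with t a1 a2 a3 a4 a5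
  rw [a1, Pi.sub_apply, a2, a3, Finset.sum_apply]
  congr 2
  refine Finset.sum_congr rfl fun i _ => ?_
  rw [a4, Pi.smul_apply, a5, smul_eq_mul]

/-- A function that is not a generator has a nonzero annihilator bounded by the weight. -/
theorem RadicalWeight.exists_dual (h : RadicalWeight ω) {f : ℝ → ℂ}
    (hf : ∀ k, MemL1 ω (convPow f k)) (hn : ¬IsPolyGen ω f) :
    ∃ φ : ℝ → ℂ, Measurable φ ∧ (∀ t, 0 < t → ‖φ t‖ ≤ ω t) ∧
      ¬φ =ᵐ[volume.restrict (Ioi 0)] 0 ∧ ∀ k, ∫ t in Ioi 0, φ t * convPow f k t = 0 := by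
  have := h.fin_wm
  let p := Submodule.span ℂ (range fun j => (h.memL1_iff.1 (hf j)).toL1 _)
  obtain ⟨g, hg, h1⟩ : ∃ (g : ℝ → ℂ) (hg : MemL1 ω g),
      ‖p.mkQL ((h.memL1_iff.1 hg).toL1 g)‖ ≠ 0 := by
    by_contra h1
    push Not at h1
    exact hn ⟨hf 0, fun g hg => h.dist_pos hf hg (h1 g hg)⟩
  obtain ⟨l, hl, hl'⟩ := exists_dual_vector ℂ _ h1
  obtain ⟨ψ, hm, hb, hr⟩ := l1_dual (l.comp p.mkQL) fun y => by
    refine (l.le_opNorm _).trans ?_
    rw [hl, one_mul]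
    exact Submodule.Quotient.norm_mk_le p _
  have hc : Continuous fun t : ℝ => ω (max t 0) :=
    h.cont.comp_continuous (by fun_prop) fun t => le_max_right t 0
  have key : ∀ (F : ℝ → ℂ) (hF : MemL1 ω F), ∫ t in Ioi 0, ψ t * (ω (max t 0) : ℝ) * F t =
      l (p.mkQL ((h.memL1_iff.1 hF).toL1 F)) := fun F hF => by
    have e := hr ((h.memL1_iff.1 hF).toL1 F)
    rw [integral_congr_ae (g := fun t => ψ t * F t)
      ((h.memL1_iff.1 hF).coeFn_toL1.mono fun t ht => by simp only [ht])] at e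
    refine Eq.trans ?_ e.symm
    rw [wm, integral_withDensity_eq_integral_toReal_smul₀ h.aem.ennreal_ofReal
      (.of_forall fun _ => ENNReal.ofReal_lt_top)]
    refine integral_congr_ae ((ae_restrict_mem measurableSet_Ioi).mono fun t ht => ?_)
    have ht' : 0 ≤ t := le_of_lt ht
    simp only [max_eq_left ht', ENNReal.toReal_ofReal (h.pos t ht').le, Complex.real_smul]
    ring
  refine ⟨fun t => ψ t * (ω (max t 0) : ℝ),
    hm.mul (continuous_ofReal.comp hc).measurable, fun t ht => ?_, fun h0 => ?_, fun k => ?_⟩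
  · beta_reduce
    rw [max_eq_left ht.le, norm_mul, Complex.norm_real, Real.norm_of_nonneg (h.pos t ht.le).le]
    exact mul_le_of_le_one_left (h.pos t ht.le).le (hb t)
  · have e := key g hg
    rw [integral_congr_ae (g := fun _ => 0) (h0.mono fun t ht => by
      simp only [Pi.zero_apply] at ht
      simp only [ht, zero_mul]), integral_zero, hl'] at e
    exact h1 (RCLike.ofReal_eq_zero.1 e.symm)
  · have h2 : p.mkQL ((h.memL1_iff.1 (hf k)).toL1 _) = 0 :=
      (Submodule.Quotient.mk_eq_zero p).2 (Submodule.subset_span ⟨k, rfl⟩)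
    rw [key _ (hf k), h2, map_zero]

private theorem RadicalWeight.pair' (h : RadicalWeight ω) {φ g : ℝ → ℂ} {C : ℝ}
    (hφ : AEStronglyMeasurable φ (volume.restrict (Ioi 0)))
    (hb : ∀ t, 0 < t → ‖φ t‖ ≤ C * ω t) (hg : MemL1 ω g) :
    IntegrableOn (fun t => φ t * g t) (Ioi 0) ∧
      ‖∫ t in Ioi 0, φ t * g t‖ₑ ≤ ENNReal.ofReal C * wnorm ω g := by
  have hC : 0 ≤ C := nonneg_of_mul_nonneg_left ((norm_nonneg _).trans (hb 1 one_pos))
    (h.pos _ zero_le_one)
  have h1 : ∫⁻ t in Ioi 0, ‖φ t * g t‖ₑ ≤ ENNReal.ofReal C * wnorm ω g := by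
    rw [wnorm, ← lintegral_const_mul' _ _ ENNReal.ofReal_ne_top]
    refine setLIntegral_mono' measurableSet_Ioi fun t ht => ?_
    rw [enorm_mul, mul_left_comm, mul_comm, ← ENNReal.ofReal_mul hC, ← ofReal_norm (φ t)]
    exact mul_le_mul_right (ENNReal.ofReal_le_ofReal (hb t ht)) _
  exact ⟨⟨hφ.mul hg.1, h1.trans_lt (ENNReal.mul_lt_top ENNReal.ofReal_lt_top hg.2)⟩,
    (enorm_integral_le_lintegral_enorm _).trans h1⟩

/-- An annihilator of the powers of a generator annihilates everything. -/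
theorem RadicalWeight.annih (h : RadicalWeight ω) {f φ g : ℝ → ℂ} {C : ℝ}
    (hf : ∀ k, MemL1 ω (convPow f k)) (hgen : IsPolyGen ω f)
    (hφ : AEStronglyMeasurable φ (volume.restrict (Ioi 0)))
    (hb : ∀ t, 0 < t → ‖φ t‖ ≤ C * ω t) (h0 : ∀ k, ∫ t in Ioi 0, φ t * convPow f k t = 0)
    (hg : MemL1 ω g) : ∫ t in Ioi 0, φ t * g t = 0 := by
  rw [← enorm_eq_zero]
  by_contra h3
  obtain ⟨ε, hε, h4⟩ := ENNReal.exists_nnreal_pos_mul_lt
    (ENNReal.ofReal_ne_top (r := C)) h3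
  obtain ⟨n, c, h5⟩ := hgen.2 _ hg ε (by exact_mod_cast hε)
  have h7 : MemL1 ω fun t => ∑ k ∈ Finset.range n, c k * convPow f k t :=
    h.memL1_iff.2 (integrable_finsetSum _ fun k _ => (h.memL1_iff.1 (hf k)).const_mul _)
  have h8 := (h.pair' hφ hb (h.memL1_iff.2 ((h.memL1_iff.1 hg).sub (h.memL1_iff.1 h7)))).2
  have h9 : ∫ t in Ioi 0, φ t * ∑ k ∈ Finset.range n, c k * convPow f k t = 0 := by
    simp only [Finset.mul_sum, mul_left_comm (φ _)]
    rw [integral_finsetSum _ fun k _ => (h.pair' hφ hb (hf k)).1.const_mul _]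
    simp only [integral_const_mul, h0, mul_zero, Finset.sum_const_zero]
  simp only [Pi.sub_apply, mul_sub] at h8
  rw [integral_sub (h.pair' hφ hb hg).1 (h.pair' hφ hb h7).1, h9, sub_zero] at h8
  exact absurd (h8.trans (mul_le_mul_right h5.le _)) (not_le.2 (by rwa [mul_comm]))

/-- Integrable functions lie in the weighted space. -/
theorem RadicalWeight.memL1_of_int (h : RadicalWeight ω) {g : ℝ → ℂ}
    (hg : IntegrableOn g (Ioi 0)) : MemL1 ω g := by
  obtain ⟨K, hK⟩ := h.exists_bd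
  exact memL1_of_le hg.1 (hg.norm.mul_const (Real.exp K)) fun t ht =>
    mul_le_mul_of_nonneg_left (hK.2 t ht.le) (norm_nonneg _)

end Pool.Agent.P.MP_0134b7_an
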