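import Pool.Agent.P.MP_0134b7_an.RNice

/-!
A meromorphic kernel with poles at the positive multiples of the period.
-/

open Set Filter Topology MeasureTheory Complex
open scoped Real

namespace Pool.Agent.P.MP_0134b7_an

/-- The kernel. -/
noncomputable def kp (x : ℂ) : ℂ :=
  ∑' n : ℕ, (1 / (x - 2 * π * I * (n + 1)) + 1 / (2 * π * I * (n + 1)))

theorem kp_norm_c (n : ℕ) : ‖(2 * π * I * (n + 1) : ℂ)‖ = 2 * π * (n + 1) := by
  have h : ((n : ℂ) + 1) = ((n + 1 : ℝ) : ℂ) := by push_cast; rfl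
  rw [norm_mul, norm_mul, norm_mul, norm_I, h, norm_real, norm_real, Complex.norm_two,
    Real.norm_of_nonneg Real.pi_pos.le, Real.norm_of_nonneg (by positivity), mul_one]

theorem kp_far {x : ℂ} {n : ℕ} (h : ‖x‖ ≤ π * (n + 1)) :
    π * (n + 1) ≤ ‖x - 2 * π * I * (n + 1)‖ := by
  have h1 := norm_sub_norm_le (2 * π * I * (n + 1) : ℂ) x
  rw [kp_norm_c, norm_sub_rev] at h1
  linarith

theorem kp_one_le (n : ℕ) : (1 : ℝ) ≤ π * (n + 1) := by
  have := Real.pi_gt_three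
  have h : (0 : ℝ) ≤ n := n.cast_nonneg
  nlinarith

theorem kp_term_le {x : ℂ} {d : ℝ} (hd : 0 < d) (hd1 : d ≤ 1) {n : ℕ}
    (hx : d ≤ ‖x - 2 * π * I * (n + 1)‖) :
    ‖1 / (x - 2 * π * I * (n + 1)) + 1 / (2 * π * I * (n + 1))‖ ≤
      (1 + ‖x‖) ^ 2 / (2 * π ^ 2 * d) * (1 / ((n : ℝ) + 1) ^ 2) := by
  have hπ := Real.pi_pos
  have hN : (0 : ℝ) < n + 1 := by positivity
  have h0 : 0 < ‖x - 2 * π * I * (n + 1)‖ := hd.trans_le hx
  have hc : (2 * π * I * (n + 1) : ℂ) ≠ 0 := by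
    rw [← norm_pos_iff, kp_norm_c]; positivity
  have h1 : x - 2 * π * I * (n + 1) ≠ 0 := norm_pos_iff.1 h0
  have h2 : d * (π * (n + 1)) ≤ (1 + ‖x‖) * ‖x - 2 * π * I * (n + 1)‖ := by
    have hx0 := norm_nonneg x
    rcases le_total ‖x‖ (π * (n + 1)) with h | h
    · have := kp_far h
      have h3 : 0 < π * ((n : ℝ) + 1) := by positivity
      nlinarith
    · nlinarith
  have e : 1 / (x - 2 * π * I * (n + 1)) + 1 / (2 * π * I * (n + 1)) =
      x / ((x - 2 * π * I * (n + 1)) * (2 * π * I * (n + 1))) := by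
    rw [div_add_div _ _ h1 hc]
    congr 1
    ring
  rw [e, norm_div, norm_mul, kp_norm_c, div_le_iff₀ (by positivity)]
  have hx0 := norm_nonneg x
  calc ‖x‖ ≤ 1 + ‖x‖ := by linarith
    _ = (1 + ‖x‖) / (d * (π * (n + 1))) * (d * (π * (n + 1))) := by field_simp
    _ ≤ (1 + ‖x‖) / (d * (π * (n + 1))) * ((1 + ‖x‖) * ‖x - 2 * π * I * (n + 1)‖) := by gcongr
    _ = _ := by field_simp

theorem kp_zeta : HasSum (fun n : ℕ => 1 / ((n : ℝ) + 1) ^ 2) (π ^ 2 / 6) := by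
  have h := (hasSum_nat_add_iff' 1).2 hasSum_zeta_two
  simpa using h

theorem kp_summable (x : ℂ) :
    Summable fun n : ℕ => 1 / (x - 2 * π * I * (n + 1)) + 1 / (2 * π * I * (n + 1)) := by
  refine Summable.of_norm_bounded_eventually_nat
    (kp_zeta.summable.mul_left ((1 + ‖x‖) ^ 2 / (2 * π ^ 2 * 1))) ?_
  obtain ⟨N, hN⟩ := exists_nat_ge ‖x‖
  filter_upwards [eventually_ge_atTop N] with n hn
  have h1 : (N : ℝ) ≤ n := by exact_mod_cast hn
  have h2 : ‖x‖ ≤ π * (n + 1) := by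
    have := Real.pi_gt_three
    have h : (0 : ℝ) ≤ n := n.cast_nonneg
    nlinarith
  exact kp_term_le one_pos le_rfl ((kp_one_le n).trans (kp_far h2))

theorem kp_dist {x : ℂ} (hx : ∀ n : ℕ, x ≠ 2 * π * I * (n + 1)) :
    ∃ d : ℝ, 0 < d ∧ d ≤ 1 ∧ ∀ n : ℕ, d ≤ ‖x - 2 * π * I * (n + 1)‖ := by
  have key : ∀ N : ℕ, ∃ d : ℝ, 0 < d ∧ d ≤ 1 ∧ ∀ n : ℕ, n < N → d ≤ ‖x - 2 * π * I * (n + 1)‖ := by
    intro N
    induction N with
    | zero => exact ⟨1, one_pos, le_rfl, fun n hn => absurd hn (Nat.not_lt_zero n)⟩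
    | succ N ih =>
      obtain ⟨d, h0, h1, h2⟩ := ih
      refine ⟨min d ‖x - 2 * π * I * (N + 1)‖, lt_min h0 (norm_pos_iff.2 (sub_ne_zero.2 (hx N))),
        (min_le_left _ _).trans h1, fun n hn => ?_⟩
      rcases Nat.lt_succ_iff_lt_or_eq.1 hn with h | rfl
      · exact (min_le_left _ _).trans (h2 n h)
      · exact min_le_right _ _
  obtain ⟨N, hN⟩ := exists_nat_ge ‖x‖
  obtain ⟨d, h0, h1, h2⟩ := key N
  refine ⟨d, h0, h1, fun n => ?_⟩
  rcases lt_or_ge n N with h | h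
  · exact h2 n h
  · have h3 : (N : ℝ) ≤ n := by exact_mod_cast h
    have h4 : ‖x‖ ≤ π * (n + 1) := by
      have := Real.pi_gt_three
      have h : (0 : ℝ) ≤ n := n.cast_nonneg
      nlinarith
    exact h1.trans ((kp_one_le n).trans (kp_far h4))

theorem kp_diff {x : ℂ} (hx : ∀ n : ℕ, x ≠ 2 * π * I * (n + 1)) : DifferentiableAt ℂ kp x := by
  obtain ⟨d, h0, h1, h2⟩ := kp_dist hx
  have hb : ∀ n : ℕ, ∀ w ∈ Metric.ball x (d / 2), d / 2 ≤ ‖w - 2 * π * I * (n + 1)‖ := by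
    intro n w hw
    rw [Metric.mem_ball, dist_eq_norm] at hw
    have h3 := norm_sub_le (w - 2 * π * I * (n + 1)) (w - x)
    rw [show w - 2 * π * I * (n + 1) - (w - x) = x - 2 * π * I * (n + 1) by ring] at h3
    linarith [h2 n]
  have hd : DifferentiableOn ℂ kp (Metric.ball x (d / 2)) := by
    refine Complex.differentiableOn_tsum_of_summable_norm
      (kp_zeta.summable.mul_left ((2 + ‖x‖) ^ 2 / (2 * π ^ 2 * (d / 2)))) (fun n => ?_)
      Metric.isOpen_ball fun n w hw => ?_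
    · refine DifferentiableOn.add_const _ ?_
      refine (differentiableOn_const _).div (differentiableOn_id.sub_const _) fun w hw => ?_
      exact norm_pos_iff.1 ((half_pos h0).trans_le (hb n w hw))
    · refine (kp_term_le (half_pos h0) (by linarith) (hb n w hw)).trans ?_
      rw [Metric.mem_ball, dist_eq_norm] at hw
      have h3 := norm_sub_norm_le w x
      have h4 : 1 + ‖w‖ ≤ 2 + ‖x‖ := by linarith
      gcongr
  exact hd.differentiableAt (Metric.ball_mem_nhds x (half_pos h0))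

theorem kp_meas : Measurable kp := by
  refine measurable_of_tendsto_metrizable
    (f := fun N x => ∑ n ∈ Finset.range N,
      (1 / (x - 2 * π * I * ((n : ℂ) + 1)) + 1 / (2 * π * I * ((n : ℂ) + 1)))) (fun N => ?_) ?_
  · refine Finset.measurable_sum _ fun n _ => ?_
    exact (measurable_const.div (measurable_id.sub_const _)).add_const _
  · exact tendsto_pi_nhds.2 fun x => (kp_summable x).hasSum.tendsto_sum_nat

theorem kp_le {x : ℂ} {d : ℝ} (hd : 0 < d) (hd1 : d ≤ 1)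
    (hx : ∀ n : ℕ, d ≤ ‖x - 2 * π * I * (n + 1)‖) : ‖kp x‖ ≤ (1 + ‖x‖) ^ 2 / d := by
  have h := tsum_of_norm_bounded (kp_zeta.mul_left ((1 + ‖x‖) ^ 2 / (2 * π ^ 2 * d)))
    fun n => kp_term_le hd hd1 (hx n)
  refine h.trans ?_
  have hπ := Real.pi_pos
  rw [show (1 + ‖x‖) ^ 2 / (2 * π ^ 2 * d) * (π ^ 2 / 6) = (1 + ‖x‖) ^ 2 / d / 12 by
    field_simp; norm_num]
  have : 0 ≤ (1 + ‖x‖) ^ 2 / d := by positivity
  linarith

theorem kp_shift {x : ℂ} (hx : ∀ n : ℕ, x ≠ 2 * π * I * n) :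
    kp (x + 2 * π * I) = kp x + 1 / x := by
  have h1 := (kp_summable (x + 2 * π * I)).hasSum.tendsto_sum_nat
  have h2 := (kp_summable x).hasSum.tendsto_sum_nat
  have h3 : Tendsto (fun N : ℕ => 1 / (x - 2 * π * I * ((N : ℂ) + 1))) atTop (𝓝 0) := by
    refine squeeze_zero_norm' ?_ tendsto_one_div_add_atTop_nhds_zero_nat
    obtain ⟨N, hN⟩ := exists_nat_ge ‖x‖
    filter_upwards [eventually_ge_atTop N] with n hn
    have h4 : (N : ℝ) ≤ n := by exact_mod_cast hn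
    have h : (0 : ℝ) ≤ n := n.cast_nonneg
    have := Real.pi_gt_three
    have h5 : ‖x‖ ≤ π * (n + 1) := by nlinarith
    rw [norm_div, norm_one]
    exact one_div_le_one_div_of_le (by positivity) (le_trans (by nlinarith) (kp_far h5))
  have h4 : ∀ N : ℕ, ∑ n ∈ Finset.range (N + 1),
      (1 / (x + 2 * π * I - 2 * π * I * ((n : ℂ) + 1)) + 1 / (2 * π * I * ((n : ℂ) + 1))) =
      ∑ n ∈ Finset.range (N + 1),
        (1 / (x - 2 * π * I * ((n : ℂ) + 1)) + 1 / (2 * π * I * ((n : ℂ) + 1))) + 1 / x -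
        1 / (x - 2 * π * I * ((N : ℂ) + 1)) := by
    intro N
    induction N with
    | zero => simp; ring
    | succ N ih =>
      rw [Finset.sum_range_succ, ih, Finset.sum_range_succ _ (N + 1)]
      push_cast
      rw [show x + 2 * π * I - 2 * π * I * ((N : ℂ) + 1 + 1) = x - 2 * π * I * (N + 1) by ring]
      ring
  have h5 := (((tendsto_add_atTop_iff_nat 1).2 h2).add_const (1 / x)).sub h3
  rw [sub_zero] at h5
  exact tendsto_nhds_unique ((tendsto_add_atTop_iff_nat 1).2 h1) (h5.congr fun N => (h4 N).symm)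

theorem kp_sum {x : ℂ} (hx : x.re ≠ 0) : kp x + 1 / x - kp (-x) = 1 / 2 + 1 / (exp x - 1) := by
  have hπ : (π : ℂ) ≠ 0 := ofReal_ne_zero.2 Real.pi_ne_zero
  have hc : (2 * π * I : ℂ) ≠ 0 := by simp [hπ]
  obtain ⟨y, rfl⟩ : ∃ y, x = 2 * π * I * y := ⟨x / (2 * π * I), by field_simp⟩
  have hy : y ∈ Complex.integerComplement := by
    rintro ⟨n, rfl⟩
    exact hx (by simp)
  have he : exp (2 * π * I * y) - 1 ≠ 0 := fun h => by
    have h1 := congrArg (fun z => ‖z‖) (sub_eq_zero.1 h)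
    simp only [norm_exp, norm_one, Real.exp_eq_one_iff] at h1
    exact hx h1
  have he' : 1 - exp (2 * π * I * y) ≠ 0 := fun h => he (by linear_combination -h)
  have hy0 : y ≠ 0 := Complex.integerComplement.ne_zero hy
  have h1 : kp (2 * π * I * y) - kp (-(2 * π * I * y)) =
      1 / (2 * π * I) * (π * cot (π * y) - 1 / y) := by
    rw [cot_series_rep' hy, ← tsum_mul_left, kp, kp,
      ← (kp_summable _).tsum_sub (kp_summable _)]
    refine tsum_congr fun n => ?_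
    rw [← mul_sub, show -(2 * π * I * y) - 2 * π * I * ((n : ℂ) + 1) = -(2 * π * I * (y + (n + 1))) by
      ring, ← one_div_mul_one_div, one_div_neg_eq_neg_one_div, ← one_div_mul_one_div (2 * π * I) (y + _)]
    ring
  have h2 : kp (2 * π * I * y) + 1 / (2 * π * I * y) - kp (-(2 * π * I * y)) =
      1 / (2 * π * I) * (π * cot (π * y)) := by
    rw [add_sub_right_comm, h1, ← one_div_mul_one_div (2 * π * I) y]
    ring
  rw [h2, cot_pi_eq_exp_ratio]
  field_simp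
  ring_nf
  simp only [I_sq]
  ring

end Pool.Agent.P.MP_0134b7_an
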