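import Pool.Agent.P.MP_0134b7_an.RNice

/-!
Cauchy theorem and Cauchy formula for vertical strips.
-/

open Set Filter Topology MeasureTheory Complex
open scoped Real

namespace Pool.Agent.P.MP_0134b7_an

theorem line_int {q : ℂ → ℂ} {x C : ℝ} (hq : ∀ y : ℝ, DifferentiableAt ℂ q (x + y * I))
    (hb : ∀ y : ℝ, ‖q (x + y * I)‖ ≤ C / (1 + y ^ 2)) :
    (Integrable fun y : ℝ => q (x + y * I)) ∧ ‖∫ y : ℝ, q (x + y * I)‖ ≤ π * C := by
  have hc : Continuous fun y : ℝ => q (x + y * I) := by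
    rw [continuous_iff_continuousAt]
    intro y
    exact ContinuousAt.comp (f := fun y : ℝ => (x + y * I : ℂ)) (hq y).continuousAt (by fun_prop)
  have hi : Integrable fun y : ℝ => C * (1 + y ^ 2)⁻¹ := integrable_inv_one_add_sq.const_mul C
  have hb' : ∀ y : ℝ, ‖q (x + y * I)‖ ≤ C * (1 + y ^ 2)⁻¹ := fun y => by
    simpa [div_eq_mul_inv] using hb y
  refine ⟨hi.mono' hc.aestronglyMeasurable (ae_of_all _ hb'), ?_⟩
  refine (norm_integral_le_of_norm_le hi (ae_of_all _ hb')).trans (le_of_eq ?_)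
  rw [integral_const_mul, integral_univ_inv_one_add_sq, mul_comm]

namespace RStrip

theorem rect_lim {g : ℂ → ℂ} {x₁ x₂ : ℝ} (c : ℝ) (hx : x₁ ≤ x₂)
    (hg : DifferentiableOn ℂ g {s : ℂ | x₁ ≤ s.re ∧ s.re ≤ x₂})
    (hs : ∀ ε : ℝ, 0 < ε → ∃ T : ℝ, ∀ s : ℂ, x₁ ≤ s.re → s.re ≤ x₂ → T ≤ |s.im - c| →
      ‖g s‖ ≤ ε) :
    Tendsto (fun T : ℝ => (∫ y in (c - T)..(c + T), g (x₂ + y * I)) -
      ∫ y in (c - T)..(c + T), g (x₁ + y * I)) atTop (𝓝 0) := by
  rw [Metric.tendsto_atTop]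
  intro ε hε
  have hd : 0 < 2 * (x₂ - x₁) + 1 := by linarith
  obtain ⟨T₀, hT₀⟩ := hs (ε / (2 * (x₂ - x₁) + 1)) (div_pos hε hd)
  refine ⟨max T₀ 0, fun T hT => ?_⟩
  have hT1 : T₀ ≤ T := (le_max_left _ _).trans hT
  have hT2 : 0 ≤ T := (le_max_right _ _).trans hT
  have key := integral_boundary_rect_eq_zero_of_differentiableOn g ⟨x₁, c - T⟩ ⟨x₂, c + T⟩
    (hg.mono fun s hs => by
      have h1 := hs.1
      simp only [mem_preimage, uIcc_of_le hx] at h1
      exact h1)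
  simp only [smul_eq_mul] at key
  have side : ∀ v : ℝ, T ≤ |v - c| →
      ‖∫ x : ℝ in x₁..x₂, g (x + v * I)‖ ≤ ε / (2 * (x₂ - x₁) + 1) * (x₂ - x₁) := by
    intro v hv
    have := intervalIntegral.norm_integral_le_of_norm_le_const (a := x₁) (b := x₂)
      (f := fun x : ℝ => g (x + v * I)) (C := ε / (2 * (x₂ - x₁) + 1)) (fun x hx' => by
        rw [uIoc_of_le hx] at hx'
        exact hT₀ _ (by simpa using hx'.1.le) (by simpa using hx'.2) (by simpa using hT1.trans hv))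
    rwa [abs_of_nonneg (sub_nonneg.2 hx)] at this
  have s1 := side (c - T) (by rw [sub_sub_cancel_left, abs_neg, abs_of_nonneg hT2])
  have s2 := side (c + T) (by rw [add_sub_cancel_left, abs_of_nonneg hT2])
  have e : I * ((∫ y in (c - T)..(c + T), g (x₂ + y * I)) -
      ∫ y in (c - T)..(c + T), g (x₁ + y * I)) =
      (∫ x : ℝ in x₁..x₂, g (x + (c + T : ℝ) * I)) - ∫ x : ℝ in x₁..x₂, g (x + (c - T : ℝ) * I) := by
    linear_combination key
  have e2 := congrArg norm e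
  rw [norm_mul, norm_I, one_mul] at e2
  rw [dist_zero_right, e2]
  refine (norm_sub_le _ _).trans_lt ?_
  have h3 : ε / (2 * (x₂ - x₁) + 1) * (2 * (x₂ - x₁) + 1) = ε := div_mul_cancel₀ _ hd.ne'
  have h4 := div_pos hε hd
  nlinarith

theorem sym_lim {f : ℝ → ℂ} (c : ℝ) (hf : Integrable f) :
    Tendsto (fun T : ℝ => ∫ y in (c - T)..(c + T), f y) atTop (𝓝 (∫ y, f y)) :=
  intervalIntegral_tendsto_integral hf
    (tendsto_atBot_add_const_left _ c tendsto_neg_atTop_atBot)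
    (tendsto_atTop_add_const_left _ c tendsto_id)

theorem ne_of_re {x : ℝ} {z : ℂ} (h : x ≠ z.re) (y : ℝ) : (x + y * I - z : ℂ) ≠ 0 := by
  intro e
  have := congrArg re e
  simp at this
  exact h (by linarith)

theorem pole_int {x : ℝ} {z : ℂ} (h : x ≠ z.re) (T : ℝ) :
    ∫ y in (z.im - T)..(z.im + T), ((x : ℂ) + y * I - z)⁻¹ =
      (2 * Real.arctan (T / (x - z.re)) : ℝ) := by
  set a := x - z.re with ha
  have ha0 : a ≠ 0 := sub_ne_zero.2 h
  have hder : ∀ y : ℝ, HasDerivAt (fun y : ℝ => ((Real.arctan ((y - z.im) / a) : ℝ) : ℂ) -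
      I / 2 * ((Real.log (a ^ 2 + (y - z.im) ^ 2) : ℝ) : ℂ)) (((x : ℂ) + y * I - z)⁻¹) y := by
    intro y
    have hp : 0 < a ^ 2 + (y - z.im) ^ 2 := by positivity
    have d0 : HasDerivAt (fun y : ℝ => y - z.im) 1 y := (hasDerivAt_id y).sub_const _
    have d1 := (d0.div_const a).arctan.ofReal_comp
    have d2 := (((d0.pow 2).const_add (a ^ 2)).log hp.ne').ofReal_comp.const_mul (I / 2)
    have d3 := d1.sub d2
    refine HasDerivAt.congr_deriv d3 ?_
    have e : (x : ℂ) + y * I - z = (a : ℂ) + ((y - z.im : ℝ) : ℂ) * I := by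
      apply Complex.ext <;> simp [ha]
    have hne := ne_of_re h y
    rw [e] at hne ⊢
    simp only [Pi.pow_apply]
    generalize y - z.im = t at hne hp ⊢
    have e1 : 1 / (1 + (t / a) ^ 2) * (1 / a) = a / (a ^ 2 + t ^ 2) := by
      field_simp
    have hp' : ((a : ℂ) ^ 2 + (t : ℂ) ^ 2) ≠ 0 := by exact_mod_cast hp.ne'
    rw [e1]
    push_cast
    field_simp
    linear_combination (-(t : ℂ) ^ 2) * I_sq
  have hc : Continuous fun y : ℝ => ((x : ℂ) + y * I - z)⁻¹ :=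
    Continuous.inv₀ (by fun_prop) (ne_of_re h)
  rw [intervalIntegral.integral_eq_sub_of_hasDerivAt (fun y _ => hder y)
    (hc.intervalIntegrable _ _)]
  simp only [add_sub_cancel_left, sub_sub_cancel_left, neg_div, Real.arctan_neg, even_two,
    Even.neg_pow]
  push_cast
  ring

theorem dist_ge {x : ℝ} {z : ℂ} (h : x ≠ z.re) :
    ∃ D : ℝ, 0 < D ∧ ∀ y : ℝ, 1 + |y| ≤ D * ‖(x + y * I - z : ℂ)‖ := by
  have ha : 0 < |x - z.re| := abs_pos.2 (sub_ne_zero.2 h)
  refine ⟨(1 + |z.im|) / |x - z.re| + 1, by positivity, fun y => ?_⟩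
  have h1 : |x - z.re| ≤ ‖(x + y * I - z : ℂ)‖ := by
    simpa using abs_re_le_norm (x + y * I - z : ℂ)
  have h2 : |y - z.im| ≤ ‖(x + y * I - z : ℂ)‖ := by
    simpa using abs_im_le_norm (x + y * I - z : ℂ)
  have h3 : |y| - |z.im| ≤ |y - z.im| := abs_sub_abs_le_abs_sub _ _
  have h4 : (1 + |z.im|) / |x - z.re| * |x - z.re| = 1 + |z.im| := div_mul_cancel₀ _ ha.ne'
  have h5 := mul_le_mul_of_nonneg_left h1 (show 0 ≤ (1 + |z.im|) / |x - z.re| by positivity)
  nlinarith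

theorem quot_int {q : ℂ → ℂ} {x C : ℝ} {z : ℂ} (h : x ≠ z.re)
    (hq : ∀ y : ℝ, DifferentiableAt ℂ q (x + y * I))
    (hb : ∀ y : ℝ, ‖q (x + y * I)‖ ≤ C / (1 + |y|)) :
    Integrable fun y : ℝ => q (x + y * I) / (x + y * I - z) := by
  obtain ⟨D, hD, hD'⟩ := dist_ge h
  have hC : 0 ≤ C := by simpa using (norm_nonneg _).trans (hb 0)
  refine (line_int (q := fun s => q s / (s - z)) (C := C * D) (fun y => ?_) fun y => ?_).1
  · exact (hq y).div (differentiableAt_id.sub_const z) (ne_of_re h y)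
  · have hn : 0 < ‖(x + y * I - z : ℂ)‖ := norm_pos_iff.2 (ne_of_re h y)
    have h1 : 0 < 1 + |y| := by positivity
    have h2 := hb y
    rw [le_div_iff₀ h1] at h2
    rw [norm_div, div_le_div_iff₀ hn (by positivity)]
    have h3 : 1 + y ^ 2 ≤ (1 + |y|) * (1 + |y|) := by nlinarith [abs_nonneg y, sq_abs y]
    calc ‖q (x + y * I)‖ * (1 + y ^ 2) ≤ ‖q (x + y * I)‖ * ((1 + |y|) * (1 + |y|)) :=
          mul_le_mul_of_nonneg_left h3 (norm_nonneg _)
      _ = ‖q (x + y * I)‖ * (1 + |y|) * (1 + |y|) := by ring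
      _ ≤ C * (D * ‖(x + y * I - z : ℂ)‖) := mul_le_mul h2 (hD' y) h1.le hC
      _ = _ := by ring

theorem slope_int {q : ℂ → ℂ} {x : ℝ} {z : ℂ} (h : x ≠ z.re)
    (hi : Integrable fun y : ℝ => q (x + y * I) / (x + y * I - z)) (T : ℝ) :
    ∫ y in (z.im - T)..(z.im + T), dslope q z (x + y * I) =
      (∫ y in (z.im - T)..(z.im + T), q (x + y * I) / (x + y * I - z)) -
        q z * (2 * Real.arctan (T / (x - z.re)) : ℝ) := by
  have hc : Continuous fun y : ℝ => ((x : ℂ) + y * I - z)⁻¹ :=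
    Continuous.inv₀ (by fun_prop) (ne_of_re h)
  rw [← pole_int h, ← intervalIntegral.integral_const_mul,
    ← intervalIntegral.integral_sub hi.intervalIntegrable
      ((hc.intervalIntegrable _ _).const_mul _)]
  refine intervalIntegral.integral_congr fun y _ => ?_
  rw [dslope_of_ne _ (sub_ne_zero.1 (ne_of_re h y)), slope_def_field]
  ring

end RStrip

open RStrip

theorem strip_shift {q : ℂ → ℂ} {x₁ x₂ C : ℝ} (hx : x₁ ≤ x₂)
    (hq : ∀ s : ℂ, x₁ ≤ s.re → s.re ≤ x₂ → DifferentiableAt ℂ q s)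
    (hb : ∀ s : ℂ, x₁ ≤ s.re → s.re ≤ x₂ → ‖q s‖ ≤ C / (1 + s.im ^ 2)) :
    ∫ y : ℝ, q (x₁ + y * I) = ∫ y : ℝ, q (x₂ + y * I) := by
  have hi : ∀ x : ℝ, x₁ ≤ x → x ≤ x₂ → Integrable fun y : ℝ => q (x + y * I) := fun x h1 h2 =>
    (line_int (C := C) (fun y => hq _ (by simpa using h1) (by simpa using h2)) fun y => by
      simpa using hb (x + y * I) (by simpa using h1) (by simpa using h2)).1
  have l1 := rect_lim (g := q) 0 hx (fun s hs => (hq s hs.1 hs.2).differentiableWithinAt)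
    fun ε hε => ⟨max (C / ε) 1, fun s h1 h2 h3 => by
      refine (hb s h1 h2).trans ?_
      rw [sub_zero] at h3
      have h4 : C / ε ≤ |s.im| := (le_max_left _ _).trans h3
      have h5 : 1 ≤ |s.im| := (le_max_right _ _).trans h3
      rw [div_le_iff₀ hε] at h4
      rw [div_le_iff₀ (by positivity), ← sq_abs]
      nlinarith [mul_nonneg hε.le (mul_nonneg (abs_nonneg s.im) (sub_nonneg.2 h5))]⟩
  have l2 := (sym_lim 0 (hi x₂ hx le_rfl)).sub (sym_lim 0 (hi x₁ le_rfl hx))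
  exact (sub_eq_zero.1 (tendsto_nhds_unique l2 l1)).symm

theorem strip_cauchy {q : ℂ → ℂ} {x₁ x₂ C : ℝ} {z : ℂ} (h₁ : x₁ < z.re) (h₂ : z.re < x₂)
    (hq : ∀ s : ℂ, x₁ ≤ s.re → s.re ≤ x₂ → DifferentiableAt ℂ q s)
    (hb : ∀ s : ℂ, x₁ ≤ s.re → s.re ≤ x₂ → ‖q s‖ ≤ C / (1 + |s.im|)) :
    (∫ y : ℝ, q (x₂ + y * I) / (x₂ + y * I - z)) - ∫ y : ℝ, q (x₁ + y * I) / (x₁ + y * I - z) =
      2 * π * q z := by
  have hx : x₁ ≤ x₂ := (h₁.trans h₂).le
  have hi : ∀ x : ℝ, x₁ ≤ x → x ≤ x₂ → x ≠ z.re →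
      Integrable fun y : ℝ => q (x + y * I) / (x + y * I - z) := fun x h1 h2 h3 =>
    quot_int (C := C) h3 (fun y => hq _ (by simpa using h1) (by simpa using h2)) fun y => by
      simpa using hb (x + y * I) (by simpa using h1) (by simpa using h2)
  have i1 := hi x₁ le_rfl hx h₁.ne
  have i2 := hi x₂ hx le_rfl h₂.ne'
  have hC : 0 ≤ C := by
    have := (norm_nonneg _).trans (hb z h₁.le h₂.le)
    exact le_of_not_gt fun hc => absurd this (not_le.2 (div_neg_of_neg_of_pos hc (by positivity)))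
  have hn : {s : ℂ | x₁ ≤ s.re ∧ s.re ≤ x₂} ∈ 𝓝 z :=
    continuous_re.continuousAt.preimage_mem_nhds (Icc_mem_nhds h₁ h₂)
  have l1 := rect_lim (g := dslope q z) z.im hx
    ((differentiableOn_dslope hn).2 fun s hs => (hq s hs.1 hs.2).differentiableWithinAt)
    fun ε hε => ⟨max ((C + ‖q z‖) / ε) 1, fun s h1 h2 h3 => by
      have h4 : (C + ‖q z‖) / ε ≤ |s.im - z.im| := (le_max_left _ _).trans h3
      have h5 : 1 ≤ |s.im - z.im| := (le_max_right _ _).trans h3
      have h6 : |s.im - z.im| ≤ ‖s - z‖ := by simpa using abs_im_le_norm (s - z)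
      have h7 : 0 < ‖s - z‖ := by linarith
      have h8 : ‖q s‖ ≤ C :=
        (hb s h1 h2).trans (div_le_self hC (by linarith [abs_nonneg s.im]))
      rw [dslope_of_ne _ (sub_ne_zero.1 (norm_pos_iff.1 h7)), slope_def_field, norm_div,
        div_le_iff₀ h7]
      rw [div_le_iff₀ hε] at h4
      have h9 := norm_sub_le (q s) (q z)
      nlinarith [mul_le_mul_of_nonneg_left h6 hε.le]⟩
  simp only [slope_int h₁.ne i1, slope_int h₂.ne' i2] at l1
  have a2 : Tendsto (fun T : ℝ => Real.arctan (T / (x₂ - z.re))) atTop (𝓝 (π / 2)) :=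
    (Real.tendsto_arctan_atTop.mono_right nhdsWithin_le_nhds).comp
      (tendsto_id.atTop_div_const (sub_pos.2 h₂))
  have a1 : Tendsto (fun T : ℝ => Real.arctan (T / (x₁ - z.re))) atTop (𝓝 (-(π / 2))) :=
    (Real.tendsto_arctan_atBot.mono_right nhdsWithin_le_nhds).comp
      (tendsto_id.atTop_div_const_of_neg (sub_neg.2 h₁))
  have b2 := ((continuous_ofReal.tendsto _).comp (a2.const_mul 2)).const_mul (q z)
  have b1 := ((continuous_ofReal.tendsto _).comp (a1.const_mul 2)).const_mul (q z)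
  have l2 := ((sym_lim z.im i2).sub b2).sub ((sym_lim z.im i1).sub b1)
  have e := tendsto_nhds_unique l2 l1
  push_cast at e
  linear_combination e

theorem half_cauchy {q : ℂ → ℂ} {x₁ C : ℝ} {z : ℂ} (h₁ : x₁ < z.re)
    (hq : ∀ s : ℂ, x₁ ≤ s.re → DifferentiableAt ℂ q s)
    (hb : ∀ s : ℂ, x₁ ≤ s.re → ‖q s‖ ≤ C / (1 + s.im ^ 2)) :
    ∫ y : ℝ, q (x₁ + y * I) / (x₁ + y * I - z) = -(2 * π * q z) := by
  have hC : 0 ≤ C := by
    have := (norm_nonneg _).trans (hb z h₁.le)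
    exact le_of_not_gt fun hc => absurd this (not_le.2 (div_neg_of_neg_of_pos hc (by positivity)))
  have key : ∀ t : ℝ, 0 < t →
      ‖(∫ y : ℝ, q (x₁ + y * I) / (x₁ + y * I - z)) + 2 * π * q z‖ ≤ π * C / t := by
    intro t ht
    have h₂ : z.re < z.re + t := by linarith
    have e := strip_cauchy (q := q) (C := 2 * C) h₁ h₂ (fun s h _ => hq s h) fun s h _ => by
      refine (hb s h).trans ?_
      rw [div_le_div_iff₀ (by positivity) (by positivity), ← sq_abs]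
      nlinarith [mul_nonneg hC (sq_nonneg (|s.im| - 1)), mul_nonneg hC (sq_nonneg |s.im|),
        mul_nonneg hC (abs_nonneg s.im)]
    have hl := (line_int (q := fun s => q s / (s - z)) (x := z.re + t) (C := C / t)
      (fun y => (hq _ (by simp; linarith)).div (differentiableAt_id.sub_const z)
        (ne_of_re h₂.ne' y)) fun y => by
        have h3 : t ≤ ‖(((z.re + t : ℝ) : ℂ) + y * I - z)‖ := by
          simpa using re_le_norm (((z.re + t : ℝ) : ℂ) + y * I - z)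
        have h4 : ‖q (((z.re + t : ℝ) : ℂ) + y * I)‖ ≤ C / (1 + y ^ 2) := by
          simpa using hb (((z.re + t : ℝ) : ℂ) + y * I) (by simp; linarith)
        rw [norm_div, div_right_comm]
        exact div_le_div₀ (by positivity) h4 ht h3).2
    rw [← e, add_sub_cancel, mul_div_assoc]
    exact hl
  have lim : Tendsto (fun t : ℝ => π * C / t) atTop (𝓝 0) := tendsto_id.const_div_atTop _
  have h0 := ge_of_tendsto lim ((eventually_gt_atTop 0).mono key)
  exact eq_neg_of_add_eq_zero_left (norm_le_zero_iff.1 h0)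

end Pool.Agent.P.MP_0134b7_an
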