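import Pool.Agent.P.MP_0134b7_an.RGeoA
import Pool.Agent.P.MP_0134b7_an.RKer
import Pool.Agent.P.MP_0134b7_an.RStrip
import Pool.Agent.P.MP_0afb51_an.Holo

/-!
The partial trace.
-/

open Set Filter Topology MeasureTheory Complex
open scoped Real

namespace Pool.Agent.P.MP_0134b7_an

variable {L : ℂ → ℂ} {r δ K CF : ℝ} {β : ℕ → ℝ}

namespace PT

/-- Half planes on which the kernel stays away from its poles. -/
def Adm (L : ℂ → ℂ) (δ : ℝ) (σ w : ℂ) (x : ℝ) : Prop :=
  ∀ s : ℂ, x ≤ s.re → ∀ n : ℕ, δ / (8 * ‖s‖) ≤ ‖σ * (L s - w) - 2 * π * I * (n + 1)‖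

/-- The integral of the kernel along a vertical line. -/
noncomputable def J (P L : ℂ → ℂ) (σ w : ℂ) (x : ℝ) : ℂ :=
  ∫ y : ℝ, P (x + y * I) * kp (σ * (L (x + y * I) - w))

theorem line_re (x y : ℝ) : ((x : ℂ) + y * I).re = x := by simp

theorem line_im (x y : ℝ) : ((x : ℂ) + y * I).im = y := by simp

theorem mem (h : Nice L r δ K CF β) {s : ℂ} (hs : 3 * r ≤ s.re) : s ∈ dom r :=
  mem_dom_of_re (by linarith [h.one_le]) (by linarith [h.one_le])

theorem three_le (h : Nice L r δ K CF β) {s : ℂ} (hs : 3 * r ≤ s.re) : 3 ≤ ‖s‖ := by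
  linarith [h.one_le, Complex.re_le_norm s]

theorem diffL (h : Nice L r δ K CF β) {s : ℂ} (hs : 3 * r ≤ s.re) : DifferentiableAt ℂ L s :=
  h.diff.differentiableAt ((isOpen_dom r).mem_nhds (mem h hs))

theorem sq_ge (h : Nice L r δ K CF β) {s : ℂ} (hs : 3 * r ≤ s.re) : 1 + s.im ^ 2 ≤ ‖s‖ ^ 2 := by
  rw [Complex.sq_norm, Complex.normSq_apply]
  nlinarith [h.one_le]

theorem pow_le (h : Nice L r δ K CF β) {m : ℕ} (hm : 5 ≤ m * δ) {s : ℂ} (hs : 3 * r ≤ s.re) :
    ‖exp (-(m * L s))‖ ≤ Real.exp (m * CF) * (2 * r) ^ 5 / ‖s‖ ^ 5 := by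
  have hr := h.one_le
  have h1 : 3 * r ≤ ‖s‖ := hs.trans (Complex.re_le_norm s)
  have h2 := h.growth (mem h hs) (by linarith)
  have h3 : 0 < ‖s‖ / (2 * r) := div_pos (by linarith) (by linarith)
  have h4 : 0 ≤ Real.log (‖s‖ / (2 * r)) :=
    Real.log_nonneg ((one_le_div (by linarith)).2 (by linarith))
  have h5 : Real.exp (m * CF) * (2 * r) ^ 5 / ‖s‖ ^ 5 =
      Real.exp (m * CF - (5 : ℕ) * Real.log (‖s‖ / (2 * r))) := by
    rw [Real.exp_sub, Real.exp_nat_mul _ 5, Real.exp_log h3, div_pow]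
    field_simp
  rw [h5, Complex.norm_exp, Real.exp_le_exp]
  have h6 : (-((m : ℂ) * L s)).re = -(m * (L s).re) := by simp
  have h7 := mul_le_mul_of_nonneg_left h2 (Nat.cast_nonneg (α := ℝ) m)
  have h8 := mul_le_mul_of_nonneg_right hm h4
  rw [h6]
  push_cast
  nlinarith

theorem normL_le (h : Nice L r δ K CF β) {s : ℂ} (hs : 3 * r ≤ s.re) :
    ‖L s‖ ≤ (‖L (3 * r : ℝ)‖ + 2) * ‖s‖ := by
  have hr := h.one_le
  have h1 : 3 * r ≤ ‖s‖ := hs.trans (Complex.re_le_norm s)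
  have h2 := h.lip (z := (3 * r : ℝ)) (w := s) (by rw [Complex.ofReal_re]; linarith) (by linarith)
  have h3 := norm_sub_le s (3 * r : ℝ)
  rw [Complex.norm_real, Real.norm_of_nonneg (by linarith)] at h3
  have h4 := norm_sub_norm_le (L s) (L (3 * r : ℝ))
  have h5 := mul_le_mul_of_nonneg_left (show 1 ≤ ‖s‖ by linarith) (norm_nonneg (L (3 * r : ℝ)))
  linarith

theorem exists_far (h : Nice L r δ K CF β) (c : ℝ) :
    ∃ x, 3 * r ≤ x ∧ ∀ s : ℂ, x ≤ s.re → c ≤ (L s).re := by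
  have hr := h.one_le
  refine ⟨max (3 * r) (2 * r * Real.exp ((c + CF) / δ)), le_max_left _ _, fun s hs => ?_⟩
  have h1 : 3 * r ≤ s.re := (le_max_left _ _).trans hs
  have h2 : 2 * r * Real.exp ((c + CF) / δ) ≤ ‖s‖ :=
    ((le_max_right _ _).trans hs).trans (Complex.re_le_norm s)
  have h3 := h.growth (mem h h1) (by linarith [Complex.re_le_norm s])
  have h4 : (c + CF) / δ ≤ Real.log (‖s‖ / (2 * r)) := by
    rw [Real.le_log_iff_exp_le (div_pos (by linarith [three_le h h1]) (by linarith)),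
      le_div_iff₀ (by linarith)]
    linarith
  rw [div_le_iff₀ h.δ_pos] at h4
  linarith

theorem small_le (h : Nice L r δ K CF β) {s : ℂ} (hs : 3 * r ≤ s.re) : δ / (8 * ‖s‖) ≤ 1 := by
  have := three_le h hs
  rw [div_le_one (by linarith)]
  linarith [h.δ_le]

theorem adm_far (h : Nice L r δ K CF β) {σ w : ℂ} (hσ : σ = 1 ∨ σ = -1) {x : ℝ}
    (hx : 3 * r ≤ x) (hf : ∀ s : ℂ, x ≤ s.re → w.re + 1 ≤ (L s).re) : Adm L δ σ w x := by
  intro s hs n
  refine (small_le h (hx.trans hs)).trans (le_trans ?_ (Complex.abs_re_le_norm _))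
  have h1 := hf s hs
  rw [le_abs]
  rcases hσ with rfl | rfl
  · left
    simp
    linarith
  · right
    simp
    linarith

theorem adm_disc (h : Nice L r δ K CF β) {σ w : ℂ} (hσ : σ = 1 ∨ σ = -1) {X : ℝ} (hX : 0 ≤ X)
    (hf : ∀ s ∈ dom r, ∀ n : ℕ, L s = w + σ * (2 * π * I * (n + 1)) → s.re ≤ X) :
    Adm L δ σ w (3 * r + X) := by
  intro s hs n
  by_contra hc
  have h1 : ‖w + σ * (2 * π * I * (n + 1)) - L s‖ = ‖σ * (L s - w) - 2 * π * I * (n + 1)‖ := by
    rcases hσ with rfl | rfl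
    · rw [← norm_neg]
      congr 1
      ring
    · congr 1
      ring
  obtain ⟨s', hs', e, hn⟩ := h.disc (z := s) (by linarith) (h1.trans_lt (not_le.1 hc))
  have h2 := hf s' hs' n e
  have h3 := (abs_le.1 ((Complex.abs_re_le_norm _).trans hn)).1
  rw [Complex.sub_re] at h3
  linarith [h.one_le]

theorem Adm.mono {σ w : ℂ} {x x' : ℝ} (ha : Adm L δ σ w x) (hx : x ≤ x') : Adm L δ σ w x' :=
  fun s hs => ha s (hx.trans hs)

theorem Adm.ne (h : Nice L r δ K CF β) {σ w : ℂ} {x : ℝ} (ha : Adm L δ σ w x) {s : ℂ}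
    (hs : x ≤ s.re) (h3 : 3 * r ≤ s.re) (n : ℕ) : σ * (L s - w) ≠ 2 * π * I * (n + 1) := by
  intro e
  have h1 := ha s hs n
  rw [e, sub_self, norm_zero] at h1
  have h2 := three_le h h3
  exact absurd h1 (not_le.2 (div_pos h.δ_pos (by linarith)))

/-- The standing hypotheses on the density. -/
structure Den (P : ℂ → ℂ) (G : ℝ → ℝ) (r A : ℝ) : Prop where
  pos : 0 < A
  mono : Monotone G
  diff : ∀ s : ℂ, 3 * r ≤ s.re → DifferentiableAt ℂ P s
  le : ∀ s : ℂ, 3 * r ≤ s.re → ‖P s‖ ≤ Real.exp (G s.re) * (A / ‖s‖ ^ 5)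

variable {P : ℂ → ℂ} {G : ℝ → ℝ} {A : ℝ}

/-- The constant in the bound of the integrand. -/
noncomputable def cD (L : ℂ → ℂ) (r δ A : ℝ) : ℝ := 8 * A * (‖L (3 * r : ℝ)‖ + 3) ^ 2 / δ

theorem cD_pos (h : Nice L r δ K CF β) (hP : Den P G r A) : 0 < cD L r δ A := by
  have := h.δ_pos
  have := hP.pos
  rw [cD]
  positivity

theorem ker_le (h : Nice L r δ K CF β) (hP : Den P G r A) {σ w : ℂ} (hσ : σ = 1 ∨ σ = -1)
    {x : ℝ} (ha : Adm L δ σ w x) {s : ℂ} (hs : x ≤ s.re) (h3 : 3 * r ≤ s.re) :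
    ‖P s * kp (σ * (L s - w))‖ ≤
      cD L r δ A * (1 + ‖w‖) ^ 2 * Real.exp (G s.re) / (1 + s.im ^ 2) := by
  have hδ := h.δ_pos
  have hA := hP.pos
  have h1 := three_le h h3
  have h2 := kp_le (div_pos hδ (by linarith)) (small_le h h3) (ha s hs)
  have h4 : ‖σ * (L s - w)‖ ≤ ‖L s‖ + ‖w‖ := by
    have : ‖σ‖ = 1 := by rcases hσ with rfl | rfl <;> simp
    rw [norm_mul, this, one_mul]
    exact norm_sub_le _ _
  have h5 := normL_le h h3
  set B := ‖L (3 * r : ℝ)‖
  have hB : 0 ≤ B := norm_nonneg _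
  have hw := norm_nonneg w
  have h6 : 1 + ‖σ * (L s - w)‖ ≤ (B + 3) * ‖s‖ * (1 + ‖w‖) := by
    have : 1 ≤ (B + 3) * ‖s‖ := by nlinarith
    nlinarith
  have h7 : ‖kp (σ * (L s - w))‖ ≤ ((B + 3) * ‖s‖ * (1 + ‖w‖)) ^ 2 / (δ / (8 * ‖s‖)) :=
    h2.trans (by gcongr)
  rw [norm_mul]
  calc ‖P s‖ * ‖kp (σ * (L s - w))‖
      ≤ Real.exp (G s.re) * (A / ‖s‖ ^ 5) *
        (((B + 3) * ‖s‖ * (1 + ‖w‖)) ^ 2 / (δ / (8 * ‖s‖))) :=
        mul_le_mul (hP.le s h3) h7 (norm_nonneg _) (by positivity)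
    _ = cD L r δ A * (1 + ‖w‖) ^ 2 * Real.exp (G s.re) / ‖s‖ ^ 2 := by
        rw [cD]
        field_simp
        ring
    _ ≤ _ := by
        have := cD_pos h hP
        exact div_le_div_of_nonneg_left (by positivity) (by positivity) (sq_ge h h3)

theorem ker_diff (h : Nice L r δ K CF β) (hP : Den P G r A) {σ w : ℂ} {x : ℝ}
    (ha : Adm L δ σ w x) {s : ℂ} (hs : x ≤ s.re) (h3 : 3 * r ≤ s.re) :
    DifferentiableAt ℂ (fun s => P s * kp (σ * (L s - w))) s :=
  (hP.diff s h3).mul (DifferentiableAt.comp (g := kp) (f := fun s => σ * (L s - w)) s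
    (kp_diff (ha.ne h hs h3)) (((diffL h h3).sub_const w).const_mul σ))

theorem J_int (h : Nice L r δ K CF β) (hP : Den P G r A) {σ w : ℂ} (hσ : σ = 1 ∨ σ = -1)
    {x : ℝ} (hx : 3 * r ≤ x) (ha : Adm L δ σ w x) :
    (Integrable fun y : ℝ => P (x + y * I) * kp (σ * (L (x + y * I) - w))) ∧
      ‖J P L σ w x‖ ≤ π * (cD L r δ A * (1 + ‖w‖) ^ 2 * Real.exp (G x)) := by
  refine line_int (q := fun s => P s * kp (σ * (L s - w)))
    (fun y => ker_diff h hP ha (line_re x y).ge (hx.trans (line_re x y).ge)) fun y => ?_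
  have := ker_le h hP hσ ha (line_re x y).ge (hx.trans (line_re x y).ge)
  rwa [line_re, line_im] at this

theorem J_shift (h : Nice L r δ K CF β) (hP : Den P G r A) {σ w : ℂ} (hσ : σ = 1 ∨ σ = -1)
    {x x' : ℝ} (hx : 3 * r ≤ x) (hx' : x ≤ x') (ha : Adm L δ σ w x) :
    J P L σ w x = J P L σ w x' := by
  refine strip_shift (q := fun s => P s * kp (σ * (L s - w)))
    (C := cD L r δ A * (1 + ‖w‖) ^ 2 * Real.exp (G x')) hx'
    (fun s h1 _ => ker_diff h hP ha h1 (hx.trans h1)) fun s h1 h2 => ?_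
  refine (ker_le h hP hσ ha h1 (hx.trans h1)).trans ?_
  have := cD_pos h hP
  gcongr
  exact hP.mono h2

theorem J_eq (h : Nice L r δ K CF β) (hP : Den P G r A) {σ w : ℂ} (hσ : σ = 1 ∨ σ = -1)
    {x x' : ℝ} (hx : 3 * r ≤ x) (hx' : 3 * r ≤ x') (ha : Adm L δ σ w x) (ha' : Adm L δ σ w x') :
    J P L σ w x = J P L σ w x' :=
  (J_shift h hP hσ hx (le_max_left x x') ha).trans
    (J_shift h hP hσ hx' (le_max_right x x') ha').symm

theorem J_diff (h : Nice L r δ K CF β) (hP : Den P G r A) {w₀ : ℂ} {x : ℝ} (hx : 3 * r ≤ x)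
    (ha : ∀ w ∈ Metric.ball w₀ 1, Adm L δ 1 w x) :
    DifferentiableOn ℂ (fun w => J P L 1 w x) (Metric.ball w₀ 1) := by
  refine Pool.Agent.P.MP_0afb51_an.differentiableOn_integral_of_bound Metric.isOpen_ball
    (bound := fun y : ℝ => cD L r δ A * (2 + ‖w₀‖) ^ 2 * Real.exp (G x) * (1 + y ^ 2)⁻¹)
    (fun w hw => (J_int h hP (Or.inl rfl) hx (ha w hw)).1.aestronglyMeasurable)
    (fun y w hw => DifferentiableAt.differentiableWithinAt ?_)
    (Eventually.of_forall fun y w hw => ?_) (integrable_inv_one_add_sq.const_mul _)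
  · exact (DifferentiableAt.comp (g := kp) (f := fun z => 1 * (L (x + y * I) - z)) w
      (kp_diff ((ha w hw).ne h (line_re x y).ge (hx.trans (line_re x y).ge)))
      (by fun_prop)).const_mul _
  · have h1 := ker_le h hP (Or.inl rfl) (ha w hw) (line_re x y).ge (hx.trans (line_re x y).ge)
    rw [line_re, line_im, div_eq_mul_inv] at h1
    refine h1.trans ?_
    have h2 : 1 + ‖w‖ ≤ 2 + ‖w₀‖ := by
      have := norm_sub_norm_le w w₀
      rw [mem_ball_iff_norm] at hw
      linarith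
    have := cD_pos h hP
    gcongr

theorem den_le (h : Nice L r δ K CF β) (hP : Den P G r A) {s : ℂ} (h3 : 3 * r ≤ s.re) :
    ‖P s‖ * ‖s‖ ≤ A * Real.exp (G s.re) / ‖s‖ ^ 2 := by
  have hA := hP.pos
  have h1 := three_le h h3
  calc ‖P s‖ * ‖s‖ ≤ Real.exp (G s.re) * (A / ‖s‖ ^ 5) * ‖s‖ ^ 3 := by
        refine mul_le_mul (hP.le s h3) ?_ (norm_nonneg _) (by positivity)
        exact le_self_pow₀ (by linarith) three_ne_zero
    _ = _ := by field_simp

theorem den_le' (h : Nice L r δ K CF β) (hP : Den P G r A) {s : ℂ} (h3 : 3 * r ≤ s.re) :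
    ‖P s‖ * ‖s‖ ≤ A * Real.exp (G s.re) / (1 + s.im ^ 2) := by
  have hA := hP.pos
  exact (den_le h hP h3).trans
    (div_le_div_of_nonneg_left (by positivity) (by positivity) (sq_ge h h3))

theorem den_le'' (h : Nice L r δ K CF β) (hP : Den P G r A) {s : ℂ} (h3 : 3 * r ≤ s.re) :
    ‖P s‖ ≤ A * Real.exp (G s.re) / (1 + s.im ^ 2) :=
  (le_mul_of_one_le_right (norm_nonneg _) (by linarith [three_le h h3])).trans (den_le' h hP h3)

/-- The geometric series integrates to zero. -/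
theorem geo_zero (h : Nice L r δ K CF β) (hP : Den P G r A) {w : ℂ} {x : ℝ} (hx : 3 * r ≤ x)
    (hf : ∀ s : ℂ, x ≤ s.re → w.re + 1 ≤ (L s).re)
    (h0 : ∀ k : ℕ, ∫ y : ℝ, P (x + y * I) * exp (-(k * L (x + y * I))) = 0) :
    (Integrable fun y : ℝ => P (x + y * I) / (exp (L (x + y * I) - w) - 1)) ∧
      ∫ y : ℝ, P (x + y * I) / (exp (L (x + y * I) - w) - 1) = 0 := by
  have hA := hP.pos
  have hl : ∀ y : ℝ, 3 * r ≤ ((x : ℂ) + y * I).re := fun y => hx.trans (line_re x y).ge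
  have h1 : ∀ y : ℝ, 1 ≤ ‖exp (L (x + y * I) - w) - 1‖ := fun y => by
    have h2 := norm_sub_norm_le (exp (L (x + y * I) - w)) 1
    rw [Complex.norm_exp, norm_one, Complex.sub_re] at h2
    have h3 := Real.add_one_le_exp ((L (x + y * I)).re - w.re)
    have h4 := hf _ (line_re x y).ge
    linarith
  have hne : ∀ y : ℝ, exp (L (x + y * I) - w) - 1 ≠ 0 := fun y h2 => by
    have h3 := h1 y
    rw [h2, norm_zero] at h3
    linarith
  have key : ∀ N : ℕ, (Integrable fun y : ℝ => P (x + y * I) *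
        exp (-(N * (L (x + y * I) - w))) / (exp (L (x + y * I) - w) - 1)) ∧
      ‖∫ y : ℝ, P (x + y * I) * exp (-(N * (L (x + y * I) - w))) /
        (exp (L (x + y * I) - w) - 1)‖ ≤ π * (A * Real.exp (G x) * Real.exp (-N)) := by
    intro N
    refine line_int (q := fun s => P s * exp (-(N * (L s - w))) / (exp (L s - w) - 1))
      (fun y => ?_) fun y => ?_
    · have h2 := (diffL h (hl y)).sub_const w
      exact ((hP.diff _ (hl y)).mul (h2.const_mul _).neg.cexp).div (h2.cexp.sub_const 1) (hne y)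
    · have h2 := den_le'' h hP (hl y)
      rw [line_re, line_im] at h2
      have h3 : ‖exp (-(N * (L (x + y * I) - w)))‖ ≤ Real.exp (-N) := by
        rw [Complex.norm_exp, Real.exp_le_exp]
        have h4 := hf _ (line_re x y).ge
        have h5 : (-((N : ℂ) * (L (x + y * I) - w))).re = -(N * ((L (x + y * I)).re - w.re)) := by
          simp
        rw [h5]
        nlinarith [Nat.cast_nonneg (α := ℝ) N]
      rw [norm_div, norm_mul]
      refine (div_le_self (by positivity) (h1 y)).trans ?_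
      rw [mul_div_right_comm]
      exact mul_le_mul h2 h3 (norm_nonneg _) (by positivity)
  have step : ∀ N : ℕ, ∫ y : ℝ, P (x + y * I) * exp (-(N * (L (x + y * I) - w))) /
      (exp (L (x + y * I) - w) - 1) =
        ∫ y : ℝ, P (x + y * I) / (exp (L (x + y * I) - w) - 1) := by
    intro N
    induction N with
    | zero => simp
    | succ N ih =>
      rw [← ih, eq_comm, ← sub_eq_zero, ← integral_sub (key N).1 (key (N + 1)).1]
      have e : ∀ y : ℝ, P (x + y * I) * exp (-(N * (L (x + y * I) - w))) /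
          (exp (L (x + y * I) - w) - 1) - P (x + y * I) *
          exp (-((N + 1 : ℕ) * (L (x + y * I) - w))) / (exp (L (x + y * I) - w) - 1) =
          exp ((N + 1 : ℕ) * w) * (P (x + y * I) * exp (-((N + 1 : ℕ) * L (x + y * I)))) := by
        intro y
        have e1 : exp (-(N * (L (x + y * I) - w))) = exp ((N + 1 : ℕ) * w) *
            exp (-((N + 1 : ℕ) * L (x + y * I))) * exp (L (x + y * I) - w) := by
          rw [← Complex.exp_add, ← Complex.exp_add]
          congr 1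
          push_cast
          ring
        have e2 : exp (-((N + 1 : ℕ) * (L (x + y * I) - w))) = exp ((N + 1 : ℕ) * w) *
            exp (-((N + 1 : ℕ) * L (x + y * I))) := by
          rw [← Complex.exp_add]
          congr 1
          ring
        rw [e1, e2, ← sub_div, div_eq_iff (hne y)]
        ring
      simp only [e]
      rw [integral_const_mul, h0, mul_zero]
  refine ⟨by simpa using (key 0).1, norm_le_zero_iff.1 ?_⟩
  have ht : Tendsto (fun N : ℕ => π * (A * Real.exp (G x) * Real.exp (-N))) atTop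
      (𝓝 (π * (A * Real.exp (G x) * 0))) :=
    ((Real.tendsto_exp_neg_atTop_nhds_zero.comp tendsto_natCast_atTop_atTop).const_mul
      _).const_mul _
  rw [mul_zero, mul_zero] at ht
  exact ge_of_tendsto' ht fun N => step N ▸ (key N).2

theorem ne_of_re {u : ℂ} (hu : u.re ≠ 0) (n : ℕ) : u ≠ 2 * π * I * n := fun e => hu (by simp [e])

/-- The two representations agree. -/
theorem J_flip (h : Nice L r δ K CF β) (hP : Den P G r A) {w : ℂ} {x : ℝ} (hx : 3 * r ≤ x)
    (hf : ∀ s : ℂ, x ≤ s.re → w.re + 1 ≤ (L s).re)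
    (h0 : ∀ k : ℕ, ∫ y : ℝ, P (x + y * I) * exp (-(k * L (x + y * I))) = 0) :
    J P L 1 w x = J P L (-1) (w + 2 * π * I) x := by
  have hl : ∀ y : ℝ, 3 * r ≤ ((x : ℂ) + y * I).re := fun y => hx.trans (line_re x y).ge
  have i1 := (J_int h hP (Or.inl rfl) hx (adm_far h (Or.inl rfl) hx hf)).1
  have i2 := (J_int h hP (Or.inr rfl) hx (adm_far (w := w + 2 * π * I) h (Or.inr rfl) hx
    fun s hs => by simpa using hf s hs)).1
  obtain ⟨i3, e3⟩ := geo_zero h hP hx hf h0
  have i4 : Integrable fun y : ℝ => P (x + y * I) :=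
    (line_int (C := A * Real.exp (G x)) (fun y => hP.diff _ (hl y)) fun y => by
      have h2 := den_le'' h hP (hl y)
      rwa [line_re, line_im] at h2).1
  have e4 : ∫ y : ℝ, P (x + y * I) = 0 := by simpa using h0 0
  rw [← sub_eq_zero, J, J, ← integral_sub i1 i2]
  have e : ∀ y : ℝ, P (x + y * I) * kp (1 * (L (x + y * I) - w)) -
      P (x + y * I) * kp (-1 * (L (x + y * I) - (w + 2 * π * I))) =
      1 / 2 * P (x + y * I) + P (x + y * I) / (exp (L (x + y * I) - w) - 1) := by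
    intro y
    have h1 : (L (x + y * I) - w).re ≠ 0 := by
      have := hf _ (line_re x y).ge
      rw [Complex.sub_re]
      linarith
    have h2 : -1 * (L (x + y * I) - (w + 2 * π * I)) = -(L (x + y * I) - w) + 2 * π * I := by
      ring
    rw [h2, one_mul, kp_shift (ne_of_re (by rwa [Complex.neg_re, neg_ne_zero])), div_neg]
    linear_combination P (x + y * I) * kp_sum h1
  simp only [e]
  rw [integral_add (i4.const_mul _) i3, integral_const_mul, e3, e4, mul_zero, add_zero]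

theorem J_jump (h : Nice L r δ K CF β) (hP : Den P G r A) {w : ℂ} {x : ℝ} (hx : 3 * r ≤ x)
    (hf : ∀ s : ℂ, x ≤ s.re → w.re + 1 ≤ (L s).re) :
    J P L 1 (w - 2 * π * I) x - J P L 1 w x =
      ∫ y : ℝ, P (x + y * I) / (L (x + y * I) - w) := by
  have i1 := (J_int h hP (Or.inl rfl) hx (adm_far h (Or.inl rfl) hx hf)).1
  have i2 := (J_int h hP (Or.inl rfl) hx (adm_far (w := w - 2 * π * I) h (Or.inl rfl) hx
    fun s hs => by simpa using hf s hs)).1
  rw [J, J, ← integral_sub i2 i1]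
  refine integral_congr_ae (Eventually.of_forall fun y => ?_)
  have h1 : (L (x + y * I) - w).re ≠ 0 := by
    have := hf _ (line_re x y).ge
    rw [Complex.sub_re]
    linarith
  have h2 : 1 * (L (x + y * I) - (w - 2 * π * I)) = L (x + y * I) - w + 2 * π * I := by ring
  simp only [h2]
  rw [one_mul, kp_shift (ne_of_re h1)]
  ring

theorem dslope_ge (h : Nice L r δ K CF β) {z s : ℂ} (hz : 3 * r ≤ z.re) (hs : 3 * r ≤ s.re) :
    δ ≤ ‖s‖ * (1 + ‖z‖) * ‖dslope L z s‖ := by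
  have h1 := three_le h hz
  have h2 := three_le h hs
  have h3 : max ‖z‖ ‖s‖ ≤ ‖s‖ * (1 + ‖z‖) := max_le (by nlinarith) (by nlinarith)
  refine le_trans ?_ (mul_le_mul_of_nonneg_right h3 (norm_nonneg _))
  rcases eq_or_ne s z with rfl | hne
  · rw [dslope_same, max_self, ← norm_mul]
    exact (h.re_ge s (mem h hs)).trans (Complex.re_le_norm _)
  · have h4 := h.sub_le (mem h hz) (mem h hs)
    have h5 : 0 < ‖s - z‖ := norm_pos_iff.2 (sub_ne_zero.2 hne)
    rw [dslope_of_ne _ hne, slope_def_field, norm_div, ← mul_div_assoc, le_div_iff₀ h5]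
    exact h4

theorem residue (h : Nice L r δ K CF β) (hP : Den P G r A) {z : ℂ} (hz : 3 * r + 1 ≤ z.re)
    {x : ℝ} (hx : z.re < x) :
    ‖P z‖ ≤ ‖∫ y : ℝ, P (x + y * I) / (L (x + y * I) - L z)‖ +
      π * (A * Real.exp (G (3 * r)) / δ * (1 + ‖z‖)) := by
  have hδ := h.δ_pos
  have hA := hP.pos
  have hz' : 3 * r ≤ z.re := by linarith
  have hd : DifferentiableOn ℂ (dslope L z) (dom r) :=
    (Complex.differentiableOn_dslope ((isOpen_dom r).mem_nhds (mem h hz'))).2 h.diff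
  have hne : ∀ s : ℂ, 3 * r ≤ s.re → dslope L z s ≠ 0 := fun s hs e => by
    have := dslope_ge h hz' hs
    rw [e, norm_zero, mul_zero] at this
    linarith
  have hq : ∀ s : ℂ, 3 * r ≤ s.re → DifferentiableAt ℂ (fun s => P s / dslope L z s) s :=
    fun s hs => (hP.diff s hs).div (hd.differentiableAt ((isOpen_dom r).mem_nhds (mem h hs)))
      (hne s hs)
  have hb : ∀ s : ℂ, 3 * r ≤ s.re → ‖P s / dslope L z s‖ ≤ ‖P s‖ * ‖s‖ / δ * (1 + ‖z‖) := by
    intro s hs
    rw [norm_div, div_le_iff₀ (norm_pos_iff.2 (hne s hs)), div_mul_eq_mul_div, div_mul_eq_mul_div,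
      le_div_iff₀ hδ]
    have := mul_le_mul_of_nonneg_left (dslope_ge h hz' hs) (norm_nonneg (P s))
    linarith
  have he : ∀ s : ℂ, s.re ≠ z.re → P s / dslope L z s / (s - z) = P s / (L s - L z) := by
    intro s hs
    have h1 : s ≠ z := fun e => hs (by rw [e])
    rw [div_div, mul_comm, ← smul_eq_mul, sub_smul_dslope]
  have hc := strip_cauchy (q := fun s => P s / dslope L z s) (x₁ := 3 * r) (x₂ := x)
    (C := A * Real.exp (G x) / δ * (1 + ‖z‖)) (z := z) (by linarith) hx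
    (fun s hs _ => hq s hs) fun s hs hs' => by
      refine (hb s hs).trans ?_
      have h1 := three_le h hs
      have h2 : 1 + |s.im| ≤ ‖s‖ ^ 2 := by nlinarith [Complex.abs_im_le_norm s]
      have h3 : ‖P s‖ * ‖s‖ ≤ A * Real.exp (G x) / (1 + |s.im|) := by
        refine (den_le h hP hs).trans ?_
        gcongr
        exact hP.mono hs'
      calc ‖P s‖ * ‖s‖ / δ * (1 + ‖z‖) ≤ A * Real.exp (G x) / (1 + |s.im|) / δ * (1 + ‖z‖) := by
            gcongr
        _ = _ := by ring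
  have hl : ∀ y : ℝ, 3 * r ≤ (((3 * r : ℝ) : ℂ) + y * I).re := fun y => (line_re _ y).ge
  have h1 := (line_int (q := fun s => P s / dslope L z s / (s - z)) (x := 3 * r)
    (C := A * Real.exp (G (3 * r)) / δ * (1 + ‖z‖))
    (fun y => (hq _ (hl y)).div (differentiableAt_id.sub_const z) fun e => by
      have := congrArg Complex.re e
      rw [Complex.sub_re, line_re, Complex.zero_re] at this
      linarith)
    fun y => by
      have h2 : 1 ≤ ‖((3 * r : ℝ) : ℂ) + y * I - z‖ := by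
        refine le_trans ?_ (Complex.abs_re_le_norm _)
        rw [Complex.sub_re, line_re, le_abs]
        right
        linarith
      have h3 := den_le' h hP (hl y)
      rw [line_re, line_im] at h3
      rw [norm_div]
      refine (div_le_self (norm_nonneg _) h2).trans ((hb _ (hl y)).trans ?_)
      calc _ ≤ A * Real.exp (G (3 * r)) / (1 + y ^ 2) / δ * (1 + ‖z‖) := by gcongr
        _ = _ := by ring).2
  have h2 : ∫ y : ℝ, P (x + y * I) / dslope L z (x + y * I) / (x + y * I - z) =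
      ∫ y : ℝ, P (x + y * I) / (L (x + y * I) - L z) :=
    integral_congr_ae (Eventually.of_forall fun y => he _ (by rw [line_re]; exact hx.ne'))
  have h3 : ‖P z‖ ≤ ‖2 * π * (P z / dslope L z z)‖ := by
    have h4 : ‖dslope L z z‖ ≤ 1 := by
      rw [dslope_same]
      exact h.d_le z (mem h hz')
    have h5 : ‖P z‖ ≤ ‖P z‖ / ‖dslope L z z‖ :=
      le_div_self (norm_nonneg _) (norm_pos_iff.2 (hne z hz')) h4
    have h6 : ‖(2 * π : ℂ)‖ = 2 * π := by simp [abs_of_pos Real.pi_pos]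
    rw [norm_mul, h6, norm_div]
    exact h5.trans (le_mul_of_one_le_left (by positivity) (by linarith [Real.pi_gt_three]))
  rw [← hc, h2] at h3
  exact h3.trans ((norm_sub_le _ _).trans (add_le_add le_rfl h1))

end PT

open PT in
/-- The partial trace of an annihilating entire function. -/
theorem Nice.partial_trace (h : Nice L r δ K CF β) {Φ : ℂ → ℂ} {G : ℝ → ℝ} {m : ℕ}
    (hm : 5 ≤ m * δ) (hΦ : Differentiable ℂ Φ) (hG : Monotone G)
    (hb : ∀ s, ‖Φ s‖ ≤ Real.exp (G s.re))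
    (h0 : ∀ k : ℕ, m ≤ k → ∀ x : ℝ, 3 * r ≤ x →
      ∫ y : ℝ, Φ (x + y * I) * exp (-(k * L (x + y * I))) = 0) :
    ∃ (E : ℂ → ℂ) (C : ℝ), 0 < C ∧ Differentiable ℂ E ∧
      (∀ (w : ℂ) (X : ℝ), 0 ≤ X →
        (∀ s ∈ dom r, ∀ n : ℕ, L s = w + 2 * π * I * (n + 1) → s.re ≤ X) →
          ‖E w‖ ≤ C * (1 + ‖w‖) ^ 2 * Real.exp (G (3 * r + X))) ∧
      (∀ (w : ℂ) (X : ℝ), 0 ≤ X →
        (∀ s ∈ dom r, ∀ n : ℕ, L s = w - 2 * π * I * n → s.re ≤ X) →
          ‖E w‖ ≤ C * (1 + ‖w‖) ^ 2 * Real.exp (G (3 * r + X))) ∧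
      ∀ z : ℂ, 3 * r + 1 ≤ z.re → ‖Φ z * exp (-(m * L z))‖ ≤
        ‖E (L z - 2 * π * I)‖ + ‖E (L z)‖ + C * (1 + ‖z‖) := by
  have hr := h.one_le
  have hδ := h.δ_pos
  have hπ := Real.pi_pos
  obtain ⟨A, hP⟩ : ∃ A, Den (fun s => Φ s * exp (-(m * L s))) G r A :=
    ⟨Real.exp (m * CF) * (2 * r) ^ 5, by positivity, hG,
      fun s hs => (hΦ s).mul ((diffL h hs).const_mul _).neg.cexp, fun s hs => by
        rw [norm_mul]
        exact mul_le_mul (hb s) (pow_le h hm hs) (norm_nonneg _) (Real.exp_pos _).le⟩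
  have h0' : ∀ x : ℝ, 3 * r ≤ x → ∀ k : ℕ, ∫ y : ℝ, Φ (x + y * I) * exp (-(m * L (x + y * I))) *
      exp (-(k * L (x + y * I))) = 0 := fun x hx k => by
    rw [← h0 (m + k) (Nat.le_add_right m k) x hx]
    refine integral_congr_ae (Eventually.of_forall fun y => ?_)
    simp only [mul_assoc, ← Complex.exp_add]
    congr 2
    push_cast
    ring
  generalize hPd : (fun s => Φ s * exp (-(m * L s))) = P at hP
  have hPs : ∀ s, Φ s * exp (-(m * L s)) = P s := fun s => congrFun hPd s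
  simp only [hPs] at h0' ⊢
  have hA := hP.pos
  have hD := cD_pos h hP
  choose xf hx1 hx2 using exists_far h
  have hE : ∀ (w : ℂ) (x : ℝ), 3 * r ≤ x → Adm L δ 1 w x →
      J P L 1 w (xf (w.re + 1)) = J P L 1 w x := fun w x hx ha =>
    J_eq h hP (Or.inl rfl) (hx1 _) hx (adm_far h (Or.inl rfl) (hx1 _) (hx2 _)) ha
  have hc1 : 0 < π * (A * Real.exp (G (3 * r)) / δ) := by positivity
  have hc2 : 0 < π * cD L r δ A := by positivity
  refine ⟨fun w => J P L 1 w (xf (w.re + 1)),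
    64 * (π * cD L r δ A) + π * (A * Real.exp (G (3 * r)) / δ), by positivity, fun w₀ => ?_,
    fun w X hX hf => ?_, fun w X hX hf => ?_, fun z hz => ?_⟩
  · have ha : ∀ w ∈ Metric.ball w₀ 1, Adm L δ 1 w (xf (w₀.re + 2)) := fun w hw =>
      adm_far h (Or.inl rfl) (hx1 _) fun s hs => by
        have h1 := hx2 _ s hs
        have h2 := (abs_le.1 ((Complex.abs_re_le_norm _).trans (mem_ball_iff_norm.1 hw).le)).2
        rw [Complex.sub_re] at h2
        linarith
    exact ((J_diff h hP (hx1 _) ha).congr fun w hw => hE w _ (hx1 _) (ha w hw)).differentiableAt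
      (Metric.ball_mem_nhds w₀ one_pos)
  · have ha := adm_disc h (Or.inl rfl) hX fun s hs n e => hf s hs n (by rw [e, one_mul])
    have h1 := (J_int h hP (Or.inl rfl) (by linarith) ha).2
    rw [← hE w _ (by linarith) ha] at h1
    refine h1.trans ?_
    have h2 : 0 ≤ (1 + ‖w‖) ^ 2 * Real.exp (G (3 * r + X)) := by positivity
    nlinarith
  · have ha := adm_disc (w := w + 2 * π * I) h (Or.inr rfl) hX fun s hs n e =>
      hf s hs n (by rw [e]; ring)
    have h1 := (J_int h hP (Or.inr rfl) (by linarith) ha).2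
    rw [← J_eq h hP (Or.inr rfl) (hx1 (w.re + 1)) (by linarith)
      (adm_far h (Or.inr rfl) (hx1 _) fun s hs => by simpa using hx2 _ s hs) ha,
      ← J_flip h hP (hx1 _) (hx2 _) (h0' _ (hx1 _))] at h1
    refine h1.trans ?_
    have h3 : 1 + ‖w + 2 * π * I‖ ≤ 8 * (1 + ‖w‖) := by
      have h4 := norm_add_le w (2 * π * I)
      have h5 : ‖(2 * π * I : ℂ)‖ = 2 * π := by simp [abs_of_pos hπ]
      linarith [Real.pi_lt_d2, norm_nonneg w]
    have h6 : (1 + ‖w + 2 * π * I‖) ^ 2 ≤ 64 * (1 + ‖w‖) ^ 2 := by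
      have := pow_le_pow_left₀ (by positivity) h3 2
      linarith
    have h7 := Real.exp_pos (G (3 * r + X))
    have h8 := mul_le_mul_of_nonneg_left h6 (mul_pos hc2 h7).le
    have h9 : 0 ≤ π * (A * Real.exp (G (3 * r)) / δ) * ((1 + ‖w‖) ^ 2 *
      Real.exp (G (3 * r + X))) := by positivity
    nlinarith
  · have hx : 3 * r ≤ max (xf ((L z).re + 1)) (z.re + 1) := (hx1 _).trans (le_max_left _ _)
    have hf : ∀ s : ℂ, max (xf ((L z).re + 1)) (z.re + 1) ≤ s.re → (L z).re + 1 ≤ (L s).re :=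
      fun s hs => hx2 _ s ((le_max_left _ _).trans hs)
    have h1 := residue h hP hz (x := max (xf ((L z).re + 1)) (z.re + 1))
      ((lt_add_one _).trans_le (le_max_right _ _))
    rw [← J_jump h hP hx hf, ← hE _ _ hx (adm_far h (Or.inl rfl) hx hf),
      ← hE _ _ hx (adm_far h (Or.inl rfl) hx fun s hs => by simpa using hf s hs)] at h1
    refine h1.trans (add_le_add (norm_sub_le _ _) ?_)
    have h2 : 0 ≤ 1 + ‖z‖ := by positivity
    nlinarith

end Pool.Agent.P.MP_0134b7_an
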