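import Pool.Agent.P.MP_0134b7_an.RShift

/-!
A polynomial bound for the partial trace forces the annihilator to vanish.
-/

open Set Filter Topology MeasureTheory Complex Asymptotics Bornology
open scoped Real

namespace Pool.Agent.P.MP_0134b7_an

variable {L : ℂ → ℂ} {r δ K CF : ℝ} {β : ℕ → ℝ}

theorem sq_le_exp {t : ℝ} (ht : 0 ≤ t) : (1 + t) ^ 2 ≤ Real.exp (2 * t) := by
  rw [show 2 * t = t + t by ring, Real.exp_add, sq]
  have := Real.add_one_le_exp t
  exact mul_le_mul (by linarith) (by linarith) (by positivity) (Real.exp_pos t).le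

/-- An entire function of minimal type in a right half plane that is bounded to the left. -/
theorem entire_zero {Φ : ℂ → ℂ} {G : ℝ → ℝ} {x₃ B : ℝ} (hΦ : Differentiable ℂ Φ) (hG : Monotone G)
    (hb : ∀ s, ‖Φ s‖ ≤ Real.exp (G s.re)) (hlim : Tendsto (fun x : ℝ => Φ x) atBot (𝓝 0))
    (hB : ∀ z : ℂ, x₃ ≤ z.re → ‖Φ z‖ ≤ B * Real.exp (B * ‖z‖))
    (hs : ∀ ε : ℝ, 0 < ε → ∀ᶠ x : ℝ in atTop, ‖Φ x‖ ≤ Real.exp (ε * x)) : ∀ z, Φ z = 0 := by
  have hB0 : 0 ≤ B := nonneg_of_mul_nonneg_left ((norm_nonneg _).trans (hB x₃ (by simp)))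
    (Real.exp_pos _)
  have key : ∀ ε : ℝ, 0 < ε → ∀ z : ℂ, 0 ≤ z.re →
      ‖exp (-(ε * z)) * Φ (z + x₃)‖ ≤ Real.exp (G x₃) := fun ε hε z hz => by
    refine PhragmenLindelof.right_half_plane_of_tendsto_zero_on_real
      (f := fun z => exp (-(ε * z)) * Φ (z + x₃)) (Differentiable.diffContOnCl (by fun_prop))
      ⟨1, one_lt_two, B, IsBigO.of_bound (B * Real.exp (B * |x₃|)) ?_⟩ ?_ (fun y => ?_) hz
    · refine eventually_inf_principal.2 (.of_forall fun w hw => ?_)
      have hw' : 0 < w.re := hw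
      have h1 : ‖exp (-(ε * w))‖ ≤ 1 := by
        rw [norm_exp, Real.exp_le_one_iff, neg_re, re_ofReal_mul]
        nlinarith
      have h2 := hB (w + x₃) (by simp only [add_re, ofReal_re]; linarith)
      have h3 : ‖w + x₃‖ ≤ |x₃| + ‖w‖ := by
        simpa [add_comm] using norm_add_le w (x₃ : ℂ)
      rw [norm_mul, Real.rpow_one, Real.norm_of_nonneg (Real.exp_pos _).le, mul_assoc,
        ← Real.exp_add, ← mul_add]
      exact (mul_le_of_le_one_left (norm_nonneg _) h1).trans (h2.trans (by gcongr))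
    · have h1 : Tendsto (fun x : ℝ => x + x₃) atTop atTop := tendsto_atTop_add_const_right _ _
        tendsto_id
      have h2 : Tendsto (fun x : ℝ => Real.exp (-(ε / 2 * x) + ε / 2 * x₃)) atTop (𝓝 0) :=
        Real.tendsto_exp_atBot.comp (tendsto_atBot_add_const_right _ _
          (tendsto_neg_atTop_atBot.comp (tendsto_id.const_mul_atTop (half_pos hε))))
      refine squeeze_zero_norm' ?_ h2
      filter_upwards [h1.eventually (hs _ (half_pos hε))] with x hx
      rw [ofReal_add] at hx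
      rw [norm_mul, norm_exp, neg_re, re_ofReal_mul, ofReal_re]
      refine (mul_le_mul_of_nonneg_left hx (Real.exp_pos _).le).trans_eq ?_
      rw [← Real.exp_add]
      congr 1
      ring
    · rw [norm_mul, norm_exp]
      simpa using hb (y * I + x₃)
  have hbd : ∀ z, ‖Φ z‖ ≤ Real.exp (G x₃) := fun z => by
    rcases le_total z.re x₃ with h | h
    · exact (hb z).trans (Real.exp_le_exp.2 (hG h))
    · have h1 : Tendsto (fun ε : ℝ => ‖exp (-(ε * (z - x₃))) * Φ (z - x₃ + x₃)‖) (𝓝[>] 0)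
          (𝓝 ‖Φ z‖) :=
        (Continuous.tendsto' (by fun_prop) _ _ (by simp)).mono_left nhdsWithin_le_nhds
      refine le_of_tendsto h1 ?_
      filter_upwards [self_mem_nhdsWithin] with ε hε
      exact key ε hε _ (by simp only [sub_re, ofReal_re]; linarith)
  intro z
  have hc : ∀ w, Φ w = Φ z := fun w =>
    hΦ.apply_eq_apply_of_bounded (isBounded_iff_forall_norm_le.2 ⟨_, forall_mem_range.2 hbd⟩) w z
  simp only [hc] at hlim
  exact tendsto_nhds_unique tendsto_const_nhds hlim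

theorem Nice.final (h : Nice L r δ K CF β) {Φ E : ℂ → ℂ} {G : ℝ → ℝ} {m : ℕ} {C C' x₁ : ℝ}
    (hC : 0 < C) (hΦ : Differentiable ℂ Φ) (hG : Monotone G) (hb : ∀ s, ‖Φ s‖ ≤ Real.exp (G s.re))
    (hlim : Tendsto (fun x : ℝ => Φ x) atBot (𝓝 0))
    (hm : ∀ (w : ℂ) (X : ℝ), 0 ≤ X →
      (∀ s ∈ dom r, ∀ n : ℕ, L s = w - 2 * π * I * n → s.re ≤ X) →
        ‖E w‖ ≤ C * (1 + ‖w‖) ^ 2 * Real.exp (G (3 * r + X)))
    (h0 : ∀ z : ℂ, 3 * r + 1 ≤ z.re → ‖Φ z * exp (-(m * L z))‖ ≤
      ‖E (L z - 2 * π * I)‖ + ‖E (L z)‖ + C * (1 + ‖z‖))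
    (hE : ∀ z : ℂ, x₁ < z.re → ‖E (L z)‖ ≤ C' * (1 + ‖z‖) ^ 2) : ∀ z, Φ z = 0 := by
  obtain ⟨U, hU⟩ := h.upper
  obtain ⟨B, hB, hB'⟩ := h.far U
  obtain ⟨c, hc0, hc1⟩ := h.lin
  have hr := h.r_pos
  have hπ := Real.pi_pos
  have hC' : 0 ≤ C' := nonneg_of_mul_nonneg_left
    ((norm_nonneg _).trans (hE (x₁ + 1) (by simp))) (by positivity)
  set eK := Real.exp (K * π / 2) with heK
  have heK1 : 1 ≤ eK := Real.one_le_exp (div_nonneg (mul_nonneg h.K_nonneg hπ.le) two_pos.le)
  set eD := Real.exp (2 * π / δ) with heD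
  have heD1 : 1 ≤ eD := Real.one_le_exp (div_nonneg (by positivity) h.δ_pos.le)
  set R := max x₁ B with hR
  have hRB : B ≤ R := le_max_right _ _
  have hR1 : x₁ ≤ R := le_max_left _ _
  have hR0 : 0 < R := by linarith
  have hRK : R ≤ eK * R := le_mul_of_one_le_left hR0.le heK1
  set C₂ := C' * eD ^ 2 + C * (9 * c) ^ 2 * Real.exp (G (3 * r + eK * R)) with hC₂
  have hC₂0 : 0 ≤ C₂ := by positivity
  have hπn : ‖2 * (π : ℂ) * I‖ = 2 * π := by
    rw [norm_mul, norm_mul, norm_I, norm_real, Complex.norm_two, mul_one, Real.norm_of_nonneg hπ.le]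
  have hE2 : ∀ z : ℂ, eK * R + 3 * r + 1 ≤ z.re →
      ‖E (L z - 2 * π * I)‖ ≤ C₂ * (1 + ‖z‖) ^ 2 := fun z hz => by
    have hzr : r < z.re := by linarith
    have hzd := mem_dom_of_re hr.le hzr
    have hzU := hB' z hzd (by linarith [re_le_norm z])
    have hn := norm_nonneg z
    by_cases hw : ∃ w : ℂ, R < w.re ∧ L w = L z - 2 * π * I
    · obtain ⟨w, hw, e⟩ := hw
      have h1 := h.norm_le hzd (mem_dom_of_re hr.le (show r < w.re by linarith))
      rw [e, sub_sub_cancel_left, norm_neg, hπn] at h1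
      have h2 : 1 + ‖w‖ ≤ eD * (1 + ‖z‖) := by linarith
      have h3 := pow_le_pow_left₀ (by positivity) h2 2
      rw [← e]
      refine (hE w (by linarith)).trans ((mul_le_mul_of_nonneg_left h3 hC').trans ?_)
      rw [mul_pow, ← mul_assoc]
      exact mul_le_mul_of_nonneg_right (le_add_of_nonneg_right (by positivity)) (by positivity)
    · refine (hm _ (eK * R) (by positivity) fun s hs n e => ?_).trans ?_
      · obtain ⟨w, hwd, e'⟩ := h.vert hU hzd hs hzU (σ := -(2 * π * (n + 1))) (τ := -(2 * π))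
          (by rw [e]; push_cast; ring) (by
            rw [uIcc_of_ge (neg_nonpos.2 (by positivity))]
            exact ⟨by nlinarith [Nat.cast_nonneg (α := ℝ) n], by linarith⟩)
        have e'' : L w = L z - 2 * π * I := by rw [e']; push_cast; ring
        have h1 : w.re ≤ R := not_lt.1 fun h1 => hw ⟨w, h1, e''⟩
        have h2 : eK * w.re ≤ eK * R := mul_le_mul_of_nonneg_left h1 (by positivity)
        have hwU : U < (L w).re := by rw [e'']; simpa using hzU
        rcases le_total w.im 0 with hi | hi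
        · exact (h.re_le hU hwd hs hwU (σ := -(2 * π * n)) (by rw [e, e'']; push_cast; ring)
            (Or.inr ⟨neg_nonpos.2 (by positivity), hi⟩)).trans h2
        · have := h.re_le hU hwd hzd hwU (σ := 2 * π) (by rw [e'']; push_cast; ring)
            (Or.inl ⟨by positivity, hi⟩)
          linarith
      · have h1 := norm_sub_le (L z) (2 * π * I)
        rw [hπn] at h1
        have h2 : 1 + ‖L z - 2 * π * I‖ ≤ 9 * c * (1 + ‖z‖) := by
          linarith [hc1 z hzr, Real.pi_le_four, norm_nonneg (L z)]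
        have h3 := pow_le_pow_left₀ (by positivity) h2 2
        refine (mul_le_mul_of_nonneg_right (mul_le_mul_of_nonneg_left h3 hC.le)
          (Real.exp_pos _).le).trans ?_
        rw [mul_pow, hC₂, add_mul]
        refine le_add_of_nonneg_of_le (by positivity) (le_of_eq (by ring))
  set C₃ := C₂ + C' + C with hC₃
  have hC₃0 : 0 < C₃ := by positivity
  have hΦb : ∀ z : ℂ, eK * R + 3 * r + 1 ≤ z.re →
      ‖Φ z‖ ≤ C₃ * (1 + ‖z‖) ^ 2 * Real.exp (m * ‖L z‖) := fun z hz => by
    have h1 := h0 z (by linarith)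
    have hn := norm_nonneg z
    have h2 : C * (1 + ‖z‖) ≤ C * (1 + ‖z‖) ^ 2 :=
      mul_le_mul_of_nonneg_left (by nlinarith) hC.le
    have h3 : ‖Φ z * exp (-(m * L z))‖ ≤ C₃ * (1 + ‖z‖) ^ 2 := by
      linarith [hE2 z hz, hE z (by linarith)]
    have h4 : Φ z = Φ z * exp (-(m * L z)) * exp (m * L z) := by
      rw [mul_assoc, ← exp_add, neg_add_cancel, exp_zero, mul_one]
    rw [h4, norm_mul]
    refine mul_le_mul h3 ((norm_exp_le_exp_norm _).trans_eq ?_) (norm_nonneg _) (by positivity)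
    rw [norm_mul, Complex.norm_natCast]
  refine entire_zero hΦ hG hb hlim (x₃ := eK * R + 3 * r + 1)
    (B := C₃ * Real.exp (m * c) + (2 + m * c)) (fun z hz => ?_) fun ε hε => ?_
  · have hn := norm_nonneg z
    have h1 : m * ‖L z‖ ≤ m * c + m * c * ‖z‖ := by
      have := mul_le_mul_of_nonneg_left (show ‖L z‖ ≤ c * (1 + ‖z‖) by
        linarith [hc1 z (by linarith)]) (Nat.cast_nonneg (α := ℝ) m)
      linarith
    calc ‖Φ z‖ ≤ C₃ * Real.exp (2 * ‖z‖) * Real.exp (m * c + m * c * ‖z‖) :=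
          (hΦb z hz).trans (by gcongr; exact sq_le_exp hn)
      _ = C₃ * Real.exp (m * c) * Real.exp ((2 + m * c) * ‖z‖) := by
          rw [mul_assoc C₃, mul_assoc C₃, ← Real.exp_add, ← Real.exp_add]
          congr 2
          ring
      _ ≤ _ := by
          have t1 : 0 ≤ C₃ * Real.exp (m * c) := by positivity
          have t2 : (0 : ℝ) ≤ 2 + m * c := by positivity
          exact mul_le_mul (by linarith) (Real.exp_le_exp.2
            (mul_le_mul_of_nonneg_right (by linarith) hn)) (Real.exp_pos _).le (by linarith)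
  · have h1 := (Real.tendsto_pow_mul_exp_neg_atTop_nhds_zero 2).comp
      (tendsto_id.const_mul_atTop (half_pos hε))
    have h2 := h1.eventually (ge_mem_nhds (show 0 < (ε / 2) ^ 2 / (4 * C₃) by positivity))
    filter_upwards [h2, h.little (show 0 < ε / 2 / (m + 1) by positivity),
      eventually_ge_atTop (eK * R + 3 * r + 1)] with x a1 a2 a3
    have hx1 : 1 ≤ x := by linarith
    have b1 := hΦb x (by simpa using a3)
    rw [norm_real, Real.norm_of_nonneg (by linarith)] at b1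
    have b2 : m * ‖L x‖ ≤ ε / 2 * x := by
      have t1 : (m : ℝ) * ‖L x‖ ≤ (m + 1) * (ε / 2 / (m + 1) * x) :=
        mul_le_mul (by linarith) a2 (norm_nonneg _) (by positivity)
      rwa [← mul_assoc, mul_div_cancel₀ _ (by positivity)] at t1
    have b3 : C₃ * (1 + x) ^ 2 ≤ Real.exp (ε / 2 * x) := by
      simp only [Function.comp, id] at a1
      rw [Real.exp_neg, ← div_eq_mul_inv, div_le_div_iff₀ (Real.exp_pos _) (by positivity),
        mul_pow, mul_assoc, mul_le_mul_iff_right₀ (by positivity)] at a1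
      have t1 : (1 + x) ^ 2 ≤ x ^ 2 * 4 := by nlinarith
      linarith [mul_le_mul_of_nonneg_left t1 hC₃0.le]
    refine b1.trans ((mul_le_mul b3 (Real.exp_le_exp.2 b2) (Real.exp_pos _).le
      (Real.exp_pos _).le).trans_eq ?_)
    rw [← Real.exp_add]
    congr 1
    ring

end Pool.Agent.P.MP_0134b7_an
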