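import Pool.Agent.P.MP_0134b7_an.RMain

/-!
Generalized gamma convolutions have a regular Laplace exponent.
-/

open Set Filter Topology MeasureTheory Complex
open scoped Real ENNReal

namespace Pool.Agent.P.MP_0134b7_an

/-- The Laplace exponent with Thorin measure `U`. -/
noncomputable def thorin (U : Measure ℝ) (z : ℂ) : ℂ := ∫ s, log (1 + z / s) ∂U

section
variable {z w : ℂ} {s x y : ℝ}

theorem gg_sq (z : ℂ) (s : ℝ) : ‖z + s‖ ^ 2 = ‖z‖ ^ 2 + 2 * s * z.re + s ^ 2 := by
  rw [Complex.sq_norm, Complex.sq_norm, normSq_apply, normSq_apply]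
  simp only [add_re, ofReal_re, add_im, ofReal_im]
  ring

theorem gg_low (hz : 0 < z.re) (hs : 0 < s) : ‖z‖ + s ≤ 2 * ‖z + s‖ := by
  have h := gg_sq z s
  have h0 := norm_nonneg z
  have h1 := mul_pos hs hz
  have h2 : ‖z‖ ≤ ‖z + s‖ := (abs_le_of_sq_le_sq' (by nlinarith) (norm_nonneg _)).2
  have h3 : s ≤ ‖z + s‖ := (abs_le_of_sq_le_sq' (by nlinarith) (norm_nonneg _)).2
  linarith

theorem gg_up (z : ℂ) (hs : 0 < s) : ‖z + s‖ ≤ ‖z‖ + s := by
  have := norm_add_le z s
  rwa [norm_real, Real.norm_of_nonneg hs.le] at this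

theorem gg_pos (hz : 0 < z.re) : 0 < ‖z‖ := hz.trans_le (re_le_norm z)

theorem gg_ne (hz : 0 < z.re) (hs : 0 < s) : z + s ≠ 0 := fun h => by
  have := congrArg re h
  simp only [add_re, ofReal_re, zero_re] at this
  linarith

theorem gg_re (z : ℂ) (s : ℝ) : (z / (z + s)).re = (‖z‖ ^ 2 + s * z.re) / ‖z + s‖ ^ 2 := by
  rw [div_re, Complex.sq_norm, Complex.sq_norm, normSq_apply z]
  simp only [add_re, ofReal_re, add_im, ofReal_im]
  ring

theorem gg_im (z : ℂ) (s : ℝ) : (z / (z + s)).im = s * z.im / ‖z + s‖ ^ 2 := by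
  rw [div_im, Complex.sq_norm]
  simp only [add_re, ofReal_re, add_im, ofReal_im]
  ring

theorem gg_le_log (hx : 0 < x) (hs : 0 < s) : x / (x + s) ≤ Real.log (1 + x / s) := by
  have h := Real.one_sub_inv_le_log_of_pos (x := 1 + x / s) (by positivity)
  refine le_trans (le_of_eq ?_) h
  field_simp
  ring

theorem gg_mono (hx : 0 < x) (hxy : x ≤ y) (hs : 0 < s) : x / (x + s) ≤ y / (y + s) := by
  rw [div_le_div_iff₀ (by positivity) (by linarith)]
  nlinarith

theorem gg_norm (hz : 0 < z.re) (hs : 0 < s) : ‖z / (z + s)‖ ≤ 2 * (‖z‖ / (‖z‖ + s)) := by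
  have h := gg_low hz hs
  have h0 := gg_pos hz
  have h1 : 0 < ‖z + s‖ := norm_pos_iff.2 (gg_ne hz hs)
  rw [norm_div, ← mul_div_assoc, div_le_div_iff₀ h1 (by positivity)]
  nlinarith

theorem gg_one_add (z : ℂ) (hs : 0 < s) : 1 + z / s = (z + s) / s := by
  have : (s : ℂ) ≠ 0 := ofReal_ne_zero.2 hs.ne'
  field_simp
  ring

theorem gg_re_pos (hz : 0 < z.re) (hs : 0 < s) : 0 < (1 + z / s).re := by
  rw [add_re, one_re, div_ofReal_re]
  positivity

theorem gg_log (hz : 0 < z.re) (hs : 0 < s) :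
    ‖log (1 + z / s)‖ ≤ (1 + π) * Real.log (1 + ‖z‖ / s) := by
  have h0 := gg_pos hz
  have h1 : 0 < ‖z + s‖ := norm_pos_iff.2 (gg_ne hz hs)
  have hn : ‖1 + z / s‖ = ‖z + s‖ / s := by
    rw [gg_one_add z hs, norm_div, norm_real, Real.norm_of_nonneg hs.le]
  have h2 : |(log (1 + z / s)).re| ≤ Real.log (1 + ‖z‖ / s) := by
    have h3 : 1 ≤ ‖1 + z / s‖ := le_trans (by
      rw [add_re, one_re, div_ofReal_re]
      have : 0 < z.re / s := by positivity
      linarith) (re_le_norm _)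
    rw [log_re, abs_of_nonneg (Real.log_nonneg h3)]
    refine Real.log_le_log (by linarith) ?_
    rw [hn, div_le_iff₀ hs, add_mul, one_mul, div_mul_cancel₀ _ hs.ne', add_comm s]
    exact gg_up z hs
  have h3 : |(log (1 + z / s)).im| ≤ π * Real.log (1 + ‖z‖ / s) := by
    have h4 := Real.mul_abs_le_abs_sin (abs_arg_le_pi_div_two_iff.2 (gg_re_pos hz hs).le)
    rw [sin_arg, hn, add_im, one_im, zero_add, div_ofReal_im, div_div_div_cancel_right₀ hs.ne',
      abs_div, abs_of_pos h1] at h4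
    have h5 : |z.im| / ‖z + s‖ ≤ 2 * (‖z‖ / (‖z‖ + s)) := by
      refine le_trans ?_ (gg_norm hz hs)
      rw [norm_div]
      exact div_le_div_of_nonneg_right (abs_im_le_norm z) h1.le
    have h6 := gg_le_log h0 hs
    have hπ := Real.pi_pos
    rw [log_im]
    have h7 : 2 / π * |arg (1 + z / s)| ≤ 2 * Real.log (1 + ‖z‖ / s) := by linarith
    rw [div_mul_eq_mul_div, div_le_iff₀ hπ] at h7
    linarith
  linarith [norm_le_abs_re_add_abs_im (log (1 + z / s))]

end

/-- The index on the real axis. -/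
noncomputable def gA (U : Measure ℝ) (x : ℝ) : ℝ := ∫ s, x / (x + s) ∂U

/-- The hypotheses on the Thorin measure. -/
structure GH (U : Measure ℝ) : Prop where
  ae : ∀ᵐ s ∂U, 0 < s
  ne : U ≠ 0
  int : ∀ x : ℝ, 0 < x → Integrable (fun s => Real.log (1 + x / s)) U

namespace GH

variable {U : Measure ℝ} {z w : ℂ} {x y : ℝ}

theorem pos_int (h : GH U) {g : ℝ → ℝ} (hg : Integrable g U) (h0 : ∀ s, 0 < s → 0 < g s) :
    0 < ∫ s, g s ∂U := by
  rw [integral_pos_iff_support_of_nonneg_ae (h.ae.mono fun s hs => (h0 s hs).le) hg]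
  have h1 : (univ : Set ℝ) ≤ᵐ[U] Function.support g := h.ae.mono fun s hs _ => (h0 s hs).ne'
  exact (Measure.measure_univ_pos.2 h.ne).trans_le (measure_mono_ae h1)

theorem intA (h : GH U) (hx : 0 < x) : Integrable (fun s => x / (x + s)) U :=
  (h.int x hx).mono' (by fun_prop : Measurable fun s : ℝ => x / (x + s)).aestronglyMeasurable
    (h.ae.mono fun s hs => by
      rw [Real.norm_of_nonneg (by positivity)]; exact gg_le_log hx hs)

theorem A_pos (h : GH U) (hx : 0 < x) : 0 < gA U x :=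
  h.pos_int (h.intA hx) fun s hs => by positivity

theorem A_mono (h : GH U) (hx : 0 < x) (hxy : x ≤ y) : gA U x ≤ gA U y :=
  integral_mono_ae (h.intA hx) (h.intA (hx.trans_le hxy)) (h.ae.mono fun _ hs => gg_mono hx hxy hs)

theorem A_two (h : GH U) (hx : 0 < x) : gA U (2 * x) ≤ 2 * gA U x := by
  rw [gA, gA, ← integral_const_mul]
  refine integral_mono_ae (h.intA (by positivity)) ((h.intA hx).const_mul 2)
    (h.ae.mono fun s hs => ?_)
  simp only [← mul_div_assoc]
  exact div_le_div_of_nonneg_left (by positivity) (by positivity) (by linarith)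

theorem inta (h : GH U) (hz : 0 < z.re) : Integrable (fun s : ℝ => z / (z + s)) U :=
  ((h.intA (gg_pos hz)).const_mul 2).mono'
    (by fun_prop : Measurable fun s : ℝ => z / (z + s)).aestronglyMeasurable
    (h.ae.mono fun _ hs => gg_norm hz hs)

theorem intd (h : GH U) (hz : 0 < z.re) : Integrable (fun s : ℝ => (z + s)⁻¹) U := by
  have hz0 : z ≠ 0 := norm_pos_iff.1 (gg_pos hz)
  refine ((h.inta hz).const_mul z⁻¹).congr (ae_of_all _ fun s => ?_)
  simp only
  rw [div_eq_mul_inv, inv_mul_cancel_left₀ hz0]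

theorem measL (z : ℂ) : Measurable fun s : ℝ => log (1 + z / s) :=
  measurable_log.comp (by fun_prop)

theorem intL (h : GH U) (hz : 0 < z.re) : Integrable (fun s : ℝ => log (1 + z / s)) U :=
  ((h.int _ (gg_pos hz)).const_mul (1 + π)).mono' (measL z).aestronglyMeasurable
    (h.ae.mono fun _ hs => gg_log hz hs)

theorem hasDerivAt (h : GH U) (hz : 0 < z.re) :
    HasDerivAt (thorin U) (∫ s : ℝ, (z + s)⁻¹ ∂U) z := by
  have hc : 0 < z.re / 2 := by positivity
  have hb : ∀ w ∈ Metric.ball z (z.re / 2), z.re / 2 < w.re := fun w hw => by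
    rw [Metric.mem_ball, dist_eq_norm] at hw
    have := (abs_le.1 ((abs_re_le_norm (w - z)).trans hw.le)).1
    have h2 := (abs_lt.1 ((abs_re_le_norm (w - z)).trans_lt hw)).1
    rw [sub_re] at h2
    linarith
  refine (hasDerivAt_integral_of_dominated_loc_of_deriv_le (F := fun w (s : ℝ) => log (1 + w / s))
    (F' := fun w (s : ℝ) => (w + s)⁻¹)
    (bound := fun s => (z.re / 2)⁻¹ * (z.re / 2 / (z.re / 2 + s))) (Metric.ball_mem_nhds z hc)
    (Eventually.of_forall fun w => (measL w).aestronglyMeasurable) (h.intL hz) (h.intd hz).1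
    (h.ae.mono fun s hs w hw => ?_) ((h.intA hc).const_mul _) (h.ae.mono fun s hs w hw => ?_)).2
  · have h1 := hb w hw
    have h2 := re_le_norm (w + s)
    rw [add_re, ofReal_re] at h2
    rw [norm_inv, div_eq_mul_inv _ (_ + s), inv_mul_cancel_left₀ hc.ne']
    exact inv_anti₀ (by positivity) (by linarith)
  · have h1 := hc.trans (hb w hw)
    have h2 := (((hasDerivAt_id w).div_const (s : ℂ)).const_add 1).clog
      (Or.inl (gg_re_pos h1 hs))
    have h3 : (s : ℂ) ≠ 0 := ofReal_ne_zero.2 hs.ne'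
    have h4 := gg_ne h1 hs
    have h5 : (w + s)⁻¹ = 1 / s / (1 + w / s) := by
      rw [gg_one_add w hs]
      field_simp
    rw [h5]
    exact h2

theorem idx_eq (h : GH U) (hz : 0 < z.re) : idx (thorin U) z = ∫ s : ℝ, z / (z + s) ∂U := by
  rw [idx, (h.hasDerivAt hz).deriv, ← integral_const_mul]
  simp only [div_eq_mul_inv]

theorem idx_re (h : GH U) (hz : 0 < z.re) :
    (idx (thorin U) z).re = ∫ s : ℝ, (z / (z + s)).re ∂U := by
  rw [h.idx_eq hz]
  exact (integral_re (h.inta hz)).symm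

theorem idx_im (h : GH U) (hz : 0 < z.re) :
    (idx (thorin U) z).im = ∫ s : ℝ, (z / (z + s)).im ∂U := by
  rw [h.idx_eq hz]
  exact (integral_im (h.inta hz)).symm

theorem rho_eq (h : GH U) (hx : 0 < x) : rho (thorin U) x = (gA U x)⁻¹ := by
  have : idx (thorin U) x = (gA U x : ℂ) := by
    rw [h.idx_eq (by simpa using hx), gA, ← integral_complex_ofReal]
    push_cast
    rfl
  rw [rho, this, ← ofReal_inv, ofReal_re]

theorem re_ge (h : GH U) : ∃ δ : ℝ, 0 < δ ∧ ∀ z ∈ dom 1, δ ≤ (idx (thorin U) z).re := by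
  have hi : Integrable (fun s : ℝ => (1 / (1 + s)) ^ 2) U :=
    (h.intA one_pos).mono' (by fun_prop : Measurable fun s : ℝ =>
      (1 / (1 + s)) ^ 2).aestronglyMeasurable (h.ae.mono fun s hs => by
        have h1 : 1 / (1 + s) ≤ 1 := (div_le_one (by positivity)).2 (by linarith)
        have h2 : 0 < 1 / (1 + s) := by positivity
        rw [Real.norm_of_nonneg (by positivity)]
        nlinarith)
  refine ⟨_, h.pos_int hi fun s hs => by positivity, fun z hz => ?_⟩
  rw [h.idx_re hz.1]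
  refine integral_mono_ae hi (h.inta hz.1).re (h.ae.mono fun s hs => ?_)
  have h1 : 0 < ‖z + s‖ := norm_pos_iff.2 (gg_ne hz.1 hs)
  have h2 := gg_pos hz.1
  have h3 := mul_pos hs hz.1
  simp only [gg_re]
  calc (1 / (1 + s)) ^ 2 ≤ (‖z‖ / (‖z‖ + s)) ^ 2 := by
        gcongr ?_ ^ 2
        exact gg_mono one_pos hz.2.le hs
    _ ≤ (‖z‖ / ‖z + s‖) ^ 2 := by
        gcongr
        exact gg_up z hs
    _ ≤ _ := by
        rw [div_pow]
        gcongr
        linarith

theorem ang (h : GH U) (hz : 0 < z.re) :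
    |(idx (thorin U) z).im| * z.re ≤ |z.im| * (idx (thorin U) z).re := by
  rw [h.idx_re hz, h.idx_im hz, ← integral_const_mul]
  refine (mul_le_mul_of_nonneg_right abs_integral_le_integral_abs hz.le).trans ?_
  rw [← integral_mul_const]
  refine integral_mono_ae ((h.inta hz).im.abs.mul_const _) ((h.inta hz).re.const_mul _)
    (h.ae.mono fun s hs => ?_)
  simp only [gg_re, gg_im]
  rw [abs_div, abs_mul, abs_of_pos hs, abs_of_nonneg (sq_nonneg ‖z + s‖), div_mul_eq_mul_div,
    ← mul_div_assoc]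
  have h1 := mul_nonneg (abs_nonneg z.im) (sq_nonneg ‖z‖)
  exact div_le_div_of_nonneg_right (by nlinarith) (sq_nonneg _)

theorem norm_ge (h : GH U) (hz : 0 < z.re) : gA U ‖z‖ ≤ 2 * ‖idx (thorin U) z‖ := by
  obtain ⟨σ, h1, h2⟩ : ∃ σ : ℝ, |σ| = 1 ∧ σ * z.im = |z.im| := by
    rcases le_total 0 z.im with h | h
    · exact ⟨1, abs_one, by rw [abs_of_nonneg h, one_mul]⟩
    · exact ⟨-1, by simp, by rw [abs_of_nonpos h, neg_one_mul]⟩
  have h3 : gA U ‖z‖ ≤ (idx (thorin U) z).re + σ * (idx (thorin U) z).im := by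
    rw [h.idx_re hz, h.idx_im hz, ← integral_const_mul]
    refine le_of_le_of_eq ?_ (integral_add (h.inta hz).re ((h.inta hz).im.const_mul σ))
    refine integral_mono_ae (h.intA (gg_pos hz)) ((h.inta hz).re.add ((h.inta hz).im.const_mul _))
      (h.ae.mono fun s hs => ?_)
    have h4 := norm_le_abs_re_add_abs_im (z / (z + s))
    have h5 : 0 ≤ (z / (z + s)).re := by
      have := mul_pos hs hz
      rw [gg_re]; positivity
    have h6 : |(z / (z + s)).im| = σ * (z / (z + s)).im := by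
      rw [gg_im, abs_div, abs_mul, abs_of_pos hs, abs_of_nonneg (sq_nonneg ‖z + s‖), ← h2]
      ring
    rw [abs_of_nonneg h5, h6, norm_div] at h4
    exact le_trans (div_le_div_of_nonneg_left (norm_nonneg _) (norm_pos_iff.2 (gg_ne hz hs))
      (gg_up z hs)) h4
  have h4 := re_le_norm (idx (thorin U) z)
  have h5 := le_abs_self (σ * (idx (thorin U) z).im)
  rw [abs_mul, h1, one_mul] at h5
  linarith [abs_im_le_norm (idx (thorin U) z)]

theorem sub_le (h : GH U) (hz : 0 < z.re) (hw : 0 < w.re) (hx : 0 < x) (hz' : ‖z‖ ∈ Icc x (2 * x))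
    (hw' : ‖w‖ ∈ Icc x (2 * x)) :
    ‖idx (thorin U) w - idx (thorin U) z‖ ≤ 32 * (gA U (2 * x) - gA U x) := by
  have hx2 : 0 < 2 * x := by positivity
  rw [h.idx_eq hz, h.idx_eq hw, ← integral_sub (h.inta hw) (h.inta hz), gA, gA,
    ← integral_sub (h.intA hx2) (h.intA hx), ← integral_const_mul]
  refine norm_integral_le_of_norm_le (((h.intA hx2).sub (h.intA hx)).const_mul _)
    (h.ae.mono fun s hs => ?_)
  have h1 := gg_ne hz hs
  have h2 := gg_ne hw hs
  have e1 : w / (w + s) - z / (z + s) = s * (w - z) / ((w + s) * (z + s)) := by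
    field_simp
    ring
  have e2 : 32 * (2 * x / (2 * x + s) - x / (x + s)) =
      s * (4 * x) / ((2 * x + s) / 4 * ((x + s) / 2)) := by
    field_simp
    ring
  have h3 := gg_low hz hs
  have h4 := gg_low hw hs
  have h5 := norm_sub_le w z
  rw [e1, e2, norm_div, norm_mul, norm_mul, norm_real, Real.norm_of_nonneg hs.le]
  gcongr
  · linarith [hz'.2, hw'.2]
  · linarith [hw'.1]
  · linarith [hz'.1]

theorem osc (h : GH U) (hz : 0 < z.re) (hw : 0 < w.re) (hx : 0 < x) (hz' : ‖z‖ ∈ Icc x (2 * x))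
    (hw' : ‖w‖ ∈ Icc x (2 * x)) :
    ‖(idx (thorin U) z)⁻¹ - (idx (thorin U) w)⁻¹‖ ≤ 256 * ((gA U x)⁻¹ - (gA U (2 * x))⁻¹) := by
  have a0 := h.A_pos hx
  have a1 := h.A_mono hx (show x ≤ 2 * x by linarith)
  have a2 := h.A_two hx
  have a3 := a0.trans_le a1
  have h1 := (h.A_mono hx hz'.1).trans (h.norm_ge hz)
  have h2 := (h.A_mono hx hw'.1).trans (h.norm_ge hw)
  have h3 : idx (thorin U) z ≠ 0 := norm_pos_iff.1 (by linarith)
  have h4 : idx (thorin U) w ≠ 0 := norm_pos_iff.1 (by linarith)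
  have e : 256 * ((gA U x)⁻¹ - (gA U (2 * x))⁻¹) =
      32 * (gA U (2 * x) - gA U x) / (gA U x / 2 * (gA U (2 * x) / 4)) := by
    field_simp
    ring
  rw [inv_sub_inv h3 h4, norm_div, norm_mul, e]
  gcongr
  · exact h.sub_le hz hw hx hz' hw'
  · linarith
  · linarith

theorem small (h : GH U) {ε : ℝ} (hε : 0 < ε) :
    ∃ R : ℝ, ∀ z ∈ dom 1, R ≤ ‖z‖ → ‖deriv (thorin U) z‖ ≤ ε := by
  have h1 : Tendsto (fun x : ℝ => ∫ s, 2 * (x + s)⁻¹ ∂U) atTop (𝓝 (∫ _ : ℝ, (0 : ℝ) ∂U)) := by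
    refine tendsto_integral_filter_of_dominated_convergence (fun s => 2 * (1 / (1 + s)))
      (Eventually.of_forall fun x => (by fun_prop : Measurable fun s : ℝ =>
        2 * (x + s)⁻¹).aestronglyMeasurable) ?_ ((h.intA one_pos).const_mul 2)
      (ae_of_all _ fun s => ?_)
    · filter_upwards [eventually_ge_atTop 1] with x hx
      refine h.ae.mono fun s hs => ?_
      rw [Real.norm_of_nonneg (by positivity), one_div]
      gcongr
    · simpa using (tendsto_inv_atTop_zero.comp (tendsto_atTop_add_const_right _ s tendsto_id)).const_mul 2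
  rw [integral_zero] at h1
  obtain ⟨R, hR⟩ := eventually_atTop.1 (h1.eventually (ge_mem_nhds hε))
  refine ⟨R, fun z hz hzR => le_trans ?_ (hR _ hzR)⟩
  have h0 := gg_pos hz.1
  rw [(h.hasDerivAt hz.1).deriv]
  refine norm_integral_le_of_norm_le (((h.intA h0).const_mul (2 * ‖z‖⁻¹)).congr
    (ae_of_all _ fun s => ?_)) (h.ae.mono fun s hs => ?_)
  · simp only
    rw [div_eq_mul_inv, mul_assoc, inv_mul_cancel_left₀ h0.ne']
  · have h2 := gg_low hz.1 hs
    have h3 : 0 < ‖z + s‖ := norm_pos_iff.2 (gg_ne hz.1 hs)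
    rw [norm_inv, ← div_eq_mul_inv, inv_eq_one_div, div_le_div_iff₀ h3 (by positivity)]
    linarith

theorem lap_eq (h : GH U) {f : ℝ → ℂ} (hf : IntegrableOn f (Ioi 0))
    (hlap : ∀ x : ℝ, 0 < x → lap f x = Real.exp (-∫ s, Real.log (1 + x / s) ∂U))
    (hz : 0 < z.re) : lap f z = exp (-thorin U z) := by
  have ho : IsOpen {z : ℂ | 0 < z.re} := isOpen_lt continuous_const continuous_re
  have h1 : DifferentiableOn ℂ (lap f) {z : ℂ | 0 < z.re} := by
    refine MP_0afb51_an.differentiableOn_integral_of_bound ho (bound := fun t => ‖f t‖)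
      (fun z _ => hf.1.mul (by fun_prop : Continuous fun t : ℝ => exp (-(z * t))).aestronglyMeasurable)
      (fun t => by fun_prop) ?_ hf.norm
    filter_upwards [ae_restrict_mem measurableSet_Ioi] with t ht z hz
    rw [norm_mul, norm_exp]
    refine mul_le_of_le_one_right (norm_nonneg _) (Real.exp_le_one_iff.2 ?_)
    have := mul_pos (show 0 < z.re from hz) (show 0 < t from ht)
    simp only [neg_re, mul_re, ofReal_re, ofReal_im, mul_zero, sub_zero]
    linarith
  have h2 : DifferentiableOn ℂ (fun z => exp (-thorin U z)) {z : ℂ | 0 < z.re} := fun z hz =>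
    (h.hasDerivAt hz).differentiableAt.neg.cexp.differentiableWithinAt
  have h3 : Tendsto (fun x : ℝ => (x : ℂ)) (𝓝[>] 1) (𝓝[≠] 1) := by
    refine tendsto_nhdsWithin_iff.2 ⟨?_, ?_⟩
    · exact (continuous_ofReal.tendsto' 1 1 ofReal_one).mono_left nhdsWithin_le_nhds
    · filter_upwards [self_mem_nhdsWithin] with x hx
      exact fun h' => (show (1 : ℝ) < x from hx).ne' (ofReal_eq_one.1 h')
  refine (h1.analyticOnNhd ho).eqOn_of_preconnected_of_frequently_eq (h2.analyticOnNhd ho)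
    (convex_halfSpace_re_gt 0).isPreconnected (z₀ := 1) (by simp) (h3.frequently ?_) hz
  refine Eventually.frequently ?_
  filter_upwards [self_mem_nhdsWithin] with x hx
  have hx0 : 0 < x := one_pos.trans hx
  rw [hlap x hx0, ofReal_exp, ofReal_neg, ← integral_complex_ofReal, thorin]
  congr 2
  refine integral_congr_ae (h.ae.mono fun s hs => ?_)
  simp only
  rw [ofReal_log (by positivity)]
  push_cast
  rfl

theorem tendsto (h : GH U) : Tendsto (rho (thorin U)) atTop (𝓝 (U univ)⁻¹.toReal) := by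
  set G : ℝ → ℝ≥0∞ := fun x => ∫⁻ s, ENNReal.ofReal (x / (x + s)) ∂U with hG
  have hm : ∀ x y, 0 < x → x ≤ y → G x ≤ G y := fun x y hx hxy =>
    lintegral_mono_ae (h.ae.mono fun s hs => ENNReal.ofReal_le_ofReal (gg_mono hx hxy hs))
  have h1 : Tendsto (fun n : ℕ => G (n + 1)) atTop (𝓝 (∫⁻ _ : ℝ, 1 ∂U)) := by
    refine lintegral_tendsto_of_tendsto_of_monotone (fun n => Measurable.aemeasurable (by fun_prop))
      (h.ae.mono fun s hs m n hmn => ENNReal.ofReal_le_ofReal
        (gg_mono (by positivity) (by gcongr) hs)) (h.ae.mono fun s hs => ?_)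
    rw [← ENNReal.ofReal_one]
    refine ENNReal.tendsto_ofReal ?_
    have h2 : Tendsto (fun n : ℕ => 1 - s * ((n : ℝ) + 1 + s)⁻¹) atTop (𝓝 (1 - s * 0)) :=
      ((tendsto_inv_atTop_zero.comp (tendsto_atTop_add_const_right _ s
        (tendsto_atTop_add_const_right _ 1 tendsto_natCast_atTop_atTop))).const_mul s).const_sub 1
    rw [mul_zero, sub_zero] at h2
    refine h2.congr fun n => ?_
    field_simp
    ring
  rw [lintegral_one] at h1
  have h2 : Tendsto G atTop (𝓝 (U univ)) := by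
    refine tendsto_order.2 ⟨fun a ha => ?_, fun a ha => ?_⟩
    · obtain ⟨n, hn⟩ := (h1.eventually (lt_mem_nhds ha)).exists
      filter_upwards [eventually_ge_atTop ((n : ℝ) + 1)] with x hx
      exact hn.trans_le (hm _ _ (by positivity) hx)
    · filter_upwards [eventually_gt_atTop 0] with x hx
      refine lt_of_le_of_lt ?_ ha
      rw [← lintegral_one]
      exact lintegral_mono_ae (h.ae.mono fun s hs => ENNReal.ofReal_le_one.2
        ((div_le_one (by positivity)).2 (by linarith)))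
  have h3 := (ENNReal.tendsto_toReal (ENNReal.inv_ne_top.2
    (Measure.measure_univ_pos.2 h.ne).ne')).comp (tendsto_inv_iff.2 h2)
  refine h3.congr' ?_
  filter_upwards [eventually_gt_atTop 0] with x hx
  rw [h.rho_eq hx, Function.comp, ENNReal.toReal_inv, gA,
    integral_eq_lintegral_of_nonneg_ae (h.ae.mono fun s hs => by
      simp only [Pi.zero_apply]; positivity) (h.intA hx).1]

theorem inj (h : GH U) (hz : 0 < z.re) (hw : 0 < w.re) (e : thorin U z = thorin U w) : z = w := by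
  by_contra hne
  have hd : w - z ≠ 0 := sub_ne_zero.2 (Ne.symm hne)
  have hp : ∀ t ∈ Icc (0 : ℝ) 1, 0 < (z + t * (w - z)).re := fun t ht => by
    simp only [add_re, mul_re, ofReal_re, ofReal_im, sub_re, zero_mul, sub_zero]
    rcases le_total z.re w.re with h | h <;> nlinarith [ht.1, ht.2]
  have hD : ∀ t ∈ Icc (0 : ℝ) 1, HasDerivAt (fun t : ℝ => (thorin U (z + t * (w - z)) / (w - z)).re)
      (∫ s : ℝ, (z + t * (w - z) + s)⁻¹ ∂U).re t := fun t ht => by
    have h1 := (((h.hasDerivAt (hp t ht)).comp_of_eq (t : ℂ)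
      (((hasDerivAt_id (t : ℂ)).mul_const (w - z)).const_add z) rfl).div_const (w - z)).real_of_complex
    rw [one_mul, mul_div_cancel_right₀ _ hd] at h1
    exact h1
  obtain ⟨t, ht, h1⟩ := exists_hasDerivAt_eq_slope _ _ one_pos
    (fun t ht => (hD t ht).continuousAt.continuousWithinAt) fun t ht => hD t (Ioo_subset_Icc_self ht)
  have h2 := hp t (Ioo_subset_Icc_self ht)
  have h3 := h.pos_int (h.intd h2).re fun s hs => by
    rw [RCLike.re_to_complex, inv_re]
    refine div_pos ?_ (normSq_pos.2 (gg_ne h2 hs))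
    rw [add_re, ofReal_re]
    positivity
  rw [integral_re (h.intd h2), RCLike.re_to_complex, h1] at h3
  simp [e] at h3

theorem im_lt (h : GH U) (h2 : U univ = 2) (hz : 0 < z.re) : |(thorin U z).im| < π := by
  have : IsFiniteMeasure U := ⟨by rw [h2]; simp⟩
  have h1 : (thorin U z).im = ∫ s : ℝ, (log (1 + z / s)).im ∂U := (integral_im (h.intL hz)).symm
  have h3 := h.pos_int ((integrable_const (π / 2)).sub (h.intL hz).im.abs) fun s hs => by
    simp only [Pi.sub_apply, RCLike.im_to_complex, log_im, sub_pos]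
    exact abs_arg_lt_pi_div_two_iff.2 (Or.inl (gg_re_pos hz hs))
  simp only [Pi.sub_apply] at h3
  rw [integral_sub (integrable_const _) (h.intL hz).im.abs, integral_const, Measure.real, h2] at h3
  simp only [ENNReal.toReal_ofNat, smul_eq_mul, RCLike.im_to_complex] at h3
  rw [h1]
  exact abs_integral_le_integral_abs.trans_lt (by linarith)

end GH

theorem ggc_regular {U : Measure ℝ} (hU : U (Iic 0) = 0) (hU0 : U ≠ 0) {f : ℝ → ℂ}
    (hf : IntegrableOn f (Ioi 0))
    (hint : ∀ x : ℝ, 0 < x → Integrable (fun s => Real.log (1 + x / s)) U)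
    (hlap : ∀ x : ℝ, 0 < x → lap f x = Real.exp (-∫ s, Real.log (1 + x / s) ∂U)) :
    Regular f 0 1 (thorin U) ∧
      (∀ x : ℝ, 0 < x → rho (thorin U) x = (∫ s, x / (x + s) ∂U)⁻¹) ∧
      Tendsto (rho (thorin U)) atTop (𝓝 (U univ)⁻¹.toReal) ∧ AntitoneOn (rho (thorin U)) (Ioi 0) ∧
      (U univ = 2 → InjOn (lap f) (dom 1)) := by
  have h : GH U := ⟨by simpa [ae_iff, Iic] using hU, hU0, hint⟩
  refine ⟨⟨by simpa using hf, fun z hz => (h.hasDerivAt hz.1).differentiableAt.differentiableWithinAt,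
    fun z hz => by simpa using h.lap_eq hf hlap hz.1, h.re_ge,
    ⟨0, fun z hz => by simpa using h.ang hz.1⟩,
    ⟨fun k => 256 * ((gA U (2 ^ k))⁻¹ - (gA U (2 ^ (k + 1)))⁻¹), ?_, fun k z hz w hw h1 h2 => ?_⟩,
    fun ε hε => h.small hε⟩, fun x hx => h.rho_eq hx, h.tendsto, fun x hx y hy hxy => ?_,
    fun h2 z hz w hw e => ?_⟩
  · refine Summable.mul_left _ (summable_of_sum_range_le (c := (gA U (2 ^ 0))⁻¹) (fun k => ?_)
      fun n => ?_)
    · exact sub_nonneg.2 (inv_anti₀ (h.A_pos (by positivity))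
        (h.A_mono (by positivity) (pow_le_pow_right₀ one_le_two (Nat.le_succ k))))
    · rw [Finset.sum_range_sub' fun k => (gA U (2 ^ k))⁻¹]
      exact sub_le_self _ (inv_pos.2 (h.A_pos (by positivity))).le
  · dsimp only
    rw [pow_succ'] at h1 h2 ⊢
    exact h.osc hz.1 hw.1 (by positivity) h1 h2
  · rw [h.rho_eq hx, h.rho_eq hy]
    exact inv_anti₀ (h.A_pos hx) (h.A_mono hx hxy)
  · rw [h.lap_eq hf hlap hz.1, h.lap_eq hf hlap hw.1] at e
    have a1 := abs_lt.1 (h.im_lt h2 hz.1)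
    have a2 := abs_lt.1 (h.im_lt h2 hw.1)
    refine h.inj hz.1 hw.1 (neg_injective (exp_inj_of_neg_pi_lt_of_le_pi ?_ ?_ ?_ ?_ e)) <;>
      rw [neg_im] <;> linarith

/-- The criterion for generalized gamma convolutions. -/
theorem ggc_iff {ω : ℝ → ℝ} (hω : RadicalWeight ω) {U : Measure ℝ} (hU : U (Iic 0) = 0)
    (hU0 : U ≠ 0) {f : ℝ → ℂ} (hf : IntegrableOn f (Ioi 0))
    (hint : ∀ x : ℝ, 0 < x → Integrable (fun s => Real.log (1 + x / s)) U)
    (hlap : ∀ x : ℝ, 0 < x → lap f x = Real.exp (-∫ s, Real.log (1 + x / s) ∂U)) :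
    IsPolyGen ω f ↔ ∀ x₀ : ℝ, 1 < x₀ → 2 < ∫ s, x₀ / (x₀ + s) ∂U → ∀ ε : ℝ, 0 < ε →
      ¬IntegrableOn (fun x => Real.log (ω (ε * kap (fun y => (∫ s, y / (y + s) ∂U)⁻¹) x₀ x)) /
        (x ^ 2 * kap (fun y => (∫ s, y / (y + s) ∂U)⁻¹) x₀ x)) (Ioi x₀) := by
  obtain ⟨h1, h2, h3, h4, h5⟩ := ggc_regular hU hU0 hf hint hlap
  have hinj : (U univ)⁻¹.toReal = 1 / 2 → InjOn (fun z => lap f ((0 : ℝ) + z)) (dom 1) := fun e => by
    have e2 : (U univ).toReal = 2 := by
      rw [ENNReal.toReal_inv, one_div] at e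
      exact inv_injective e
    have e3 : U univ = 2 := by
      rw [← ENNReal.toReal_eq_toReal_iff' (fun h => by simp [h] at e2) (by simp), e2]
      simp
    simpa using h5 e3
  have hlt : ∀ x₀ : ℝ, 1 < x₀ → 2 < ∫ s, x₀ / (x₀ + s) ∂U → ∀ x, x₀ ≤ x →
      rho (thorin U) x < 1 / 2 := fun x₀ h6 h7 x hx => by
    have h8 : 0 < x₀ := one_pos.trans h6
    refine (h4 h8 (h8.trans_le hx) hx).trans_lt ?_
    rw [h2 x₀ h8, one_div]
    exact inv_strictAnti₀ two_pos h7
  rcases le_or_gt (1 / 2) (U univ)⁻¹.toReal with hp | hp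
  · refine iff_of_true ((hω.regular_iff h1 h3 hinj two_pos one_lt_two
      fun h => absurd hp h.not_ge).2 (Or.inl hp)) fun x₀ h6 h7 => ?_
    have h8 : 0 < x₀ := one_pos.trans h6
    have h9 : (U univ)⁻¹.toReal ≤ rho (thorin U) x₀ := le_of_tendsto h3 (by
      filter_upwards [eventually_ge_atTop x₀] with x hx
      exact h4 h8 (h8.trans_le hx) hx)
    exact absurd (hp.trans h9) (hlt x₀ h6 h7 x₀ le_rfl).not_ge
  have key : ∀ x₀ : ℝ, 1 < x₀ → 2 < ∫ s, x₀ / (x₀ + s) ∂U → (IsPolyGen ω f ↔ ∀ ε : ℝ, 0 < ε →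
      ¬IntegrableOn (fun x => Real.log (ω (ε * kap (fun y => (∫ s, y / (y + s) ∂U)⁻¹) x₀ x)) /
        (x ^ 2 * kap (fun y => (∫ s, y / (y + s) ∂U)⁻¹) x₀ x)) (Ioi x₀)) := fun x₀ h6 h7 => by
    have h8 : 0 < x₀ := one_pos.trans h6
    rw [hω.regular_iff h1 h3 hinj h8 h6 fun _ => hlt x₀ h6 h7, or_iff_right hp.not_ge]
    refine forall₂_congr fun ε _ => not_congr (integrableOn_congr_fun (fun x hx => ?_)
      measurableSet_Ioi)
    have e : kap (rho (thorin U)) x₀ x = kap (fun y => (∫ s, y / (y + s) ∂U)⁻¹) x₀ x := by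
      rw [kap, kap]
      congr 1
      refine intervalIntegral.integral_congr fun y hy => ?_
      rw [uIcc_of_le (le_of_lt hx)] at hy
      simp only [h2 y (h8.trans_le hy.1)]
    simp only [e]
  refine ⟨fun hg x₀ h6 h7 => (key x₀ h6 h7).1 hg, fun H => ?_⟩
  obtain ⟨x₀, h6, h7⟩ := ((eventually_gt_atTop 1).and (h3.eventually (gt_mem_nhds hp))).exists
  have h8 : 0 < x₀ := one_pos.trans h6
  have h9 : 2 < ∫ s, x₀ / (x₀ + s) ∂U := by
    have h : GH U := ⟨by simpa [ae_iff, Iic] using hU, hU0, hint⟩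
    rw [h2 x₀ h8, one_div] at h7
    exact (inv_lt_inv₀ (h.A_pos h8) two_pos).1 h7
  exact (key x₀ h6 h9).2 (H x₀ h6 h9)

end Pool.Agent.P.MP_0134b7_an
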