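import Pool.Agent.P.MP_0134b7_an.RNice

/-!
The Laplace transform of convolution powers, Parseval formula, uniqueness.
-/

open Set Filter Topology MeasureTheory Complex
open scoped Real

namespace Pool.Agent.P.MP_0134b7_an

section Aux

open scoped FourierTransform ContDiff

private theorem conv_int {f g : ℝ → ℂ} (hf : IntegrableOn f (Ioi 0)) (hg : IntegrableOn g (Ioi 0)) :
    IntegrableOn (conv f g) (Ioi 0) ∧
      ∫ t in Ioi 0, conv f g t = (∫ t in Ioi 0, f t) * ∫ t in Ioi 0, g t := by
  have h1 := integrable_posConvolution (μ := volume) (ν := volume) hg hf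
    (ContinuousLinearMap.mul ℝ ℂ)
  have h2 := integral_posConvolution (μ := volume) (ν := volume) hg hf
    (ContinuousLinearMap.mul ℝ ℂ)
  have e : conv f g = fun x => ∫ t in (0 : ℝ)..x, ContinuousLinearMap.mul ℝ ℂ (g t) (f (x - t)) := by
    funext x
    simp only [conv, ContinuousLinearMap.mul_apply', mul_comm]
  rw [posConvolution, integrable_indicator_iff measurableSet_Ioi] at h1
  rw [e]
  exact ⟨h1, by rw [h2, ContinuousLinearMap.mul_apply', mul_comm]⟩

private theorem int_exp {f : ℝ → ℂ} (hf : IntegrableOn f (Ioi 0)) {z : ℂ} (hz : 0 ≤ z.re) :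
    IntegrableOn (fun t : ℝ => f t * exp (-(z * t))) (Ioi 0) := by
  refine Integrable.mul_bdd (c := 1) hf (by fun_prop : Continuous fun t : ℝ =>
    exp (-(z * t))).aestronglyMeasurable ?_
  filter_upwards [ae_restrict_mem measurableSet_Ioi] with t ht
  rw [norm_exp, Real.exp_le_one_iff]
  have : 0 ≤ z.re * t := mul_nonneg hz (le_of_lt ht)
  simpa using this

private theorem lap_conv {f g : ℝ → ℂ} (hf : IntegrableOn f (Ioi 0)) (hg : IntegrableOn g (Ioi 0))
    {z : ℂ} (hz : 0 ≤ z.re) : lap (conv f g) z = lap f z * lap g z := by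
  rw [lap, lap, lap, ← (conv_int (int_exp hf hz) (int_exp hg hz)).2]
  refine integral_congr_ae (.of_forall fun t => ?_)
  simp only [conv]
  rw [← intervalIntegral.integral_mul_const]
  refine intervalIntegral.integral_congr fun s _ => ?_
  have e : exp (-(z * t)) = exp (-(z * ((t - s : ℝ) : ℂ))) * exp (-(z * s)) := by
    rw [← exp_add]
    congr 1
    push_cast
    ring
  simp only [e]
  ring

private theorem flip1 {f g : ℝ → ℂ} (hf : Integrable f) (hg : Integrable g) :
    ∫ ξ, 𝓕 f ξ * g ξ = ∫ x, f x * 𝓕 g x := by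
  simpa using! VectorFourier.integral_bilin_fourierIntegral_eq_flip (ContinuousLinearMap.mul ℂ ℂ)
    (L := innerₗ ℝ) Real.continuous_fourierChar continuous_inner hf hg

private theorem flip2 {f g : ℝ → ℂ} (hf : Integrable f) (hg : Integrable g) :
    ∫ ξ, 𝓕⁻ f ξ * g ξ = ∫ x, f x * 𝓕⁻ g x := by
  rw [Real.fourierInv_eq_fourier_comp_neg g, ← flip1 hf hg.comp_neg, ← integral_neg_eq_self]
  simp only [Real.fourierInv_eq_fourier_neg, neg_neg]

private theorem ae_inv {G : ℝ → ℂ} (hG : Integrable G) (hF : Integrable (𝓕 G)) :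
    G =ᵐ[volume] 𝓕⁻ (𝓕 G) := by
  have hc : Continuous (𝓕⁻ (𝓕 G)) := by
    rw [Real.fourierInv_eq_fourier_comp_neg]
    exact VectorFourier.fourierIntegral_continuous Real.continuous_fourierChar
      (L := innerₗ ℝ) continuous_inner hF.comp_neg
  refine ae_eq_of_integral_contDiff_smul_eq hG.locallyIntegrable hc.locallyIntegrable
    fun g hg hs => ?_
  have h1 : HasCompactSupport (Complex.ofRealCLM ∘ g) := hs.comp_left rfl
  have h2 : ContDiff ℝ ∞ (Complex.ofRealCLM ∘ g) := by fun_prop
  let ψ := h1.toSchwartzMap h2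
  have h3 : ∀ x, ψ x = g x := fun x => rfl
  have h4 : Integrable (𝓕⁻ (ψ : ℝ → ℂ)) := by
    rw [← SchwartzMap.fourierInv_coe]
    exact (𝓕⁻ ψ).integrable
  have h5 : 𝓕 (𝓕⁻ (ψ : ℝ → ℂ)) = ψ := by
    refine ψ.continuous.fourier_fourierInv_eq ψ.integrable ?_
    rw [← SchwartzMap.fourier_coe]
    exact (𝓕 ψ).integrable
  have h6 := flip1 h4 hG
  have h7 := flip2 ψ.integrable hF
  rw [h5] at h6
  simp only [h3] at h6 h7
  simp only [Complex.real_smul]
  rw [h6, ← h7]

private theorem four_ind (F : ℝ → ℂ) (w : ℝ) :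
    𝓕 (indicator (Ioi 0) F) w = ∫ t in Ioi (0 : ℝ), F t * exp (((-2 * π * w : ℝ) : ℂ) * I * t) := by
  rw [Real.fourier_real_eq_integral_exp_smul, ← integral_indicator measurableSet_Ioi]
  refine integral_congr_ae (.of_forall fun t => ?_)
  by_cases ht : t ∈ Ioi (0 : ℝ)
  · simp only [indicator_of_mem ht, smul_eq_mul]
    rw [mul_comm]
    congr 2
    push_cast
    ring
  · simp only [indicator_of_notMem ht, smul_zero]

end Aux

theorem convPow_lap {f : ℝ → ℂ} (hf : IntegrableOn f (Ioi 0)) (k : ℕ) :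
    IntegrableOn (convPow f k) (Ioi 0) ∧
      ∀ z : ℂ, 0 ≤ z.re → lap (convPow f k) z = lap f z ^ (k + 1) := by
  induction k with
  | zero => exact ⟨hf, fun z _ => by simp [convPow]⟩
  | succ k ih =>
    refine ⟨(conv_int hf ih.1).1, fun z hz => ?_⟩
    rw [convPow, lap_conv hf ih.1 hz, ih.2 z hz, pow_succ' _ (k + 1)]

open scoped FourierTransform in
/-- Uniqueness for the Fourier transform of an integrable function on the half line. -/
theorem dlap_uniq {φ : ℝ → ℂ} (hφ : IntegrableOn φ (Ioi 0))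
    (h0 : ∀ y : ℝ, dlap φ (y * I) = 0) : φ =ᵐ[volume.restrict (Ioi 0)] 0 := by
  have h1 := (integrable_indicator_iff measurableSet_Ioi).2 hφ
  have h2 : 𝓕 (indicator (Ioi 0) φ) = 0 := by
    funext w
    rw [four_ind]
    exact h0 _
  have h3 := ae_inv h1 (h2 ▸ integrable_zero _ _ _)
  rw [h2] at h3
  filter_upwards [ae_restrict_of_ae h3, ae_restrict_mem measurableSet_Ioi] with t ht ht'
  rw [indicator_of_mem ht', Real.fourierInv_eq] at ht
  simpa using ht

open scoped FourierTransform in
/-- Parseval formula on a vertical line. -/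
theorem parseval {φ g : ℝ → ℂ} {x : ℝ} (hx : 0 ≤ x)
    (hφ : IntegrableOn (fun t : ℝ => φ t * exp (x * t)) (Ioi 0)) (hg : IntegrableOn g (Ioi 0))
    (hi : Integrable fun y : ℝ => lap g (x + y * I)) :
    ∫ y : ℝ, dlap φ (x + y * I) * lap g (x + y * I) = 2 * π * ∫ t in Ioi 0, φ t * g t := by
  have hπ : (2 * π : ℝ) ≠ 0 := by positivity
  have hP := (integrable_indicator_iff measurableSet_Ioi).2 hφ
  have hG := (integrable_indicator_iff measurableSet_Ioi).2
    (int_exp hg (z := x) (by simpa using hx))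
  have e1 : ∀ w : ℝ, 𝓕 (indicator (Ioi 0) fun t : ℝ => g t * exp (-(x * t))) w =
      lap g (x + (2 * π * w : ℝ) * I) := fun w => by
    rw [four_ind, lap]
    refine integral_congr_ae (.of_forall fun t => ?_)
    simp only [mul_assoc, ← exp_add]
    congr 2
    push_cast
    ring
  have e2 : ∀ w : ℝ, 𝓕⁻ (indicator (Ioi 0) fun t : ℝ => φ t * exp (x * t)) w =
      dlap φ (x + (2 * π * w : ℝ) * I) := fun w => by
    rw [Real.fourierInv_eq_fourier_neg, four_ind, dlap]
    refine integral_congr_ae (.of_forall fun t => ?_)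
    simp only [mul_assoc, ← exp_add]
    congr 2
    push_cast
    ring
  have hF : Integrable (𝓕 (indicator (Ioi 0) fun t : ℝ => g t * exp (-(x * t)))) := by
    rw [funext e1]
    exact hi.comp_mul_left' hπ
  have h1 := flip2 hP hF
  simp only [e1, e2] at h1
  have h2 := Measure.integral_comp_mul_left
    (fun y : ℝ => dlap φ (x + y * I) * lap g (x + y * I)) (2 * π)
  have h3 : ∫ t, (indicator (Ioi 0) fun t : ℝ => φ t * exp (x * t)) t *
      𝓕⁻ (𝓕 (indicator (Ioi 0) fun t : ℝ => g t * exp (-(x * t)))) t =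
        ∫ t in Ioi 0, φ t * g t := by
    rw [← integral_indicator measurableSet_Ioi]
    refine integral_congr_ae ((ae_inv hG hF).mono fun t ht => ?_)
    simp only [← ht]
    by_cases h : t ∈ Ioi (0 : ℝ)
    · simp only [indicator_of_mem h]
      rw [mul_mul_mul_comm, ← exp_add, add_neg_cancel, exp_zero, mul_one]
    · simp only [indicator_of_notMem h, mul_zero]
  rw [← h3, ← h1, h2, abs_of_pos (by positivity), Complex.real_smul, ← mul_assoc]
  have hπ' : (2 * π : ℂ) ≠ 0 := by exact_mod_cast hπ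
  push_cast
  rw [mul_inv_cancel₀ hπ', one_mul]

end Pool.Agent.P.MP_0134b7_an
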