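import Pool.Agent.P.MP_0134b7_an.RE
import Pool.Agent.P.MP_0134b7_an.RFin
import Pool.Agent.P.MP_0134b7_an.RBound
import Pool.Agent.P.MP_0134b7_an.RDual
import Pool.Agent.P.MP_0134b7_an.RLap

/-!
Sufficient conditions for a generator.
-/

open Set Filter Topology MeasureTheory Complex
open scoped Real

namespace Pool.Agent.P.MP_0134b7_an

variable {ω : ℝ → ℝ} {L : ℂ → ℂ} {r δ K CF : ℝ} {β : ℕ → ℝ}

theorem Nice.gen (h : Nice L r δ K CF β) (hω : RadicalWeight ω) {K₀ : ℝ} (hK : Bd ω K₀)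
    {f : ℝ → ℂ} (hf : IntegrableOn f (Ioi 0)) (hL : ∀ z ∈ dom r, lap f z = exp (-L z))
    {p : ℝ} (hp : Tendsto (rho L) atTop (𝓝 p))
    (hc : 1 / 2 < p ∨ InjOn (lap f) (dom r) ∨ (p < 1 / 2 ∧ ∃ J : ℕ,
      ∀ j₀, J ≤ j₀ → ∀ ε, 0 < ε → ¬Cq ω K₀ (kq (rq L j₀)) ε)) : IsPolyGen ω f := by
  by_contra hn
  have hr := h.one_le
  have hmem : ∀ k, MemL1 ω (convPow f k) := fun k => hω.memL1_of_int (convPow_lap hf k).1
  obtain ⟨φ, hφm, hφb, hφ0, hφa⟩ := hω.exists_dual hmem hn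
  have hΦd := hω.dlap_diff hφm hφb
  have hΦb : ∀ s, ‖dlap φ s‖ ≤ Real.exp (gw ω s.re) := hω.dlap_le hφb
  obtain ⟨m, hm⟩ : ∃ m : ℕ, 5 ≤ m * δ := by
    obtain ⟨m, hm⟩ := exists_nat_ge (5 / δ)
    exact ⟨m, (div_le_iff₀ h.δ_pos).1 hm⟩
  have h0 : ∀ k : ℕ, m ≤ k → ∀ x : ℝ, 3 * r ≤ x →
      ∫ y : ℝ, dlap φ (x + y * I) * exp (-(k * L (x + y * I))) = 0 := by
    intro k hk x hx
    have hk5 : 5 ≤ k * δ :=
      hm.trans (mul_le_mul_of_nonneg_right (Nat.cast_le.2 hk) h.δ_pos.le)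
    obtain ⟨j, rfl⟩ : ∃ j, k = j + 1 := by
      refine Nat.exists_eq_succ_of_ne_zero ?_
      rintro rfl
      norm_num at hk5
    have hre : ∀ y : ℝ, 3 * r ≤ ((x : ℂ) + y * I).re := fun y => by rwa [PT.line_re]
    have e : ∀ y : ℝ, lap (convPow f j) (x + y * I) =
        exp (-(((j + 1 : ℕ) : ℂ) * L (x + y * I))) := by
      intro y
      rw [(convPow_lap hf j).2 _ (by linarith [hre y]), hL _ (PT.mem h (hre y)),
        ← Complex.exp_nat_mul, mul_neg]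
    have hi : Integrable fun y : ℝ => lap (convPow f j) (x + y * I) := by
      simp only [e]
      refine (line_int (q := fun s => exp (-(((j + 1 : ℕ) : ℂ) * L s)))
        (C := Real.exp ((j + 1 : ℕ) * CF) * (2 * r) ^ 5) (fun y => ?_) fun y => ?_).1
      · exact (((PT.diffL h (hre y)).const_mul _).neg).cexp
      · refine (PT.pow_le h hk5 (hre y)).trans ?_
        have h1 := PT.sq_ge h (hre y)
        have h2 := PT.three_le h (hre y)
        rw [PT.line_im] at h1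
        refine div_le_div_of_nonneg_left (by positivity) (by positivity) (h1.trans ?_)
        exact pow_le_pow_right₀ (by linarith) (by norm_num)
    have hφx : IntegrableOn (fun t : ℝ => φ t * exp (x * t)) (Ioi 0) := hω.dual_int hφm hφb x
    have := parseval (by linarith) hφx (convPow_lap hf j).1 hi
    rw [hφa j, mul_zero] at this
    simpa only [e] using this
  obtain ⟨E, C, hC, hEd, hp', hm', hz⟩ := h.partial_trace hm hΦd hω.gw_mono hΦb h0
  obtain ⟨C', x₁, hE⟩ : ∃ C' x₁ : ℝ, ∀ z : ℂ, x₁ < z.re → ‖E (L z)‖ ≤ C' * (1 + ‖z‖) ^ 2 := by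
    rcases hc with hc | hc | ⟨hc, J, hJ⟩
    · exact h.bound_empty hC hp' (Or.inl ⟨p, hc, hp⟩)
    · refine h.bound_empty hC hp' (Or.inr fun z hz w hw e => hc hz hw ?_)
      rw [hL z hz, hL w hw]
      exact e
    · exact h.bound_div hω hK hC hEd hp' hm' hp hc hJ
  have hfin := h.final hC hΦd hω.gw_mono hΦb (hω.dlap_tendsto hφm hφb) hm' hz hE
  refine hφ0 (dlap_uniq ?_ fun y => hfin _)
  simpa using hω.dual_int hφm hφb 0

end Pool.Agent.P.MP_0134b7_an
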