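import Pool.Agent.P.MP_0134b7_an.RNice

/-!
Univalence of the exponent, its inverse and growth estimates.
-/

open Set Filter Topology MeasureTheory Complex
open scoped Real

namespace Pool.Agent.P.MP_0134b7_an

variable {L : ℂ → ℂ} {r δ K CF : ℝ} {β : ℕ → ℝ}

/-- The half strip corresponding to `dom r` in logarithmic coordinates. -/
def sig (r : ℝ) : Set ℂ := {l | Real.log r < l.re ∧ |l.im| < π / 2}

theorem exp_mem_dom (hr : 0 < r) {l : ℂ} (hl : l ∈ sig r) : exp l ∈ dom r := by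
  refine ⟨?_, ?_⟩
  · rw [exp_re]
    exact mul_pos (Real.exp_pos _) (Real.cos_pos_of_mem_Ioo (abs_lt.1 hl.2))
  · rw [norm_exp]
    exact (Real.log_lt_iff_lt_exp hr).1 hl.1

theorem ne_zero_of_mem_dom {z : ℂ} (hz : z ∈ dom r) : z ≠ 0 := by
  rintro rfl
  exact lt_irrefl _ hz.1

theorem log_mem_sig (hr : 0 < r) {z : ℂ} (hz : z ∈ dom r) : log z ∈ sig r := by
  refine ⟨?_, ?_⟩
  · rw [log_re]; exact Real.log_lt_log hr hz.2
  · rw [log_im]; exact abs_arg_lt_pi_div_two_iff.2 (Or.inl hz.1)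

theorem log_exp_sig {l : ℂ} (hl : l ∈ sig r) : log (exp l) = l := by
  have h := abs_lt.1 hl.2
  exact log_exp (by linarith [Real.pi_pos]) (by linarith [Real.pi_pos])

theorem seg_mem_sig {l₁ l₂ : ℂ} (h₁ : l₁ ∈ sig r) (h₂ : l₂ ∈ sig r) {t : ℝ} (h0 : 0 ≤ t)
    (h1 : t ≤ 1) : l₁ + t * (l₂ - l₁) ∈ sig r := by
  have a1 := abs_lt.1 h₁.2
  have a2 := abs_lt.1 h₂.2
  have b1 := h₁.1
  have b2 := h₂.1
  refine ⟨?_, abs_lt.2 ⟨?_, ?_⟩⟩ <;>
    simp only [add_re, add_im, mul_re, mul_im, ofReal_re, ofReal_im, sub_re, sub_im, zero_mul,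
      sub_zero, add_zero]
  · rcases le_total l₁.re l₂.re with h | h <;> nlinarith
  · rcases le_total l₁.im l₂.im with h | h <;> nlinarith
  · rcases le_total l₁.im l₂.im with h | h <;> nlinarith

theorem norm_exp_seg_le (l₁ l₂ : ℂ) {t : ℝ} (h0 : 0 ≤ t) (h1 : t ≤ 1) :
    ‖exp (l₁ + t * (l₂ - l₁))‖ ≤ max ‖exp l₁‖ ‖exp l₂‖ := by
  simp only [norm_exp, add_re, mul_re, ofReal_re, ofReal_im, sub_re, zero_mul, sub_zero]
  rcases le_total l₁.re l₂.re with h | h
  · exact le_max_of_le_right (Real.exp_le_exp.2 (by nlinarith))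
  · exact le_max_of_le_left (Real.exp_le_exp.2 (by nlinarith))

theorem hasDerivAt_seg (l₁ d : ℂ) (t : ℝ) :
    HasDerivAt (fun t : ℝ => l₁ + (t : ℂ) * d) d t := by
  simpa using ((hasDerivAt_id t).ofReal_comp.mul_const d).const_add l₁

theorem norm_exp_sub_le (l₁ l₂ : ℂ) :
    ‖exp l₂ - exp l₁‖ ≤ max ‖exp l₁‖ ‖exp l₂‖ * ‖l₂ - l₁‖ := by
  have h := norm_image_sub_le_of_norm_deriv_le_segment_01'
    (f := fun t : ℝ => exp (l₁ + t * (l₂ - l₁)))
    (f' := fun t : ℝ => exp (l₁ + t * (l₂ - l₁)) * (l₂ - l₁))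
    (C := max ‖exp l₁‖ ‖exp l₂‖ * ‖l₂ - l₁‖)
    (fun t _ => (hasDerivAt_seg l₁ (l₂ - l₁) t).cexp.hasDerivWithinAt)
    (fun t ht => by
      rw [norm_mul]
      exact mul_le_mul_of_nonneg_right (norm_exp_seg_le l₁ l₂ ht.1 ht.2.le) (norm_nonneg _))
  simpa using h

theorem Nice.r_pos (h : Nice L r δ K CF β) : 0 < r := one_pos.trans_le h.one_le

theorem Nice.hasDerivAt (h : Nice L r δ K CF β) {z : ℂ} (hz : z ∈ dom r) :
    HasDerivAt L (deriv L z) z :=
  (h.diff.differentiableAt ((isOpen_dom r).mem_nhds hz)).hasDerivAt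

theorem Nice.hasDerivAt_comp_exp (h : Nice L r δ K CF β) {l : ℂ} (hl : l ∈ sig r) :
    HasDerivAt (fun l => L (exp l)) (idx L (exp l)) l := by
  have := (h.hasDerivAt (exp_mem_dom h.r_pos hl)).comp l (hasDerivAt_exp l)
  rw [idx, mul_comm]
  exact this

theorem Nice.norm_idx_le (h : Nice L r δ K CF β) {z : ℂ} (hz : z ∈ dom r) :
    ‖idx L z‖ ≤ ‖z‖ := by
  rw [idx, norm_mul]
  exact mul_le_of_le_one_right (norm_nonneg _) (h.d_le z hz)

theorem Nice.deriv_ne_zero (h : Nice L r δ K CF β) {z : ℂ} (hz : z ∈ dom r) :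
    deriv L z ≠ 0 := by
  intro h0
  have := h.re_ge z hz
  rw [idx, h0, mul_zero, zero_re] at this
  exact absurd h.δ_pos (not_lt.2 this)

theorem Nice.mean_sig (h : Nice L r δ K CF β) {l₁ l₂ : ℂ} (h₁ : l₁ ∈ sig r) (h₂ : l₂ ∈ sig r) :
    ∃ m : ℂ, δ ≤ m.re ∧ ‖m‖ ≤ max ‖exp l₁‖ ‖exp l₂‖ ∧
      L (exp l₂) - L (exp l₁) = (l₂ - l₁) * m := by
  rcases eq_or_ne l₂ l₁ with rfl | hne
  · exact ⟨idx L (exp l₂), h.re_ge _ (exp_mem_dom h.r_pos h₂),
      le_max_of_le_left (h.norm_idx_le (exp_mem_dom h.r_pos h₂)), by simp⟩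
  have hd : l₂ - l₁ ≠ 0 := sub_ne_zero.2 hne
  have hder : ∀ t ∈ Icc (0 : ℝ) 1,
      HasDerivAt (fun t : ℝ => L (exp (l₁ + t * (l₂ - l₁))) / (l₂ - l₁))
        (idx L (exp (l₁ + t * (l₂ - l₁)))) t := by
    intro t ht
    have h1 := (h.hasDerivAt_comp_exp (seg_mem_sig h₁ h₂ ht.1 ht.2)).scomp t
      (hasDerivAt_seg l₁ (l₂ - l₁) t)
    have h2 := h1.div_const (l₂ - l₁)
    rw [smul_eq_mul, mul_div_cancel_left₀ _ hd] at h2
    exact h2
  have e1 : l₁ + ((1 : ℝ) : ℂ) * (l₂ - l₁) = l₂ := by simp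
  have e0 : l₁ + ((0 : ℝ) : ℂ) * (l₂ - l₁) = l₁ := by simp
  refine ⟨L (exp l₂) / (l₂ - l₁) - L (exp l₁) / (l₂ - l₁), ?_, ?_, by field_simp⟩
  · have hre : ∀ t ∈ Icc (0 : ℝ) 1,
        HasDerivAt (fun t : ℝ => (L (exp (l₁ + t * (l₂ - l₁))) / (l₂ - l₁)).re)
          (idx L (exp (l₁ + t * (l₂ - l₁)))).re t := fun t ht =>
      (reCLM.hasFDerivAt.comp_hasDerivAt t (hder t ht))
    obtain ⟨c, hc, hce⟩ := exists_hasDerivAt_eq_slope _ _ zero_lt_one
      (fun t ht => (hre t ht).continuousAt.continuousWithinAt)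
      (fun t ht => hre t (Ioo_subset_Icc_self ht))
    rw [e1, e0, sub_zero, div_one] at hce
    rw [sub_re, ← hce]
    exact h.re_ge _ (exp_mem_dom h.r_pos (seg_mem_sig h₁ h₂ hc.1.le hc.2.le))
  · have := norm_image_sub_le_of_norm_deriv_le_segment_01'
      (C := max ‖exp l₁‖ ‖exp l₂‖) (fun t ht => (hder t ht).hasDerivWithinAt)
      (fun t ht => (h.norm_idx_le (exp_mem_dom h.r_pos
        (seg_mem_sig h₁ h₂ ht.1 ht.2.le))).trans (norm_exp_seg_le l₁ l₂ ht.1 ht.2.le))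
    rwa [e1, e0] at this

/-- The mean value formula in logarithmic coordinates. -/
theorem Nice.mean (h : Nice L r δ K CF β) {z w : ℂ} (hz : z ∈ dom r) (hw : w ∈ dom r) :
    ∃ m : ℂ, δ ≤ m.re ∧ ‖m‖ ≤ max ‖z‖ ‖w‖ ∧ L w - L z = (log w - log z) * m := by
  have := h.mean_sig (log_mem_sig h.r_pos hz) (log_mem_sig h.r_pos hw)
  rwa [exp_log (ne_zero_of_mem_dom hz), exp_log (ne_zero_of_mem_dom hw)] at this

theorem Nice.log_le (h : Nice L r δ K CF β) {z w : ℂ} (hz : z ∈ dom r) (hw : w ∈ dom r) :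
    δ * ‖log w - log z‖ ≤ ‖L w - L z‖ := by
  obtain ⟨m, h1, -, h3⟩ := h.mean hz hw
  rw [h3, norm_mul, mul_comm]
  exact mul_le_mul_of_nonneg_left (h1.trans (re_le_norm m)) (norm_nonneg _)

theorem Nice.injOn (h : Nice L r δ K CF β) : InjOn L (dom r) := by
  intro z hz w hw e
  have h1 := h.log_le hz hw
  rw [e, sub_self, norm_zero] at h1
  have h2 : ‖log w - log z‖ ≤ 0 := by
    by_contra hc
    exact absurd (mul_pos h.δ_pos (not_le.1 hc)) (not_lt.2 h1)
  have h3 : log w = log z := sub_eq_zero.1 (norm_le_zero_iff.1 h2)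
  rw [← exp_log (ne_zero_of_mem_dom hz), ← h3, exp_log (ne_zero_of_mem_dom hw)]

theorem norm_le_of_log {z w : ℂ} (hz : z ≠ 0) (hw : w ≠ 0) :
    ‖w‖ ≤ ‖z‖ * Real.exp ‖log w - log z‖ := by
  have h1 := re_le_norm (log w - log z)
  rw [sub_re, log_re, log_re] at h1
  calc ‖w‖ = Real.exp (Real.log ‖w‖) := (Real.exp_log (norm_pos_iff.2 hw)).symm
    _ ≤ Real.exp (Real.log ‖z‖ + ‖log w - log z‖) := Real.exp_le_exp.2 (by linarith)
    _ = _ := by rw [Real.exp_add, Real.exp_log (norm_pos_iff.2 hz)]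

theorem Nice.norm_le (h : Nice L r δ K CF β) {z w : ℂ} (hz : z ∈ dom r) (hw : w ∈ dom r) :
    ‖w‖ ≤ ‖z‖ * Real.exp (‖L w - L z‖ / δ) := by
  refine (norm_le_of_log (ne_zero_of_mem_dom hz) (ne_zero_of_mem_dom hw)).trans ?_
  refine mul_le_mul_of_nonneg_left (Real.exp_le_exp.2 ?_) (norm_nonneg _)
  rw [le_div_iff₀ h.δ_pos, mul_comm]
  exact h.log_le hz hw

theorem norm_sub_le_of_log {z w : ℂ} (hz : z ≠ 0) (hw : w ≠ 0) :
    ‖w - z‖ ≤ max ‖z‖ ‖w‖ * ‖log w - log z‖ := by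
  have := norm_exp_sub_le (log z) (log w)
  rwa [exp_log hz, exp_log hw] at this

theorem Nice.sub_le (h : Nice L r δ K CF β) {z w : ℂ} (hz : z ∈ dom r) (hw : w ∈ dom r) :
    δ * ‖w - z‖ ≤ max ‖z‖ ‖w‖ * ‖L w - L z‖ := by
  have h1 := norm_sub_le_of_log (ne_zero_of_mem_dom hz) (ne_zero_of_mem_dom hw)
  have h2 := h.log_le hz hw
  have h3 : 0 ≤ max ‖z‖ ‖w‖ := le_max_of_le_left (norm_nonneg _)
  calc δ * ‖w - z‖ ≤ δ * (max ‖z‖ ‖w‖ * ‖log w - log z‖) :=
        mul_le_mul_of_nonneg_left h1 h.δ_pos.le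
    _ = max ‖z‖ ‖w‖ * (δ * ‖log w - log z‖) := by ring
    _ ≤ _ := mul_le_mul_of_nonneg_left h2 h3

theorem Nice.arg_le (h : Nice L r δ K CF β) {z w : ℂ} (hz : z ∈ dom r) (hw : w ∈ dom r) {σ : ℝ}
    (hσ : 0 ≤ σ) (e : L w = L z + σ * I) : arg z ≤ arg w := by
  obtain ⟨m, h1, -, h3⟩ := h.mean hz hw
  rw [e, add_sub_cancel_left] at h3
  have hre := congrArg re h3
  have him := congrArg im h3
  simp only [mul_re, mul_im, ofReal_re, ofReal_im, I_re, I_im, mul_zero, mul_one, sub_self,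
    add_zero] at hre him
  have hm : 0 < m.re := h.δ_pos.trans_le h1
  have key : (log w - log z).im * (m.re ^ 2 + m.im ^ 2) = σ * m.re := by
    linear_combination (-m.re) * him + m.im * hre
  have h5 : 0 ≤ (log w - log z).im := by
    by_contra hc
    have h6 : (log w - log z).im * (m.re ^ 2 + m.im ^ 2) < 0 :=
      mul_neg_of_neg_of_pos (not_le.1 hc) (by positivity)
    nlinarith [mul_nonneg hσ hm.le]
  rw [sub_im, log_im, log_im] at h5
  linarith

theorem Nice.growth (h : Nice L r δ K CF β) {z : ℂ} (hz : z ∈ dom r) (h2 : 2 * r ≤ ‖z‖) :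
    δ * Real.log (‖z‖ / (2 * r)) - CF ≤ (L z).re := by
  have hr := h.r_pos
  have hz0 := ne_zero_of_mem_dom hz
  have ht : 0 ≤ Real.log (‖z‖ / (2 * r)) :=
    Real.log_nonneg ((one_le_div (by positivity)).2 h2)
  have hl := log_mem_sig hr hz
  have hl0 : log z - (Real.log (‖z‖ / (2 * r)) : ℝ) ∈ sig r := by
    refine ⟨?_, ?_⟩
    · rw [sub_re, ofReal_re, log_re, Real.log_div (norm_ne_zero_iff.2 hz0) (by positivity),
        sub_sub_cancel]
      exact Real.log_lt_log hr (by linarith)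
    · rw [sub_im, ofReal_im, sub_zero]; exact hl.2
  obtain ⟨m, h1, -, h3⟩ := h.mean_sig hl0 hl
  rw [exp_log hz0, sub_sub_cancel] at h3
  have h4 := congrArg re h3
  rw [sub_re, re_ofReal_mul] at h4
  have h5 := h.low _ (exp_mem_dom hr hl0)
  nlinarith [mul_le_mul_of_nonneg_left h1 ht]

theorem Nice.lip (h : Nice L r δ K CF β) {z w : ℂ} (hz : r < z.re) (hw : r < w.re) :
    ‖L w - L z‖ ≤ ‖w - z‖ := by
  have := (convex_halfSpace_re_gt r).norm_image_sub_le_of_norm_deriv_le (f := L) (C := 1)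
    (fun x hx => (h.hasDerivAt (mem_dom_of_re h.r_pos.le hx)).differentiableAt)
    (fun x hx => h.d_le x (mem_dom_of_re h.r_pos.le hx)) hz hw
  rwa [one_mul] at this

theorem Nice.little (h : Nice L r δ K CF β) {ε : ℝ} (hε : 0 < ε) :
    ∀ᶠ x : ℝ in atTop, ‖L x‖ ≤ ε * x := by
  obtain ⟨R, hR⟩ := h.small (ε / 2) (by positivity)
  obtain ⟨x₀, h1, h2⟩ : ∃ x₀ : ℝ, R ≤ x₀ ∧ r < x₀ :=
    ⟨max R (r + 1), le_max_left _ _, lt_of_lt_of_le (by linarith) (le_max_right _ _)⟩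
  have hx₀ : 0 < x₀ := h.r_pos.trans h2
  filter_upwards [eventually_ge_atTop x₀, eventually_ge_atTop (‖L x₀‖ / (ε / 2))] with x hx hx'
  have hm : ∀ s : ℂ, x₀ ≤ s.re → s ∈ dom r := fun s hs =>
    mem_dom_of_re h.r_pos.le (h2.trans_le hs)
  have h3 := (convex_halfSpace_re_ge x₀).norm_image_sub_le_of_norm_deriv_le (f := L) (C := ε / 2)
    (fun s hs => (h.hasDerivAt (hm s hs)).differentiableAt)
    (fun s hs => hR s (hm s hs) (h1.trans (le_trans hs (re_le_norm s))))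
    (x := (x₀ : ℂ)) (y := (x : ℂ)) (show x₀ ≤ x₀ from le_rfl) (show x₀ ≤ x from hx)
  rw [← ofReal_sub, norm_real, Real.norm_eq_abs, abs_of_nonneg (sub_nonneg.2 hx)] at h3
  rw [div_le_iff₀ (by positivity)] at hx'
  have h4 := norm_le_norm_add_norm_sub' (L x) (L x₀)
  nlinarith

theorem Nice.upper (h : Nice L r δ K CF β) :
    ∃ U : ℝ, ∀ z ∈ dom r, U < (L z).re → 3 * r ≤ ‖z‖ := by
  have hr := h.r_pos
  have hr1 := h.one_le
  have hz₁ : ((2 * r : ℝ) : ℂ) ∈ dom r := mem_dom_of_re hr.le (by rw [ofReal_re]; linarith)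
  have hn₁ : ‖((2 * r : ℝ) : ℂ)‖ = 2 * r := by
    rw [norm_real, Real.norm_eq_abs, abs_of_pos (by positivity)]
  refine ⟨(L (2 * r : ℝ)).re + (3 * r + π) * (3 * r), fun z hz hU => ?_⟩
  by_contra hc
  rw [not_le] at hc
  obtain ⟨m, -, h2, h3⟩ := h.mean hz₁ hz
  have hm : ‖m‖ ≤ 3 * r := h2.trans (max_le (by rw [hn₁]; linarith) hc.le)
  have hlog : ∀ s : ℂ, s ∈ dom r → ‖s‖ ≤ 3 * r → 0 ≤ (log s).re ∧ (log s).re ≤ 3 * r := by
    intro s hs hs3
    rw [log_re]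
    refine ⟨Real.log_nonneg (hr1.trans hs.2.le), ?_⟩
    linarith [Real.log_le_sub_one_of_pos (hr.trans hs.2)]
  have a1 := hlog z hz hc.le
  have a2 := hlog _ hz₁ (by rw [hn₁]; linarith)
  have b1 := abs_lt.1 (log_mem_sig hr hz).2
  have b2 := abs_lt.1 (log_mem_sig hr hz₁).2
  have hd : ‖log z - log ((2 * r : ℝ) : ℂ)‖ ≤ 3 * r + π := by
    refine (norm_le_abs_re_add_abs_im _).trans (add_le_add ?_ ?_)
    · rw [sub_re, abs_le]; constructor <;> linarith [a1.1, a1.2, a2.1, a2.2]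
    · rw [sub_im, abs_le]; constructor <;> linarith [b1.1, b1.2, b2.1, b2.2]
  have h4 := re_le_norm (L z - L (2 * r : ℝ))
  rw [sub_re] at h4
  have h5 : ‖L z - L (2 * r : ℝ)‖ ≤ (3 * r + π) * (3 * r) := by
    rw [h3, norm_mul]
    exact mul_le_mul hd hm (norm_nonneg _) (by positivity)
  linarith

/-- The image of a disc in logarithmic coordinates contains a disc. -/
theorem Nice.disc_log (h : Nice L r δ K CF β) {z : ℂ} {R : ℝ} (hR : 0 < R)
    (h1 : Real.log r + R < Real.log ‖z‖) (h2 : |arg z| + R < π / 2) (h0 : z ≠ 0) {w : ℂ}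
    (hw : ‖w - L z‖ < δ * R / 2) : ∃ s ∈ dom r, L s = w ∧ ‖log s - log z‖ ≤ R := by
  have hsub : Metric.closedBall (log z) R ⊆ sig r := by
    intro l hl
    rw [Metric.mem_closedBall, dist_eq_norm] at hl
    have a1 := abs_le.1 ((abs_re_le_norm (l - log z)).trans hl)
    have a2 := (abs_im_le_norm (l - log z)).trans hl
    rw [sub_re, log_re] at a1
    rw [sub_im, log_im] at a2
    refine ⟨by linarith [a1.1], ?_⟩
    have a3 := abs_sub_abs_le_abs_sub l.im (arg z)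
    linarith
  have hl₀ : log z ∈ sig r := hsub (Metric.mem_closedBall_self hR.le)
  have hlow : ∀ l ∈ sig r, δ * ‖l - log z‖ ≤ ‖L (exp l) - L (exp (log z))‖ := by
    intro l hl
    have := h.log_le (exp_mem_dom h.r_pos hl₀) (exp_mem_dom h.r_pos hl)
    rwa [log_exp_sig hl, log_exp_sig hl₀] at this
  have hdiff : DifferentiableOn ℂ (fun l => L (exp l)) (sig r) := fun l hl =>
    (h.hasDerivAt_comp_exp hl).differentiableAt.differentiableWithinAt
  have key := (hdiff.diffContOnCl_ball hsub).ball_subset_image_closedBall (ε := δ * R) hR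
    (fun l hl => by
      have := hlow l (hsub (Metric.sphere_subset_closedBall hl))
      rwa [← dist_eq_norm l, Metric.mem_sphere.1 hl] at this)
    (by
      have hev : ∀ᶠ l in 𝓝[≠] (log z), L (exp l) ≠ L (exp (log z)) := by
        filter_upwards [self_mem_nhdsWithin,
          mem_nhdsWithin_of_mem_nhds (Metric.closedBall_mem_nhds (log z) hR)] with l hl hl' he
        have h3 := hlow l (hsub hl')
        rw [he, sub_self, norm_zero] at h3
        exact absurd (mul_pos h.δ_pos (norm_pos_iff.2 (sub_ne_zero.2 hl))) (not_lt.2 h3)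
      exact hev.frequently.filter_mono nhdsWithin_le_nhds)
  obtain ⟨l, hl, hle⟩ := key (a := w) (by
    rw [Metric.mem_ball, dist_eq_norm, exp_log h0]; exact hw)
  refine ⟨exp l, exp_mem_dom h.r_pos (hsub hl), hle, ?_⟩
  rw [log_exp_sig (hsub hl), ← dist_eq_norm]
  exact hl

theorem Nice.disc (h : Nice L r δ K CF β) {z : ℂ} (hz : 3 * r ≤ z.re) {w : ℂ}
    (hw : ‖w - L z‖ < δ / (8 * ‖z‖)) : ∃ s ∈ dom r, L s = w ∧ ‖s - z‖ ≤ 1 / 2 := by
  have hr := h.r_pos
  have hr1 := h.one_le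
  have hzn : 3 * r ≤ ‖z‖ := hz.trans (re_le_norm z)
  have hzp : 0 < ‖z‖ := by linarith
  have h0 : z ≠ 0 := norm_pos_iff.1 hzp
  have hR : 0 < 1 / (4 * ‖z‖) := by positivity
  have hR2 : 1 / (4 * ‖z‖) ≤ 1 / 12 := one_div_le_one_div_of_le (by norm_num) (by linarith)
  have hl2 := Real.log_two_gt_d9
  obtain ⟨s, hs, hse, hsl⟩ := h.disc_log (z := z) hR
    (by
      have h1 : Real.log (2 * r) ≤ Real.log ‖z‖ := Real.log_le_log (by positivity) (by linarith)
      rw [Real.log_mul two_ne_zero hr.ne'] at h1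
      linarith)
    (by
      have h1 : |arg z| < π / 2 := abs_arg_lt_pi_div_two_iff.2 (Or.inl (by linarith))
      have h2 := Real.sin_le (x := π / 2 - |arg z|) (by linarith)
      rw [Real.sin_pi_div_two_sub, Real.cos_abs, cos_arg h0] at h2
      have h3 : 1 / (4 * ‖z‖) < z.re / ‖z‖ := by
        rw [div_lt_div_iff₀ (by positivity) hzp]
        nlinarith
      linarith)
    h0 (w := w) (by
      refine hw.trans_le (le_of_eq ?_)
      field_simp
      ring)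
  refine ⟨s, hs, hse, ?_⟩
  have hs0 := ne_zero_of_mem_dom hs
  have h4 : ‖s‖ ≤ 2 * ‖z‖ := by
    refine (norm_le_of_log h0 hs0).trans ?_
    rw [mul_comm]
    refine mul_le_mul_of_nonneg_right ?_ hzp.le
    rw [← Real.exp_log two_pos]
    exact Real.exp_le_exp.2 (by linarith)
  refine (norm_sub_le_of_log h0 hs0).trans ?_
  calc max ‖z‖ ‖s‖ * ‖log s - log z‖ ≤ (2 * ‖z‖) * (1 / (4 * ‖z‖)) :=
        mul_le_mul (max_le (by linarith) h4) hsl (norm_nonneg _) (by positivity)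
    _ = 1 / 2 := by field_simp; ring

theorem Nice.image_mem_nhds (h : Nice L r δ K CF β) {z : ℂ} (hz : z ∈ dom r) :
    L '' dom r ∈ 𝓝 (L z) := by
  have hl := log_mem_sig h.r_pos hz
  have a1 : Real.log r < Real.log ‖z‖ := by simpa only [log_re] using hl.1
  have a2 : |arg z| < π / 2 := by simpa only [log_im] using hl.2
  obtain ⟨R, hR, b1, b2⟩ : ∃ R : ℝ, 0 < R ∧ Real.log r + R < Real.log ‖z‖ ∧
      |arg z| + R < π / 2 := by
    refine ⟨min (Real.log ‖z‖ - Real.log r) (π / 2 - |arg z|) / 2,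
      half_pos (lt_min (by linarith) (by linarith)), ?_, ?_⟩
    · linarith [min_le_left (Real.log ‖z‖ - Real.log r) (π / 2 - |arg z|)]
    · linarith [min_le_right (Real.log ‖z‖ - Real.log r) (π / 2 - |arg z|)]
  refine mem_of_superset (Metric.ball_mem_nhds (L z) (ε := δ * R / 2)
    (half_pos (mul_pos h.δ_pos hR))) fun w hw => ?_
  rw [Metric.mem_ball, dist_eq_norm] at hw
  obtain ⟨s, hs, hse, -⟩ := h.disc_log hR b1 b2 (ne_zero_of_mem_dom hz) hw
  exact ⟨s, hs, hse⟩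

/-- The analytic inverse. -/
theorem Nice.inverse (h : Nice L r δ K CF β) : ∃ v : ℂ → ℂ, IsOpen (L '' dom r) ∧
    (∀ z ∈ dom r, v (L z) = z) ∧ ∀ z ∈ dom r, HasDerivAt v (deriv L z)⁻¹ (L z) := by
  have hv : ∀ z ∈ dom r, Function.invFunOn L (dom r) (L z) = z := fun z hz =>
    h.injOn.leftInvOn_invFunOn hz
  refine ⟨Function.invFunOn L (dom r), ?_, hv, fun z hz => ?_⟩
  · rw [isOpen_iff_mem_nhds]
    rintro _ ⟨z, hz, rfl⟩
    exact h.image_mem_nhds hz
  · have hev : ∀ᶠ y in 𝓝 (L z), Function.invFunOn L (dom r) y ∈ dom r ∧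
        L (Function.invFunOn L (dom r) y) = y := by
      filter_upwards [h.image_mem_nhds hz]
      rintro _ ⟨s, hs, rfl⟩
      rw [hv s hs]
      exact ⟨hs, rfl⟩
    have hlog : Tendsto (fun y => log (Function.invFunOn L (dom r) y)) (𝓝 (L z))
        (𝓝 (log z)) := by
      rw [tendsto_iff_norm_sub_tendsto_zero]
      have h1 : Tendsto (fun y => ‖y - L z‖ / δ) (𝓝 (L z)) (𝓝 0) := by
        have : Continuous fun y : ℂ => ‖y - L z‖ / δ := by fun_prop
        simpa using this.tendsto (L z)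
      refine squeeze_zero' (Eventually.of_forall fun _ => norm_nonneg _) ?_ h1
      filter_upwards [hev] with y hy
      have h2 := h.log_le hz hy.1
      rw [hy.2] at h2
      rw [le_div_iff₀ h.δ_pos, mul_comm]
      exact h2
    have hc : ContinuousAt (Function.invFunOn L (dom r)) (L z) := by
      rw [ContinuousAt, hv z hz]
      have h1 := (continuous_exp.tendsto (log z)).comp hlog
      rw [exp_log (ne_zero_of_mem_dom hz)] at h1
      refine h1.congr' ?_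
      filter_upwards [hev] with y hy
      exact exp_log (ne_zero_of_mem_dom hy.1)
    refine HasDerivAt.of_local_left_inverse (f := L) hc ?_ (h.deriv_ne_zero hz)
      (hev.mono fun y hy => hy.2)
    rw [hv z hz]
    exact h.hasDerivAt hz

end Pool.Agent.P.MP_0134b7_an
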