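import Pool.Agent.P.MP_0134b7_an.RGeoA

/-!
The flow along vertical lines in the image.
-/

open Set Filter Topology MeasureTheory Complex
open scoped Real

namespace Pool.Agent.P.MP_0134b7_an

variable {L : ℂ → ℂ} {r δ K CF : ℝ} {β : ℕ → ℝ}

theorem geoB_abs_arg_lt {z : ℂ} (hz : z ∈ dom r) : |arg z| < π / 2 :=
  Complex.abs_arg_lt_pi_div_two_iff.2 (Or.inl hz.1)

theorem geoB_ne_zero {z : ℂ} (hz : z ∈ dom r) : z ≠ 0 := by
  intro h0
  have := hz.1
  rw [h0] at this
  simp at this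

/-- Continuation along a vertical segment under an a priori bound for the argument. -/
theorem Nice.geoB_cont (h : Nice L r δ K CF β) {U : ℝ}
    (hU : ∀ z ∈ dom r, U < (L z).re → 3 * r ≤ ‖z‖) {z : ℂ} (hz : z ∈ dom r) (hzU : U < (L z).re)
    {σ θ : ℝ} (hθ : θ < π / 2)
    (hap : ∀ τ ∈ Icc 0 σ, ∀ w ∈ dom r, L w = L z + τ * I → |arg w| ≤ θ) :
    ∀ τ ∈ Icc 0 σ, ∃ w ∈ dom r, L w = L z + τ * I := by
  set R : ℝ := min (1 / 2) ((π / 2 - θ) / 2) with hR
  have hR0 : 0 < R := lt_min (by norm_num) (by linarith)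
  have hR1 : R ≤ 1 / 2 := min_le_left _ _
  have hR2 : R ≤ (π / 2 - θ) / 2 := min_le_right _ _
  have hδ := h.δ_pos
  have hr : 0 < r := lt_of_lt_of_le one_pos h.one_le
  set c : ℝ := δ * R / 4 with hc
  have hc0 : 0 < c := by positivity
  have key : ∀ n : ℕ, ∀ τ ∈ Icc 0 σ, τ ≤ n * c → ∃ w ∈ dom r, L w = L z + τ * I := by
    intro n
    induction n with
    | zero =>
      intro τ hτ h0
      have : τ = 0 := le_antisymm (by simpa using h0) hτ.1
      exact ⟨z, hz, by simp [this]⟩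
    | succ n ih =>
      intro τ hτ h1
      set τ' : ℝ := min τ (n * c) with hτ'
      have hn : (0 : ℝ) ≤ n * c := by positivity
      have hτ'm : τ' ∈ Icc 0 σ := ⟨le_min hτ.1 hn, (min_le_left _ _).trans hτ.2⟩
      obtain ⟨w, hw, hLw⟩ := ih τ' hτ'm (min_le_right _ _)
      have hre : (L w).re = (L z).re := by rw [hLw]; simp
      have h3 : 3 * r ≤ ‖w‖ := hU w hw (by rw [hre]; exact hzU)
      have hlog : Real.log r + R < Real.log ‖w‖ := by
        have h4 : Real.log (3 * r) ≤ Real.log ‖w‖ := Real.log_le_log (by positivity) h3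
        rw [Real.log_mul (by norm_num) hr.ne'] at h4
        have h5 : 1 - (3 : ℝ)⁻¹ ≤ Real.log 3 := Real.one_sub_inv_le_log_of_pos (by norm_num)
        have h6 : (3 : ℝ)⁻¹ = 1 / 3 := by norm_num
        linarith
      have harg : |arg w| + R < π / 2 := by
        have := hap τ' hτ'm w hw hLw
        linarith
      have hd : |τ - τ'| ≤ c := by
        rw [abs_le]
        have h7 : τ' ≤ τ := min_le_left _ _
        refine ⟨by linarith, ?_⟩
        push_cast at h1
        rcases le_total τ (n * c) with h8 | h8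
        · rw [hτ', min_eq_left h8]; linarith
        · rw [hτ', min_eq_right h8]; linarith
      have hw' : ‖(L z + τ * I) - L w‖ < δ * R / 2 := by
        have : (L z + τ * I) - L w = ((τ - τ' : ℝ) : ℂ) * I := by
          rw [hLw]; push_cast; ring
        rw [this, norm_mul, Complex.norm_I, mul_one, Complex.norm_real, Real.norm_eq_abs]
        have : c < δ * R / 2 := by
          rw [hc]
          have : 0 < δ * R := by positivity
          linarith
        linarith
      obtain ⟨s, hs, hLs, -⟩ := h.disc_log hR0 hlog harg (geoB_ne_zero hw) hw'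
      exact ⟨s, hs, hLs⟩
  intro τ hτ
  obtain ⟨n, hn⟩ := exists_nat_ge (τ / c)
  exact key n τ hτ (by rwa [div_le_iff₀ hc0] at hn)

theorem Nice.geoB_vert_pos (h : Nice L r δ K CF β) {U : ℝ}
    (hU : ∀ z ∈ dom r, U < (L z).re → 3 * r ≤ ‖z‖)
    {z s : ℂ} (hz : z ∈ dom r) (hs : s ∈ dom r) (hzU : U < (L z).re) {σ τ : ℝ}
    (e : L s = L z + σ * I) (hτ : τ ∈ Icc 0 σ) : ∃ w ∈ dom r, L w = L z + τ * I := by
  refine h.geoB_cont hU hz hzU (θ := max |arg z| |arg s|)
    (max_lt (geoB_abs_arg_lt hz) (geoB_abs_arg_lt hs)) ?_ τ hτ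
  intro t ht w hw hLw
  have h1 : arg z ≤ arg w := h.arg_le hz hw ht.1 hLw
  have h2 : arg w ≤ arg s := by
    refine h.arg_le hw hs (σ := σ - t) (by linarith [ht.2]) ?_
    rw [e, hLw]; push_cast; ring
  rw [abs_le]
  constructor
  · have := neg_abs_le (arg z)
    have := le_max_left |arg z| |arg s|
    linarith
  · have := le_abs_self (arg s)
    have := le_max_right |arg z| |arg s|
    linarith

/-- Vertical convexity of the image. -/
theorem Nice.vert (h : Nice L r δ K CF β) {U : ℝ} (hU : ∀ z ∈ dom r, U < (L z).re → 3 * r ≤ ‖z‖)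
    {z s : ℂ} (hz : z ∈ dom r) (hs : s ∈ dom r) (hzU : U < (L z).re) {σ τ : ℝ}
    (e : L s = L z + σ * I) (hτ : τ ∈ uIcc 0 σ) : ∃ w ∈ dom r, L w = L z + τ * I := by
  rcases le_total 0 σ with hσ | hσ
  · rw [uIcc_of_le hσ] at hτ
    exact h.geoB_vert_pos hU hz hs hzU e hτ
  · rw [uIcc_of_ge hσ] at hτ
    have hre : (L s).re = (L z).re := by rw [e]; simp
    have e' : L z = L s + ((-σ : ℝ) : ℂ) * I := by rw [e]; push_cast; ring
    obtain ⟨w, hw, hLw⟩ := h.geoB_vert_pos hU hs hz (by rw [hre]; exact hzU) e'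
      (τ := τ - σ) ⟨by linarith [hτ.1], by linarith [hτ.2]⟩
    refine ⟨w, hw, ?_⟩
    rw [hLw, e]; push_cast; ring

theorem Nice.geoB_idx_ne (h : Nice L r δ K CF β) {w : ℂ} (hw : w ∈ dom r) : idx L w ≠ 0 := by
  intro h0
  have h1 := h.re_ge w hw
  rw [h0] at h1
  have := h.δ_pos
  simp at h1
  linarith

/-- The flow along a vertical segment. -/
theorem Nice.geoB_flow (h : Nice L r δ K CF β) {U : ℝ}
    (hU : ∀ z ∈ dom r, U < (L z).re → 3 * r ≤ ‖z‖)
    {z s : ℂ} (hz : z ∈ dom r) (hs : s ∈ dom r) (hzU : U < (L z).re) {σ : ℝ}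
    (e : L s = L z + σ * I) : ∃ g : ℝ → ℂ, g 0 = z ∧ g σ = s ∧ ∀ τ ∈ uIcc 0 σ,
      g τ ∈ dom r ∧ L (g τ) = L z + τ * I ∧
      HasDerivAt g (I * (g τ * (idx L (g τ))⁻¹)) τ ∧
      HasDerivAt (fun t => log (g t)) (I * (idx L (g τ))⁻¹) τ := by
  obtain ⟨v, -, hv, hd⟩ := h.inverse
  refine ⟨fun t => v (L z + t * I), ?_, ?_, ?_⟩
  · simpa using hv z hz
  · simp only [← e]; exact hv s hs
  · intro τ hτ
    obtain ⟨w, hw, hLw⟩ := h.vert hU hz hs hzU e hτ
    have hg : v (L z + τ * I) = w := by rw [← hLw]; exact hv w hw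
    have hw0 : w ≠ 0 := geoB_ne_zero hw
    have hi : idx L w ≠ 0 := h.geoB_idx_ne hw
    have hL' : deriv L w ≠ 0 := by
      intro h0
      exact hi (by simp [idx, h0])
    have h1 : HasDerivAt (fun t : ℂ => L z + t * I) I (τ : ℂ) := by
      simpa using ((hasDerivAt_id (τ : ℂ)).mul_const I).const_add (L z)
    have h2 : HasDerivAt v (deriv L w)⁻¹ (L z + τ * I) := by rw [← hLw]; exact hd w hw
    have h3 : HasDerivAt (fun t : ℂ => v (L z + t * I)) ((deriv L w)⁻¹ * I) (τ : ℂ) :=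
      HasDerivAt.comp (τ : ℂ) (h₂ := v) (h := fun t : ℂ => L z + t * I) h2 h1
    have h4 : HasDerivAt (fun t : ℂ => log (v (L z + t * I))) ((deriv L w)⁻¹ * I / w) (τ : ℂ) := by
      have := h3.clog (by rw [hg]; exact Or.inl hw.1)
      rwa [hg] at this
    have h5 : (deriv L w)⁻¹ * I = I * (w * (idx L w)⁻¹) := by
      rw [idx]; field_simp
    have h6 : (deriv L w)⁻¹ * I / w = I * (idx L w)⁻¹ := by
      rw [idx]; field_simp
    rw [h5] at h3
    rw [h6] at h4
    simp only [hg]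
    exact ⟨hw, hLw, h3.comp_ofReal, h4.comp_ofReal⟩

/-- The angular condition in terms of the reciprocal index. -/
theorem Nice.geoB_ang (h : Nice L r δ K CF β) {w : ℂ} (hw : w ∈ dom r) :
    |((idx L w)⁻¹).im| * w.re ≤ (|w.im| + K * w.re) * ((idx L w)⁻¹).re := by
  have h1 := h.ang w hw
  have hn : 0 < normSq (idx L w) := normSq_pos.2 (h.geoB_idx_ne hw)
  rw [Complex.inv_re, Complex.inv_im, abs_div, abs_neg, abs_of_pos hn, div_mul_eq_mul_div,
    ← mul_div_assoc]
  exact div_le_div_of_nonneg_right h1 hn.le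

theorem geoB_arg_nonpos {z : ℂ} (hz : z ∈ dom r) : arg z ≤ 0 ↔ z.im ≤ 0 := by
  constructor
  · intro h1
    rcases h1.lt_or_eq with h2 | h2
    · exact (Complex.arg_neg_iff.1 h2).le
    · exact (Complex.arg_eq_zero_iff.1 h2).2.le
  · intro h1
    rcases h1.lt_or_eq with h2 | h2
    · exact (Complex.arg_neg_iff.2 h2).le
    · exact (Complex.arg_eq_zero_iff.2 ⟨hz.1.le, h2⟩).le

theorem geoB_hasDeriv_re {g : ℝ → ℂ} {g' : ℂ} {t : ℝ} (hg : HasDerivAt g g' t) :
    HasDerivAt (fun u => (g u).re) g'.re t :=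
  Complex.reCLM.hasFDerivAt.comp_hasDerivAt t hg

theorem geoB_hasDeriv_im {g : ℝ → ℂ} {g' : ℂ} {t : ℝ} (hg : HasDerivAt g g' t) :
    HasDerivAt (fun u => (g u).im) g'.im t :=
  Complex.imCLM.hasFDerivAt.comp_hasDerivAt t hg

theorem geoB_hasDeriv_phi {g : ℝ → ℂ} {b : ℂ} {t : ℝ} (c : ℝ)
    (h1 : HasDerivAt g (I * (g t * b)) t) (h2 : HasDerivAt (fun u => log (g u)) (I * b) t) :
    HasDerivAt (fun u => (g u).re * Real.exp (c * arg (g u)))
      ((-((g t).re * b.im + (g t).im * b.re) + c * (g t).re * b.re) *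
        Real.exp (c * arg (g t))) t := by
  have h3 := geoB_hasDeriv_re h1
  have h4 := geoB_hasDeriv_im h2
  simp only [Complex.log_im] at h4
  have h5 := h3.mul (h4.const_mul c).exp
  have h6 : (-((g t).re * b.im + (g t).im * b.re) + c * (g t).re * b.re) *
      Real.exp (c * arg (g t)) = (I * (g t * b)).re * Real.exp (c * arg (g t)) +
      (g t).re * (Real.exp (c * arg (g t)) * (c * (I * b).im)) := by
    simp only [Complex.mul_re, Complex.mul_im, Complex.I_re, Complex.I_im]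
    ring
  rw [h6]
  exact h5

/-- The real part does not grow much when the point moves away from the real axis. -/
theorem Nice.re_le (h : Nice L r δ K CF β) {U : ℝ} (hU : ∀ z ∈ dom r, U < (L z).re → 3 * r ≤ ‖z‖)
    {z s : ℂ} (hz : z ∈ dom r) (hs : s ∈ dom r) (hzU : U < (L z).re) {σ : ℝ}
    (e : L s = L z + σ * I) (hσ : (0 ≤ σ ∧ 0 ≤ z.im) ∨ (σ ≤ 0 ∧ z.im ≤ 0)) :
    s.re ≤ Real.exp (K * π / 2) * z.re := by
  obtain ⟨g, g0, gσ, hg⟩ := h.geoB_flow hU hz hs hzU e
  have hK := h.K_nonneg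
  have hsarg := abs_lt.1 (geoB_abs_arg_lt hs)
  have fin : ∀ c : ℝ, c * arg z - c * arg s ≤ K * π / 2 →
      s.re * Real.exp (c * arg s) ≤ z.re * Real.exp (c * arg z) →
      s.re ≤ Real.exp (K * π / 2) * z.re := by
    intro c h1 h2
    have h3 : s.re ≤ z.re * Real.exp (c * arg z - c * arg s) := by
      rw [Real.exp_sub, ← mul_div_assoc, le_div_iff₀ (Real.exp_pos _)]
      exact h2
    calc s.re ≤ z.re * Real.exp (c * arg z - c * arg s) := h3
      _ ≤ z.re * Real.exp (K * π / 2) :=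
        mul_le_mul_of_nonneg_left (Real.exp_le_exp.2 h1) hz.1.le
      _ = _ := mul_comm _ _
  rcases hσ with ⟨hσ, hy⟩ | ⟨hσ, hy⟩
  · rw [uIcc_of_le hσ] at hg
    have hza : 0 ≤ arg z := Complex.arg_nonneg_iff.2 hy
    have hd : ∀ t ∈ Icc 0 σ, HasDerivAt (fun u => (g u).re * Real.exp (-K * arg (g u)))
        ((-((g t).re * ((idx L (g t))⁻¹).im + (g t).im * ((idx L (g t))⁻¹).re) +
          -K * (g t).re * ((idx L (g t))⁻¹).re) * Real.exp (-K * arg (g t))) t :=
      fun t ht => geoB_hasDeriv_phi (-K) (hg t ht).2.2.1 (hg t ht).2.2.2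
    have hanti : AntitoneOn (fun u => (g u).re * Real.exp (-K * arg (g u))) (Icc 0 σ) := by
      refine antitoneOn_of_deriv_nonpos (convex_Icc 0 σ)
        (fun t ht => (hd t ht).continuousAt.continuousWithinAt)
        (fun t ht => (hd t (interior_subset ht)).differentiableAt.differentiableWithinAt) ?_
      intro t ht
      have ht' := interior_subset ht
      rw [(hd t ht').deriv]
      refine mul_nonpos_of_nonpos_of_nonneg ?_ (Real.exp_pos _).le
      obtain ⟨hw, hLw, -, -⟩ := hg t ht'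
      have h1 := h.geoB_ang hw
      have h2 : 0 ≤ (g t).im :=
        Complex.arg_nonneg_iff.1 (hza.trans (h.arg_le hz hw ht'.1 hLw))
      rw [abs_of_nonneg h2] at h1
      have h3 := mul_le_mul_of_nonneg_right (neg_abs_le ((idx L (g t))⁻¹).im) hw.1.le
      nlinarith
    have h4 := hanti (left_mem_Icc.2 hσ) (right_mem_Icc.2 hσ) hσ
    simp only [g0, gσ] at h4
    refine fin (-K) ?_ h4
    have h5 : K * (arg s - arg z) ≤ K * (π / 2) :=
      mul_le_mul_of_nonneg_left (by linarith [hsarg.2]) hK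
    linarith
  · rw [uIcc_of_ge hσ] at hg
    have hza : arg z ≤ 0 := (geoB_arg_nonpos hz).2 hy
    have hd : ∀ t ∈ Icc σ 0, HasDerivAt (fun u => (g u).re * Real.exp (K * arg (g u)))
        ((-((g t).re * ((idx L (g t))⁻¹).im + (g t).im * ((idx L (g t))⁻¹).re) +
          K * (g t).re * ((idx L (g t))⁻¹).re) * Real.exp (K * arg (g t))) t :=
      fun t ht => geoB_hasDeriv_phi K (hg t ht).2.2.1 (hg t ht).2.2.2
    have hmono : MonotoneOn (fun u => (g u).re * Real.exp (K * arg (g u))) (Icc σ 0) := by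
      refine monotoneOn_of_deriv_nonneg (convex_Icc σ 0)
        (fun t ht => (hd t ht).continuousAt.continuousWithinAt)
        (fun t ht => (hd t (interior_subset ht)).differentiableAt.differentiableWithinAt) ?_
      intro t ht
      have ht' := interior_subset ht
      rw [(hd t ht').deriv]
      refine mul_nonneg ?_ (Real.exp_pos _).le
      obtain ⟨hw, hLw, -, -⟩ := hg t ht'
      have h1 := h.geoB_ang hw
      have h0 : arg (g t) ≤ arg z := by
        refine h.arg_le hw hz (σ := -t) (by linarith [ht'.2]) ?_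
        rw [hLw]; push_cast; ring
      have h2 : (g t).im ≤ 0 := (geoB_arg_nonpos hw).1 (h0.trans hza)
      rw [abs_of_nonpos h2] at h1
      have h3 := mul_le_mul_of_nonneg_right (le_abs_self ((idx L (g t))⁻¹).im) hw.1.le
      nlinarith
    have h4 := hmono (left_mem_Icc.2 hσ) (right_mem_Icc.2 hσ) hσ
    simp only [g0, gσ] at h4
    refine fin K ?_ h4
    have h5 : K * (arg z - arg s) ≤ K * (π / 2) :=
      mul_le_mul_of_nonneg_left (by linarith [hsarg.1]) hK
    linarith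

/-- The displacement in logarithmic coordinates. -/
theorem Nice.move (h : Nice L r δ K CF β) {U : ℝ} (hU : ∀ z ∈ dom r, U < (L z).re → 3 * r ≤ ‖z‖)
    {z s : ℂ} (hz : z ∈ dom r) (hs : s ∈ dom r) (hzU : U < (L z).re) {σ e : ℝ} {b : ℂ}
    (he : L s = L z + σ * I) (hσ : 0 ≤ σ)
    (hb : ∀ w ∈ dom r, ‖log w - log z‖ ≤ σ / δ → ‖(idx L w)⁻¹ - b‖ ≤ e) :
    ‖log s - log z - σ * I * b‖ ≤ σ * e := by
  obtain ⟨g, g0, gσ, hg⟩ := h.geoB_flow hU hz hs hzU he
  rw [uIcc_of_le hσ] at hg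
  have hδ := h.δ_pos
  have hd : ∀ t ∈ Icc 0 σ, HasDerivWithinAt (fun u : ℝ => log (g u) - u * I * b)
      (I * ((idx L (g t))⁻¹ - b)) (Icc 0 σ) t := by
    intro t ht
    have h1 : HasDerivAt (fun u : ℝ => (u : ℂ) * I * b) (I * b) t := by
      have h2 : HasDerivAt (fun u : ℂ => u * I * b) (I * b) (t : ℂ) := by
        simpa using ((hasDerivAt_id (t : ℂ)).mul_const I).mul_const b
      exact h2.comp_ofReal
    have h3 := ((hg t ht).2.2.2.sub h1).hasDerivWithinAt (s := Icc 0 σ)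
    rw [mul_sub]
    exact h3
  have hbd : ∀ t ∈ Icc 0 σ, ‖I * ((idx L (g t))⁻¹ - b)‖ ≤ e := by
    intro t ht
    obtain ⟨hw, hLw, -, -⟩ := hg t ht
    rw [norm_mul, Complex.norm_I, one_mul]
    refine hb _ hw ?_
    have h1 := h.log_le hz hw
    have h2 : L (g t) - L z = (t : ℂ) * I := by rw [hLw]; ring
    rw [h2, norm_mul, Complex.norm_I, mul_one, Complex.norm_real, Real.norm_eq_abs,
      abs_of_nonneg ht.1] at h1
    rw [le_div_iff₀ hδ]
    linarith [ht.2]
  have h4 := (convex_Icc 0 σ).norm_image_sub_le_of_norm_hasDerivWithin_le hd hbd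
    (left_mem_Icc.2 hσ) (right_mem_Icc.2 hσ)
  simp only [g0, gσ, sub_zero, Real.norm_eq_abs, abs_of_nonneg hσ, Complex.ofReal_zero,
    zero_mul] at h4
  have h5 : log s - log z - σ * I * b = log s - σ * I * b - log z := by ring
  rw [h5, mul_comm σ e]
  exact h4

/-- Existence of the shifted point. -/
theorem Nice.exists_shift (h : Nice L r δ K CF β) {U : ℝ}
    (hU : ∀ z ∈ dom r, U < (L z).re → 3 * r ≤ ‖z‖) {z : ℂ} (hz : z ∈ dom r) (hzU : U < (L z).re)
    {σ e : ℝ} {b : ℂ} (hσ : 0 ≤ σ) (hb0 : 0 ≤ b.re)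
    (hb : ∀ w ∈ dom r, ‖log w - log z‖ ≤ σ / δ → ‖(idx L w)⁻¹ - b‖ ≤ e)
    (ha : arg z + σ * (b.re + e) < π / 2) : ∃ s ∈ dom r, L s = L z + σ * I := by
  have hδ := h.δ_pos
  have he : 0 ≤ e := (norm_nonneg _).trans (hb z hz (by simp; positivity))
  refine h.geoB_cont hU hz hzU (θ := max |arg z| (arg z + σ * (b.re + e)))
    (max_lt (geoB_abs_arg_lt hz) ha) ?_ σ (right_mem_Icc.2 hσ)
  intro t ht w hw hLw
  have h1 : arg z ≤ arg w := h.arg_le hz hw ht.1 hLw
  have h2 := h.move hU hz hw hzU hLw ht.1 (b := b) (e := e) fun u hu hl =>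
    hb u hu (hl.trans (div_le_div_of_nonneg_right ht.2 hδ.le))
  have h3 := (le_abs_self _).trans ((Complex.abs_im_le_norm _).trans h2)
  have h4 : (log w - log z - t * I * b).im = arg w - arg z - t * b.re := by
    simp [Complex.log_im]
  rw [h4] at h3
  have h5 : t * (b.re + e) ≤ σ * (b.re + e) :=
    mul_le_mul_of_nonneg_right ht.2 (by linarith)
  rw [abs_le]
  constructor
  · have := neg_abs_le (arg z)
    have := le_max_left |arg z| (arg z + σ * (b.re + e))
    linarith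
  · have := le_max_right |arg z| (arg z + σ * (b.re + e))
    linarith

end Pool.Agent.P.MP_0134b7_an
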