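import Pool.Agent.P.MP_0134b7_an.RNice

/-!
The oscillation of the reciprocal index on long blocks.
-/

open Set Filter Topology MeasureTheory Complex
open scoped Real

namespace Pool.Agent.P.MP_0134b7_an

variable {L : ℂ → ℂ} {r δ K CF : ℝ} {β : ℕ → ℝ}

theorem Nice.rho_pos (h : Nice L r δ K CF β) {x : ℝ} (hx : r < x) : 0 ≤ rho L x := by
  have h1 := h.re_ge x (mem_dom_of_re (zero_le_one.trans h.one_le) (by simpa using hx))
  rw [rho, inv_re]
  exact div_nonneg (h.δ_pos.le.trans h1) (normSq_nonneg _)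

theorem Nice.pow_mem (h : Nice L r δ K CF β) {m k : ℕ} (hm : r < 2 ^ m) (hk : m ≤ k) :
    (((2 : ℝ) ^ k : ℝ) : ℂ) ∈ dom r :=
  mem_dom_of_re (zero_le_one.trans h.one_le)
    (by rw [ofReal_re]; exact hm.trans_le (pow_le_pow_right₀ one_le_two hk))

theorem norm_two_pow (k : ℕ) : ‖(((2 : ℝ) ^ k : ℝ) : ℂ)‖ = 2 ^ k := by
  rw [norm_real, Real.norm_of_nonneg (by positivity)]

theorem Nice.osc_one (h : Nice L r δ K CF β) {m k : ℕ} (hm : r < 2 ^ m) (hk : m ≤ k) :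
    ‖(idx L (((2 : ℝ) ^ (k + 1) : ℝ) : ℂ))⁻¹ - (idx L (((2 : ℝ) ^ k : ℝ) : ℂ))⁻¹‖ ≤ β k := by
  have h2 : (2 : ℝ) ^ k ≤ 2 ^ (k + 1) := pow_le_pow_right₀ one_le_two (Nat.le_succ k)
  exact h.osc k _ (h.pow_mem hm (hk.trans (Nat.le_succ k))) _ (h.pow_mem hm hk)
    (by rw [norm_two_pow]; exact ⟨h2, le_rfl⟩) (by rw [norm_two_pow]; exact ⟨le_rfl, h2⟩)

theorem Nice.osc_chain (h : Nice L r δ K CF β) {m : ℕ} (hm : r < 2 ^ m) (i : ℕ) :
    ‖(idx L (((2 : ℝ) ^ (m + i) : ℝ) : ℂ))⁻¹ - (idx L (((2 : ℝ) ^ m : ℝ) : ℂ))⁻¹‖ ≤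
      ∑ t ∈ Finset.range i, β (m + t) := by
  induction i with
  | zero => simp
  | succ i ih =>
    rw [Finset.sum_range_succ]
    have h1 := h.osc_one hm (Nat.le_add_right m i)
    have h2 := norm_sub_le_norm_sub_add_norm_sub (idx L (((2 : ℝ) ^ (m + i + 1) : ℝ) : ℂ))⁻¹
      (idx L (((2 : ℝ) ^ (m + i) : ℝ) : ℂ))⁻¹ (idx L (((2 : ℝ) ^ m : ℝ) : ℂ))⁻¹
    rw [← add_assoc]
    linarith

theorem Nice.pack (h : Nice L r δ K CF β) {p : ℝ} (hp : Tendsto (rho L) atTop (𝓝 p)) (A B : ℝ)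
    {ζ : ℝ} (hζ : 0 < ζ) : ∃ (j₀ : ℕ) (e : ℕ → ℝ), B ≤ 2 ^ j₀ ∧ r < 2 ^ j₀ ∧ (∀ j, 0 ≤ e j) ∧
      Summable e ∧ ∑' j, e j ≤ ζ ∧ (∀ j, |rq L j₀ j - p| ≤ ζ) ∧ (∀ j, 0 ≤ rq L j₀ j) ∧
      (∀ j, |rq L j₀ (j + 1) - rq L j₀ j| ≤ e j) ∧
      ∀ j : ℕ, ∀ w ∈ dom r, |Real.log ‖w‖ - Real.log (2 ^ (j + j₀))| ≤ A →
        ‖(idx L w)⁻¹ - (idx L ((2 ^ (j + j₀) : ℝ) : ℂ))⁻¹‖ ≤ e j := by
  have hl2 : 0 < Real.log 2 := Real.log_pos one_lt_two
  obtain ⟨N, hN⟩ := exists_nat_ge (A / Real.log 2)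
  rw [div_le_iff₀ hl2] at hN
  obtain ⟨X, hX⟩ := eventually_atTop.1 ((Metric.tendsto_nhds.1 hp) ζ hζ)
  have hζ' : 0 < ζ / (3 * (2 * N + 1)) := by positivity
  obtain ⟨j2, hj2⟩ := eventually_atTop.1
    ((Metric.tendsto_nhds.1 (tendsto_sum_nat_add β)) _ hζ')
  obtain ⟨j1, hj1, hj12⟩ := (((tendsto_pow_atTop_atTop_of_one_lt (one_lt_two (α := ℝ))).eventually
    (eventually_gt_atTop (max r (max B X)))).and (eventually_ge_atTop j2)).exists
  have hmono : ∀ k, j1 ≤ k → max r (max B X) < (2 : ℝ) ^ k := fun k hk =>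
    hj1.trans_le (pow_le_pow_right₀ one_le_two hk)
  have hr : ∀ k, j1 ≤ k → r < (2 : ℝ) ^ k := fun k hk => (le_max_left _ _).trans_lt (hmono k hk)
  set S : ℕ → ℝ := fun j => ∑ t ∈ Finset.range (2 * N + 1), β (j + j1 + t) with hS
  have hS0 : ∀ j, 0 ≤ S j := fun j => Finset.sum_nonneg fun t _ => h.β_nonneg _
  have hone : ∀ j t, t ≤ 2 * N → β (j + j1 + t) ≤ S j := fun j t ht =>
    Finset.single_le_sum (f := fun t => β (j + j1 + t)) (fun t _ => h.β_nonneg _)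
      (Finset.mem_range.2 (by omega))
  have hch : ∀ j i, i ≤ 2 * N + 1 →
      ‖(idx L (((2 : ℝ) ^ (j + j1 + i) : ℝ) : ℂ))⁻¹ - (idx L (((2 : ℝ) ^ (j + j1) : ℝ) : ℂ))⁻¹‖ ≤
        S j := fun j i hi =>
    (h.osc_chain (hr _ (by omega)) i).trans (Finset.sum_le_sum_of_subset_of_nonneg
      (Finset.range_mono hi) fun t _ _ => h.β_nonneg _)
  have hsum : ∀ t, Summable fun j => β (j + j1 + t) := fun t => by
    simpa only [add_assoc] using (summable_nat_add_iff (j1 + t)).2 h.β_sum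
  have hSs : Summable S := summable_sum fun t _ => hsum t
  refine ⟨j1 + N, fun j => 3 * S j, ?_, hr _ (by omega), fun j => by have := hS0 j; positivity,
    hSs.mul_left 3, ?_, fun j => ?_, fun j => h.rho_pos (hr _ (by omega)), fun j => ?_,
    fun j w hw hA => ?_⟩
  · exact ((le_max_left _ _).trans (le_max_right _ _)).trans (hmono _ (by omega)).le
  · rw [tsum_mul_left, hS, Summable.tsum_finsetSum fun t _ => hsum t]
    have h1 : ∑ t ∈ Finset.range (2 * N + 1), ∑' j, β (j + j1 + t) ≤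
        (Finset.range (2 * N + 1)).card • (ζ / (3 * (2 * N + 1))) := by
      refine Finset.sum_le_card_nsmul _ _ _ fun t _ => ?_
      have h2 := hj2 (j1 + t) (by omega)
      rw [Real.dist_eq, sub_zero] at h2
      simp only [add_assoc]
      exact (le_abs_self _).trans h2.le
    rw [Finset.card_range, nsmul_eq_mul] at h1
    refine (mul_le_mul_of_nonneg_left h1 (by norm_num)).trans (le_of_eq ?_)
    push_cast
    field_simp
  · have h1 := hX (2 ^ (j + (j1 + N)))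
      (((le_max_right _ _).trans (le_max_right _ _)).trans (hmono _ (by omega)).le)
    rw [Real.dist_eq] at h1
    exact h1.le
  · have h1 := h.osc_one (hr j1 le_rfl) (show j1 ≤ j + (j1 + N) by omega)
    have h2 := hone j N (by omega)
    have h3 := hS0 j
    rw [rq, rq, rho, rho, ← sub_re, show j + 1 + (j1 + N) = j + (j1 + N) + 1 by ring]
    rw [add_assoc] at h2
    exact (abs_re_le_norm _).trans (by linarith)
  · have hw1 : 1 ≤ ‖w‖ := h.one_le.trans hw.2.le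
    obtain ⟨k, hk1, hk2⟩ := exists_nat_pow_near hw1 (one_lt_two (α := ℝ))
    rw [Real.log_pow, abs_le] at hA
    have l1 : (k : ℝ) * Real.log 2 ≤ Real.log ‖w‖ := by
      rw [← Real.log_pow]; exact Real.log_le_log (by positivity) hk1
    have l2 : Real.log ‖w‖ < ((k + 1 : ℕ) : ℝ) * Real.log 2 := by
      rw [← Real.log_pow]; exact Real.log_lt_log (by positivity) hk2
    have k1 : k ≤ j + j1 + 2 * N := by
      have : (k : ℝ) ≤ ((j + j1 + 2 * N : ℕ) : ℝ) := by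
        refine le_of_mul_le_mul_right ?_ hl2
        push_cast at hA ⊢
        linarith [hA.2]
      exact_mod_cast this
    have k2 : j + j1 < k + 1 := by
      have : ((j + j1 : ℕ) : ℝ) < ((k + 1 : ℕ) : ℝ) := by
        refine lt_of_mul_lt_mul_right ?_ hl2.le
        push_cast at hA l2 ⊢
        linarith [hA.1]
      exact_mod_cast this
    obtain ⟨t, rfl⟩ : ∃ t, k = j + j1 + t := ⟨k - (j + j1), by omega⟩
    have h1 := h.osc _ w hw _ (h.pow_mem (hr j1 le_rfl) (show j1 ≤ j + j1 + t by omega))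
      ⟨hk1, hk2.le⟩ (by rw [norm_two_pow]; exact ⟨le_rfl, hk1.trans hk2.le⟩)
    have h2 := hone j t (by omega)
    have h3 := hch j t (by omega)
    have h4 := hch j N (by omega)
    rw [norm_sub_rev] at h4
    have h5 := norm_sub_le_norm_sub_add_norm_sub (idx L w)⁻¹
      (idx L (((2 : ℝ) ^ (j + j1 + t) : ℝ) : ℂ))⁻¹ (idx L (((2 : ℝ) ^ (j + j1 + N) : ℝ) : ℂ))⁻¹
    have h6 := norm_sub_le_norm_sub_add_norm_sub (idx L (((2 : ℝ) ^ (j + j1 + t) : ℝ) : ℂ))⁻¹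
      (idx L (((2 : ℝ) ^ (j + j1) : ℝ) : ℂ))⁻¹ (idx L (((2 : ℝ) ^ (j + j1 + N) : ℝ) : ℂ))⁻¹
    rw [← add_assoc]
    linarith

end Pool.Agent.P.MP_0134b7_an
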