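import Pool.Agent.P.MP_0134b7_an.RDual
import Pool.Agent.P.MP_0134b7_an.RLap
import Pool.Agent.P.MP_0134b7_an.RStrip

/-!
An analytic half plane in the fibre product gives an annihilator.
-/

open Set Filter Topology MeasureTheory Complex
open scoped Real

namespace Pool.Agent.P.MP_0134b7_an

variable {ω : ℝ → ℝ}

/-- The decaying factor of the pairing. -/
noncomputable def prK (la : ℝ) (ξ : ℂ) : ℂ := exp (la * ξ) / (1 + ξ) ^ 2

theorem pr_one_add_ne {ξ : ℂ} (hξ : 0 ≤ ξ.re) : 1 + ξ ≠ 0 := fun h => by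
  have := congrArg re h
  simp at this
  linarith

theorem pr_one_le {ξ : ℂ} (hξ : 0 ≤ ξ.re) : 1 ≤ ‖1 + ξ‖ := by
  have := re_le_norm (1 + ξ)
  simp at this
  linarith

theorem norm_prK (la : ℝ) {ξ : ℂ} (hξ : 0 ≤ ξ.re) :
    ‖prK la ξ‖ ≤ Real.exp (la * ξ.re) / (1 + ξ.im ^ 2) := by
  rw [prK, norm_div, norm_pow, norm_exp, re_ofReal_mul]
  refine div_le_div_of_nonneg_left (Real.exp_pos _).le (by positivity) ?_
  rw [Complex.sq_norm, normSq_apply]
  simp only [add_re, one_re, add_im, one_im, zero_add]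
  nlinarith

theorem prK_diff (la : ℝ) {ξ : ℂ} (hξ : 0 ≤ ξ.re) : DifferentiableAt ℂ (prK la) ξ := by
  unfold prK
  exact DifferentiableAt.div (by fun_prop) (by fun_prop) (pow_ne_zero _ (pr_one_add_ne hξ))

theorem pr_line_re (x y : ℝ) : ((x : ℂ) + y * I).re = x := by simp

theorem pr_line_im (x y : ℝ) : ((x : ℂ) + y * I).im = y := by simp

theorem pr_cont {u : ℂ → ℂ} (hu : DifferentiableOn ℂ u {ξ | 0 < ξ.re}) {x : ℝ} (hx : 0 < x) :
    Continuous fun y : ℝ => u (x + y * I) :=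
  hu.continuousOn.comp_continuous (by fun_prop) fun y => by simpa using hx

theorem prK_cont (la : ℝ) {x : ℝ} (hx : 0 ≤ x) : Continuous fun y : ℝ => prK la (x + y * I) :=
  continuous_iff_continuousAt.2 fun y =>
    ContinuousAt.comp (f := fun y : ℝ => (x : ℂ) + y * I)
      (prK_diff la (by simpa using hx)).continuousAt (by fun_prop)

theorem pr_diffAt {u : ℂ → ℂ} (hu : DifferentiableOn ℂ u {ξ | 0 < ξ.re}) {ξ : ℂ} (hξ : 0 < ξ.re) :
    DifferentiableAt ℂ u ξ :=
  hu.differentiableAt ((isOpen_lt continuous_const continuous_re).mem_nhds hξ)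

theorem pr_norm_exp (w : ℂ) (t : ℝ) : ‖exp (-(w * t))‖ = Real.exp (-(t * w.re)) := by
  rw [norm_exp, neg_re, re_mul_ofReal, mul_comm]

theorem pr_norm_exp_le {w : ℂ} (hw : 0 ≤ w.re) {t : ℝ} (ht : 0 ≤ t) : ‖exp (-(w * t))‖ ≤ 1 := by
  rw [pr_norm_exp, Real.exp_le_one_iff, neg_nonpos]
  positivity

/-- The kernel of the pairing. -/
noncomputable def prA (u v : ℂ → ℂ) (la t : ℝ) (ξ : ℂ) : ℂ :=
  (exp (-(u ξ * t)) - exp (-(v ξ * t))) * prK la ξ

/-- The annihilating function. -/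
noncomputable def prP (u v : ℂ → ℂ) (la t : ℝ) : ℂ := ∫ y : ℝ, prA u v la t ((1 : ℝ) + y * I)

section
variable {u v : ℂ → ℂ} (hu : DifferentiableOn ℂ u {ξ | 0 < ξ.re})
  (hv : DifferentiableOn ℂ v {ξ | 0 < ξ.re})
  (hpos : ∀ ξ : ℂ, 0 < ξ.re → 0 < (u ξ).re ∧ 0 < (v ξ).re)

include hu hv in
theorem prA_diff (la t : ℝ) {ξ : ℂ} (hξ : 0 < ξ.re) : DifferentiableAt ℂ (prA u v la t) ξ := by
  have h1 := pr_diffAt hu hξ
  have h2 := pr_diffAt hv hξ
  have h3 := prK_diff la hξ.le
  unfold prA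
  fun_prop

include hu hv in
theorem prA_cont (la : ℝ) :
    Continuous fun p : ℝ × ℝ => prA u v la p.1 ((1 : ℝ) + p.2 * I) := by
  have h1 := (pr_cont hu one_pos).comp (continuous_snd (X := ℝ))
  have h2 := (pr_cont hv one_pos).comp (continuous_snd (X := ℝ))
  have h3 := (prK_cont la zero_le_one).comp (continuous_snd (X := ℝ))
  have h4 : Continuous fun p : ℝ × ℝ => (p.1 : ℂ) := by fun_prop
  exact ((h1.mul h4).neg.cexp.sub (h2.mul h4).neg.cexp).mul h3

include hpos in
theorem norm_prA (la : ℝ) {t : ℝ} (ht : 0 ≤ t) {ξ : ℂ} (hξ : 0 < ξ.re) :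
    ‖prA u v la t ξ‖ ≤ 2 * Real.exp (la * ξ.re) / (1 + ξ.im ^ 2) := by
  rw [prA, norm_mul, mul_div_assoc]
  refine mul_le_mul ((norm_sub_le _ _).trans ?_) (norm_prK la hξ.le) (norm_nonneg _) zero_le_two
  linarith [pr_norm_exp_le (hpos ξ hξ).1.le ht, pr_norm_exp_le (hpos ξ hξ).2.le ht]

include hu hv in
theorem prP_meas (la : ℝ) : StronglyMeasurable (prP u v la) :=
  (prA_cont hu hv la).stronglyMeasurable.integral_prod_right'

include hu hv hpos in
theorem norm_prP {la l t X B : ℝ} (hla : 0 ≤ la) (hl : la ≤ l) (ht : 0 ≤ t) (hX : 1 ≤ X)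
    (hB : ∀ ξ : ℂ, ξ.re = X →
      Real.exp (l * X - t * (u ξ).re) ≤ B ∧ Real.exp (l * X - t * (v ξ).re) ≤ B) :
    ‖prP u v la t‖ ≤ π * (2 * B) := by
  have h1 : prP u v la t = ∫ y : ℝ, prA u v la t (X + y * I) := by
    refine strip_shift (C := 2 * Real.exp (la * X)) hX
      (fun s h1 _ => prA_diff hu hv la t (by linarith)) fun s h1 h2 => ?_
    refine (norm_prA hpos la ht (by linarith)).trans ?_
    gcongr
  rw [h1]
  refine (line_int (fun y => prA_diff hu hv la t (by simpa using by linarith)) fun y => ?_).2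
  obtain ⟨h2, h3⟩ := hB (X + y * I) (pr_line_re X y)
  have h4 := norm_prK la (ξ := X + y * I) (by simpa using by linarith)
  rw [pr_line_re, pr_line_im] at h4
  have h5 : Real.exp (la * X) ≤ Real.exp (l * X) := by gcongr
  rw [sub_eq_add_neg, Real.exp_add] at h2 h3
  rw [prA, norm_mul]
  refine (mul_le_mul (norm_sub_le _ _) h4 (norm_nonneg _) (by positivity)).trans ?_
  rw [pr_norm_exp, pr_norm_exp, ← mul_div_assoc]
  refine div_le_div_of_nonneg_right ?_ (by positivity)
  nlinarith [Real.exp_pos (-(t * (u (X + y * I)).re)), Real.exp_pos (-(t * (v (X + y * I)).re))]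

theorem pr_int_lap {g : ℝ → ℂ} (hg : IntegrableOn g (Ioi 0)) {w : ℂ} (hw : 0 ≤ w.re) :
    IntegrableOn (fun t : ℝ => g t * exp (-(w * t))) (Ioi 0) := by
  refine Integrable.mul_bdd (c := 1) hg (Continuous.aestronglyMeasurable (by fun_prop)) ?_
  filter_upwards [ae_restrict_mem measurableSet_Ioi] with t ht
  exact pr_norm_exp_le hw (le_of_lt ht)

include hu hv hpos in
theorem prP_pair (la : ℝ) {g : ℝ → ℂ} (hg : IntegrableOn g (Ioi 0)) :
    ∫ t in Ioi 0, prP u v la t * g t = ∫ y : ℝ,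
      (lap g (u ((1 : ℝ) + y * I)) - lap g (v ((1 : ℝ) + y * I))) * prK la ((1 : ℝ) + y * I) := by
  have hi : Integrable (Function.uncurry fun t y : ℝ => prA u v la t ((1 : ℝ) + y * I) * g t)
      ((volume.restrict (Ioi 0)).prod volume) := by
    refine Integrable.mono' (hg.norm.mul_prod
      (integrable_inv_one_add_sq.const_mul (2 * Real.exp la)))
      ((prA_cont hu hv la).aestronglyMeasurable.mul hg.1.comp_fst) ?_
    have : ∀ᵐ p : ℝ × ℝ ∂(volume.restrict (Ioi 0)).prod volume, 0 < p.1 :=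
      Measure.quasiMeasurePreserving_fst.ae (ae_restrict_mem measurableSet_Ioi)
    filter_upwards [this] with p hp
    have h1 := norm_prA hpos la hp.le (ξ := (1 : ℝ) + p.2 * I) (by simp)
    rw [pr_line_re, pr_line_im, mul_one] at h1
    simp only [Function.uncurry, norm_mul]
    rw [mul_comm, ← div_eq_mul_inv]
    exact mul_le_mul_of_nonneg_left h1 (norm_nonneg _)
  have h2 := integral_integral_swap hi
  simp only [integral_mul_const] at h2
  rw [show (fun t => prP u v la t * g t) =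
    fun t => (∫ y : ℝ, prA u v la t ((1 : ℝ) + y * I)) * g t from rfl, h2]
  refine integral_congr_ae (.of_forall fun y => ?_)
  have h3 := hpos ((1 : ℝ) + y * I) (by simp)
  simp only [lap]
  rw [← integral_sub (pr_int_lap hg h3.1.le) (pr_int_lap hg h3.2.le), ← integral_mul_const]
  refine integral_congr_ae (.of_forall fun t => ?_)
  simp only [prA]
  ring

end

theorem pr_lap_exp {w : ℂ} (hw : 0 ≤ w.re) :
    lap (fun t : ℝ => exp (-1 * t)) w = (1 + w)⁻¹ := by
  have h1 := integral_exp_mul_complex_Ioi (a := -(1 + w)) (by simp; linarith) 0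
  have h2 : lap (fun t : ℝ => exp (-1 * t)) w = ∫ t : ℝ in Ioi 0, exp (-(1 + w) * t) := by
    refine integral_congr_ae (.of_forall fun t => ?_)
    simp only [← Complex.exp_add]
    congr 1
    ring
  rw [h2, h1]
  have := pr_one_add_ne hw
  simp only [ofReal_zero, mul_zero, Complex.exp_zero]
  field_simp

/-- A bounded function whose moments against exponentials vanish is exponentially small. -/
theorem pr_decay {q : ℂ → ℂ} {B l X : ℝ} (hl : 0 ≤ l) (hX : 1 < X)
    (hq : ∀ s : ℂ, 1 ≤ s.re → DifferentiableAt ℂ q s)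
    (hb : ∀ s : ℂ, 1 ≤ s.re → ‖q s‖ ≤ B / (1 + s.im ^ 2))
    (h0 : ∀ la : ℝ, 0 ≤ la → la ≤ l →
      ∫ y : ℝ, q ((1 : ℝ) + y * I) * exp (la * ((1 : ℝ) + y * I)) = 0) :
    2 * π * ‖q X‖ ≤ π * (B * Real.exp (l * (1 - X)) / (X - 1)) := by
  have hB : 0 ≤ B := by simpa using (norm_nonneg _).trans (hb 1 (by simp))
  have hne : ∀ y : ℝ, ((1 : ℝ) : ℂ) + y * I - X ≠ 0 := fun y h => by
    have := congrArg re h
    simp at this
    linarith
  have hge : ∀ y : ℝ, X - 1 ≤ ‖((1 : ℝ) : ℂ) + y * I - X‖ := fun y => by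
    have := abs_re_le_norm (((1 : ℝ) : ℂ) + y * I - X)
    simp only [sub_re, pr_line_re, ofReal_re] at this
    linarith [neg_abs_le (1 - X)]
  have hqc : Continuous fun y : ℝ => q ((1 : ℝ) + y * I) :=
    continuous_iff_continuousAt.2 fun y =>
      ContinuousAt.comp (f := fun y : ℝ => ((1 : ℝ) : ℂ) + y * I)
        (hq _ (by simp)).continuousAt (by fun_prop)
  have hqb : ∀ y : ℝ, ‖q ((1 : ℝ) + y * I)‖ ≤ B / (1 + y ^ 2) := fun y => by
    simpa using hb ((1 : ℝ) + y * I) (by simp)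
  have hexp : ∀ la y : ℝ, ‖exp (la * (((1 : ℝ) : ℂ) + y * I - X))‖ = Real.exp (la * (1 - X)) :=
    fun la y => by rw [norm_exp, re_ofReal_mul, sub_re, pr_line_re, ofReal_re]
  have hi : Integrable (Function.uncurry fun la y : ℝ =>
      q ((1 : ℝ) + y * I) * exp (la * (((1 : ℝ) : ℂ) + y * I - X)))
      ((volume.restrict (Ioc 0 l)).prod volume) := by
    refine Integrable.mono' ((integrable_const (1 : ℝ)).mul_prod
      (integrable_inv_one_add_sq.const_mul B)) (Continuous.aestronglyMeasurable ?_) ?_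
    · exact (hqc.comp continuous_snd).mul (by fun_prop)
    · have : ∀ᵐ p : ℝ × ℝ ∂(volume.restrict (Ioc 0 l)).prod volume, p.1 ∈ Ioc 0 l :=
        Measure.quasiMeasurePreserving_fst.ae (ae_restrict_mem measurableSet_Ioc)
      filter_upwards [this] with p hp
      simp only [Function.uncurry, norm_mul]
      rw [hexp, one_mul, ← div_eq_mul_inv]
      refine (mul_le_of_le_one_right (norm_nonneg _) ?_).trans (hqb _)
      rw [Real.exp_le_one_iff]
      nlinarith [hp.1]
  have h2 := integral_integral_swap hi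
  have h3 : ∫ la in Ioc 0 l, ∫ y : ℝ,
      q ((1 : ℝ) + y * I) * exp (la * (((1 : ℝ) : ℂ) + y * I - X)) = 0 := by
    refine setIntegral_eq_zero_of_forall_eq_zero fun la hla => ?_
    have h4 := h0 la hla.1.le hla.2
    have h5 : ∀ y : ℝ, q ((1 : ℝ) + y * I) * exp (la * (((1 : ℝ) : ℂ) + y * I - X)) =
        q ((1 : ℝ) + y * I) * exp (la * ((1 : ℝ) + y * I)) * exp (-(la * X)) := fun y => by
      rw [mul_assoc, ← Complex.exp_add]
      congr 2
      ring
    simp only [h5, integral_mul_const, h4, zero_mul]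
  have hd : ∀ (c : ℝ) (y : ℝ), DifferentiableAt ℂ (fun s => q s * exp (c * (s - X)) / (s - X))
      ((1 : ℝ) + y * I) := fun c y =>
    DifferentiableAt.div ((hq _ (by simp)).mul (by fun_prop)) (by fun_prop) (hne y)
  have hn : ∀ (c : ℝ) (y : ℝ), ‖q ((1 : ℝ) + y * I) * exp (c * (((1 : ℝ) : ℂ) + y * I - X)) /
      (((1 : ℝ) : ℂ) + y * I - X)‖ ≤ B * Real.exp (c * (1 - X)) / (X - 1) / (1 + y ^ 2) :=
    fun c y => by
      rw [norm_div, norm_mul, hexp, div_right_comm, mul_div_right_comm B]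
      exact div_le_div₀ (by positivity) (mul_le_mul_of_nonneg_right (hqb y) (by positivity))
        (by linarith) (hge y)
  have h6 := line_int (q := fun s => q s * exp (l * (s - X)) / (s - X)) (hd l) (hn l)
  have h7 := line_int (q := fun s => q s * exp ((0 : ℝ) * (s - X)) / (s - X)) (hd 0) (hn 0)
  simp only [ofReal_zero, zero_mul, Complex.exp_zero, mul_one] at h7
  have h8 := half_cauchy (x₁ := 1) (z := X) (by simpa using hX) hq hb
  have h9 : ∀ y : ℝ, ∫ la in Ioc 0 l,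
      q ((1 : ℝ) + y * I) * exp (la * (((1 : ℝ) : ℂ) + y * I - X)) =
      q ((1 : ℝ) + y * I) * exp (l * (((1 : ℝ) : ℂ) + y * I - X)) / (((1 : ℝ) : ℂ) + y * I - X) -
        q ((1 : ℝ) + y * I) / (((1 : ℝ) : ℂ) + y * I - X) := fun y => by
    rw [integral_const_mul, ← intervalIntegral.integral_of_le hl]
    simp only [mul_comm _ (((1 : ℝ) : ℂ) + y * I - X)]
    rw [integral_exp_mul_complex (hne y)]
    simp only [ofReal_zero, mul_zero, Complex.exp_zero]
    ring
  rw [h3] at h2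
  simp only [h9] at h2
  rw [integral_sub h6.1 h7.1, h8, eq_comm, sub_neg_eq_add, add_eq_zero_iff_eq_neg] at h2
  have h10 := h6.2
  simp only [h2, norm_neg, norm_mul, Complex.norm_ofNat, norm_real, Real.norm_eq_abs,
    abs_of_pos Real.pi_pos] at h10
  exact h10

theorem RadicalWeight.pairing (h : RadicalWeight ω) {f : ℝ → ℂ} (hf : IntegrableOn f (Ioi 0))
    {u v : ℂ → ℂ} (hu : DifferentiableOn ℂ u {ξ | 0 < ξ.re})
    (hv : DifferentiableOn ℂ v {ξ | 0 < ξ.re})
    (hpos : ∀ ξ : ℂ, 0 < ξ.re → 0 < (u ξ).re ∧ 0 < (v ξ).re)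
    (hF : ∀ ξ : ℂ, 0 < ξ.re → lap f (u ξ) = lap f (v ξ)) {l C : ℝ} (hl : 0 < l)
    (hw : ∀ t, 0 < t → ∃ X : ℝ, 1 ≤ X ∧ ∀ ξ : ℂ, ξ.re = X →
      Real.exp (l * X - t * (u ξ).re) ≤ C * ω t ∧ Real.exp (l * X - t * (v ξ).re) ≤ C * ω t)
    (hup : ∀ X : ℝ, 1 ≤ X → ‖u X‖ ≤ C * X ∧ ‖v X‖ ≤ C * X ∧ 1 ≤ C * X * ‖u X - v X‖) :
    ¬IsPolyGen ω f := by
  intro hgen
  have hC : 0 ≤ C := by simpa using (norm_nonneg _).trans (hup 1 le_rfl).1
  have hg : IntegrableOn (fun t : ℝ => exp (-1 * t)) (Ioi 0) :=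
    integrableOn_exp_mul_complex_Ioi (by simp) 0
  set q : ℂ → ℂ := fun s => ((1 + u s)⁻¹ - (1 + v s)⁻¹) * prK 0 s with hq
  have h0 : ∀ la : ℝ, 0 ≤ la → la ≤ l →
      ∫ y : ℝ, q ((1 : ℝ) + y * I) * exp (la * ((1 : ℝ) + y * I)) = 0 := by
    intro la h1 h2
    have h3 := h.annih (φ := prP u v la) (C := π * (2 * C))
      (fun k => h.memL1_of_int (convPow_lap hf k).1) hgen
      (prP_meas hu hv la).aestronglyMeasurable (fun t ht => ?_) (fun k => ?_) (h.memL1_of_int hg)
    · rw [prP_pair hu hv hpos la hg] at h3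
      rw [← h3]
      refine integral_congr_ae (.of_forall fun y => ?_)
      have h4 := hpos ((1 : ℝ) + y * I) (by simp)
      simp only [hq, pr_lap_exp h4.1.le, pr_lap_exp h4.2.le, prK, ofReal_zero, zero_mul,
        Complex.exp_zero]
      ring
    · obtain ⟨X, hX, hB⟩ := hw t ht
      refine (norm_prP hu hv hpos h1 h2 ht.le hX hB).trans_eq ?_
      ring
    · rw [prP_pair hu hv hpos la (convPow_lap hf k).1]
      refine integral_eq_zero_of_ae (.of_forall fun y => ?_)
      have h4 := hpos ((1 : ℝ) + y * I) (by simp)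
      simp only [(convPow_lap hf k).2 _ h4.1.le, (convPow_lap hf k).2 _ h4.2.le,
        hF ((1 : ℝ) + y * I) (by simp), sub_self, zero_mul, Pi.zero_apply]
  have hd : ∀ s : ℂ, 1 ≤ s.re → DifferentiableAt ℂ q s := fun s hs => by
    have h1 := hpos s (by linarith)
    exact ((((pr_diffAt hu (by linarith)).const_add 1).inv (pr_one_add_ne h1.1.le)).sub
      (((pr_diffAt hv (by linarith)).const_add 1).inv (pr_one_add_ne h1.2.le))).mul
        (prK_diff 0 (by linarith))
  have hb : ∀ s : ℂ, 1 ≤ s.re → ‖q s‖ ≤ 2 / (1 + s.im ^ 2) := fun s hs => by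
    have h1 := hpos s (by linarith)
    have h2 := norm_prK 0 (ξ := s) (by linarith)
    rw [zero_mul, Real.exp_zero] at h2
    rw [hq, norm_mul, div_eq_mul_one_div]
    refine mul_le_mul ((norm_sub_le _ _).trans ?_) h2 (norm_nonneg _) zero_le_two
    rw [norm_inv, norm_inv]
    linarith [inv_le_one_of_one_le₀ (pr_one_le h1.1.le), inv_le_one_of_one_le₀ (pr_one_le h1.2.le)]
  have key : ∀ X : ℝ, 2 ≤ X → 1 ≤ C * (1 + C) ^ 2 * 4 * Real.exp l / l ^ 5 *
      ((l * X) ^ 5 * Real.exp (-(l * X))) := fun X hX => by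
    have h1 := pr_decay hl.le (X := X) (by linarith) hd hb h0
    have h2 : ‖q X‖ ≤ Real.exp (l * (1 - X)) := by
      have h3 : 2 * Real.exp (l * (1 - X)) / (X - 1) ≤ 2 * Real.exp (l * (1 - X)) :=
        div_le_self (by positivity) (by linarith)
      nlinarith [Real.pi_pos]
    obtain ⟨h3, h4, h5⟩ := hup X (by linarith)
    have h6 := hpos X (by simpa using by linarith)
    have h7 : u X - v X = -(q X * ((1 + u X) * (1 + v X) * (1 + X) ^ 2)) := by
      have e1 := pr_one_add_ne h6.1.le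
      have e2 := pr_one_add_ne h6.2.le
      have e3 := pr_one_add_ne (ξ := X) (by simpa using by linarith)
      simp only [hq, prK, ofReal_zero, zero_mul, Complex.exp_zero]
      field_simp
      ring
    have h8 : ‖1 + u X‖ ≤ (1 + C) * X := (norm_add_le _ _).trans (by rw [norm_one]; nlinarith)
    have h9 : ‖1 + v X‖ ≤ (1 + C) * X := (norm_add_le _ _).trans (by rw [norm_one]; nlinarith)
    have h10 : ‖1 + (X : ℂ)‖ ≤ 2 * X := (norm_add_le _ _).trans (by
      rw [norm_one, norm_real, Real.norm_of_nonneg (by linarith)]; linarith)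
    have h11 : ‖u X - v X‖ ≤
        Real.exp (l * (1 - X)) * ((1 + C) * X * ((1 + C) * X) * (2 * X) ^ 2) := by
      rw [h7, norm_neg, norm_mul (q X), norm_mul (_ * _) (_ ^ 2), norm_mul (1 + u X), norm_pow]
      have : 0 ≤ X := by linarith
      gcongr
    refine h5.trans ((mul_le_mul_of_nonneg_left h11 (by nlinarith)).trans_eq ?_)
    rw [mul_sub, mul_one, sub_eq_add_neg, Real.exp_add]
    field_simp
    ring
  have hlim := ((Real.tendsto_pow_mul_exp_neg_atTop_nhds_zero 5).comp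
    (tendsto_id.const_mul_atTop hl)).const_mul (C * (1 + C) ^ 2 * 4 * Real.exp l / l ^ 5)
  rw [mul_zero] at hlim
  have := ge_of_tendsto hlim ((eventually_ge_atTop 2).mono key)
  linarith

end Pool.Agent.P.MP_0134b7_an
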