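import Pool.Agent.P.MP_0134b7_an.RShift
import Pool.Agent.P.MP_0134b7_an.RW
import Pool.Agent.P.MP_0134b7_an.RPair

/-!
Convergence of the series implies that the function is not a generator.
-/

open Set Filter Topology MeasureTheory Complex
open scoped Real

namespace Pool.Agent.P.MP_0134b7_an

variable {ω : ℝ → ℝ} {L : ℂ → ℂ} {r δ K CF : ℝ} {β : ℕ → ℝ}

theorem log_lip {c : ℝ} (hc : 0 < c) {z w : ℂ} (hz : c ≤ z.re) (hw : c ≤ w.re) :
    ‖log w - log z‖ ≤ c⁻¹ * ‖w - z‖ := by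
  have hs : ∀ x : ℂ, c ≤ x.re → x ∈ slitPlane := fun x hx => Or.inl (hc.trans_le hx)
  refine (convex_halfSpace_re_ge c).norm_image_sub_le_of_norm_deriv_le (𝕜 := ℂ)
    (fun x hx => differentiableAt_id.clog (hs x hx)) (fun x hx => ?_) hz hw
  rw [(hasDerivAt_log (hs x hx)).deriv, norm_inv]
  exact inv_anti₀ hc (le_trans hx (re_le_norm x))

/-- A self map of the half plane with large real part. -/
theorem exists_push {M D : ℕ → ℝ} (hM : ∀ k, 0 < M k) (hD : ∀ k, 0 ≤ D k)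
    (hs : Summable fun k => D k / M k) :
    ∃ (ψ : ℂ → ℂ) (A : ℝ), 1 ≤ A ∧ DifferentiableOn ℂ ψ {ξ | 0 < ξ.re} ∧ ∀ ξ : ℂ, 0 < ξ.re →
      A + ξ.re ≤ (ψ ξ).re ∧ ‖ψ ξ‖ ≤ A + 3 / 2 * ‖ξ‖ ∧
        ∀ j, M j ≤ ‖ψ ξ‖ → ξ.re + D j / 13 ≤ (ψ ξ).re := by
  obtain ⟨k₀, hk₀⟩ := ((tendsto_sum_nat_add fun k => D k / M k).eventually
    (ge_mem_nhds (show (0 : ℝ) < 1 / 4 by norm_num))).exists
  have hs' : Summable fun k => D (k + k₀) / M (k + k₀) := (summable_nat_add_iff k₀).2 hs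
  obtain ⟨P, hP, hPb⟩ := exists_kernel (M := fun k => M (k + k₀)) (D := fun k => D (k + k₀))
    (fun k => hM _) (fun k => hD _) hs' hk₀
  have hA0 : 0 ≤ ∑ j ∈ Finset.range k₀, D j := Finset.sum_nonneg fun j _ => hD j
  have hin : ∀ ξ : ℂ, 0 < ξ.re → -(‖ξ‖ / 2) < ξ.re := fun ξ hξ => by linarith [norm_nonneg ξ]
  set A := 1 + ∑ j ∈ Finset.range k₀, D j with hA
  refine ⟨fun ξ => A + ξ + P ξ, A, by linarith, ((differentiableOn_const _).add
    differentiableOn_id).add (hP.mono fun ξ hξ => hin ξ hξ), fun ξ hξ => ?_⟩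
  obtain ⟨p1, p2, p3⟩ := hPb ξ (hin ξ hξ)
  rw [min_eq_right hξ.le, zero_div] at p2 p3
  have hn : ‖(A : ℂ) + ξ + P ξ‖ ≤ A + 3 / 2 * ‖ξ‖ := by
    have := norm_add₃_le (a := (A : ℂ)) (b := ξ) (c := P ξ)
    rw [norm_real, Real.norm_of_nonneg (by linarith)] at this
    linarith
  refine ⟨by simp only [add_re, ofReal_re]; linarith, hn, fun j hj => ?_⟩
  simp only [add_re, ofReal_re]
  rcases lt_or_ge j k₀ with h | h
  · linarith [Finset.single_le_sum (fun i _ => hD i) (Finset.mem_range.2 h), hD j]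
  · obtain ⟨i, rfl⟩ := Nat.exists_eq_add_of_le' h
    have h1 := (hs'.le_tsum i fun k _ => div_nonneg (hD _) (hM _).le).trans hk₀
    rw [div_le_iff₀ (hM _)] at h1
    have h2 := hj.trans hn
    have h3 := hM (i + k₀)
    rcases le_total A ‖ξ‖ with hc | hc
    · have q1 : (2 / 7 : ℝ) ^ 2 ≤ (‖ξ‖ / (‖ξ‖ + M (i + k₀))) ^ 2 :=
        pow_le_pow_left₀ (by norm_num) (by rw [le_div_iff₀ (by positivity)]; linarith) 2
      linarith [p3 i, mul_le_mul_of_nonneg_left q1 (hD (i + k₀)), hD (i + k₀)]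
    · linarith

theorem exp_ineq (hω : RadicalWeight ω) {K₀ : ℝ} (hK : Bd ω K₀) {l c ε₀ k t y R : ℝ}
    (hl : l = ε₀ * c / 4) (hc : 0 < c) (hε : 0 < ε₀) (hk : 0 < k) (ht : 0 < t)
    (hR : max (-Real.log (ω t)) 0 / l + 1 + (K₀ - Real.log (ω (ε₀ * k))) / l ≤ R)
    (hy : c * R / k ≤ y) :
    Real.exp (l * (max (-Real.log (ω t)) 0 / l + 1) - t * y) ≤ Real.exp l * ω t := by
  have hl0 : 0 < l := by rw [hl]; positivity
  have hN : 0 ≤ K₀ - Real.log (ω (ε₀ * k)) := sub_nonneg.2 (hω.log_le hK (by positivity))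
  set m := max (-Real.log (ω t)) 0 with hm
  set N := K₀ - Real.log (ω (ε₀ * k)) with hN'
  have m0 : 0 ≤ m := le_max_right _ _
  have m1 : -Real.log (ω t) ≤ m := le_max_left _ _
  rw [← Real.exp_log (hω.pos t ht.le), ← Real.exp_add, Real.exp_le_exp]
  have e1 : l * (m / l + 1) = m + l := by field_simp
  have s0 : 0 < t * c / k := by positivity
  have h1 : t * c / k * (m / l + 1 + N / l) ≤ t * y :=
    (mul_le_mul_of_nonneg_left hR s0.le).trans
      (le_of_eq_of_le (by ring) (mul_le_mul_of_nonneg_left hy ht.le))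
  have a0 : 0 ≤ m / l + 1 := by positivity
  have a1 : 0 ≤ N / l := by positivity
  rcases le_total (2 * l) (t * c / k) with h | h
  · nlinarith [mul_le_mul_of_nonneg_right h a0, mul_nonneg s0.le a1]
  · have h2 : t ≤ ε₀ * k := by
      rw [div_le_iff₀ hk, hl] at h
      nlinarith [mul_pos (mul_pos hε hk) hc]
    have h3 := hω.superadd hK ht h2
    have e2 : t * c / k * (N / l) = 2 * (2 * (t / (ε₀ * k)) * N) := by
      rw [hl]
      field_simp
      ring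
    have h4 : m ≤ 2 * (t / (ε₀ * k)) * N := max_le (h3.trans_eq (by rw [hN']; ring)) (by positivity)
    nlinarith [mul_nonneg s0.le a0]

theorem re_ge_of_arg {z : ℂ} {μ : ℝ} (hμ : 0 ≤ μ) (h : μ ≤ π / 2 - |arg z|) :
    ‖z‖ * μ / 2 ≤ z.re := by
  have h1 := (cos_ge h).1 hμ
  have h2 : 1 / 2 * μ ≤ 2 / π * μ := mul_le_mul_of_nonneg_right (by
    rw [div_le_div_iff₀ two_pos Real.pi_pos]
    linarith [Real.pi_le_four]) hμ
  rw [← norm_mul_cos_arg z]
  linarith [mul_le_mul_of_nonneg_left (h2.trans h1) (norm_nonneg z)]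

theorem Nice.not_gen (h : Nice L r δ K CF β) (hω : RadicalWeight ω) {K₀ : ℝ} (hK : Bd ω K₀)
    {f : ℝ → ℂ} (hf : IntegrableOn f (Ioi 0)) (hL : ∀ z ∈ dom r, lap f z = exp (-L z))
    {p : ℝ} (hp : Tendsto (rho L) atTop (𝓝 p)) (hp2 : p < 1 / 2) {J : ℕ}
    (hs : ∀ j₀, J ≤ j₀ → ∃ ε, 0 < ε ∧ Cq ω K₀ (kq (rq L j₀)) ε) : ¬IsPolyGen ω f := by
  obtain ⟨U, hU⟩ := h.upper
  obtain ⟨B, hB, hB'⟩ := h.far U
  obtain ⟨inv, -, hinv, hinv'⟩ := h.inverse
  have hr := h.r_pos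
  have hπ := Real.pi_pos
  have hπ4 := Real.pi_le_four
  set θ := (p + 1 / 2) / 2 with hθ'
  have hθ : θ < 1 / 2 := by linarith
  obtain ⟨j₀, e, a1, -, a3, a4, a5, a6, a7, a8, a9⟩ := h.pack hp (2 + 2 * π / δ)
    (max (3 * B) (2 ^ J)) (ζ := min (1 / 24) ((1 / 2 - p) / 2)) (lt_min (by norm_num) (by linarith))
  obtain ⟨ε₀, hε₀, hCq⟩ := hs j₀ (le_of_two_pow ((le_max_right _ _).trans a1))
  set ρ := rq L j₀ with hρ
  have hSm : Sm ρ θ := ⟨hθ, fun j => ⟨a7 j, by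
    linarith [(abs_le.1 (a6 j)).2, min_le_right (1 / 24) ((1 / 2 - p) / 2)]⟩⟩
  set r₀ : ℝ := 2 ^ j₀ with hr₀
  have hr0 : 0 < r₀ := by positivity
  have hB3 : 3 * B ≤ r₀ := (le_max_left _ _).trans a1
  obtain ⟨Θ, ε, hΘ, hε0, hε, hεs, hm⟩ := exists_map (R := Mq ρ) (p := fun k => 1 - 2 * ρ k)
    (q := fun k => -(π * ρ k)) (e := fun k => 6 * e k) (Mq_pos ρ 0) hSm.two_mul_le
    (a4.mul_left _) fun k => by
      rw [show 1 - 2 * ρ (k + 1) - (1 - 2 * ρ k) = -2 * (ρ (k + 1) - ρ k) by ring,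
        show -(π * ρ (k + 1)) - -(π * ρ k) = -π * (ρ (k + 1) - ρ k) by ring, abs_mul, abs_mul,
        abs_neg, abs_neg, abs_two, abs_of_pos hπ]
      linarith [a8 k, mul_le_mul_of_nonneg_right hπ4 (abs_nonneg (ρ (k + 1) - ρ k))]
  rw [tsum_mul_left] at hεs
  have hε1 : ∀ j, ε j ≤ 1 := fun j => by
    linarith [hε.le_tsum j fun k _ => hε0 k, min_le_left (1 / 24 : ℝ) ((1 / 2 - p) / 2)]
  set pm := 1 - 2 * θ with hpm
  have hpm0 : 0 < pm := by linarith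
  set Q : ℝ := 2 ^ (1 / pm) with hQ
  have hQ0 : 0 < Q := by positivity
  set eD := Real.exp (2 * π / δ) with heD
  have heD1 : 1 ≤ eD := Real.one_le_exp (div_nonneg (by positivity) h.δ_pos.le)
  set c₃ := r₀ * pm / (12 * eD * Q) with hc₃
  have hc₃0 : 0 < c₃ := by positivity
  set l := ε₀ * c₃ / 4 with hl
  have hl0 : 0 < l := by positivity
  set N : ℕ → ℝ := fun j => (K₀ - Real.log (ω (ε₀ * kq ρ j))) / l with hN
  have hN0 : ∀ j, 0 ≤ N j := fun j => div_nonneg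
    (sub_nonneg.2 (hω.log_le hK (mul_pos hε₀ (kq_pos ρ j)).le)) hl0.le
  have hε'' : ∀ j, 0 ≤ ε j + 8 * e j := fun j => by linarith [hε0 j, a3 j]
  obtain ⟨ψ, A, hA, hψ, hψb⟩ := exists_push (M := Mq ρ)
    (D := fun j => 13 * (2 * Q * Mq ρ j * (ε j + 8 * e j) / pm + N j)) (Mq_pos ρ)
    (fun j => by have := hN0 j; have := hε'' j; have := Mq_pos ρ j; positivity)
    (((((hε.add (a4.mul_left 8)).mul_left (2 * Q / pm)).add (hCq.div_const l)).mul_left 13).congr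
      fun j => by
        have := (Mq_pos ρ j).ne'
        simp only [hN]
        rw [← Mq]
        field_simp)
  set u : ℂ → ℂ := fun ξ => r₀ * exp (Θ (ψ ξ)) with hu
  have key : ∀ ξ : ℂ, 0 < ξ.re → ∃ j s, u ξ ∈ dom r ∧ s ∈ dom r ∧ L s = L (u ξ) + 2 * π * I ∧
      Mq ρ j ≤ ‖ψ ξ‖ ∧ ξ.re + N j ≤ (ψ ξ).re ∧ c₃ * (ψ ξ).re / kq ρ j ≤ (u ξ).re ∧
      c₃ * (ψ ξ).re / kq ρ j ≤ s.re ∧ ‖u ξ‖ ≤ 6 * r₀ * eD * 2 ^ j ∧
      ‖s‖ ≤ 6 * r₀ * eD * 2 ^ j := by
    intro ξ hξ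
    obtain ⟨b1, -, b3⟩ := hψb ξ hξ
    have hx : 0 < (ψ ξ).re := by linarith
    obtain ⟨j, c1, c2⟩ := exists_block (Mq_pos ρ 0) hSm.two_mul_le (x := ‖ψ ξ‖)
      (by rw [Mq_zero]; linarith [re_le_norm (ψ ξ)])
    have b4 := b3 j c1
    have hM := Mq_pos ρ j
    obtain ⟨d1, d2⟩ := re_im_of_map hM (hm j _ hx c1 c2)
    have hS : ∑ i ∈ Finset.range j, (1 - 2 * ρ i) * Real.log (Mq ρ (i + 1) / Mq ρ i) =
        j * Real.log 2 := by
      rw [Finset.sum_congr rfl fun i _ => show _ = Real.log 2 by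
        rw [hSm.log_ratio, ← mul_assoc, mul_comm _ (gq ρ i), hSm.gq_mul, one_mul]]
      simp
    rw [hS] at d1
    have hpj := hSm.pos j
    have hpj' : pm ≤ 1 - 2 * ρ j := by linarith [(hSm.2 j).2]
    have l0 : 0 ≤ (1 - 2 * ρ j) * Real.log (‖ψ ξ‖ / Mq ρ j) :=
      mul_nonneg hpj.le (Real.log_nonneg ((one_le_div hM).2 c1))
    have l1 : (1 - 2 * ρ j) * Real.log (‖ψ ξ‖ / Mq ρ j) ≤ Real.log 2 := by
      have := Real.log_le_log (div_pos (hM.trans_le c1) hM) (div_le_div_of_nonneg_right c2 hM.le)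
      rw [hSm.log_ratio] at this
      refine (mul_le_mul_of_nonneg_left this hpj.le).trans_eq ?_
      rw [← mul_assoc, mul_comm _ (gq ρ j), hSm.gq_mul, one_mul]
    have hun : ‖u ξ‖ = r₀ * Real.exp (Θ (ψ ξ)).re := by
      simp only [hu]
      rw [norm_mul, norm_exp, norm_real, Real.norm_of_nonneg hr0.le]
    have he3 : Real.exp 1 ≤ 3 := Real.exp_one_lt_three.le
    have e2j : Real.exp (j * Real.log 2) = 2 ^ j := by
      rw [Real.exp_nat_mul, Real.exp_log two_pos]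
    have n1 : r₀ * 2 ^ j / 3 ≤ ‖u ξ‖ := by
      have t1 : j * Real.log 2 ≤ (Θ (ψ ξ)).re + 1 := by linarith [(abs_le.1 d1).1, hε1 j]
      have t2 := Real.exp_le_exp.2 t1
      rw [e2j, Real.exp_add] at t2
      have t3 := t2.trans (mul_le_mul_of_nonneg_left he3 (Real.exp_pos _).le)
      rw [hun]
      linarith [mul_le_mul_of_nonneg_left t3 hr0.le]
    have n2 : ‖u ξ‖ ≤ 6 * r₀ * 2 ^ j := by
      have t1 : (Θ (ψ ξ)).re ≤ j * Real.log 2 + Real.log 2 + 1 := by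
        linarith [(abs_le.1 d1).2, hε1 j]
      have t2 := Real.exp_le_exp.2 t1
      rw [Real.exp_add, Real.exp_add, e2j, Real.exp_log two_pos] at t2
      have t3 := t2.trans (mul_le_mul_of_nonneg_left he3 (by positivity))
      rw [hun]
      linarith [mul_le_mul_of_nonneg_left t3 hr0.le]
    have n3 : |Real.log ‖u ξ‖ - Real.log (2 ^ (j + j₀))| ≤ 2 := by
      rw [hun, Real.log_mul hr0.ne' (Real.exp_pos _).ne', Real.log_exp, pow_add,
        Real.log_mul (by positivity) hr0.ne', Real.log_pow 2 j, abs_le]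
      have := Real.log_two_lt_d9
      constructor <;> linarith [(abs_le.1 d1).1, (abs_le.1 d1).2, hε1 j]
    set μ := pm * (ψ ξ).re / (2 * Q * Mq ρ j) with hμ
    have hμ0 : 0 < μ := by positivity
    have m1 : ε j + 8 * e j ≤ μ := by
      rw [hμ, le_div_iff₀ (by positivity)]
      have : 2 * Q * Mq ρ j * (ε j + 8 * e j) / pm ≤ (ψ ξ).re := by linarith [hN0 j]
      rw [div_le_iff₀ hpm0] at this
      linarith
    have m2 : ∀ a : ℝ, 0 ≤ a → (ψ ξ).re ≤ ‖ψ ξ‖ * a → 2 * μ ≤ (1 - 2 * ρ j) * a := fun a ha h1 => by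
      refine le_trans ?_ (mul_le_mul_of_nonneg_right hpj' ha)
      have t1 := h1.trans (mul_le_mul_of_nonneg_right (c2.trans (hSm.Mq_le j)) ha)
      rw [hμ, ← mul_div_assoc, div_le_iff₀ (by positivity)]
      linarith [mul_le_mul_of_nonneg_left t1 hpm0.le]
    have g1 := abs_lt.1 (abs_arg_lt_pi_div_two_iff.2 (Or.inl hx))
    have m3 := m2 _ (by linarith [g1.2]) (re_le_arg hx).1
    have m4 := m2 _ (by linarith [g1.1]) (re_le_arg hx).2
    have w1 := mul_le_mul_of_nonneg_right hπ4 (a3 j)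
    have w2 := mul_nonneg hπ.le (a3 j)
    have w3 := mul_nonneg hπ.le (a7 j)
    have i1 : μ ≤ π / 2 + (Θ (ψ ξ)).im := by linarith [(abs_le.1 d2).1, a3 j]
    have i2 : μ ≤ π / 2 - (Θ (ψ ξ)).im - 2 * π * (ρ j + e j) := by linarith [(abs_le.1 d2).2]
    have harg : arg (u ξ) = (Θ (ψ ξ)).im := by
      simp only [hu]
      rw [arg_real_mul _ hr0, ← log_im, log_exp (by linarith) (by linarith)]
    have r1 := re_ge_of_arg (z := u ξ) hμ0.le (by
      rw [harg, le_sub_comm, abs_le]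
      constructor <;> linarith)
    have h2j : (1 : ℝ) ≤ 2 ^ j := one_le_pow₀ one_le_two
    have nB : B ≤ ‖u ξ‖ := by linarith [mul_le_mul_of_nonneg_left h2j hr0.le]
    have hud : u ξ ∈ dom r :=
      ⟨lt_of_lt_of_le (half_pos (mul_pos (by linarith) hμ0)) r1, by linarith⟩
    have hcl := close_of_log (a9 j) n3
    obtain ⟨s, hsd, hse⟩ := h.exists_shift hU hud (hB' _ hud nB) (σ := 2 * π) (by positivity)
      (a7 j) hcl (by
        rw [harg]
        change _ + 2 * π * (ρ j + e j) < _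
        linarith)
    have hse' : L s = L (u ξ) + 2 * π * I := by rw [hse]; push_cast; ring
    obtain ⟨s1, s2, s3, s4⟩ := h.shift_arg hU hud hsd (hB' _ hud nB) hse' hcl
    have s5 := (abs_le.1 s1).2
    change arg s - arg (u ξ) - 2 * π * ρ j ≤ _ at s5
    have r2 := re_ge_of_arg (z := s) hμ0.le (by
      rw [le_sub_comm, abs_le]
      constructor <;> linarith)
    have fin : ∀ n : ℝ, r₀ * 2 ^ j / 3 ≤ n * eD → c₃ * (ψ ξ).re / kq ρ j ≤ n * μ / 2 :=
      fun n hn => by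
        have hk := kq_pos ρ j
        have e1 : c₃ * (ψ ξ).re / kq ρ j = r₀ * 2 ^ j / 3 / eD * μ / 2 := by
          rw [hc₃, hμ, Mq]
          field_simp
          ring
        rw [e1]
        rw [← div_le_iff₀ (by positivity)] at hn
        linarith [mul_le_mul_of_nonneg_right hn hμ0.le]
    have n4 : ‖u ξ‖ * eD ≤ 6 * r₀ * eD * 2 ^ j := by
      linarith [mul_le_mul_of_nonneg_right n2 (zero_le_one.trans heD1)]
    have n5 : ‖u ξ‖ ≤ ‖u ξ‖ * eD := le_mul_of_one_le_right (norm_nonneg _) heD1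
    refine ⟨j, s, hud, hsd, hse', c1, ?_, (fin _ (n1.trans n5)).trans r1,
      (fin _ (n1.trans s4)).trans r2, n5.trans n4, s3.trans n4⟩
    have := hε'' j
    have : 0 ≤ 2 * Q * Mq ρ j * (ε j + 8 * e j) / pm := by positivity
    linarith
  have hud : DifferentiableOn ℂ u {ξ | 0 < ξ.re} :=
    (hΘ.comp hψ fun ξ hξ => by
      have := (hψb ξ hξ).1
      have h0 : 0 < ξ.re := hξ
      change 0 < (ψ ξ).re
      linarith).cexp.const_mul _
  set v : ℂ → ℂ := fun ξ => inv (L (u ξ) + 2 * π * I) with hv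
  have hvs : ∀ ξ s, s ∈ dom r → L s = L (u ξ) + 2 * π * I → v ξ = s := fun ξ s h1 h2 => by
    simp only [hv]
    rw [← h2, hinv s h1]
  have hvd : DifferentiableOn ℂ v {ξ | 0 < ξ.re} := fun ξ hξ => by
    obtain ⟨j, s, k1, k2, k3, -⟩ := key ξ hξ
    have h1 : DifferentiableWithinAt ℂ (fun ξ => L (u ξ) + 2 * π * I) {ξ | 0 < ξ.re} ξ :=
      ((h.hasDerivAt k1).differentiableAt.comp_differentiableWithinAt ξ (hud ξ hξ)).add_const _
    exact (k3 ▸ (hinv' s k2).differentiableAt).comp_differentiableWithinAt ξ h1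
  set c₅ := 6 * r₀ * eD * (A + 2) with hc₅
  have hc₅0 : 0 < c₅ := by positivity
  refine hω.pairing hf hud hvd (fun ξ hξ => ?_) (fun ξ hξ => ?_) hl0
    (C := max (Real.exp l) (max c₅ (c₅ * (c₃ / 2)⁻¹))) (fun t ht => ?_) fun X hX => ?_
  · obtain ⟨j, s, k1, k2, k3, -⟩ := key ξ hξ
    exact ⟨k1.1, hvs ξ s k2 k3 ▸ k2.1⟩
  · obtain ⟨j, s, k1, k2, k3, -⟩ := key ξ hξ
    rw [hvs ξ s k2 k3, hL _ k1, hL _ k2, k3, neg_add, exp_add, exp_neg (2 * π * I),
      exp_two_pi_mul_I, inv_one, mul_one]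
  · have h0 : 0 ≤ max (-Real.log (ω t)) 0 / l := div_nonneg (le_max_right _ _) hl0.le
    refine ⟨max (-Real.log (ω t)) 0 / l + 1, by linarith, fun ξ hξ => ?_⟩
    obtain ⟨j, s, -, k2, k3, -, k5, k6, k7, -⟩ := key ξ (by linarith)
    rw [hξ] at k5
    have hw := mul_le_mul_of_nonneg_right
      (le_max_left (Real.exp l) (max c₅ (c₅ * (c₃ / 2)⁻¹))) (hω.pos t ht.le).le
    rw [hvs ξ s k2 k3]
    exact ⟨(exp_ineq hω hK hl hc₃0 hε₀ (kq_pos ρ j) ht k5 k6).trans hw,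
      (exp_ineq hω hK hl hc₃0 hε₀ (kq_pos ρ j) ht k5 k7).trans hw⟩
  · have hX0 : 0 < (X : ℂ).re := by rw [ofReal_re]; linarith
    obtain ⟨j, s, k1, k2, k3, k4, -, k6, k7, k8, k9⟩ := key X hX0
    obtain ⟨b1, b2, -⟩ := hψb X hX0
    rw [ofReal_re] at b1
    rw [norm_real, Real.norm_of_nonneg (by linarith)] at b2
    rw [hvs X s k2 k3]
    have t1 : (2 : ℝ) ^ j ≤ (A + 2) * X := by nlinarith [hSm.pow_le j]
    have t2 : 6 * r₀ * eD * 2 ^ j ≤ c₅ * X :=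
      (mul_le_mul_of_nonneg_left t1 (by positivity)).trans_eq (by rw [hc₅]; ring)
    have t3 : c₅ * X ≤ max (Real.exp l) (max c₅ (c₅ * (c₃ / 2)⁻¹)) * X :=
      mul_le_mul_of_nonneg_right ((le_max_left _ _).trans (le_max_right _ _)) (by linarith)
    refine ⟨k8.trans (t2.trans t3), k9.trans (t2.trans t3), ?_⟩
    have hk := kq_pos ρ j
    have t4 : c₃ / 2 ≤ c₃ * (ψ X).re / kq ρ j := by
      rw [le_div_iff₀ hk]
      have : kq ρ j ≤ Mq ρ j := le_mul_of_one_le_left hk.le (one_le_pow₀ one_le_two)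
      have : kq ρ j / 2 ≤ (ψ X).re := by linarith
      linarith [mul_le_mul_of_nonneg_left this hc₃0.le]
    have t5 := log_lip (half_pos hc₃0) (t4.trans k6) (t4.trans k7)
    obtain ⟨m, -, m2, m3⟩ := h.mean k1 k2
    have t6 : ‖L s - L (u X)‖ = 2 * π := by
      rw [k3, add_sub_cancel_left, norm_mul, norm_mul, norm_I, norm_real, Complex.norm_two,
        mul_one, Real.norm_of_nonneg hπ.le]
    rw [m3, norm_mul] at t6
    have t7 := mul_le_mul t5 (m2.trans ((max_le k8 k9).trans t2)) (norm_nonneg _) (by positivity)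
    have t8 : c₅ * (c₃ / 2)⁻¹ * (X * ‖s - u X‖) ≤
        max (Real.exp l) (max c₅ (c₅ * (c₃ / 2)⁻¹)) * (X * ‖s - u X‖) :=
      mul_le_mul_of_nonneg_right ((le_max_right _ _).trans (le_max_right _ _)) (by positivity)
    rw [norm_sub_rev (u X)]
    linarith [Real.pi_gt_three]

end Pool.Agent.P.MP_0134b7_an
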