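import Pool.Agent.P.MP_0134b7_an.RGen
import Pool.Agent.P.MP_0134b7_an.RNon
import Pool.Agent.P.MP_0134b7_an.RDI

/-!
The criterion.
-/

open Set Filter Topology MeasureTheory Complex
open scoped Real

namespace Pool.Agent.P.MP_0134b7_an

variable {ω : ℝ → ℝ}

theorem convPow_shift (f : ℝ → ℂ) (a : ℂ) (k : ℕ) (t : ℝ) :
    convPow (fun t : ℝ => f t * exp (a * t)) k t = convPow f k t * exp (a * t) := by
  induction k generalizing t with
  | zero => rfl
  | succ k ih =>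
    simp only [convPow, conv, ih]
    rw [← intervalIntegral.integral_mul_const]
    refine intervalIntegral.integral_congr fun s _ => ?_
    have e : exp (a * t) = exp (a * ((t - s : ℝ) : ℂ)) * exp (a * s) := by
      rw [← Complex.exp_add]
      push_cast
      ring_nf
    simp only [e]
    ring

theorem wnorm_shift (ω : ℝ → ℝ) (c : ℝ) (g : ℝ → ℂ) :
    wnorm (fun t => ω t * Real.exp (c * t)) (fun t : ℝ => g t * exp (-(c : ℂ) * t)) =
      wnorm ω g := by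
  unfold wnorm
  refine lintegral_congr fun t => ?_
  have e : ‖exp (-(c : ℂ) * t)‖ₑ = ENNReal.ofReal (Real.exp (-(c * t))) := by
    rw [← ofReal_norm, Complex.norm_exp]
    simp
  rw [enorm_mul, e, mul_assoc, ← ENNReal.ofReal_mul (Real.exp_pos _).le, mul_left_comm,
    ← Real.exp_add, neg_add_cancel, Real.exp_zero, mul_one]

theorem exp_cancel (c : ℝ) (t : ℝ) : exp ((c : ℂ) * t) * exp (-(c : ℂ) * t) = 1 := by
  rw [← Complex.exp_add, neg_mul, add_neg_cancel, Complex.exp_zero]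

theorem IsPolyGen.shift {f : ℝ → ℂ} (h : IsPolyGen ω f) (c : ℝ) :
    IsPolyGen (fun t => ω t * Real.exp (c * t)) fun t : ℝ => f t * exp (-(c : ℂ) * t) := by
  have hm : ∀ a : ℂ, AEStronglyMeasurable (fun t : ℝ => exp (a * t)) (volume.restrict (Ioi 0)) :=
    fun a => (by fun_prop : Continuous fun t : ℝ => exp (a * t)).aestronglyMeasurable
  refine ⟨⟨h.1.1.mul (hm _), by rw [wnorm_shift]; exact h.1.2⟩, fun g hg ε hε => ?_⟩
  have e : (fun t : ℝ => g t * exp ((c : ℂ) * t) * exp (-(c : ℂ) * t)) = g := by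
    funext t
    rw [mul_assoc, exp_cancel, mul_one]
  have hg' : MemL1 ω fun t : ℝ => g t * exp ((c : ℂ) * t) := by
    refine ⟨hg.1.mul (hm _), ?_⟩
    rw [← wnorm_shift ω c, e]
    exact hg.2
  obtain ⟨n, a, ha⟩ := h.2 _ hg' ε hε
  refine ⟨n, a, ?_⟩
  rw [← wnorm_shift ω c] at ha
  convert ha using 2
  funext t
  rw [sub_mul, mul_assoc, exp_cancel, mul_one, Finset.sum_mul]
  simp only [convPow_shift, mul_assoc]

theorem isPolyGen_shift_iff (f : ℝ → ℂ) (c : ℝ) :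
    IsPolyGen (fun t => ω t * Real.exp (c * t)) (fun t : ℝ => f t * exp (-((c : ℂ) * t))) ↔
      IsPolyGen ω f := by
  simp only [← neg_mul]
  refine ⟨fun h => ?_, fun h => h.shift c⟩
  have := h.shift (-c)
  simp only [ofReal_neg, neg_neg, mul_assoc, ← Real.exp_add, neg_mul, add_neg_cancel,
    Real.exp_zero, mul_one, ← Complex.exp_add, neg_add_cancel, Complex.exp_zero] at this
  exact this

theorem lap_shift (f : ℝ → ℂ) (c z : ℂ) :
    lap (fun t : ℝ => f t * exp (-(c * t))) z = lap f (c + z) := by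
  unfold lap
  refine integral_congr_ae (Eventually.of_forall fun t => ?_)
  simp only [mul_assoc, ← Complex.exp_add]
  ring_nf

theorem norm_lap_le {g : ℝ → ℂ} (hg : IntegrableOn g (Ioi 0)) {z : ℂ} (hz : 0 ≤ z.re) :
    ‖lap g z‖ ≤ ∫ t in Ioi (0 : ℝ), ‖g t‖ := by
  refine norm_integral_le_of_norm_le hg.norm ?_
  filter_upwards [ae_restrict_mem measurableSet_Ioi] with t ht
  rw [norm_mul]
  exact mul_le_of_le_one_right (norm_nonneg _) (pr_norm_exp_le hz (le_of_lt ht))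

theorem Regular.nice {f : ℝ → ℂ} {c r : ℝ} {L : ℂ → ℂ} (h : Regular f c r L) :
    ∃ (r₁ δ K CF : ℝ) (β : ℕ → ℝ), r ≤ r₁ ∧ Nice L r₁ δ K CF β := by
  obtain ⟨δ, hδ, h1⟩ := h.re_ge
  obtain ⟨K, h2⟩ := h.ang
  obtain ⟨β, hβ, h3⟩ := h.osc
  obtain ⟨R, h4⟩ := h.small 1 one_pos
  have hr : r ≤ max (max r 1) R := (le_max_left _ _).trans (le_max_left _ _)
  have hs := dom_mono hr
  refine ⟨max (max r 1) R, min δ 1, max K 0, ∫ t in Ioi (0 : ℝ), ‖f t * exp (-((c : ℂ) * t))‖,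
    fun k => |β k|, hr, (le_max_right _ _).trans (le_max_left _ _), lt_min hδ one_pos,
    min_le_right _ _, le_max_right _ _, h.diff.mono hs,
    fun z hz => (min_le_left _ _).trans (h1 z (hs hz)), fun z hz => (h2 z (hs hz)).trans ?_,
    fun k => abs_nonneg _, hβ.abs,
    fun k z hz w hw a b => (h3 k z (hs hz) w (hs hw) a b).trans (le_abs_self _),
    fun z hz => h4 z (hs hz) ((le_max_right _ _).trans hz.2.le), fun ε hε => ?_, fun z hz => ?_⟩
  · refine mul_le_mul_of_nonneg_right ?_ (hδ.le.trans (h1 z (hs hz)))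
    have := mul_le_mul_of_nonneg_right (le_max_left K 0) hz.1.le
    linarith
  · obtain ⟨R', h5⟩ := h.small ε hε
    exact ⟨R', fun z hz => h5 z (hs hz)⟩
  · have h5 := norm_lap_le h.int hz.1.le
    rw [lap_shift, h.lap_eq z (hs hz), Complex.norm_exp, neg_re] at h5
    linarith [Real.add_one_le_exp (-(L z).re)]

theorem real_mem_dom {r x₀ x : ℝ} (hx : 0 < x₀) (hr : r < x₀) (h : x₀ ≤ x) : (x : ℂ) ∈ dom r := by
  refine ⟨by rw [ofReal_re]; linarith, ?_⟩
  rw [Complex.norm_real, Real.norm_of_nonneg (by linarith)]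
  linarith

theorem Regular.rho_cont {f : ℝ → ℂ} {c r : ℝ} {L : ℂ → ℂ} (h : Regular f c r L) {x₀ : ℝ}
    (hx : 0 < x₀) (hr : r < x₀) : ContinuousOn (rho L) (Ici x₀) := by
  obtain ⟨δ, hδ, h1⟩ := h.re_ge
  have h2 : ContinuousOn (deriv L) (dom r) := (h.diff.deriv (isOpen_dom r)).continuousOn
  have h3 : ContinuousOn (fun z => (idx L z)⁻¹) (dom r) := by
    refine (continuousOn_id.mul h2).inv₀ fun z hz e => ?_
    have := h1 z hz
    rw [show idx L z = 0 from e, zero_re] at this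
    linarith
  exact continuous_re.comp_continuousOn
    (h3.comp continuous_ofReal.continuousOn fun x hx' => real_mem_dom hx hr hx')

theorem exists_theta {ρ : ℝ → ℝ} {p x₀ : ℝ} (hp : Tendsto ρ atTop (𝓝 p)) (hp2 : p < 1 / 2)
    (hc : ContinuousOn ρ (Ici x₀)) (hρ : ∀ x, x₀ ≤ x → ρ x < 1 / 2) :
    ∃ θ, θ < 1 / 2 ∧ ∀ x, x₀ ≤ x → ρ x ≤ θ := by
  obtain ⟨X, hX⟩ := eventually_atTop.1
    (hp.eventually (eventually_le_nhds (show p < (p + 1 / 2) / 2 by linarith)))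
  obtain ⟨y, hy, hmax⟩ := (isCompact_Icc (a := x₀) (b := max x₀ X)).exists_isMaxOn
    ⟨x₀, le_rfl, le_max_left _ _⟩ (hc.mono Icc_subset_Ici_self)
  refine ⟨max ((p + 1 / 2) / 2) (ρ y), max_lt (by linarith) (hρ y hy.1), fun x hx => ?_⟩
  rcases le_total x (max x₀ X) with h | h
  · exact le_max_of_le_right (hmax ⟨hx, h⟩)
  · exact le_max_of_le_left (hX x ((le_max_right _ _).trans h))

theorem RadicalWeight.int_shift (hω : RadicalWeight ω) (c : ℝ) {κ : ℝ → ℝ} (hκ : ∀ x, 0 < κ x)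
    {x₀ ε : ℝ} (hx : 0 < x₀) (hε : 0 < ε) :
    IntegrableOn (fun x => Real.log (ω (ε * κ x) * Real.exp (c * (ε * κ x))) / (x ^ 2 * κ x))
      (Ioi x₀) ↔ IntegrableOn (fun x => Real.log (ω (ε * κ x)) / (x ^ 2 * κ x)) (Ioi x₀) := by
  have h1 : IntegrableOn (fun x : ℝ => c * ε / (x ^ 2 * 1)) (Ioi x₀) :=
    di_const_int (κ := fun _ => 1) hx continuousOn_const (fun _ _ => le_rfl) _
  have e : (fun x => Real.log (ω (ε * κ x) * Real.exp (c * (ε * κ x))) / (x ^ 2 * κ x)) =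
      (fun x => Real.log (ω (ε * κ x)) / (x ^ 2 * κ x)) + fun x : ℝ => c * ε / (x ^ 2 * 1) := by
    funext x
    have := (hκ x).ne'
    rw [Real.log_mul (hω.pos _ (mul_pos hε (hκ x)).le).ne' (Real.exp_pos _).ne', Real.log_exp,
      add_div, Pi.add_apply, ← mul_assoc, mul_div_mul_right _ _ this, mul_one]
  rw [e]
  exact integrable_add_iff_integrable_left' h1

theorem RadicalWeight.regular_iff (hω : RadicalWeight ω) {f : ℝ → ℂ} {c r : ℝ} {L : ℂ → ℂ}
    (h : Regular f c r L) {p x₀ : ℝ} (hp : Tendsto (rho L) atTop (𝓝 p))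
    (hinj : p = 1 / 2 → InjOn (fun z => lap f (c + z)) (dom r)) (hx : 0 < x₀) (hr : r < x₀)
    (hρ : p < 1 / 2 → ∀ x, x₀ ≤ x → rho L x < 1 / 2) :
    IsPolyGen ω f ↔ 1 / 2 ≤ p ∨ ∀ ε : ℝ, 0 < ε → ¬IntegrableOn
      (fun x => Real.log (ω (ε * kap (rho L) x₀ x)) / (x ^ 2 * kap (rho L) x₀ x)) (Ioi x₀) := by
  obtain ⟨r₁, δ, K, CF, β₁, hr₁, hN⟩ := h.nice
  have hω' := hω.shift c
  obtain ⟨K₀, hK⟩ := hω'.exists_bd
  have hL : ∀ z ∈ dom r₁, lap (fun t : ℝ => f t * exp (-((c : ℂ) * t))) z = exp (-L z) :=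
    fun z hz => by rw [lap_shift, h.lap_eq z (dom_mono hr₁ hz)]
  rw [← isPolyGen_shift_iff f c]
  rcases lt_trichotomy (1 / 2) p with hp2 | hp2 | hp2
  · exact iff_of_true (hN.gen hω' hK h.int hL hp (Or.inl hp2)) (Or.inl hp2.le)
  · refine iff_of_true (hN.gen hω' hK h.int hL hp (Or.inr (Or.inl fun z hz w hw e => ?_)))
      (Or.inl hp2.le)
    rw [lap_shift, lap_shift] at e
    exact hinj hp2.symm (dom_mono hr₁ hz) (dom_mono hr₁ hw) e
  rw [or_iff_right hp2.not_ge]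
  have hc := h.rho_cont hx hr
  obtain ⟨θ, hθ, hθ'⟩ := exists_theta hp hp2 hc (hρ hp2)
  obtain ⟨δ₀, hδ₀, h1⟩ := h.re_ge
  obtain ⟨β, hβ, h3⟩ := h.osc
  have h0 : ∀ x, x₀ ≤ x → 0 ≤ rho L x ∧ rho L x ≤ θ := fun x hx' => by
    refine ⟨?_, hθ' x hx'⟩
    rw [rho, inv_re]
    exact div_nonneg (hδ₀.le.trans (h1 _ (real_mem_dom hx hr hx'))) (normSq_nonneg _)
  obtain ⟨J, hJ⟩ := pow_unbounded_of_one_lt x₀ (one_lt_two (α := ℝ))
  have key : ∀ j₀, J ≤ j₀ → ((∃ ε, 0 < ε ∧ IntegrableOn (fun x =>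
      Real.log (ω (ε * kap (rho L) x₀ x)) / (x ^ 2 * kap (rho L) x₀ x)) (Ioi x₀)) ↔
      ∃ ε, 0 < ε ∧ Cq (fun t => ω t * Real.exp (c * t)) K₀ (kq (rq L j₀)) ε) := by
    intro j₀ hj
    have hj' : ∀ k, j₀ ≤ k → x₀ ≤ (2 : ℝ) ^ k := fun k hk =>
      hJ.le.trans (pow_le_pow_right₀ one_le_two (hj.trans hk))
    refine Iff.trans ?_ (hω'.discrete hK hx (hj' j₀ le_rfl) hθ hc h0 hβ fun k hk x hx' => ?_)
    · exact exists_congr fun ε => and_congr_right fun hε =>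
        (hω.int_shift c (κ := kap (rho L) x₀) (fun x => Real.exp_pos _) hx hε).symm
    · have a1 := hj' k hk
      have a2 : x₀ ≤ x := a1.trans hx'.1
      have := h3 k _ (real_mem_dom hx hr a2) _ (real_mem_dom hx hr a1)
        (by rwa [Complex.norm_real, Real.norm_of_nonneg (by linarith)])
        (by
          rw [Complex.norm_real, Real.norm_of_nonneg (by positivity)]
          exact ⟨le_rfl, pow_le_pow_right₀ one_le_two (Nat.le_succ k)⟩)
      refine le_trans ?_ this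
      rw [rho, rho, ← sub_re]
      exact abs_re_le_norm _
  constructor
  · intro hg ε hε hi
    exact hN.not_gen hω' hK h.int hL hp hp2 (fun j₀ hj => (key j₀ hj).1 ⟨ε, hε, hi⟩) hg
  · intro hd
    refine hN.gen hω' hK h.int hL hp (Or.inr (Or.inr ⟨hp2, J, fun j₀ hj ε hε hq => ?_⟩))
    obtain ⟨ε', hε', hi⟩ := (key j₀ hj).2 ⟨ε, hε, hq⟩
    exact hd ε' hε' hi

end Pool.Agent.P.MP_0134b7_an
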