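import Pool.Agent.P.MP_0134b7_an.RNice

/-!
Explicit analytic maps with prescribed piecewise power behaviour.
-/

open Set Filter Topology MeasureTheory Complex
open scoped Real

namespace Pool.Agent.P.MP_0134b7_an

theorem lac_pos {R : ℕ → ℝ} (hR0 : 0 < R 0) (hR : ∀ k, 2 * R k ≤ R (k + 1)) (k : ℕ) : 0 < R k := by
  induction k with
  | zero => exact hR0
  | succ k ih => linarith [hR k]

theorem lac_le {R : ℕ → ℝ} (hR : ∀ k, 2 * R k ≤ R (k + 1)) (k n : ℕ) :
    2 ^ n * R k ≤ R (k + n) := by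
  induction n with
  | zero => simp
  | succ n ih =>
    rw [pow_succ, ← add_assoc]
    linarith [hR (k + n)]

theorem norm_log_one_add_le {v : ℂ} (hv : 0 ≤ v.re) : ‖log (1 + v)‖ ≤ ‖v‖ := by
  have h1 : 1 + v ∈ slitPlane := Or.inl (by simp only [add_re, one_re]; linarith)
  rw [log_eq_integral h1, norm_mul]
  refine mul_le_of_le_one_right (norm_nonneg _) ?_
  have := intervalIntegral.norm_integral_le_of_norm_le_const (a := 0) (b := 1) (C := 1)
    (f := fun t : ℝ => (1 + t • v)⁻¹) fun t ht => by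
      rw [uIoc_of_le zero_le_one] at ht
      rw [norm_inv]
      refine inv_le_one_of_one_le₀ (le_trans ?_ (re_le_norm _))
      simp only [add_re, one_re, real_smul, mul_re, ofReal_re, ofReal_im, zero_mul, sub_zero]
      nlinarith [ht.1]
  simpa using this

theorem log_split {u : ℂ} (hu : 0 < u.re) {R : ℝ} (hR : 0 < R) :
    log (1 + u / R) = log (u / R) + log (1 + R / u) := by
  have hu0 : u ≠ 0 := fun h => by simp [h] at hu
  have hR0 : (R : ℂ) ≠ 0 := by exact_mod_cast hR.ne'
  have h1 : 0 < (u / R).re := by rw [div_ofReal_re]; positivity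
  have h2 : 0 < (1 + R / u).re := by
    have : 0 ≤ ((R : ℂ) / u).re := by
      rw [div_re]
      simp only [ofReal_re, ofReal_im, zero_mul, zero_div, add_zero]
      exact div_nonneg (by positivity) (normSq_nonneg _)
    simp only [add_re, one_re]
    linarith
  have e : 1 + u / R = u / R * (1 + R / u) := by field_simp; ring
  rw [e]
  refine (log_mul_eq_add_log_iff (fun h => by simp [h] at h1) (fun h => by simp [h] at h2)).2 ?_
  have a1 := abs_lt.1 (abs_arg_lt_pi_div_two_iff.2 (Or.inl h1))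
  have a2 := abs_lt.1 (abs_arg_lt_pi_div_two_iff.2 (Or.inl h2))
  exact ⟨by linarith [a1.1, a2.1], by linarith [a1.2, a2.2]⟩

theorem log_div_split {u : ℂ} (hu : u ≠ 0) {R S : ℝ} (hR : 0 < R) (hS : 0 < S) :
    log (u / R) = log (u / S) + (Real.log (S / R) : ℝ) := by
  have hR0 : (R : ℂ) ≠ 0 := by exact_mod_cast hR.ne'
  have hS0 : (S : ℂ) ≠ 0 := by exact_mod_cast hS.ne'
  have e : u / R = ((S / R : ℝ) : ℂ) * (u / S) := by push_cast; field_simp
  rw [e, log_ofReal_mul (by positivity) (div_ne_zero hu hS0), add_comm]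

theorem norm_le_norm_add {u : ℂ} (hu : 0 ≤ u.re) {R : ℝ} (hR : 0 ≤ R) :
    ‖u‖ ≤ ‖u + R‖ ∧ R ≤ ‖u + R‖ := by
  constructor
  · rw [← sq_le_sq₀ (norm_nonneg _) (norm_nonneg _), Complex.sq_norm, Complex.sq_norm,
      normSq_apply, normSq_apply]
    simp only [add_re, ofReal_re, add_im, ofReal_im, add_zero]
    nlinarith
  · refine le_trans ?_ (re_le_norm _)
    simp only [add_re, ofReal_re]
    linarith

/-- The weights. -/
noncomputable def wt (j k : ℕ) : ℝ := (1 / 2 : ℝ) ^ ((j - (k + 1)) + (k - j))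

theorem wt_nonneg (j k : ℕ) : 0 ≤ wt j k := by unfold wt; positivity

theorem wt_le_one (j k : ℕ) : wt j k ≤ 1 := pow_le_one₀ (by norm_num) (by norm_num)

theorem sum_wt (k n : ℕ) : ∑ j ∈ Finset.range n, wt j k ≤ 4 := by
  have h1 : ∑ j ∈ Finset.range (k + 1), wt j k ≤ 2 := by
    rw [← Finset.sum_range_reflect]
    refine le_trans (le_of_eq (Finset.sum_congr rfl fun j hj => ?_)) (sum_geometric_two_le (k + 1))
    have := Finset.mem_range.1 hj
    unfold wt
    congr 1
    omega
  have h2 : ∑ j ∈ Finset.range n, wt (k + 1 + j) k ≤ 2 := by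
    refine le_trans (le_of_eq (Finset.sum_congr rfl fun j _ => ?_)) (sum_geometric_two_le n)
    unfold wt
    congr 1
    omega
  calc ∑ j ∈ Finset.range n, wt j k ≤ ∑ j ∈ Finset.range (k + 1 + n), wt j k :=
        Finset.sum_le_sum_of_subset_of_nonneg (Finset.range_subset_range.2 (by omega))
          fun j _ _ => wt_nonneg j k
    _ ≤ 4 := by rw [Finset.sum_range_add]; linarith

theorem main_sum {R p : ℕ → ℝ} (hR : ∀ k, 0 < R k) {u : ℂ} (hu : u ≠ 0) (j : ℕ) :
    p 0 * log (u / R 0) + ∑ k ∈ Finset.range j, ((p (k + 1) - p k : ℝ) : ℂ) * log (u / R (k + 1)) =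
      p j * log (u / R j) + (∑ i ∈ Finset.range j, p i * Real.log (R (i + 1) / R i) : ℝ) := by
  induction j with
  | zero => simp
  | succ j ih =>
    rw [Finset.sum_range_succ, Finset.sum_range_succ, ← add_assoc, ih,
      log_div_split hu (hR j) (hR (j + 1))]
    push_cast
    ring

/-- An analytic function that behaves like `p j * log u + i * q j` on the block `j`. -/
theorem exists_map {R p q e : ℕ → ℝ} (hR0 : 0 < R 0) (hR : ∀ k, 2 * R k ≤ R (k + 1))
    (he : Summable e) (hp : ∀ k, |p (k + 1) - p k| + |q (k + 1) - q k| ≤ e k) :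
    ∃ (Θ : ℂ → ℂ) (ε : ℕ → ℝ), DifferentiableOn ℂ Θ {u | 0 < u.re} ∧ (∀ j, 0 ≤ ε j) ∧
      Summable ε ∧ ∑' j, ε j ≤ 4 * ∑' k, e k ∧
      ∀ (j : ℕ) (u : ℂ), 0 < u.re → R j ≤ ‖u‖ → ‖u‖ ≤ R (j + 1) →
        ‖Θ u - (p j * log (u / R j) +
          (∑ i ∈ Finset.range j, p i * Real.log (R (i + 1) / R i) : ℝ) + q j * I)‖ ≤ ε j := by
  have hpos := lac_pos hR0 hR
  have he0 : ∀ k, 0 ≤ e k := fun k => le_trans (by positivity) (hp k)
  set T : ℕ → ℂ → ℂ := fun k u => ((p (k + 1) - p k : ℝ) : ℂ) * log (1 + u / R (k + 1)) +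
    ((q (k + 1) - q k : ℝ) : ℂ) * I * (u / (u + R (k + 1))) with hT
  have comb : ∀ k (a b : ℂ) (c : ℝ), ‖a‖ ≤ c → ‖b‖ ≤ c →
      ‖((p (k + 1) - p k : ℝ) : ℂ) * a + ((q (k + 1) - q k : ℝ) : ℂ) * I * b‖ ≤ e k * c := by
    intro k a b c ha hb
    have hc : 0 ≤ c := (norm_nonneg _).trans ha
    refine (norm_add_le _ _).trans ?_
    rw [norm_mul, norm_mul, norm_mul, norm_I, mul_one, norm_real, norm_real, Real.norm_eq_abs,
      Real.norm_eq_abs]
    nlinarith [hp k, abs_nonneg (p (k + 1) - p k), abs_nonneg (q (k + 1) - q k),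
      mul_le_mul_of_nonneg_left ha (abs_nonneg (p (k + 1) - p k)),
      mul_le_mul_of_nonneg_left hb (abs_nonneg (q (k + 1) - q k))]
  have hTb : ∀ k (u : ℂ), 0 < u.re → ‖T k u‖ ≤ e k * (‖u‖ / R (k + 1)) := by
    intro k u hu
    have hk := hpos (k + 1)
    refine comb k _ _ _ ?_ ?_
    · refine (norm_log_one_add_le (by rw [div_ofReal_re]; positivity)).trans ?_
      rw [norm_div, norm_real, Real.norm_of_nonneg hk.le]
    · rw [norm_div]
      exact div_le_div_of_nonneg_left (norm_nonneg _) hk (norm_le_norm_add hu.le hk.le).2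
  have hge : ∀ k, R 0 ≤ R (k + 1) := fun k => by
    have := lac_le hR 0 (k + 1)
    rw [zero_add] at this
    nlinarith [one_le_pow₀ (M₀ := ℝ) (a := 2) (n := k + 1) one_le_two]
  have hTb' : ∀ k (u : ℂ) (B : ℝ), 0 < u.re → ‖u‖ ≤ B → ‖T k u‖ ≤ e k * (B / R 0) := by
    intro k u B hu hB
    refine (hTb k u hu).trans (mul_le_mul_of_nonneg_left ?_ (he0 k))
    exact div_le_div₀ ((norm_nonneg _).trans hB) hB hR0 (hge k)
  have hTs : ∀ u : ℂ, 0 < u.re → Summable fun k => T k u := fun u hu =>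
    .of_norm_bounded (he.mul_right _) fun k => hTb' k u _ hu le_rfl
  have hew : ∀ j, Summable fun k => e k * wt j k := fun j =>
    .of_nonneg_of_le (fun k => mul_nonneg (he0 k) (wt_nonneg j k))
      (fun k => mul_le_of_le_one_right (he0 k) (wt_le_one j k)) he
  have hsum : ∀ n, ∑ j ∈ Finset.range n, ∑' k, e k * wt j k ≤ 4 * ∑' k, e k := fun n => by
    rw [← Summable.tsum_finsetSum fun j _ => hew j, ← tsum_mul_left]
    refine Summable.tsum_le_tsum (fun k => ?_) (summable_sum fun j _ => hew j) (he.mul_left _)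
    rw [← Finset.mul_sum, mul_comm]
    exact mul_le_mul_of_nonneg_right (sum_wt k n) (he0 k)
  have hε0 : ∀ j, 0 ≤ ∑' k, e k * wt j k := fun j =>
    tsum_nonneg fun k => mul_nonneg (he0 k) (wt_nonneg j k)
  refine ⟨fun u => p 0 * log (u / R 0) + q 0 * I + ∑' k, T k u, fun j => ∑' k, e k * wt j k,
    fun u hu => ?_, hε0, summable_of_sum_range_le hε0 hsum,
    Real.tsum_le_of_sum_range_le hε0 hsum, fun j u hu h1 h2 => ?_⟩
  · have hu' : 0 < u.re := hu
    have hU : IsOpen ({u : ℂ | 0 < u.re} ∩ Metric.ball 0 (‖u‖ + 1)) :=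
      (isOpen_lt continuous_const continuous_re).inter Metric.isOpen_ball
    have hd : DifferentiableAt ℂ (fun u => ∑' k, T k u) u :=
      (differentiableOn_tsum_of_summable_norm (he.mul_right ((‖u‖ + 1) / R 0))
        (fun k z hz => ?_) hU fun k z hz => hTb' k z _ hz.1
          (by simpa using (mem_ball_zero_iff.1 hz.2).le)).differentiableAt
        (hU.mem_nhds ⟨hu, by simp⟩)
    · refine DifferentiableAt.differentiableWithinAt (DifferentiableAt.add
        (DifferentiableAt.add_const _ (DifferentiableAt.const_mul ?_ _)) hd)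
      exact (differentiableAt_id.div_const _).clog
        (Or.inl (by simp only [div_ofReal_re]; positivity))
    · have hz1 : 0 < z.re := hz.1
      have hk := hpos (k + 1)
      refine DifferentiableAt.differentiableWithinAt (DifferentiableAt.add
        (DifferentiableAt.const_mul ?_ _) (DifferentiableAt.const_mul ?_ _))
      · refine ((differentiableAt_id.div_const _).const_add _).clog (Or.inl ?_)
        simp only [add_re, one_re, div_ofReal_re]
        positivity
      · refine differentiableAt_id.div (differentiableAt_id.add_const _) fun h0 => ?_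
        have := (norm_le_norm_add hz1.le hk.le).2
        rw [show z + R (k + 1) = 0 from h0, norm_zero] at this
        linarith
  · have hu0 : u ≠ 0 := fun h => by simp [h] at hu
    have hun : 0 < ‖u‖ := norm_pos_iff.2 hu0
    set T0 : ℕ → ℂ := fun k => if k < j then ((p (k + 1) - p k : ℝ) : ℂ) * log (u / R (k + 1)) +
      ((q (k + 1) - q k : ℝ) : ℂ) * I else 0 with hT0
    have h0s : HasSum T0 (∑ k ∈ Finset.range j, T0 k) :=
      hasSum_sum_of_ne_finset_zero fun k hk => if_neg (by simpa using hk)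
    have h0v : ∑ k ∈ Finset.range j, T0 k =
        ∑ k ∈ Finset.range j, ((p (k + 1) - p k : ℝ) : ℂ) * log (u / R (k + 1)) +
          ((q j - q 0 : ℝ) : ℂ) * I := by
      rw [← Finset.sum_range_sub q j, ofReal_sum, Finset.sum_mul, ← Finset.sum_add_distrib]
      exact Finset.sum_congr rfl fun k hk => if_pos (Finset.mem_range.1 hk)
    have key : p 0 * log (u / R 0) + q 0 * I + ∑' k, T k u - (p j * log (u / R j) +
        (∑ i ∈ Finset.range j, p i * Real.log (R (i + 1) / R i) : ℝ) + q j * I) =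
        ∑' k, (T k u - T0 k) := by
      rw [(hTs u hu).tsum_sub h0s.summable, h0s.tsum_eq, h0v, ← main_sum hpos hu0 j]
      push_cast
      ring
    rw [key]
    refine tsum_of_norm_bounded (hew j).hasSum fun k => ?_
    have hk := hpos (k + 1)
    by_cases hkj : k < j
    · have hb : R (k + 1) / ‖u‖ ≤ wt j k := by
        have h3 := lac_le hR (k + 1) (j - (k + 1))
        rw [show k + 1 + (j - (k + 1)) = j by omega] at h3
        rw [wt, show k - j = 0 by omega, add_zero, one_div, inv_pow, div_le_iff₀ hun,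
          ← div_eq_inv_mul, le_div_iff₀ (by positivity)]
        linarith
      have hne : u + R (k + 1) ≠ 0 := fun h0 => by
        have := (norm_le_norm_add hu.le hk.le).2
        rw [h0, norm_zero] at this
        linarith
      have e1 : T k u - T0 k = ((p (k + 1) - p k : ℝ) : ℂ) * log (1 + R (k + 1) / u) +
          ((q (k + 1) - q k : ℝ) : ℂ) * I * (-(R (k + 1) / (u + R (k + 1)))) := by
        simp only [hT, hT0, if_pos hkj]
        rw [log_split hu hk]
        field_simp
        ring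
      rw [e1]
      refine comb k _ _ _ (le_trans (norm_log_one_add_le ?_) ?_) ?_
      · rw [div_re]
        simp only [ofReal_re, ofReal_im, zero_mul, zero_div, add_zero]
        exact div_nonneg (by positivity) (normSq_nonneg _)
      · rwa [norm_div, norm_real, Real.norm_of_nonneg hk.le]
      · rw [norm_neg, norm_div, norm_real, Real.norm_of_nonneg hk.le]
        exact (div_le_div_of_nonneg_left hk.le hun (norm_le_norm_add hu.le hk.le).1).trans hb
    · simp only [hT0, if_neg hkj, sub_zero]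
      refine (hTb k u hu).trans (mul_le_mul_of_nonneg_left ?_ (he0 k))
      have h3 := lac_le hR (j + 1) (k - j)
      rw [show j + 1 + (k - j) = k + 1 by omega] at h3
      rw [wt, show j - (k + 1) = 0 by omega, zero_add, one_div, inv_pow, div_le_iff₀ hk,
        ← div_eq_inv_mul, le_div_iff₀ (by positivity)]
      nlinarith [pow_pos (two_pos (α := ℝ)) (k - j)]

theorem ker_term {u : ℂ} (hu : -(‖u‖ / 2) < u.re) {M : ℝ} (hM : 0 < M) :
    u + M ≠ 0 ∧ ‖u / (u + M)‖ ≤ 2 * ‖u‖ / M ∧
      (‖u‖ / (‖u‖ + M)) ^ 2 + 2 * min u.re 0 / M ≤ (u / (u + M)).re := by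
  have hn := norm_nonneg u
  have h0 : ‖u‖ ^ 2 = u.re * u.re + u.im * u.im := by rw [Complex.sq_norm, normSq_apply]
  have h1 : ‖u + M‖ ^ 2 = ‖u‖ ^ 2 + M ^ 2 + 2 * M * u.re := by
    rw [h0, Complex.sq_norm, normSq_apply]
    simp only [add_re, ofReal_re, add_im, ofReal_im, add_zero]
    ring
  have h2 : M ^ 2 / 2 ≤ ‖u + M‖ ^ 2 := by nlinarith [sq_nonneg (‖u‖ - M), sq_nonneg ‖u‖]
  have h3 : M / 2 ≤ ‖u + M‖ := by
    by_contra h
    nlinarith [norm_nonneg (u + M), not_le.1 h]
  have h4 : 0 < ‖u + M‖ := by linarith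
  have h5 : ‖u + M‖ ≤ ‖u‖ + M := by
    simpa [Real.norm_of_nonneg hM.le] using norm_add_le u (M : ℂ)
  refine ⟨norm_pos_iff.1 h4, ?_, ?_⟩
  · rw [norm_div, div_le_div_iff₀ h4 hM]
    nlinarith
  · have e : (u / (u + M)).re = ‖u‖ ^ 2 / ‖u + M‖ ^ 2 + M * u.re / ‖u + M‖ ^ 2 := by
      rw [div_re, ← Complex.sq_norm, h0]
      simp only [add_re, ofReal_re, add_im, ofReal_im, add_zero]
      ring
    rw [e, div_pow]
    refine add_le_add (div_le_div_of_nonneg_left (by positivity) (by positivity)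
      (pow_le_pow_left₀ h4.le h5 2)) ?_
    rw [div_le_div_iff₀ hM (by positivity)]
    rcases le_total u.re 0 with h | h
    · rw [min_eq_left h]
      nlinarith
    · rw [min_eq_right h, mul_zero, zero_mul]
      positivity

/-- A sum of elementary kernels. -/
theorem exists_kernel {M D : ℕ → ℝ} (hM : ∀ k, 0 < M k) (hD : ∀ k, 0 ≤ D k)
    (hs : Summable fun k => D k / M k) (hs' : ∑' k, D k / M k ≤ 1 / 4) :
    ∃ P : ℂ → ℂ, DifferentiableOn ℂ P {u | -(‖u‖ / 2) < u.re} ∧
      ∀ u : ℂ, -(‖u‖ / 2) < u.re → ‖P u‖ ≤ ‖u‖ / 2 ∧ min u.re 0 / 2 ≤ (P u).re ∧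
        ∀ j, D j * (‖u‖ / (‖u‖ + M j)) ^ 2 + min u.re 0 / 2 ≤ (P u).re := by
  have hb : ∀ k (u : ℂ) (B : ℝ), -(‖u‖ / 2) < u.re → ‖u‖ ≤ B →
      ‖(D k : ℂ) * (u / (u + M k))‖ ≤ D k / M k * (2 * B) := by
    intro k u B hu hB
    rw [norm_mul, norm_real, Real.norm_of_nonneg (hD k)]
    refine (mul_le_mul_of_nonneg_left (ker_term hu (hM k)).2.1 (hD k)).trans ?_
    rw [div_mul_eq_mul_div, mul_div_assoc (D k)]
    exact mul_le_mul_of_nonneg_left (div_le_div_of_nonneg_right (by linarith) (hM k).le) (hD k)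
  have hO : IsOpen {u : ℂ | -(‖u‖ / 2) < u.re} := isOpen_lt (by fun_prop) continuous_re
  refine ⟨fun u => ∑' k, (D k : ℂ) * (u / (u + M k)), fun u hu => ?_, fun u hu => ?_⟩
  · have hU : IsOpen ({u : ℂ | -(‖u‖ / 2) < u.re} ∩ Metric.ball 0 (‖u‖ + 1)) :=
      hO.inter Metric.isOpen_ball
    exact ((differentiableOn_tsum_of_summable_norm (hs.mul_right (2 * (‖u‖ + 1)))
      (fun k z hz => ((DifferentiableAt.div (c := fun z : ℂ => z) (d := fun z : ℂ => z + M k)
        differentiableAt_id (differentiableAt_id.add_const _)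
        (ker_term hz.1 (hM k)).1).const_mul _).differentiableWithinAt) hU
      fun k z hz => hb k z _ hz.1 (by simpa using (mem_ball_zero_iff.1 hz.2).le)).differentiableAt
      (hU.mem_nhds ⟨hu, by simp⟩)).differentiableWithinAt
  · have hsu : Summable fun k => (D k : ℂ) * (u / (u + M k)) :=
      .of_norm_bounded (hs.mul_right _) fun k => hb k u _ hu le_rfl
    have hm : min u.re 0 ≤ 0 := min_le_right _ _
    have hre := (hasSum_re hsu.hasSum)
    have h2 : HasSum (fun k => D k / M k * (2 * min u.re 0))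
        ((∑' k, D k / M k) * (2 * min u.re 0)) := hs.hasSum.mul_right _
    have h3 := hre.sub h2
    have h4 : ∀ k, D k * (‖u‖ / (‖u‖ + M k)) ^ 2 ≤
        ((D k : ℂ) * (u / (u + M k))).re - D k / M k * (2 * min u.re 0) := fun k => by
      rw [re_ofReal_mul, div_mul_eq_mul_div, mul_div_assoc, ← mul_sub]
      exact mul_le_mul_of_nonneg_left (by linarith [(ker_term hu (hM k)).2.2]) (hD k)
    have h5 : ∀ k, 0 ≤ ((D k : ℂ) * (u / (u + M k))).re - D k / M k * (2 * min u.re 0) :=
      fun k => le_trans (mul_nonneg (hD k) (sq_nonneg _)) (h4 k)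
    have h6 : min u.re 0 / 2 ≤ (∑' k, D k / M k) * (2 * min u.re 0) := by nlinarith
    refine ⟨?_, ?_, fun j => ?_⟩
    · refine (tsum_of_norm_bounded (hs.hasSum.mul_right (2 * ‖u‖))
        fun k => hb k u _ hu le_rfl).trans ?_
      nlinarith [norm_nonneg u]
    · linarith [h3.nonneg h5]
    · linarith [le_hasSum h3 j fun k _ => h5 k, h4 j]

theorem exists_block {R : ℕ → ℝ} (hR0 : 0 < R 0) (hR : ∀ k, 2 * R k ≤ R (k + 1)) {x : ℝ}
    (hx : R 0 ≤ x) : ∃ j, R j ≤ x ∧ x ≤ R (j + 1) := by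
  have hex : ∃ j, x ≤ R (j + 1) := by
    obtain ⟨n, hn⟩ := pow_unbounded_of_one_lt (x / R 0) (one_lt_two (α := ℝ))
    refine ⟨n, ?_⟩
    have h1 := lac_le hR 0 n
    rw [zero_add] at h1
    rw [div_lt_iff₀ hR0] at hn
    linarith [hR n, lac_pos hR0 hR n]
  classical
  refine ⟨Nat.find hex, ?_, Nat.find_spec hex⟩
  rcases h : Nat.find hex with _ | k
  · exact hx
  · exact (not_le.1 (Nat.find_min hex (by omega : k < Nat.find hex))).le

end Pool.Agent.P.MP_0134b7_an
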