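import Pool.Agent.P.MP_0134b7_an.RDefs
import Pool.Agent.P.MP_0134b7_an.Krein

/-!
The normalised form of the regularity hypothesis and auxiliary definitions.
-/

open Set Filter Topology MeasureTheory

namespace Pool.Agent.P.MP_0134b7_an

/-- The normalised hypothesis with explicit constants. -/
structure Nice (L : ℂ → ℂ) (r δ K CF : ℝ) (β : ℕ → ℝ) : Prop where
  one_le : 1 ≤ r
  δ_pos : 0 < δ
  δ_le : δ ≤ 1
  K_nonneg : 0 ≤ K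
  diff : DifferentiableOn ℂ L (dom r)
  re_ge : ∀ z ∈ dom r, δ ≤ (idx L z).re
  ang : ∀ z ∈ dom r, |(idx L z).im| * z.re ≤ (|z.im| + K * z.re) * (idx L z).re
  β_nonneg : ∀ k, 0 ≤ β k
  β_sum : Summable β
  osc : ∀ k : ℕ, ∀ z ∈ dom r, ∀ w ∈ dom r,
    ‖z‖ ∈ Icc ((2 : ℝ) ^ k) (2 ^ (k + 1)) → ‖w‖ ∈ Icc ((2 : ℝ) ^ k) (2 ^ (k + 1)) →
      ‖(idx L z)⁻¹ - (idx L w)⁻¹‖ ≤ β k
  d_le : ∀ z ∈ dom r, ‖deriv L z‖ ≤ 1
  small : ∀ ε : ℝ, 0 < ε → ∃ R : ℝ, ∀ z ∈ dom r, R ≤ ‖z‖ → ‖deriv L z‖ ≤ ε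
  low : ∀ z ∈ dom r, -CF ≤ (L z).re

/-- The discrete scale sequence. -/
noncomputable def kq (ρ : ℕ → ℝ) (j : ℕ) : ℝ :=
  (2 : ℝ) ^ (∑ i ∈ Finset.range j, 2 * ρ i / (1 - 2 * ρ i))

/-- The samples of `rho` at the points `2 ^ (j + j₀)`. -/
noncomputable def rq (L : ℂ → ℂ) (j₀ j : ℕ) : ℝ := rho L (2 ^ (j + j₀))

/-- The discrete form of the convergence condition. -/
def Cq (ω : ℝ → ℝ) (K : ℝ) (κ : ℕ → ℝ) (ε : ℝ) : Prop :=
  Summable fun j : ℕ => (K - Real.log (ω (ε * κ j))) / (2 ^ j * κ j)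

/-- The Laplace transform of an element of the dual space. -/
noncomputable def dlap (φ : ℝ → ℂ) (z : ℂ) : ℂ :=
  ∫ t in Ioi (0 : ℝ), φ t * Complex.exp (z * t)

/-- A convex majorant of the logarithm of the Laplace transform of the weight. -/
noncomputable def gw (ω : ℝ → ℝ) (x : ℝ) : ℝ :=
  ⨆ t : Ici (0 : ℝ), ((x + 1) * t + Real.log (ω t))

theorem isOpen_dom (r : ℝ) : IsOpen (dom r) :=
  (isOpen_lt continuous_const Complex.continuous_re).inter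
    (isOpen_lt continuous_const continuous_norm)

theorem mem_dom_of_re {r : ℝ} (hr : 0 ≤ r) {z : ℂ} (hz : r < z.re) : z ∈ dom r :=
  ⟨hr.trans_lt hz, hz.trans_le (Complex.re_le_norm z)⟩

theorem dom_mono {r r' : ℝ} (h : r ≤ r') : dom r' ⊆ dom r := fun _ hz => ⟨hz.1, h.trans_lt hz.2⟩

theorem kq_pos (ρ : ℕ → ℝ) (j : ℕ) : 0 < kq ρ j := Real.rpow_pos_of_pos two_pos _

theorem kq_zero (ρ : ℕ → ℝ) : kq ρ 0 = 1 := by simp [kq]

theorem kq_succ (ρ : ℕ → ℝ) (j : ℕ) :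
    kq ρ (j + 1) = kq ρ j * (2 : ℝ) ^ (2 * ρ j / (1 - 2 * ρ j)) := by
  rw [kq, Finset.sum_range_succ, Real.rpow_add two_pos, kq]

end Pool.Agent.P.MP_0134b7_an
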