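import Pool.Agent.P.MP_0134b7_an.RNice

/-!
One step of the Phragmen-Lindelof recursion.
-/

open Set Filter Topology MeasureTheory Complex
open scoped Real

namespace Pool.Agent.P.MP_0134b7_an

/-- The Moebius map whose argument is the angle under which `[iS, 2iS]` is seen. -/
noncomputable def plW (S : ℝ) (ψ : ℂ) : ℂ := (ψ - I * S) / (ψ - 2 * I * S)

/-- Numerator of `plW` after clearing the denominator. -/
noncomputable def plN (S : ℝ) (ψ : ℂ) : ℂ :=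
  ⟨‖ψ‖ ^ 2 - 3 * S * ψ.im + 2 * S ^ 2, ψ.re * S⟩

lemma plN_eq (S : ℝ) (ψ : ℂ) :
    plN S ψ = (ψ - I * S) * (starRingEnd ℂ) (ψ - 2 * I * S) := by
  apply Complex.ext
  · simp [plN, Complex.sq_norm, Complex.normSq_apply]; ring
  · simp [plN]; ring

lemma plW_eq (S : ℝ) (ψ : ℂ) :
    plW S ψ = (((Complex.normSq (ψ - 2 * I * S))⁻¹ : ℝ) : ℂ) * plN S ψ := by
  rw [plN_eq, plW, div_eq_mul_inv, Complex.inv_def]
  ring

lemma arg_plW {S : ℝ} {ψ : ℂ} (hψ : ψ - 2 * I * S ≠ 0) : arg (plW S ψ) = arg (plN S ψ) := by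
  rw [plW_eq]
  exact Complex.arg_real_mul _ (inv_pos.2 (Complex.normSq_pos.2 hψ))

lemma plW_slit {S : ℝ} {ψ : ℂ} (hψ : ψ - 2 * I * S ≠ 0)
    (h : 0 < (plN S ψ).re ∨ (plN S ψ).im ≠ 0) : plW S ψ ∈ slitPlane := by
  have hD : 0 < (Complex.normSq (ψ - 2 * I * S))⁻¹ := inv_pos.2 (Complex.normSq_pos.2 hψ)
  rw [plW_eq, mem_slitPlane_iff]
  rcases h with h | h
  · left; simpa using mul_pos hD h
  · right
    rw [Complex.im_ofReal_mul]
    exact mul_ne_zero hD.ne' h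

lemma arg_le_div {N : ℂ} (h1 : 0 < N.re) (h2 : 0 ≤ N.im) : arg N ≤ N.im / N.re := by
  have ha : |arg N| < π / 2 := Complex.abs_arg_lt_pi_div_two_iff.2 (Or.inl h1)
  rw [← Complex.tan_arg]
  exact Real.le_tan (Complex.arg_nonneg_iff.2 h2) (abs_lt.1 ha).2

lemma div_le_arg {N : ℂ} (h2 : 0 ≤ N.im) : N.im / ‖N‖ ≤ arg N := by
  rw [← Complex.sin_arg]
  exact Real.sin_le (Complex.arg_nonneg_iff.2 h2)

lemma plN_re_ge (S : ℝ) (hS : 0 < S) (ψ : ℂ) :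
    (‖ψ‖ - S) * (‖ψ‖ - 2 * S) ≤ (plN S ψ).re := by
  have h : ψ.im ≤ ‖ψ‖ := (le_abs_self _).trans (Complex.abs_im_le_norm ψ)
  have : S * ψ.im ≤ S * ‖ψ‖ := mul_le_mul_of_nonneg_left h hS.le
  simp only [plN]
  nlinarith

lemma plN_re_out {S : ℝ} (hS : 0 < S) {ψ : ℂ} (h : ‖ψ‖ ≤ S / 2 ∨ 4 * S ≤ ‖ψ‖) :
    3 / 4 * S ^ 2 ≤ (plN S ψ).re := by
  refine le_trans ?_ (plN_re_ge S hS ψ)
  have h0 := norm_nonneg ψ
  rcases h with h | h <;> nlinarith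

lemma pl_ne {S X : ℝ} (hS : 0 < S) (hX : 0 < X) {ψ : ℂ}
    (h : X ≤ ψ.re ∨ ‖ψ‖ ≤ S / 2 ∨ 4 * S ≤ ‖ψ‖) : ψ - 2 * I * S ≠ 0 := by
  intro h0
  have e : ψ = 2 * I * S := sub_eq_zero.1 h0
  have hn : ‖ψ‖ = 2 * S := by
    rw [e]; simp [abs_of_pos hS]
  have hr : ψ.re = 0 := by rw [e]; simp
  rcases h with h | h | h <;> linarith

lemma pl_slit {S X : ℝ} (hS : 0 < S) (hX : 0 < X) {ψ : ℂ}
    (h : X ≤ ψ.re ∨ ‖ψ‖ ≤ S / 2 ∨ 4 * S ≤ ‖ψ‖) : plW S ψ ∈ slitPlane := by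
  refine plW_slit (pl_ne hS hX h) ?_
  rcases h with h | h
  · right
    simp only [plN]
    exact (mul_pos (hX.trans_le h) hS).ne'
  · left
    have := plN_re_out hS h
    nlinarith [sq_pos_of_pos hS]

/-- Upper bound of the angle on the closure of the domain. -/
lemma pl_arg_le {S X : ℝ} (hS : 0 < S) (hX : 0 < X) (hXS : X ≤ S / 2) {ψ : ℂ} (h0 : 0 ≤ ψ.re)
    (h : X ≤ ψ.re ∨ ‖ψ‖ ≤ S / 2 ∨ 4 * S ≤ ‖ψ‖) : arg (plW S ψ) ≤ 4 * (ψ.re / X) := by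
  rcases h with h | h
  · have h1 : 1 ≤ ψ.re / X := (one_le_div hX).2 h
    have := Complex.arg_le_pi (plW S ψ)
    have := Real.pi_le_four
    linarith
  · rw [arg_plW (pl_ne hS hX (Or.inr h))]
    have hP := plN_re_out hS h
    have hS2 : 0 < S ^ 2 := sq_pos_of_pos hS
    have hP0 : 0 < (plN S ψ).re := by linarith
    have him : (plN S ψ).im = ψ.re * S := rfl
    refine (arg_le_div hP0 (by rw [him]; positivity)).trans ?_
    rw [him, div_le_iff₀ hP0]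
    have h2 : ψ.re = (ψ.re / X) * X := by field_simp
    have h3 : 0 ≤ ψ.re / X := by positivity
    set t := ψ.re / X
    calc ψ.re * S = t * (X * S) := by rw [h2]; ring
      _ ≤ t * (4 * (plN S ψ).re) := by
          apply mul_le_mul_of_nonneg_left _ h3
          nlinarith
      _ = 4 * t * (plN S ψ).re := by ring

lemma pl_arg_far {S : ℝ} (hS : 0 < S) {ψ : ℂ} (h0 : 0 ≤ ψ.re) (h : 16 * S ≤ ‖ψ‖) :
    arg (plW S ψ) ≤ ψ.re / (196 * S) := by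
  rw [arg_plW (pl_ne hS hS (Or.inr (Or.inr (by linarith))))]
  have hP : 196 * S ^ 2 ≤ (plN S ψ).re := by
    refine le_trans ?_ (plN_re_ge S hS ψ)
    nlinarith
  have hS2 : 0 < S ^ 2 := sq_pos_of_pos hS
  have hP0 : 0 < (plN S ψ).re := by linarith
  have him : (plN S ψ).im = ψ.re * S := rfl
  refine (arg_le_div hP0 (by rw [him]; positivity)).trans ?_
  rw [him, div_le_div_iff₀ hP0 (by positivity)]
  calc ψ.re * S * (196 * S) = ψ.re * (196 * S ^ 2) := by ring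
    _ ≤ ψ.re * (plN S ψ).re := mul_le_mul_of_nonneg_left hP h0

lemma pl_arg_near {S : ℝ} (hS : 0 < S) {ψ : ℂ} (h0 : 0 ≤ ψ.re) (h : ‖ψ‖ ≤ S / 16) :
    ψ.re / (3 * S) ≤ arg (plW S ψ) := by
  have hh : ‖ψ‖ ≤ S / 2 ∨ 4 * S ≤ ‖ψ‖ := Or.inl (by linarith)
  rw [arg_plW (pl_ne hS hS (Or.inr hh))]
  have him : (plN S ψ).im = ψ.re * S := rfl
  refine le_trans ?_ (div_le_arg (by rw [him]; positivity))
  have hP := plN_re_out hS hh
  have hS2 : 0 < S ^ 2 := sq_pos_of_pos hS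
  have hN0 : 0 < ‖plN S ψ‖ :=
    lt_of_lt_of_le (by linarith) ((le_abs_self _).trans (Complex.abs_re_le_norm _))
  have hN : ‖plN S ψ‖ ≤ 3 * S ^ 2 := by
    rw [plN_eq, norm_mul, Complex.norm_conj]
    have a1 : ‖ψ - I * S‖ ≤ S / 16 + S := by
      refine (norm_sub_le _ _).trans ?_
      have : ‖I * (S : ℂ)‖ = S := by simp [abs_of_pos hS]
      linarith
    have a2 : ‖ψ - 2 * I * S‖ ≤ S / 16 + 2 * S := by
      refine (norm_sub_le _ _).trans ?_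
      have : ‖2 * I * (S : ℂ)‖ = 2 * S := by simp [abs_of_pos hS]
      linarith
    calc ‖ψ - I * S‖ * ‖ψ - 2 * I * S‖ ≤ (S / 16 + S) * (S / 16 + 2 * S) :=
          mul_le_mul a1 a2 (norm_nonneg _) (by positivity)
      _ ≤ 3 * S ^ 2 := by nlinarith
  rw [him, div_le_div_iff₀ (by positivity) hN0]
  calc ψ.re * ‖plN S ψ‖ ≤ ψ.re * (3 * S ^ 2) := mul_le_mul_of_nonneg_left hN h0
    _ = ψ.re * S * (3 * S) := by ring

/-- The exponent of the barrier. -/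
noncomputable def plB (S τ e : ℝ) (ψ : ℂ) : ℂ :=
  -(τ * ψ) + ((e / 4 : ℝ) : ℂ) * (-I * log (plW S ψ) - ((1 / (196 * S) : ℝ) : ℂ) * ψ)

lemma plB_re (S τ e : ℝ) (ψ : ℂ) :
    (plB S τ e ψ).re = -(τ * ψ.re) + e / 4 * (arg (plW S ψ) - ψ.re / (196 * S)) := by
  rw [plB, add_re, neg_re, re_ofReal_mul, re_ofReal_mul, sub_re, re_ofReal_mul]
  simp [Complex.log_im]
  left; ring

lemma plB_diff {S X : ℝ} (hS : 0 < S) (hX : 0 < X) (τ e : ℝ) {ψ : ℂ}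
    (h : X ≤ ψ.re ∨ ‖ψ‖ ≤ S / 2 ∨ 4 * S ≤ ‖ψ‖) : DifferentiableAt ℂ (plB S τ e) ψ := by
  have hw : DifferentiableAt ℂ (plW S) ψ := by
    unfold plW
    exact DifferentiableAt.div (by fun_prop) (by fun_prop) (pl_ne hS hX h)
  have hl : DifferentiableAt ℂ (fun ψ => log (plW S ψ)) ψ := hw.clog (pl_slit hS hX h)
  unfold plB
  fun_prop

lemma norm_mul_exp_le_one {a b : ℂ} (h : ‖a‖ ≤ 1 ∧ b.re ≤ 0 ∨ Real.log ‖a‖ + b.re ≤ 0) :
    ‖a * exp b‖ ≤ 1 := by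
  rw [norm_mul, Complex.norm_exp]
  rcases h with h | h
  · have : Real.exp b.re ≤ 1 := Real.exp_le_one_iff.2 h.2
    exact mul_le_one₀ h.1 (Real.exp_pos _).le this
  · rcases (norm_nonneg a).eq_or_lt with h0 | h0
    · rw [← h0]; simp
    · rw [← Real.exp_log h0, ← Real.exp_add]
      exact Real.exp_le_one_iff.2 h

theorem pl_step {h Ψ : ℂ → ℂ} {W : Set ℂ} (hW : IsOpen W) (hh : DifferentiableOn ℂ h W)
    (hΨ : DifferentiableOn ℂ Ψ W)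
    (hc : ∀ R : ℝ, ∃ C, IsCompact C ∧ C ⊆ W ∧ ∀ z ∈ W, 1 < ‖h z‖ → ‖Ψ z‖ ≤ R → z ∈ C)
    {S τ X e : ℝ} (hS : 0 < S) (hX : 0 < X) (hXS : X ≤ S / 2) (he : 0 ≤ e) (heX : e ≤ τ * X)
    (h1 : ∀ z ∈ W, 1 < ‖h z‖ → ‖Ψ z‖ ≤ 16 * S →
      0 < (Ψ z).re ∧ Real.log ‖h z‖ ≤ τ * (Ψ z).re)
    (h2 : ∀ z ∈ W, 1 < ‖h z‖ → S / 2 ≤ ‖Ψ z‖ → ‖Ψ z‖ ≤ 4 * S → (Ψ z).re ≤ X →
      Real.log ‖h z‖ ≤ τ * (Ψ z).re - e * (Ψ z).re / X) :
    ∀ z ∈ W, 1 < ‖h z‖ → ‖Ψ z‖ ≤ S / 16 →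
      Real.log ‖h z‖ ≤ (τ - e / (14 * S)) * (Ψ z).re := by
  intro z₀ hz₀ hh₀ hΨ₀
  obtain ⟨C, hCc, hCW, hC⟩ := hc (16 * S)
  let Φ : ℂ → ℂ × ℂ := fun z => (h z, Ψ z)
  have hΦ : ContinuousOn Φ W := hh.continuousOn.prodMk hΨ.continuousOn
  let O : Set (ℂ × ℂ) := {p | 1 < ‖p.1‖ ∧ ‖p.2‖ < 16 * S ∧
    (X < p.2.re ∨ ‖p.2‖ < S / 2 ∨ 4 * S < ‖p.2‖)}
  let K : Set (ℂ × ℂ) := {p | ‖p.2‖ ≤ 16 * S ∧ 0 ≤ p.2.re ∧
    (X ≤ p.2.re ∨ ‖p.2‖ ≤ S / 2 ∨ 4 * S ≤ ‖p.2‖)}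
  have c1 : Continuous fun p : ℂ × ℂ => ‖p.1‖ := by fun_prop
  have c2 : Continuous fun p : ℂ × ℂ => ‖p.2‖ := by fun_prop
  have c3 : Continuous fun p : ℂ × ℂ => p.2.re := by fun_prop
  have hO : IsOpen O :=
    (isOpen_lt continuous_const c1).inter ((isOpen_lt c2 continuous_const).inter
      ((isOpen_lt continuous_const c3).union
        ((isOpen_lt c2 continuous_const).union (isOpen_lt continuous_const c2))))
  have hK : IsClosed K :=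
    (isClosed_le c2 continuous_const).inter ((isClosed_le continuous_const c3).inter
      ((isClosed_le continuous_const c3).union
        ((isClosed_le c2 continuous_const).union (isClosed_le continuous_const c2))))
  set U : Set ℂ := W ∩ Φ ⁻¹' O with hU
  have hUo : IsOpen U := hΦ.isOpen_inter_preimage hW hO
  have hUC : U ⊆ C := fun z hz => hC z hz.1 hz.2.1 hz.2.2.1.le
  have hcl : closure U ⊆ W := (closure_minimal hUC hCc.isClosed).trans hCW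
  have hUK : Φ '' U ⊆ K := by
    rintro _ ⟨z, hz, rfl⟩
    refine ⟨hz.2.2.1.le, (h1 z hz.1 hz.2.1 hz.2.2.1.le).1.le, ?_⟩
    rcases hz.2.2.2 with h | h | h
    · exact Or.inl h.le
    · exact Or.inr (Or.inl h.le)
    · exact Or.inr (Or.inr h.le)
  have hclK : ∀ z ∈ closure U, Φ z ∈ K := fun z hz =>
    closure_minimal hUK hK (mem_closure_image (hΦ.continuousAt (hW.mem_nhds (hcl hz))) hz)
  let F : ℂ → ℂ := fun z => h z * exp (plB S τ e (Ψ z))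
  have hF : DiffContOnCl ℂ F U := by
    apply DifferentiableOn.diffContOnCl
    intro z hz
    have a1 : DifferentiableAt ℂ h z := hh.differentiableAt (hW.mem_nhds (hcl hz))
    have a2 : DifferentiableAt ℂ Ψ z := hΨ.differentiableAt (hW.mem_nhds (hcl hz))
    have a3 : DifferentiableAt ℂ (fun z => plB S τ e (Ψ z)) z :=
      (plB_diff hS hX τ e (hclK z hz).2.2).comp z a2
    exact (a1.mul a3.cexp).differentiableWithinAt
  have hfr : ∀ z ∈ frontier U, ‖F z‖ ≤ 1 := by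
    intro z hz
    have hzc : z ∈ closure U := frontier_subset_closure hz
    have hzn : z ∉ U := by
      rw [hUo.frontier_eq] at hz
      exact hz.2
    have hzW := hcl hzc
    obtain ⟨k1, k2, k3⟩ := hclK z hzc
    change ‖Ψ z‖ ≤ 16 * S at k1
    change 0 ≤ (Ψ z).re at k2
    change X ≤ (Ψ z).re ∨ ‖Ψ z‖ ≤ S / 2 ∨ 4 * S ≤ ‖Ψ z‖ at k3
    have ha := pl_arg_le hS hX hXS k2 k3
    have hq : 0 ≤ (Ψ z).re / (196 * S) := by positivity
    have hb : e / 4 * (arg (plW S (Ψ z)) - (Ψ z).re / (196 * S)) ≤ e * (Ψ z).re / X := by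
      calc e / 4 * (arg (plW S (Ψ z)) - (Ψ z).re / (196 * S))
          ≤ e / 4 * (4 * ((Ψ z).re / X)) :=
            mul_le_mul_of_nonneg_left (by linarith) (by positivity)
        _ = e * (Ψ z).re / X := by ring
    apply norm_mul_exp_le_one
    rw [plB_re]
    by_cases hz1 : 1 < ‖h z‖
    · right
      by_cases hz2 : ‖Ψ z‖ < 16 * S
      · have hz3 : ¬(X < (Ψ z).re ∨ ‖Ψ z‖ < S / 2 ∨ 4 * S < ‖Ψ z‖) :=
          fun h3 => hzn ⟨hzW, hz1, hz2, h3⟩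
        push Not at hz3
        have := h2 z hzW hz1 hz3.2.1 hz3.2.2 hz3.1
        linarith
      · have hf := pl_arg_far hS k2 (not_lt.1 hz2)
        have := (h1 z hzW hz1 k1).2
        have h5 : e / 4 * (arg (plW S (Ψ z)) - (Ψ z).re / (196 * S)) ≤ 0 :=
          mul_nonpos_of_nonneg_of_nonpos (by positivity) (by linarith)
        linarith
    · left
      refine ⟨not_lt.1 hz1, ?_⟩
      have : e * (Ψ z).re / X ≤ τ * (Ψ z).re := by
        rw [div_le_iff₀ hX]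
        nlinarith
      linarith
  have hz₀U : z₀ ∈ U :=
    ⟨hz₀, hh₀, by change ‖Ψ z₀‖ < 16 * S; linarith,
      Or.inr (Or.inl (by change ‖Ψ z₀‖ < S / 2; linarith))⟩
  have hm := Complex.norm_le_of_forall_mem_frontier_norm_le
    (hCc.isBounded.subset hUC) hF hfr (subset_closure hz₀U)
  have hx : 0 ≤ (Ψ z₀).re := (h1 z₀ hz₀ hh₀ (by linarith)).1.le
  have hn := pl_arg_near hS hx hΨ₀
  have hlog : Real.log ‖h z₀‖ + (plB S τ e (Ψ z₀)).re ≤ 0 := by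
    have h0 : 0 < ‖h z₀‖ := by linarith
    simp only [F] at hm
    rw [norm_mul, Complex.norm_exp, ← Real.exp_log h0, ← Real.exp_add] at hm
    exact Real.exp_le_one_iff.1 hm
  rw [plB_re] at hlog
  have hy : 0 ≤ (Ψ z₀).re / S := by positivity
  have e1 : (Ψ z₀).re / (3 * S) = 1 / 3 * ((Ψ z₀).re / S) := by field_simp
  have e2 : (Ψ z₀).re / (196 * S) = 1 / 196 * ((Ψ z₀).re / S) := by field_simp
  have e3 : (τ - e / (14 * S)) * (Ψ z₀).re = τ * (Ψ z₀).re - e * (1 / 14 * ((Ψ z₀).re / S)) := by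
    field_simp
  rw [e1] at hn
  rw [e2] at hlog
  rw [e3]
  have : e * (1 / 14 * ((Ψ z₀).re / S)) ≤
      e / 4 * (arg (plW S (Ψ z₀)) - 1 / 196 * ((Ψ z₀).re / S)) := by
    calc e * (1 / 14 * ((Ψ z₀).re / S)) = e / 4 * (4 / 14 * ((Ψ z₀).re / S)) := by ring
      _ ≤ _ := mul_le_mul_of_nonneg_left (by linarith) (by positivity)
  linarith

end Pool.Agent.P.MP_0134b7_an
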