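import Pool.Agent.P.MP_0134b7_an.RMap

/-!
The scale sequences and the barrier function.
-/

open Set Filter Topology MeasureTheory Complex
open scoped Real

namespace Pool.Agent.P.MP_0134b7_an

/-- The local exponent. -/
noncomputable def gq (ρ : ℕ → ℝ) (j : ℕ) : ℝ := 1 / (1 - 2 * ρ j)

/-- The size of the barrier on a block. -/
noncomputable def Mq (ρ : ℕ → ℝ) (j : ℕ) : ℝ := 2 ^ j * kq ρ j

/-- The samples lie in `[0, θ]`. -/
def Sm (ρ : ℕ → ℝ) (θ : ℝ) : Prop := θ < 1 / 2 ∧ ∀ j, 0 ≤ ρ j ∧ ρ j ≤ θ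

variable {ρ : ℕ → ℝ} {θ : ℝ}

theorem Sm.pos (h : Sm ρ θ) (j : ℕ) : 0 < 1 - 2 * ρ j := by linarith [h.1, (h.2 j).2]

theorem Sm.one_le (h : Sm ρ θ) (j : ℕ) : 1 ≤ gq ρ j := by
  rw [gq, le_div_iff₀ (h.pos j)]
  linarith [(h.2 j).1]

theorem Sm.gq_le (h : Sm ρ θ) (j : ℕ) : gq ρ j ≤ 1 / (1 - 2 * θ) :=
  one_div_le_one_div_of_le (by linarith [h.1]) (by linarith [(h.2 j).2])

theorem Sm.gq_mul (h : Sm ρ θ) (j : ℕ) : gq ρ j * (1 - 2 * ρ j) = 1 :=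
  one_div_mul_cancel (h.pos j).ne'

theorem Sm.kq_succ (h : Sm ρ θ) (j : ℕ) : kq ρ (j + 1) = kq ρ j * (2 : ℝ) ^ (gq ρ j - 1) := by
  rw [MP_0134b7_an.kq_succ, gq]
  have := (h.pos j).ne'
  congr 2
  field_simp
  ring

theorem Mq_pos (ρ : ℕ → ℝ) (j : ℕ) : 0 < Mq ρ j := mul_pos (by positivity) (kq_pos ρ j)

theorem Mq_zero (ρ : ℕ → ℝ) : Mq ρ 0 = 1 := by simp [Mq, kq_zero]

theorem Sm.Mq_succ (h : Sm ρ θ) (j : ℕ) : Mq ρ (j + 1) = Mq ρ j * (2 : ℝ) ^ gq ρ j := by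
  rw [Mq, Mq, h.kq_succ, Real.rpow_sub_one two_ne_zero]
  ring

theorem Sm.kq_mono (h : Sm ρ θ) : Monotone (kq ρ) := monotone_nat_of_le_succ fun j => by
  rw [h.kq_succ]
  exact le_mul_of_one_le_right (kq_pos ρ j).le
    (Real.one_le_rpow one_le_two (by linarith [h.one_le j]))

theorem Sm.one_le_kq (h : Sm ρ θ) (j : ℕ) : 1 ≤ kq ρ j := kq_zero ρ ▸ h.kq_mono (Nat.zero_le j)

theorem Sm.rpow_le (h : Sm ρ θ) (j : ℕ) : (2 : ℝ) ^ gq ρ j ≤ 2 ^ (1 / (1 - 2 * θ)) :=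
  Real.rpow_le_rpow_of_exponent_le one_le_two (h.gq_le j)

theorem Sm.kq_le (h : Sm ρ θ) (j : ℕ) : kq ρ (j + 1) ≤ 2 ^ (1 / (1 - 2 * θ)) * kq ρ j := by
  rw [h.kq_succ, mul_comm]
  exact mul_le_mul_of_nonneg_right (Real.rpow_le_rpow_of_exponent_le one_le_two
    (by linarith [h.gq_le j])) (kq_pos ρ j).le

theorem Sm.two_mul_le (h : Sm ρ θ) (j : ℕ) : 2 * Mq ρ j ≤ Mq ρ (j + 1) := by
  rw [h.Mq_succ, mul_comm]
  refine mul_le_mul_of_nonneg_left ?_ (Mq_pos ρ j).le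
  simpa using Real.rpow_le_rpow_of_exponent_le one_le_two (h.one_le j)

theorem Sm.Mq_le (h : Sm ρ θ) (j : ℕ) : Mq ρ (j + 1) ≤ 2 ^ (1 / (1 - 2 * θ)) * Mq ρ j := by
  rw [h.Mq_succ, mul_comm]
  exact mul_le_mul_of_nonneg_right (h.rpow_le j) (Mq_pos ρ j).le

theorem Sm.pow_le (h : Sm ρ θ) (j : ℕ) : 2 ^ j ≤ Mq ρ j :=
  le_mul_of_one_le_right (by positivity) (h.one_le_kq j)

theorem Sm.log_ratio (h : Sm ρ θ) (j : ℕ) :
    Real.log (Mq ρ (j + 1) / Mq ρ j) = gq ρ j * Real.log 2 := by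
  rw [h.Mq_succ, mul_div_cancel_left₀ _ (Mq_pos ρ j).ne', Real.log_rpow two_pos]

theorem Sm.log_Mq (h : Sm ρ θ) (j : ℕ) :
    Real.log (Mq ρ j) = ∑ i ∈ Finset.range j, gq ρ i * Real.log 2 := by
  induction j with
  | zero => simp [Mq_zero]
  | succ j ih =>
    rw [Finset.sum_range_succ, ← ih, ← h.log_ratio,
      Real.log_div (Mq_pos ρ _).ne' (Mq_pos ρ _).ne']
    ring

theorem Sm.gq_diff (h : Sm ρ θ) (j : ℕ) :
    |gq ρ (j + 1) - gq ρ j| ≤ 2 * (1 / (1 - 2 * θ)) ^ 2 * |ρ (j + 1) - ρ j| := by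
  have e : gq ρ (j + 1) - gq ρ j = 2 * (gq ρ (j + 1) * gq ρ j) * (ρ (j + 1) - ρ j) := by
    have h1 := (h.pos j).ne'
    have h2 := (h.pos (j + 1)).ne'
    unfold gq
    field_simp
    ring
  have h1 := h.one_le j
  have h2 := h.one_le (j + 1)
  rw [e, abs_mul, abs_of_nonneg (by positivity)]
  refine mul_le_mul_of_nonneg_right ?_ (abs_nonneg _)
  nlinarith [h.gq_le j, h.gq_le (j + 1), mul_le_mul (h.gq_le j) (h.gq_le (j + 1)) (by positivity)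
    (by linarith [h.gq_le j])]

theorem re_im_of_map {Θ u : ℂ} {R p S q ε : ℝ} (hR : 0 < R)
    (h : ‖Θ - (p * log (u / R) + S + q * I)‖ ≤ ε) :
    |Θ.re - (p * Real.log (‖u‖ / R) + S)| ≤ ε ∧ |Θ.im - (p * arg u + q)| ≤ ε := by
  have h1 := (abs_re_le_norm _).trans h
  have h2 := (abs_im_le_norm _).trans h
  have e1 : (log (u / R)).re = Real.log (‖u‖ / R) := by
    rw [log_re, norm_div, norm_real, Real.norm_of_nonneg hR.le]
  have e2 : (log (u / R)).im = arg u := by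
    rw [log_im, div_eq_inv_mul, ← ofReal_inv, arg_real_mul _ (inv_pos.2 hR)]
  simp only [sub_re, add_re, mul_re, ofReal_re, ofReal_im, zero_mul, sub_zero, I_re, mul_zero,
    I_im, mul_one, add_zero, e1, sub_self] at h1
  simp only [sub_im, add_im, mul_im, ofReal_re, ofReal_im, zero_mul, I_re, mul_zero,
    I_im, mul_one, add_zero, e2] at h2
  exact ⟨h1, h2⟩

theorem cos_ge {x m : ℝ} (h : m ≤ π / 2 - |x|) :
    (0 ≤ m → 2 / π * m ≤ Real.cos x) ∧ (m ≤ 0 → m ≤ Real.cos x) := by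
  rw [← Real.cos_abs, ← Real.sin_pi_div_two_sub]
  have hπ := Real.pi_pos
  have h1 : 0 ≤ π / 2 - |x| → 2 / π * (π / 2 - |x|) ≤ Real.sin (π / 2 - |x|) := fun h0 =>
    Real.mul_le_sin h0 (by linarith [abs_nonneg x])
  refine ⟨fun hm => le_trans (mul_le_mul_of_nonneg_left h (by positivity)) (h1 (hm.trans h)),
    fun hm => ?_⟩
  rcases le_total 0 (π / 2 - |x|) with h0 | h0
  · exact hm.trans (le_trans (by positivity) (h1 h0))
  · exact h.trans (Real.le_sin h0)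

theorem exists_barrier (hθ : θ < 1 / 2) : ∃ ζ C₀ : ℝ, 0 < ζ ∧ 0 < C₀ ∧
    ∀ (ρ e : ℕ → ℝ) (r₀ : ℝ), 0 < r₀ → Sm ρ θ → (∀ j, 0 ≤ e j) → Summable e → ∑' j, e j ≤ ζ →
      (∀ j, |ρ (j + 1) - ρ j| ≤ e j) →
      ∃ ψ Ψ : ℂ → ℂ, DifferentiableOn ℂ ψ {z | 0 < z.re} ∧ (∀ z, ψ z ≠ 0) ∧
        DifferentiableOn ℂ Ψ {z | 0 < z.re ∧ -(‖ψ z‖ / 2) < (ψ z).re} ∧
        ∀ (j : ℕ) (z : ℂ) (μ : ℝ), 0 < z.re → 2 ^ j * r₀ ≤ ‖z‖ → ‖z‖ ≤ 2 ^ (j + 1) * r₀ →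
          0 ≤ μ → μ ≤ π / 2 + arg z → μ ≤ π / 2 - arg z - 2 * π * (ρ j - e j) →
          -(‖ψ z‖ / 4) ≤ (ψ z).re ∧ Mq ρ j / 6 ≤ ‖Ψ z‖ ∧ ‖Ψ z‖ ≤ C₀ * Mq ρ j ∧
            Mq ρ j * μ / 5 ≤ (Ψ z).re := by
  set g : ℝ := 1 / (1 - 2 * θ) with hg
  have hg0 : 0 < g := one_div_pos.2 (by linarith)
  set Q : ℝ := 2 ^ g with hQ
  have hQ1 : 1 ≤ Q := Real.one_le_rpow one_le_two hg0.le
  have hπ := Real.pi_pos
  have hπ4 := Real.pi_le_four
  refine ⟨1 / (4 * (144 * Q) * (8 * g + 24 * g ^ 2)), 5 * Q, by positivity, by positivity,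
    fun ρ e r₀ hr h he0 he hζ hd => ?_⟩
  have hR : ∀ k : ℕ, 2 * (2 ^ k * r₀) ≤ 2 ^ (k + 1) * r₀ := fun k => le_of_eq (by ring)
  obtain ⟨Θ, ε, hΘ, hε0, hε, hεs, hm⟩ := exists_map (R := fun k => 2 ^ k * r₀) (p := gq ρ)
    (q := fun k => π * ((gq ρ k - 1) / 2)) (e := fun k => 6 * g ^ 2 * e k) (by simpa using hr) hR
    (he.mul_left _) fun k => by
      have h1 := (h.gq_diff k).trans (mul_le_mul_of_nonneg_left (hd k) (by positivity))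
      rw [show π * ((gq ρ (k + 1) - 1) / 2) - π * ((gq ρ k - 1) / 2) =
        π / 2 * (gq ρ (k + 1) - gq ρ k) by ring, abs_mul, abs_of_pos (by positivity : 0 < π / 2)]
      linarith [mul_le_mul_of_nonneg_right hπ4 (abs_nonneg (gq ρ (k + 1) - gq ρ k))]
  rw [tsum_mul_left] at hεs
  set ε' : ℕ → ℝ := fun j => 8 * g * e j + ε j with hε'
  have hε'0 : ∀ j, 0 ≤ ε' j := fun j => add_nonneg (mul_nonneg (by positivity) (he0 j)) (hε0 j)
  have hε's : Summable ε' := (he.mul_left _).add hε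
  have hε't : 144 * Q * ∑' j, ε' j ≤ 1 / 4 := by
    rw [hε', (he.mul_left _).tsum_add hε, tsum_mul_left]
    have h1 : 8 * g * ∑' j, e j + ∑' j, ε j ≤ (8 * g + 24 * g ^ 2) * ∑' j, e j := by linarith
    have h2 := mul_le_mul_of_nonneg_left hζ
      (by positivity : 0 ≤ 144 * Q * (8 * g + 24 * g ^ 2))
    rw [show 144 * Q * (8 * g + 24 * g ^ 2) * (1 / (4 * (144 * Q) * (8 * g + 24 * g ^ 2))) =
      1 / 4 by field_simp] at h2
    linarith [mul_le_mul_of_nonneg_left h1 (by positivity : 0 ≤ 144 * Q)]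
  have hε'4 : ∀ j, ε' j ≤ 1 / 4 := fun j => by
    have h1 := hε's.le_tsum j fun k _ => hε'0 k
    have h2 : 0 ≤ ∑' j, ε' j := tsum_nonneg hε'0
    linarith [mul_le_mul_of_nonneg_right hQ1 h2]
  have hDM : ∀ k, 144 * Q * ε' k * Mq ρ k / Mq ρ k = 144 * Q * ε' k := fun k =>
    mul_div_cancel_right₀ _ (Mq_pos ρ k).ne'
  obtain ⟨P, hP, hPb⟩ := exists_kernel (M := Mq ρ) (D := fun k => 144 * Q * ε' k * Mq ρ k)
    (Mq_pos ρ) (fun k => mul_nonneg (mul_nonneg (by positivity) (hε'0 k)) (Mq_pos ρ k).le)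
    (by simpa only [hDM] using hε's.mul_left _) (by simpa only [hDM, tsum_mul_left] using hε't)
  have hψ : DifferentiableOn ℂ (fun z => exp (Θ z)) {z | 0 < z.re} := hΘ.cexp
  refine ⟨fun z => exp (Θ z), fun z => exp (Θ z) + P (exp (Θ z)), hψ, fun z => exp_ne_zero _,
    (hψ.mono fun z hz => hz.1).add (hP.comp (hψ.mono fun z hz => hz.1) fun z hz => hz.2),
    fun j z μ hz h1 h2 hμ hμ1 hμ2 => ?_⟩
  have hz0 : z ≠ 0 := fun h => by simp [h] at hz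
  have hrj : 0 < 2 ^ j * r₀ := by positivity
  obtain ⟨a1, a2⟩ := re_im_of_map hrj (hm j z hz h1 h2)
  have hS : ∑ i ∈ Finset.range j, gq ρ i * Real.log (2 ^ (i + 1) * r₀ / (2 ^ i * r₀)) =
      Real.log (Mq ρ j) := by
    rw [h.log_Mq]
    refine Finset.sum_congr rfl fun i _ => ?_
    rw [show (2 : ℝ) ^ (i + 1) * r₀ / (2 ^ i * r₀) = 2 by field_simp; ring]
  rw [hS] at a1
  have hγ1 := h.one_le j
  have hγ2 : gq ρ j ≤ g := h.gq_le j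
  have hγ3 := h.gq_mul j
  have hM := Mq_pos ρ j
  have hεj : ε j ≤ 1 := by
    have := hε'4 j
    have := mul_nonneg (by positivity : 0 ≤ 8 * g) (he0 j)
    simp only [hε'] at *
    linarith
  have l0 : 0 ≤ Real.log (‖z‖ / (2 ^ j * r₀)) := Real.log_nonneg ((one_le_div hrj).2 h1)
  have l1 : Real.log (‖z‖ / (2 ^ j * r₀)) ≤ Real.log 2 :=
    Real.log_le_log (div_pos (norm_pos_iff.2 hz0) hrj)
      (by rw [div_le_iff₀ hrj]; exact h2.trans_eq (by ring))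
  have he3 : Real.exp 1 ≤ 3 := Real.exp_one_lt_three.le
  set ψ := exp (Θ z) with hψz
  have n1 : Mq ρ j / 3 ≤ ‖ψ‖ := by
    rw [hψz, norm_exp]
    have b1 : Real.log (Mq ρ j) ≤ (Θ z).re + 1 := by
      linarith [(abs_le.1 a1).1, mul_nonneg (zero_le_one.trans hγ1) l0]
    have b2 := Real.exp_le_exp.2 b1
    rw [Real.exp_log hM, Real.exp_add] at b2
    linarith [mul_le_mul_of_nonneg_left he3 (Real.exp_pos (Θ z).re).le]
  have n2 : ‖ψ‖ ≤ 3 * Q * Mq ρ j := by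
    rw [hψz, norm_exp]
    have b1 : (Θ z).re ≤ Real.log 2 * g + Real.log (Mq ρ j) + 1 := by
      linarith [(abs_le.1 a1).2, mul_le_mul hγ2 l1 l0 hg0.le]
    have b2 := Real.exp_le_exp.2 b1
    rw [Real.exp_add, Real.exp_add, Real.exp_log hM, ← Real.rpow_def_of_pos two_pos] at b2
    linarith [mul_le_mul_of_nonneg_left he3 (mul_pos (by positivity : 0 < Q) hM).le]
  have hang : μ - ε' j ≤ π / 2 - |(Θ z).im| := by
    have c1 : gq ρ j * μ ≤ gq ρ j * (π / 2 + arg z) := mul_le_mul_of_nonneg_left hμ1 (by linarith)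
    have c2 : gq ρ j * μ ≤ gq ρ j * (π / 2 - arg z - 2 * π * (ρ j - e j)) :=
      mul_le_mul_of_nonneg_left hμ2 (by linarith)
    have c3 : μ ≤ gq ρ j * μ := le_mul_of_one_le_left hμ hγ1
    have c4 : gq ρ j * (2 * π) * e j ≤ 8 * g * e j :=
      mul_le_mul_of_nonneg_right
        (by linarith [mul_le_mul hγ2 hπ4 hπ.le hg0.le]) (he0 j)
    have c5 : π * (gq ρ j * ρ j) = π * ((gq ρ j - 1) / 2) := by
      congr 1
      linarith
    have c6 := mul_nonneg (by positivity : 0 ≤ 8 * g) (he0 j)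
    rw [le_sub_comm, abs_le]
    simp only [hε']
    have c7 : π / 2 * gq ρ j - π / 2 = π * (gq ρ j * ρ j) := by rw [c5]; ring
    have c8 : 0 ≤ π * (gq ρ j * ρ j) := mul_nonneg hπ.le (mul_nonneg (by linarith) (h.2 j).1)
    constructor <;> linarith [(abs_le.1 a2).1, (abs_le.1 a2).2]
  have hre : ψ.re = ‖ψ‖ * Real.cos (Θ z).im := by rw [hψz, exp_re, norm_exp]
  have hn0 : 0 ≤ ‖ψ‖ := norm_nonneg _
  have r1 : -(‖ψ‖ * ε' j) ≤ ψ.re := by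
    rw [hre, ← mul_neg]
    exact mul_le_mul_of_nonneg_left ((cos_ge (m := -ε' j) (by linarith)).2
      (by linarith [hε'0 j])) hn0
  have r2 : -(‖ψ‖ / 4) ≤ ψ.re := by linarith [mul_le_mul_of_nonneg_left (hε'4 j) hn0]
  obtain ⟨p1, -, p3⟩ := hPb ψ (by linarith)
  have p4 := p3 j
  have q1 : (1 / 4 : ℝ) ^ 2 ≤ (‖ψ‖ / (‖ψ‖ + Mq ρ j)) ^ 2 :=
    pow_le_pow_left₀ (by norm_num) (by rw [le_div_iff₀ (by positivity)]; linarith) 2
  have q2 : 3 * (‖ψ‖ * ε' j) ≤ 144 * Q * ε' j * Mq ρ j * (‖ψ‖ / (‖ψ‖ + Mq ρ j)) ^ 2 := by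
    have := mul_le_mul_of_nonneg_left q1 (mul_nonneg (mul_nonneg
      (by positivity : 0 ≤ 144 * Q) (hε'0 j)) hM.le)
    linarith [mul_le_mul_of_nonneg_right n2 (hε'0 j)]
  refine ⟨r2, ?_, ?_, ?_⟩
  · have := norm_sub_le (ψ + P ψ) (P ψ)
    rw [add_sub_cancel_right] at this
    linarith
  · linarith [norm_add_le ψ (P ψ), mul_pos (by positivity : 0 < Q) hM]
  · rw [add_re]
    have t0 := mul_nonneg hn0 (hε'0 j)
    have t1 : Mq ρ j * μ / 3 ≤ ‖ψ‖ * μ := by linarith [mul_le_mul_of_nonneg_right n1 hμ]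
    have t2 : 0 ≤ Mq ρ j * μ := by positivity
    rcases le_total 0 (μ - ε' j) with hc | hc
    · have c1 := (cos_ge hang).1 hc
      have c2 : 3 / 5 * (μ - ε' j) ≤ Real.cos (Θ z).im := by
        refine le_trans (mul_le_mul_of_nonneg_right ?_ hc) c1
        rw [div_le_div_iff₀ (by norm_num) hπ]
        linarith [Real.pi_lt_d2]
      have c3 := mul_le_mul_of_nonneg_left c2 hn0
      rw [← hre] at c3
      rw [min_eq_right (le_trans (by positivity) c3)] at p4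
      linarith
    · have c1 : -(‖ψ‖ * ε' j) ≤ min ψ.re 0 := le_min r1 (by linarith)
      have c2 : ‖ψ‖ * μ ≤ ‖ψ‖ * ε' j := mul_le_mul_of_nonneg_left (by linarith) hn0
      linarith

end Pool.Agent.P.MP_0134b7_an
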