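import Pool.Agent.P.MP_0134b7_an.RGeoB
import Pool.Agent.P.MP_0134b7_an.RGeoC
import Pool.Agent.P.MP_0134b7_an.RSeq

/-!
The shift by one period.
-/

open Set Filter Topology MeasureTheory Complex
open scoped Real

namespace Pool.Agent.P.MP_0134b7_an

variable {L : ℂ → ℂ} {r δ K CF : ℝ} {β : ℕ → ℝ}

theorem Nice.far (h : Nice L r δ K CF β) (U : ℝ) :
    ∃ B : ℝ, 2 * r ≤ B ∧ ∀ z ∈ dom r, B ≤ ‖z‖ → U < (L z).re := by
  have hr := h.r_pos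
  have hδ := h.δ_pos
  set t := max ((U + CF + 1) / δ) 0 with ht
  have h1 : 1 ≤ Real.exp t := Real.one_le_exp (le_max_right _ _)
  refine ⟨2 * r * Real.exp t, by nlinarith, fun z hz hB => ?_⟩
  have h2 := h.growth hz (by nlinarith)
  have h3 : t ≤ Real.log (‖z‖ / (2 * r)) := by
    rw [Real.le_log_iff_exp_le (div_pos (by nlinarith) (by positivity)), le_div_iff₀ (by positivity)]
    linarith
  have h4 : (U + CF + 1) / δ ≤ t := le_max_left _ _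
  rw [div_le_iff₀ hδ] at h4
  nlinarith

theorem close_of_log {z : ℂ} {R e : ℝ} {b : ℂ}
    (hcl : ∀ w ∈ dom r, |Real.log ‖w‖ - R| ≤ 2 + 2 * π / δ → ‖(idx L w)⁻¹ - b‖ ≤ e)
    (hz : |Real.log ‖z‖ - R| ≤ 2) :
    ∀ w ∈ dom r, ‖log w - log z‖ ≤ 2 * π / δ → ‖(idx L w)⁻¹ - b‖ ≤ e := fun w hw h1 => by
  refine hcl w hw ?_
  have h2 := (abs_re_le_norm _).trans h1
  rw [sub_re, log_re, log_re] at h2
  linarith [abs_sub_le (Real.log ‖w‖) (Real.log ‖z‖) R]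

theorem log_block {x R : ℝ} (hR : 0 < R) (h1 : R ≤ x) (h2 : x ≤ 2 * R) :
    |Real.log x - Real.log R| ≤ 2 := by
  have hx : 0 < x := hR.trans_le h1
  rw [← Real.log_div hx.ne' hR.ne', abs_of_nonneg (Real.log_nonneg ((one_le_div hR).2 h1))]
  have := Real.log_le_sub_one_of_pos (div_pos hx hR)
  have : x / R ≤ 2 := (div_le_iff₀ hR).2 h2
  linarith

theorem Nice.shift_arg (h : Nice L r δ K CF β) {U : ℝ}
    (hU : ∀ z ∈ dom r, U < (L z).re → 3 * r ≤ ‖z‖) {z s : ℂ} (hz : z ∈ dom r) (hs : s ∈ dom r)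
    (hzU : U < (L z).re) {e : ℝ} {b : ℂ} (he : L s = L z + 2 * π * I)
    (hb : ∀ w ∈ dom r, ‖log w - log z‖ ≤ 2 * π / δ → ‖(idx L w)⁻¹ - b‖ ≤ e) :
    |arg s - arg z - 2 * π * b.re| ≤ 2 * π * e ∧ arg z ≤ arg s ∧
      ‖s‖ ≤ ‖z‖ * Real.exp (2 * π / δ) ∧ ‖z‖ ≤ ‖s‖ * Real.exp (2 * π / δ) := by
  have hπ : 0 ≤ 2 * π := by positivity
  have he' : L s = L z + ((2 * π : ℝ) : ℂ) * I := by rw [he]; push_cast; ring
  have h1 := (abs_im_le_norm _).trans (h.move hU hz hs hzU he' hπ hb)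
  have h2 : ‖L s - L z‖ = 2 * π := by
    rw [he', add_sub_cancel_left, norm_mul, norm_I, mul_one, norm_real, Real.norm_of_nonneg hπ]
  refine ⟨?_, h.arg_le hz hs hπ he', h2 ▸ h.norm_le hz hs, ?_⟩
  · simpa [log_im] using h1
  · have := h.norm_le hs hz
    rwa [norm_sub_rev, h2] at this

theorem Nice.one_step (h : Nice L r δ K CF β) {U : ℝ}
    (hU : ∀ z ∈ dom r, U < (L z).re → 3 * r ≤ ‖z‖) {z s : ℂ} (hz : z ∈ dom r) (hs : s ∈ dom r)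
    (hzU : U < (L z).re) {n : ℕ} (he : L s = L z + 2 * π * I * (n + 1)) :
    ∃ w ∈ dom r, L w = L z + 2 * π * I := by
  have hπ := Real.pi_pos
  obtain ⟨w, hw, e⟩ := h.vert hU hz hs hzU (σ := 2 * π * (n + 1)) (τ := 2 * π)
    (by rw [he]; push_cast; ring) (by
      rw [uIcc_of_le (by positivity)]
      exact ⟨by positivity, by nlinarith [Nat.cast_nonneg (α := ℝ) n]⟩)
  exact ⟨w, hw, by rw [e]; push_cast; ring⟩

theorem re_le_arg {z : ℂ} (hz : 0 < z.re) :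
    z.re ≤ ‖z‖ * (π / 2 - arg z) ∧ z.re ≤ ‖z‖ * (π / 2 + arg z) := by
  have a := abs_lt.1 (abs_arg_lt_pi_div_two_iff.2 (Or.inl hz))
  rw [← norm_mul_cos_arg z]
  refine ⟨mul_le_mul_of_nonneg_left ?_ (norm_nonneg _), mul_le_mul_of_nonneg_left ?_ (norm_nonneg _)⟩
  · rw [← Real.sin_pi_div_two_sub]
    exact Real.sin_le (by linarith [a.2])
  · rw [← Real.sin_add_pi_div_two, add_comm]
    exact Real.sin_le (by linarith [a.1])

theorem Nice.lin (h : Nice L r δ K CF β) :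
    ∃ c : ℝ, 0 < c ∧ ∀ z : ℂ, r < z.re → 1 + ‖L z‖ ≤ c * (1 + ‖z‖) := by
  have hr := h.r_pos
  refine ⟨‖L (r + 1)‖ + r + 2, by positivity, fun z hz => ?_⟩
  have h1 := h.lip (z := r + 1) (w := z) (by simp) hz
  have h2 := norm_sub_norm_le (L z) (L (r + 1))
  have h3 := norm_sub_le z (r + 1)
  have h4 : ‖(r : ℂ) + 1‖ = r + 1 := by
    rw [← ofReal_one, ← ofReal_add, norm_real, Real.norm_of_nonneg (by positivity)]
  nlinarith [norm_nonneg (L (r + 1)), norm_nonneg z,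
    mul_nonneg (norm_nonneg (L (r + 1))) (norm_nonneg z)]

theorem two_pow_block (j₀ : ℕ) {x : ℝ} (hx : 2 ^ j₀ ≤ x) :
    ∃ j : ℕ, 2 ^ j * 2 ^ j₀ ≤ x ∧ x ≤ 2 ^ (j + 1) * 2 ^ j₀ :=
  exists_block (R := fun k => 2 ^ k * 2 ^ j₀) (by positivity) (fun k => le_of_eq (by ring))
    (by simpa using hx)

theorem le_of_two_pow {J j₀ : ℕ} (h : (2 : ℝ) ^ J ≤ 2 ^ j₀) : J ≤ j₀ :=
  (pow_le_pow_iff_right₀ one_lt_two).1 h

end Pool.Agent.P.MP_0134b7_an
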