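import Mathlib

/-!
Commutative algebras with a scale of seminorms and a derivation: the automorphisms
`h ↦ ∑ (-k) ^ m * D ^ m h / m !`.
-/

open Filter Topology Finset
open scoped Nat

set_option linter.unusedSectionVars false

namespace Pool.Agent.P.MP_0134b7_an

theorem lag {R : Type} [Ring R] {K T M : R} (hM : T * K - K * T = M) (hc : M * K = K * M)
    (q N : ℕ) (h : q < N) :
    ∑ x ∈ antidiagonal N, N.choose x.1 • ((-K) ^ x.1 * (T ^ q * K ^ x.2)) = 0 := by
  obtain ⟨ad, had⟩ : ∃ ad : Module.End ℤ R,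
      ad = LinearMap.mulLeft ℤ (-K) + LinearMap.mulRight ℤ K := ⟨_, rfl⟩
  have a0 : ∀ X, ad X = -K * X + X * K := fun X => by rw [had]; rfl
  have a1 : ∀ X, ad (T * X) = T * ad X + M * X := fun X => by
    rw [a0, a0, ← hM]
    noncomm_ring
  have a2 : ∀ X, ad (M * X) = M * ad X := fun X => by
    rw [a0, a0, mul_add, ← mul_assoc, ← mul_assoc, ← mul_assoc, neg_mul, mul_neg, hc]
  have a3 : ∀ N X, (ad ^ (N + 1)) (T * X) =
      T * (ad ^ (N + 1)) X + (N + 1) • (M * (ad ^ N) X) := fun N X => by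
    induction N with
    | zero => simpa using a1 X
    | succ N ih =>
      rw [pow_succ' ad (N + 1), Module.End.mul_apply, Module.End.mul_apply, ih, map_add,
        map_nsmul, a1, a2, ← Module.End.mul_apply ad (ad ^ N), ← pow_succ', succ_nsmul _ (N + 1)]
      abel
  have a4 : ∀ q N, q < N → (ad ^ N) (T ^ q) = 0 := fun q => by
    induction q with
    | zero =>
      intro N hN
      obtain ⟨N, rfl⟩ := Nat.exists_eq_succ_of_ne_zero hN.ne'
      rw [pow_succ, Module.End.mul_apply, a0]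
      simp
    | succ q ih =>
      intro N hN
      obtain ⟨N, rfl⟩ := Nat.exists_eq_succ_of_ne_zero (Nat.ne_zero_of_lt hN)
      rw [pow_succ' T, a3, ih _ (by omega), ih _ (by omega)]
      simp
  have := a4 q N h
  rw [had, (LinearMap.commute_mulLeft_right _ _).add_pow', LinearMap.sum_apply] at this
  simpa only [LinearMap.pow_mulLeft, LinearMap.pow_mulRight, LinearMap.smul_apply,
    Module.End.mul_apply, LinearMap.mulLeft_apply, LinearMap.mulRight_apply] using this

theorem fac_inv {N : ℕ} {x : ℕ × ℕ} (h : x ∈ antidiagonal N) :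
    ((x.1 ! : ℂ))⁻¹ * ((x.2 ! : ℂ))⁻¹ = ((N ! : ℂ))⁻¹ * N.choose x.1 := by
  rw [← mem_antidiagonal.1 h, Nat.choose_symm_add,
    ← Nat.add_choose_mul_factorial_mul_factorial x.1 x.2]
  have h1 : ((x.1 ! : ℕ) : ℂ) ≠ 0 := Nat.cast_ne_zero.2 (Nat.factorial_ne_zero _)
  have h2 : ((x.2 ! : ℕ) : ℂ) ≠ 0 := Nat.cast_ne_zero.2 (Nat.factorial_ne_zero _)
  have h3 : (((x.1 + x.2).choose x.2 : ℕ) : ℂ) ≠ 0 :=
    Nat.cast_ne_zero.2 (Nat.choose_pos (Nat.le_add_left _ _)).ne'
  push_cast
  field_simp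

/-- A scale of seminorms on a commutative algebra, with a derivation. -/
structure Scale (S : Type) [CommRing S] [Algebra ℂ S] where
  p : ℝ → Seminorm ℂ S
  one : ∀ C, p C 1 ≤ 1
  mul : ∀ C x y, p C (x * y) ≤ p C x * p C y
  mono : ∀ {C C' : ℝ}, C ≤ C' → ∀ x, p C x ≤ p C' x
  sep : ∀ x, x ≠ 0 → ∃ C, p C x ≠ 0
  complete : ∀ f : ℕ → S, (∀ C, Summable fun n => p C (f n)) →
    ∃ s, ∀ C, Tendsto (fun N => p C (∑ n ∈ range N, f n - s)) atTop (𝓝 0)
  D : Module.End ℂ S
  leib : ∀ x y, D (x * y) = x * D y + D x * y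
  Dle : ∀ C r, 0 < r → ∀ n x, p C ((D ^ n) x) ≤ n ! / r ^ n * p (C + r) x
  ker : ∀ x, D x = 0 → ∃ c : ℂ, x = algebraMap ℂ S c
  χ : S →ₐ[ℂ] ℂ
  χle : ∀ C x, ‖χ x‖ ≤ p C x
  u : S
  χu : χ u = 0
  Du : D u = u * u
  dense : ∀ C x, ∃ (c : ℂ) (q : S), p C (x - (algebraMap ℂ S c + u * q)) ≤ 1

/-- A scale that defines the topology. -/
structure TScale (S : Type) [CommRing S] [Algebra ℂ S] [TopologicalSpace S] extends Scale S where
  top : WithSeminorms p

variable {S : Type} [CommRing S] [Algebra ℂ S]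

namespace Scale

variable (A : Scale S)

theorem pow_le (C : ℝ) (x : S) (n : ℕ) : A.p C (x ^ n) ≤ A.p C x ^ n := by
  induction n with
  | zero => simpa using A.one C
  | succ n ih =>
    rw [pow_succ, pow_succ]
    exact (A.mul C _ _).trans (mul_le_mul_of_nonneg_right ih (apply_nonneg _ _))

theorem sum_le (C : ℝ) {ι : Type} (s : Finset ι) (f : ι → S) :
    A.p C (∑ i ∈ s, f i) ≤ ∑ i ∈ s, A.p C (f i) :=
  Finset.le_sum_of_subadditive (A.p C) (map_zero _).le (map_add_le_add _) s f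

theorem D_one : A.D 1 = 0 := by
  have := A.leib 1 1
  simpa using this

theorem D_pow_succ (x : S) (n : ℕ) : A.D (x ^ (n + 1)) = ((n : ℂ) + 1) • (x ^ n * A.D x) := by
  induction n with
  | zero => simp
  | succ n ih =>
    rw [pow_succ, A.leib, ih, smul_mul_assoc, Nat.cast_succ, add_smul ((n : ℂ) + 1), one_smul,
      add_comm, mul_right_comm, ← pow_succ]

theorem D_pow_u (n : ℕ) : (A.D ^ n) A.u = (n ! : ℂ) • A.u ^ (n + 1) := by
  induction n with
  | zero => simp
  | succ n ih =>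
    rw [pow_succ', Module.End.mul_apply, ih, map_smul, D_pow_succ, A.Du, smul_smul, ← mul_assoc,
      ← pow_succ, ← pow_succ, Nat.factorial_succ, Nat.cast_mul, Nat.cast_succ, mul_comm]

theorem nil (C R : ℝ) (hR : 0 < R) : ∃ K, ∀ n, A.p C (A.u ^ n) ≤ K / R ^ n := by
  refine ⟨max 1 (R * A.p (C + R) A.u), fun n => ?_⟩
  cases n with
  | zero => simpa using .inl (A.one C)
  | succ n =>
    have h := A.Dle C R hR n A.u
    rw [D_pow_u, map_smul_eq_mul, Complex.norm_natCast, div_eq_mul_inv, mul_assoc] at h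
    refine (le_of_mul_le_mul_left h (by positivity)).trans (le_trans (le_of_eq ?_)
      (div_le_div_of_nonneg_right (le_max_right _ _) (by positivity)))
    rw [pow_succ]
    field_simp

theorem D_pow_mul (x y : S) (n : ℕ) : (A.D ^ n) (x * y) =
    ∑ i ∈ antidiagonal n, n.choose i.1 • ((A.D ^ i.1) x * (A.D ^ i.2) y) := by
  induction n with
  | zero => simp
  | succ n ih =>
    rw [sum_antidiagonal_choose_succ_nsmul fun i j => (A.D ^ i) x * (A.D ^ j) y, pow_succ',
      Module.End.mul_apply, ih, map_sum, ← sum_add_distrib]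
    refine sum_congr rfl fun i hi => ?_
    rw [map_nsmul, A.leib, smul_add, pow_succ', pow_succ', Module.End.mul_apply,
      Module.End.mul_apply, ← mem_antidiagonal.1 hi, Nat.choose_symm_add]

/-- The terms of the series. -/
noncomputable def tt (k h : S) (m : ℕ) : S := (m ! : ℂ)⁻¹ • ((-k) ^ m * (A.D ^ m) h)

theorem aux_le (C : ℝ) (k h : S) (m : ℕ) :
    ‖((m ! : ℂ))⁻¹‖ * (A.p C k ^ m * A.p C ((A.D ^ m) h)) ≤
      (1 / 2) ^ m * A.p (C + (2 * A.p C k + 1)) h := by
  have h0 := apply_nonneg (A.p C) k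
  have h1 := A.Dle C (2 * A.p C k + 1) (by positivity) m h
  have h2 : (0 : ℝ) < m ! := by positivity
  rw [norm_inv, Complex.norm_natCast]
  refine (mul_le_mul_of_nonneg_left (mul_le_mul_of_nonneg_left h1 (by positivity))
    (by positivity)).trans ?_
  rw [← mul_assoc, ← mul_assoc]
  refine mul_le_mul_of_nonneg_right ?_ (apply_nonneg _ _)
  rw [show (m ! : ℝ)⁻¹ * A.p C k ^ m * (m ! / (2 * A.p C k + 1) ^ m) =
    (A.p C k / (2 * A.p C k + 1)) ^ m by rw [div_pow]; field_simp]
  refine pow_le_pow_left₀ (by positivity) ?_ m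
  rw [div_le_iff₀ (by positivity)]
  linarith

theorem tt_le (C : ℝ) (k h : S) (m : ℕ) :
    A.p C (A.tt k h m) ≤ (1 / 2) ^ m * A.p (C + (2 * A.p C k + 1)) h := by
  refine le_trans ?_ (A.aux_le C k h m)
  rw [tt, map_smul_eq_mul]
  refine mul_le_mul_of_nonneg_left ((A.mul C _ _).trans
    (mul_le_mul_of_nonneg_right ?_ (apply_nonneg _ _))) (norm_nonneg _)
  simpa using A.pow_le C (-k) m

theorem spec (k : S) : ∃ ρ, 0 < ρ ∧ ∀ C, ∃ M, ∀ n, A.p C (k ^ n) ≤ M * ρ ^ n := by
  refine ⟨‖A.χ k‖ + 2 + 1, by positivity, fun C => ?_⟩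
  obtain ⟨c, q, h⟩ := A.dense C k
  obtain ⟨K, hK⟩ := A.nil C (A.p C q + 1) (by positivity)
  have c1 : ‖c‖ ≤ ‖A.χ k‖ + 1 := by
    have := (A.χle C _).trans h
    rw [map_sub, map_add, map_mul, A.χu, zero_mul, add_zero, AlgHom.commutes] at this
    have h2 := norm_sub_norm_le c (A.χ k)
    rw [norm_sub_rev] at h2
    change ‖A.χ k - c‖ ≤ 1 at this
    linarith
  have c2 : A.p C (k - u A * q) ≤ ‖A.χ k‖ + 2 := by
    have h2 := map_add_le_add (A.p C) (k - (algebraMap ℂ S c + A.u * q)) (algebraMap ℂ S c)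
    rw [show k - (algebraMap ℂ S c + A.u * q) + algebraMap ℂ S c = k - A.u * q by ring,
      Algebra.algebraMap_eq_smul_one c, map_smul_eq_mul] at h2
    rw [Algebra.algebraMap_eq_smul_one c] at h
    nlinarith [A.one C, norm_nonneg c]
  have c3 : ∀ n, A.p C ((A.u * q) ^ n) ≤ K := fun n => by
    have h0 := apply_nonneg (A.p C) q
    have k0 : 0 ≤ K := by simpa using (apply_nonneg _ _).trans (hK 0)
    rw [mul_pow]
    refine (A.mul C _ _).trans ((mul_le_mul (hK n) ((A.pow_le C q n).trans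
      (pow_le_pow_left₀ h0 (by linarith : A.p C q ≤ A.p C q + 1) n)) (apply_nonneg _ _)
      (by positivity)).trans (le_of_eq ?_))
    field_simp
  refine ⟨K, fun n => ?_⟩
  rw [show k ^ n = (k - A.u * q + A.u * q) ^ n by rw [sub_add_cancel], add_pow, add_pow, mul_sum]
  refine (A.sum_le C _ _).trans (sum_le_sum fun i _ => ?_)
  rw [← nsmul_eq_mul', ← Nat.cast_smul_eq_nsmul ℂ, map_smul_eq_mul, Complex.norm_natCast, one_pow,
    mul_one, mul_comm, ← mul_assoc]
  refine mul_le_mul_of_nonneg_right ((A.mul C _ _).trans ?_) (Nat.cast_nonneg _)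
  rw [mul_comm K]
  exact mul_le_mul ((A.pow_le C _ i).trans (pow_le_pow_left₀ (apply_nonneg _ _) c2 i)) (c3 _)
    (apply_nonneg _ _) (by positivity)

theorem isTopologicalRing [TopologicalSpace S] (h : WithSeminorms A.p) : IsTopologicalRing S := by
  have := h.topologicalAddGroup
  have : ContinuousMul S := ⟨continuous_iff_continuousAt.2 fun z => ?_⟩
  · exact {}
  refine (h.tendsto_nhds _ _).2 fun C ε hε => ?_
  have c : Continuous fun w : S × S =>
      A.p C (w.1 - z.1) * A.p C w.2 + A.p C z.1 * A.p C (w.2 - z.2) :=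
    (((h.continuous_seminorm C).comp (by fun_prop)).mul
      ((h.continuous_seminorm C).comp continuous_snd)).add
      (continuous_const.mul ((h.continuous_seminorm C).comp (by fun_prop)))
  filter_upwards [(c.tendsto' z 0 (by simp)).eventually (gt_mem_nhds hε)] with w hw
  refine lt_of_le_of_lt ?_ hw
  rw [show w.1 * w.2 - z.1 * z.2 = (w.1 - z.1) * w.2 + z.1 * (w.2 - z.2) by ring]
  exact (map_add_le_add _ _ _).trans (add_le_add (A.mul C _ _) (A.mul C _ _))

end Scale

namespace TScale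

variable [TopologicalSpace S] [IsTopologicalRing S] [T3Space S] [ContinuousSMul ℂ S]
  (A : TScale S)

theorem summable_nat {f : ℕ → S} (hf : ∀ C, Summable fun n => A.p C (f n)) : Summable f := by
  obtain ⟨s, hs⟩ := A.complete f hf
  refine ⟨s, (A.top.tendsto_nhds _ _).2 fun C ε hε => ?_⟩
  obtain ⟨F, hF⟩ := summable_iff_vanishing_norm.1 (hf C) (ε / 2) (by positivity)
  refine (eventually_ge_atTop F).mono fun G hG => ?_
  obtain ⟨N, h1, h2⟩ := (((hs C).eventually (gt_mem_nhds (half_pos hε))).and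
    (tendsto_finset_range.eventually_ge_atTop G)).exists
  have h3 := hF (range N \ G) (disjoint_sdiff_self_left.mono_right hG)
  have h4 := map_sub_le_add (A.p C) (∑ n ∈ range N, f n - s) (∑ n ∈ range N \ G, f n)
  rw [← sum_sdiff h2, show ∑ n ∈ range N \ G, f n + ∑ n ∈ G, f n - s - ∑ n ∈ range N \ G, f n =
    ∑ n ∈ G, f n - s by ring, sum_sdiff h2] at h4
  have h5 := (A.sum_le C (range N \ G) f).trans (le_abs_self _)
  rw [Real.norm_eq_abs] at h3
  linarith

theorem summable_prod {f : ℕ × ℕ → S} (hf : ∀ C, Summable fun n => A.p C (f n)) : Summable f :=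
  Nat.pairEquiv.symm.summable_iff.1 (A.summable_nat fun C =>
    Nat.pairEquiv.symm.summable_iff.2 (hf C))

theorem tsum_le (C : ℝ) {f : ℕ → S} (hf : ∀ C, Summable fun n => A.p C (f n)) :
    A.p C (∑' n, f n) ≤ ∑' n, A.p C (f n) :=
  le_of_tendsto' (((A.top.continuous_seminorm C).tendsto _).comp
    (A.summable_nat hf).hasSum.tendsto_sum_nat) fun _ =>
      (A.sum_le C _ _).trans ((hf C).sum_le_tsum _ fun _ _ => apply_nonneg _ _)

theorem tsum_tsum {f : ℕ × ℕ → S} (hf : ∀ C, Summable fun n => A.p C (f n)) :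
    ∑' m, ∑' n, f (m, n) = ∑' N, ∑ x ∈ antidiagonal N, f x := by
  have h := A.summable_prod hf
  rw [← h.tsum_prod' fun m => A.summable_nat fun C => (hf C).prod_factor m]
  conv_rhs => congr; ext; rw [← Finset.sum_finset_coe, ← tsum_fintype (L := .unconditional _)]
  rw [← HasAntidiagonal.sigmaAntidiagonalEquivProd.tsum_eq f]
  exact (HasAntidiagonal.sigmaAntidiagonalEquivProd.summable_iff.2 h).tsum_sigma'
    fun n => (hasSum_fintype _).summable

theorem cont (T : S →ₗ[ℂ] S) (h : ∀ C, ∃ C' K, ∀ x, A.p C (T x) ≤ K * A.p C' x) : Continuous T :=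
  A.top.continuous_of_isBounded A.top T (Seminorm.IsBounded.of_real fun C => by
    obtain ⟨C', K, hK⟩ := h C
    exact ⟨{C'}, K, by simpa using hK⟩)

theorem cont_D : Continuous A.D :=
  A.cont _ fun C => ⟨C + 1, 1, fun x => by simpa using A.Dle C 1 one_pos 1 x⟩

theorem as_tt (k h : S) (C : ℝ) : Summable fun m => A.p C (A.tt k h m) :=
  (summable_geometric_two.mul_right _).of_nonneg_of_le (fun _ => apply_nonneg _ _)
    (A.tt_le C k h)

/-- The homomorphism attached to `k`. -/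
noncomputable def θ (k : S) : S →ₗ[ℂ] S where
  toFun h := ∑' m, A.tt k h m
  map_add' h g := by
    rw [← (A.summable_nat (A.as_tt k h)).tsum_add (A.summable_nat (A.as_tt k g))]
    simp only [Scale.tt, map_add, mul_add, smul_add]
  map_smul' c h := by
    rw [RingHom.id_apply, ← (A.summable_nat (A.as_tt k h)).tsum_const_smul]
    simp only [Scale.tt, map_smul, mul_smul_comm, smul_comm c]

theorem θ_apply (k h : S) : A.θ k h = ∑' m, A.tt k h m := rfl

theorem θ_le (C : ℝ) (k h : S) : A.p C (A.θ k h) ≤ 2 * A.p (C + (2 * A.p C k + 1)) h := by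
  refine (A.tsum_le C (A.as_tt k h)).trans ((A.as_tt k h C).tsum_le_tsum (A.tt_le C k h)
    (summable_geometric_two.mul_right _) |>.trans (le_of_eq ?_))
  rw [tsum_mul_right, tsum_geometric_two]

theorem cont_θ (k : S) : Continuous (A.θ k) := A.cont _ fun C => ⟨_, _, A.θ_le C k⟩

theorem θ_one (k : S) : A.θ k 1 = 1 := by
  rw [θ_apply, tsum_eq_single 0]
  · simp [Scale.tt]
  · intro m hm
    obtain ⟨m, rfl⟩ := Nat.exists_eq_succ_of_ne_zero hm
    simp [Scale.tt, pow_succ, A.D_one]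

theorem θ_mul (k x y : S) : A.θ k (x * y) = A.θ k x * A.θ k y := by
  rw [θ_apply, θ_apply, θ_apply, (A.summable_nat (A.as_tt k x)).tsum_mul_tsum_eq_tsum_sum_antidiagonal
    (A.summable_nat (A.as_tt k y)) (A.summable_prod fun C =>
      ((A.as_tt k x C).mul_of_nonneg (A.as_tt k y C) (fun _ => apply_nonneg _ _)
        fun _ => apply_nonneg _ _).of_nonneg_of_le (fun _ => apply_nonneg _ _)
        fun _ => A.mul C _ _)]
  refine tsum_congr fun n => ?_
  simp only [Scale.tt]
  rw [A.D_pow_mul, mul_sum, smul_sum]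
  refine sum_congr rfl fun i hi => ?_
  rw [smul_mul_smul_comm, fac_inv hi, mul_smul, Nat.cast_smul_eq_nsmul, mul_smul_comm,
    mul_mul_mul_comm, ← pow_add, mem_antidiagonal.1 hi]

theorem θ_pow (k x : S) (n : ℕ) : A.θ k (x ^ n) = A.θ k x ^ n := by
  induction n with
  | zero => simpa using A.θ_one k
  | succ n ih => rw [pow_succ, pow_succ, θ_mul, ih]

end TScale

end Pool.Agent.P.MP_0134b7_an
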