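import Pool.Agent.P.MP_0134b7_an.Defs

/-!
Elementary properties of radical weights and the dyadic form of the integral condition.
-/

open Set Filter Topology MeasureTheory

namespace Pool.Agent.P.MP_0134b7_an

variable {ω : ℝ → ℝ}

theorem RadicalWeight.eventually_le (h : RadicalWeight ω) (R : ℝ) :
    ∀ᶠ t in atTop, ω t ≤ Real.exp (-(R * t)) := by
  filter_upwards [h.radical.eventually (gt_mem_nhds (Real.exp_pos (-R))), eventually_gt_atTop 0]
    with t h1 h2
  have h3 := h.pos t h2.le
  have h4 := Real.rpow_le_rpow (Real.rpow_nonneg h3.le _) h1.le h2.le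
  rwa [← Real.rpow_mul h3.le, one_div_mul_cancel h2.ne', Real.rpow_one, ← Real.exp_mul,
    neg_mul] at h4

theorem RadicalWeight.exp_bound (h : RadicalWeight ω) (R : ℝ) :
    ∃ K, 1 ≤ K ∧ ∀ t, 0 ≤ t → ω t ≤ K * Real.exp (-(R * t)) := by
  obtain ⟨T, hT⟩ := eventually_atTop.1 (h.eventually_le R)
  have hc : ContinuousOn (fun t => ω t * Real.exp (R * t)) (Icc 0 T) :=
    (h.cont.mono Icc_subset_Ici_self).mul (by fun_prop)
  obtain ⟨K, hK⟩ := isCompact_Icc.bddAbove_image hc
  refine ⟨max 1 K, le_max_left _ _, fun t ht => ?_⟩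
  rcases le_total t T with h1 | h1
  · have := (hK ⟨t, ⟨ht, h1⟩, rfl⟩).trans (le_max_right 1 K)
    rwa [Real.exp_neg, ← div_eq_mul_inv, le_div_iff₀ (Real.exp_pos _)]
  · exact (hT t h1).trans (le_mul_of_one_le_left (Real.exp_pos _).le (le_max_left _ _))

theorem RadicalWeight.shift (h : RadicalWeight ω) (C : ℝ) :
    RadicalWeight fun t => ω t * Real.exp (C * t) where
  cont := h.cont.mul (by fun_prop)
  pos t ht := mul_pos (h.pos t ht) (Real.exp_pos _)
  submul s t hs ht := by
    rw [mul_add, Real.exp_add, mul_mul_mul_comm]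
    exact mul_le_mul_of_nonneg_right (h.submul s t hs ht) (by positivity)
  radical := by
    have := h.radical.mul_const (Real.exp C)
    rw [zero_mul] at this
    refine this.congr' ?_
    filter_upwards [eventually_gt_atTop 0] with t ht
    rw [Real.mul_rpow (h.pos t ht.le).le (Real.exp_pos _).le, ← Real.exp_mul, mul_assoc,
      mul_one_div_cancel ht.ne', mul_one]

/-- A bound for the weight. -/
def Bd (ω : ℝ → ℝ) (K : ℝ) : Prop := 0 ≤ K ∧ ∀ t, 0 ≤ t → ω t ≤ Real.exp K

theorem RadicalWeight.exists_bd (h : RadicalWeight ω) : ∃ K, Bd ω K := by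
  obtain ⟨K, h1, h2⟩ := h.exp_bound 0
  refine ⟨Real.log K, Real.log_nonneg h1, fun t ht => ?_⟩
  have := h2 t ht
  rwa [zero_mul, neg_zero, Real.exp_zero, mul_one, ← Real.exp_log (by linarith : 0 < K)] at this

theorem RadicalWeight.log_le (h : RadicalWeight ω) {K : ℝ} (hK : Bd ω K) {t : ℝ} (ht : 0 ≤ t) :
    Real.log (ω t) ≤ K := (Real.log_le_iff_le_exp (h.pos t ht)).2 (hK.2 t ht)

theorem RadicalWeight.log_anti (h : RadicalWeight ω) {K : ℝ} (hK : Bd ω K) {s t : ℝ} (hs : 0 ≤ s)
    (hst : s ≤ t) : Real.log (ω t) ≤ Real.log (ω s) + K := by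
  have h1 := h.submul s (t - s) hs (sub_nonneg.2 hst)
  rw [add_sub_cancel] at h1
  have h2 := Real.log_le_log (h.pos t (hs.trans hst)) h1
  rw [Real.log_mul (h.pos s hs).ne' (h.pos _ (sub_nonneg.2 hst)).ne'] at h2
  linarith [h.log_le hK (sub_nonneg.2 hst)]

theorem RadicalWeight.log_nat (h : RadicalWeight ω) {K : ℝ} (hK : Bd ω K) {R : ℝ} (hR : 0 ≤ R)
    (n : ℕ) : ∀ t, n * R ≤ t → Real.log (ω t) ≤ n * Real.log (ω R) + K := by
  induction n with
  | zero => intro t ht; simpa using h.log_le hK (by simpa using ht)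
  | succ n ih =>
    intro t ht
    push_cast at ht ⊢
    have h0 : 0 ≤ t - R := le_trans (by positivity) (by linarith : n * R ≤ t - R)
    have h1 := h.submul R (t - R) hR h0
    rw [add_sub_cancel] at h1
    have h2 := Real.log_le_log (h.pos t (by linarith)) h1
    rw [Real.log_mul (h.pos R hR).ne' (h.pos _ h0).ne'] at h2
    linarith [ih (t - R) (by linarith)]

/-- The moment estimate. -/
theorem RadicalWeight.moment (h : RadicalWeight ω) {K : ℝ} (hK : Bd ω K) {R x t : ℝ} (hR : 0 < R)
    (hx : 0 ≤ x) (hxR : x = 0 ∨ 4 * x ≤ -Real.log (ω R)) (ht : 0 < t) :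
    t ^ x * √(ω t) ≤ Real.exp K * R ^ x := by
  have h1 : √(ω t) = Real.exp (Real.log (ω t) / 2) := by
    rw [Real.exp_half, Real.exp_log (h.pos t ht.le)]
  rw [h1, Real.rpow_def_of_pos ht, Real.rpow_def_of_pos hR, ← Real.exp_add, ← Real.exp_add]
  refine Real.exp_le_exp.2 ?_
  have k0 := hK.1
  have k1 := h.log_le hK ht.le
  rcases hxR with rfl | hxR
  · linarith
  rcases le_total t R with h2 | h2
  · have := mul_le_mul_of_nonneg_right (Real.log_le_log ht h2) hx
    linarith
  · have q1 : 1 ≤ t / R := (one_le_div hR).2 h2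
    have q2 := h.log_nat hK hR.le ⌊t / R⌋₊ t ((le_div_iff₀ hR).1 (Nat.floor_le (by linarith)))
    have q3 : t / R ≤ 2 * ⌊t / R⌋₊ := by
      have a1 := Nat.lt_floor_add_one (t / R)
      have a2 : (1 : ℝ) ≤ ⌊t / R⌋₊ := by exact_mod_cast Nat.le_floor (by simpa using q1)
      linarith
    have q4 : Real.log t - Real.log R ≤ t / R := by
      rw [← Real.log_div ht.ne' hR.ne']
      linarith [Real.log_le_sub_one_of_pos (by linarith : 0 < t / R)]
    have q5 : (Real.log t - Real.log R) * x ≤ 2 * ⌊t / R⌋₊ * x :=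
      mul_le_mul_of_nonneg_right (q4.trans q3) hx
    have q6 : (⌊t / R⌋₊ : ℝ) * (4 * x) ≤ ⌊t / R⌋₊ * -Real.log (ω R) :=
      mul_le_mul_of_nonneg_left hxR (Nat.cast_nonneg _)
    linarith

/-- The dyadic points. -/
noncomputable def tk (a : ℝ) (k : ℕ) : ℝ := ((2 : ℝ) ^ k) ^ (2 / a)

theorem tk_pos (a : ℝ) (k : ℕ) : 0 < tk a k := by
  unfold tk
  positivity

theorem tk_succ (a : ℝ) (k : ℕ) : tk a (k + 1) = tk a k * 2 ^ (2 / a) := by
  unfold tk
  rw [pow_succ, Real.mul_rpow (by positivity) (by positivity)]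

theorem tk_rpow {a : ℝ} (ha : 0 < a) (k : ℕ) : tk a k ^ (a / 2) = 2 ^ k := by
  unfold tk
  rw [← Real.rpow_mul (by positivity), show 2 / a * (a / 2) = 1 by field_simp, Real.rpow_one]

theorem tk_zero (a : ℝ) : tk a 0 = 1 := by simp [tk]

theorem tk_mono {a : ℝ} (ha : 0 < a) : StrictMono (tk a) := fun _ _ h =>
  Real.rpow_lt_rpow (by positivity) (pow_lt_pow_right₀ one_lt_two h) (by positivity)

theorem tk_tendsto {a : ℝ} (ha : 0 < a) : Tendsto (tk a) atTop atTop :=
  (tendsto_rpow_atTop (by positivity)).comp (tendsto_pow_atTop_atTop_of_one_lt one_lt_two)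

/-- The dyadic form of the convergence of the integral. -/
def Cv (ω : ℝ → ℝ) (a : ℝ) : Prop := Summable fun k : ℕ => Real.log (ω (tk a k)) / 2 ^ k

theorem summable_half : Summable fun k : ℕ => (1 : ℝ) / 2 ^ k := by
  simpa using summable_geometric_two

theorem cv_iff (K a : ℝ) : Cv ω a ↔ Summable fun k : ℕ => (K - Real.log (ω (tk a k))) / 2 ^ k := by
  have h := summable_half.mul_left K
  constructor
  · intro h1
    exact (h.sub h1).congr fun k => by ring
  · intro h1
    exact (h.sub h1).congr fun k => by ring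

theorem RadicalWeight.cv_shift (h : RadicalWeight ω) {a : ℝ} (ha : 0 < a) (C : ℝ)
    (hc : Cv ω a) : Cv (fun t => ω t * Real.exp (C * t)) a := by
  refine Summable.of_norm_bounded_eventually_nat (hc.norm.mul_left 2) ?_
  filter_upwards [(tk_tendsto ha).eventually (h.eventually_le |C|)] with k hk
  have p := tk_pos a k
  have q := (Real.log_le_iff_le_exp (h.pos _ p.le)).2 hk
  have r : |C * tk a k| = |C| * tk a k := by rw [abs_mul, abs_of_pos p]
  rw [Real.log_mul (h.pos _ p.le).ne' (Real.exp_pos _).ne', Real.log_exp, norm_div, norm_div,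
    ← mul_div_assoc]
  refine div_le_div_of_nonneg_right ((norm_add_le _ _).trans ?_) (norm_nonneg _)
  rw [Real.norm_eq_abs, Real.norm_eq_abs, r]
  linarith [neg_le_abs (Real.log (ω (tk a k)))]

theorem RadicalWeight.cv_shift_iff (h : RadicalWeight ω) {a : ℝ} (ha : 0 < a) (C : ℝ) :
    Cv (fun t => ω t * Real.exp (C * t)) a ↔ Cv ω a := by
  refine ⟨fun hc => ?_, h.cv_shift ha C⟩
  have := (h.shift C).cv_shift ha (-C) hc
  simpa only [mul_assoc, ← Real.exp_add, neg_mul, add_neg_cancel, Real.exp_zero, mul_one]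
    using this

theorem iUnion_tk {a : ℝ} (ha : 0 < a) : ⋃ k, Ioc (tk a k) (tk a (k + 1)) = Ioi 1 := by
  ext t
  simp only [mem_iUnion, mem_Ioc, mem_Ioi]
  constructor
  · rintro ⟨k, hk, -⟩
    exact lt_of_le_of_lt (tk_zero a ▸ (tk_mono ha).monotone (Nat.zero_le k)) hk
  · intro ht
    have hex : ∃ k, t ≤ tk a (k + 1) :=
      (((tk_tendsto ha).comp (tendsto_add_atTop_nat 1)).eventually_ge_atTop t).exists
    refine ⟨Nat.find hex, ?_, Nat.find_spec hex⟩
    rcases hk : Nat.find hex with _ | k
    · rwa [tk_zero]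
    · exact not_le.1 (Nat.find_min hex (by omega))

theorem RadicalWeight.cv_iff_integrable (h : RadicalWeight ω) {a : ℝ} (ha : 0 < a) :
    Cv ω a ↔ IntegrableOn (fun t => Real.log (ω t) / t ^ (1 + a / 2)) (Ioi 1) := by
  obtain ⟨K, hK⟩ := h.exists_bd
  set l : ℝ := 2 ^ (2 / a) with hl
  have l1 : 1 < l := Real.one_lt_rpow one_lt_two (by positivity)
  set g : ℝ → ℝ := fun t => (2 * K - Real.log (ω t)) / t ^ (1 + a / 2) with hg
  have i0 : IntegrableOn (fun t : ℝ => 2 * K / t ^ (1 + a / 2)) (Ioi 1) := by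
    have := (integrableOn_Ioi_rpow_of_lt (a := -(1 + a / 2)) (by linarith) one_pos).const_mul
      (2 * K)
    refine (integrableOn_congr_fun (fun t ht => ?_) measurableSet_Ioi).1 this
    beta_reduce
    rw [Real.rpow_neg (le_trans zero_le_one (le_of_lt ht)), div_eq_mul_inv (2 * K)]
  have e1 : IntegrableOn (fun t => Real.log (ω t) / t ^ (1 + a / 2)) (Ioi 1) ↔
      IntegrableOn g (Ioi 1) := by
    constructor
    · intro h1
      exact (i0.sub h1).congr (ae_of_all _ fun t => by simp only [hg, Pi.sub_apply]; ring)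
    · intro h1
      exact (i0.sub h1).congr (ae_of_all _ fun t => by simp only [hg, Pi.sub_apply]; ring)
  have gc : ∀ k, IntegrableOn g (Ioc (tk a k) (tk a (k + 1))) := fun k => by
    have p := tk_pos a k
    refine (ContinuousOn.integrableOn_Icc ?_).mono_set Ioc_subset_Icc_self
    refine (continuousOn_const.sub ((h.cont.mono fun t ht => p.le.trans ht.1).log
      fun t ht => (h.pos t (p.le.trans ht.1)).ne')).div
      (continuousOn_id.rpow_const fun t ht => Or.inl (p.trans_le ht.1).ne') fun t ht => ?_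
    exact (Real.rpow_pos_of_pos (p.trans_le ht.1) _).ne'
  have pw : ∀ k, tk a k ^ (1 + a / 2) = tk a k * 2 ^ k := fun k => by
    rw [Real.rpow_add (tk_pos a k), Real.rpow_one, tk_rpow ha]
  have vol : ∀ k, volume.real (Ioc (tk a k) (tk a (k + 1))) = tk a k * (l - 1) := fun k => by
    rw [Real.volume_real_Ioc_of_le (tk_mono ha (Nat.lt_succ_self k)).le, tk_succ]
    ring
  have g0 : ∀ t, 0 < t → 0 ≤ g t := fun t ht =>
    div_nonneg (by linarith [h.log_le hK ht.le, hK.1]) (Real.rpow_nonneg ht.le _)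
  have fin : ∀ k, volume (Ioc (tk a k) (tk a (k + 1))) ≠ ⊤ := fun k => measure_Ioc_lt_top.ne
  rw [e1, ← iUnion_tk ha]
  constructor
  · intro hc
    have s1 := ((summable_nat_add_iff 1).2 ((cv_iff (3 * K) a).1 hc)).mul_left (2 * (l - 1))
    refine integrableOn_iUnion_of_summable_integral_norm gc (s1.of_nonneg_of_le
      (fun k => integral_nonneg fun t => norm_nonneg _) fun k => ?_)
    have p := tk_pos a k
    have := setIntegral_mono_on (gc k).norm (integrableOn_const (fin k)
      (C := (3 * K - Real.log (ω (tk a (k + 1)))) / (tk a k * 2 ^ k))) measurableSet_Ioc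
      fun t ht => by
        have t0 := p.trans ht.1
        have b1 := h.log_anti hK t0.le ht.2
        have b2 := h.log_le hK t0.le
        rw [Real.norm_of_nonneg (g0 t t0), ← pw]
        exact div_le_div₀ (by linarith [hK.1]) (by linarith) (by positivity)
          (Real.rpow_le_rpow p.le ht.1.le (by positivity))
    rw [setIntegral_const, vol, smul_eq_mul] at this
    refine this.trans (le_of_eq ?_)
    field_simp
    ring
  · intro hi
    have s1 := (hasSum_integral_iUnion (fun k => measurableSet_Ioc) (fun i j hij => ?_)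
      hi).summable.mul_left (2 * l / (l - 1))
    · refine (cv_iff K a).2 (s1.of_nonneg_of_le (fun k => div_nonneg
        (by linarith [h.log_le hK (tk_pos a k).le]) (by positivity)) fun k => ?_)
      have p := tk_pos a k
      have := setIntegral_mono_on (integrableOn_const (fin k)
        (C := (K - Real.log (ω (tk a k))) / (tk a (k + 1) * 2 ^ (k + 1)))) (gc k) measurableSet_Ioc
        fun t ht => by
          have t0 := p.trans ht.1
          have b1 := h.log_anti hK p.le ht.1.le
          have b2 := h.log_le hK t0.le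
          rw [← pw]
          exact div_le_div₀ (by linarith [hK.1]) (by linarith) (by positivity)
            (Real.rpow_le_rpow t0.le ht.2 (by positivity))
      rw [setIntegral_const, vol, smul_eq_mul] at this
      have l2 : 0 < l - 1 := by linarith
      refine le_trans (le_of_eq ?_) (mul_le_mul_of_nonneg_left this (by positivity))
      rw [tk_succ, ← hl]
      field_simp
      ring
    · rcases lt_or_gt_of_ne hij with h' | h'
      · exact Ioc_disjoint_Ioc_of_le ((tk_mono ha).monotone h')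
      · exact (Ioc_disjoint_Ioc_of_le ((tk_mono ha).monotone h')).symm

end Pool.Agent.P.MP_0134b7_an
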